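import Pool.Agent.Lib.MP_e9c0f3_ag.MC.GapA

/-! Counting divisors of monomials in a box: the case of equality. -/

open PowerSeries Finset

namespace Pool.Agent.Lib.MP_e9c0f3_ag.MC.Gap

/-- The support of `R` contains the interval from `i` to `s - i` with each of its points `i`. -/
def Iv (s : ℕ) (R : ℕ⟦X⟧) : Prop := ∀ i t, coeff i R ≠ 0 → i ≤ t → t + i ≤ s → coeff t R ≠ 0

theorem Iv.mono {s s' : ℕ} {R : ℕ⟦X⟧} (h : Iv s R) (hs : s' ≤ s) : Iv s' R :=
  fun i t h1 h2 h3 => h i t h1 h2 (h3.trans hs)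

theorem coeff_mul_G {R : ℕ⟦X⟧} {n t : ℕ} :
    coeff t (R * G n) ≠ 0 ↔ ∃ i, i ≤ t ∧ t < i + n ∧ coeff i R ≠ 0 := by
  rw [coeff_mul, Ne, sum_eq_zero_iff]
  push Not
  constructor
  · rintro ⟨⟨i, l⟩, h1, h2⟩
    have h1 : i + l = t := HasAntidiagonal.mem_antidiagonal.1 h1
    obtain ⟨h3, h4⟩ := mul_ne_zero_iff.1 h2
    refine ⟨i, by omega, ?_, h3⟩
    by_contra h5
    exact h4 (by rw [G, coeff_mk, if_neg (by omega)])
  · rintro ⟨i, h1, h2, h3⟩
    refine ⟨(i, t - i), HasAntidiagonal.mem_antidiagonal.2 (by omega), mul_ne_zero h3 ?_⟩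
    rw [G, coeff_mk, if_pos (by omega)]
    exact one_ne_zero

theorem Iv.mul {s s' n : ℕ} {R : ℕ⟦X⟧} (h : Iv s R) (hs : s' + 1 ≤ s + n) : Iv s' (R * G n) := by
  intro j t h1 h2 h3
  obtain ⟨i, h4, h5, h6⟩ := coeff_mul_G.1 h1
  by_cases h7 : t < i + n
  · exact coeff_mul_G.2 ⟨i, by omega, h7, h6⟩
  · exact coeff_mul_G.2 ⟨t + 1 - n, by omega, by omega, h i _ h6 (by omega) (by omega)⟩

theorem iv_err (p b c n q : ℕ) {s : ℕ} (hs : s ≤ 2 * p + b + c + q * n) :
    Iv s (G (n + 1) ^ q * (X ^ (p + 1) * G b * G c)) := by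
  induction q generalizing s with
  | zero =>
    have h : Iv (2 * p + 2) (X ^ (p + 1)) := fun i t h1 h2 h3 => by
      rw [coeff_X_pow] at h1 ⊢
      split_ifs at h1 ⊢ <;> omega
    rw [pow_zero, one_mul]
    exact (h.mul (s' := 2 * p + 1 + b) (by omega)).mul (by omega)
  | succ q ih =>
    rw [pow_succ', mul_assoc, mul_comm]
    exact (ih le_rfl).mul (by rw [add_mul] at hs; omega)

/-- Coefficientwise comparison with control of the difference. -/
def Lf (s : ℕ) (p q : ℕ⟦X⟧) : Prop := ∃ r, q = p + r ∧ Iv s r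

theorem Lf.trans {s : ℕ} {p q r : ℕ⟦X⟧} (h : Lf s p q) (h' : Lf s q r) : Lf s p r := by
  obtain ⟨a, rfl, ha⟩ := h
  obtain ⟨b, rfl, hb⟩ := h'
  refine ⟨a + b, add_assoc _ _ _, fun i t h1 h2 h3 => ?_⟩
  have h4 := fun h => ha i t h h2 h3
  have h5 := fun h => hb i t h h2 h3
  rw [map_add] at h1 ⊢
  omega

theorem Lf.mul {s s' n : ℕ} {p q : ℕ⟦X⟧} (h : Lf s p q) (hs : s' ≤ s + n) :
    Lf s' (p * G (n + 1)) (q * G (n + 1)) := by
  obtain ⟨a, rfl, ha⟩ := h
  exact ⟨a * G (n + 1), add_mul _ _ _, ha.mul (by omega)⟩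

theorem Lf.le {s : ℕ} {p q : ℕ⟦X⟧} (h : Lf s p q) (t : ℕ) : coeff t p ≤ coeff t q := by
  obtain ⟨a, rfl, -⟩ := h
  rw [map_add]
  exact Nat.le_add_right _ _

theorem Lf.ge {s : ℕ} {p q : ℕ⟦X⟧} (h : Lf s p q) {j t : ℕ} (h1 : coeff t q ≤ coeff t p)
    (h2 : j ≤ t) (h3 : t + j ≤ s) : coeff j q ≤ coeff j p := by
  obtain ⟨a, rfl, ha⟩ := h
  have h4 := fun h => ha j t h h2 h3
  rw [map_add] at h1 ⊢
  omega

theorem compress' {ι : Type} [DecidableEq ι] {a : ℕ} (ha : 1 ≤ a) {μ : ι → ℕ} (hμ : ∀ i, μ i ≤ a)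
    (s : Finset ι) : ∀ q r, r ≤ a → ∑ i ∈ s, μ i = q * a + r →
      Lf (q * a + r) (G (a + 1) ^ q * G (r + 1)) (∏ i ∈ s, G (μ i + 1)) := by
  induction s using Finset.induction_on with
  | empty =>
    intro q r _ h
    rw [sum_empty] at h
    obtain rfl : r = 0 := by omega
    obtain rfl : q = 0 := by
      rcases q with _ | q
      · rfl
      · rw [add_mul] at h
        omega
    exact ⟨0, by simp [G_one], fun i t h => (h (map_zero _)).elim⟩
  | insert j s hj ih =>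
    intro q r hr h
    rw [sum_insert hj] at h
    rw [prod_insert hj, mul_comm (G (μ j + 1))]
    have h1 := hμ j
    by_cases h2 : μ j ≤ r
    · obtain ⟨c, rfl⟩ := Nat.exists_eq_add_of_le h2
      refine Lf.trans ⟨G (a + 1) ^ q * (X ^ (0 + 1) * G (μ j) * G c), ?_, iv_err _ _ _ _ _ (by omega)⟩
        ((ih q c (by omega) (by omega)).mul (by omega))
      rw [mul_assoc, add_comm c, add_comm (μ j) 1, G_two, G_one, add_comm (μ j + c), add_assoc]
      ring
    · obtain ⟨b, h3⟩ := Nat.exists_eq_add_of_le (not_le.1 h2).le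
      obtain ⟨c, h4⟩ := Nat.exists_eq_add_of_le h1
      rcases q with _ | q
      · omega
      rw [add_mul, one_mul] at h ⊢
      refine Lf.trans ⟨G (a + 1) ^ q * (X ^ (r + 1) * G b * G c), ?_, iv_err _ _ _ _ _ (by omega)⟩
        ((ih q (r + c) (by omega) (by omega)).mul (by omega))
      rw [mul_assoc, add_right_comm r c, h3, add_right_comm r b, G_two,
        show r + 1 + b + c = a + 1 by omega]
      ring

theorem box_gen (k n r t : ℕ) : (t + k).choose k ≤ coeff t (G n ^ k * G r) +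
    k * (if n ≤ t then (t - n + k).choose k else 0) +
      if r ≤ t then (t - r + k).choose k else 0 := by
  have h := (union_step (n := r) (union_pow k n)).2.coeff t
  rwa [map_add, coeff_E, add_mul, map_add, mul_assoc, ← nsmul_eq_mul, map_nsmul, coeff_X_pow_mul',
    coeff_E, smul_eq_mul, coeff_X_pow_mul', coeff_E, ← add_assoc] at h

theorem box_up (k n r t : ℕ) :
    coeff t (G n ^ k * G r) + (if r ≤ t then 1 else 0) ≤ (t + k).choose k := by
  have h := ((union_pow k n).1.mul (G r)).coeff t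
  have h1 : E ^ (k + 1) = E ^ k * G r + X ^ r * E ^ (k + 1) := by
    rw [pow_succ]
    conv_lhs => rw [E_eq r, ← E_eq r]; enter [2]; rw [E_eq r]
    ring
  have h2 := congrArg (coeff t) h1
  rw [map_add, coeff_E, coeff_X_pow_mul', coeff_E] at h2
  have h3 := Nat.choose_pos (Nat.le_add_left k (t - r))
  split_ifs at h2 ⊢ <;> omega

section down

variable {N : ℕ} {Δ : (Fin N →₀ ℕ) → Prop}

theorem exists_mid {η ξ : Fin N →₀ ℕ} {d : ℕ} (h : η ≤ ξ) (h1 : η.degree ≤ d) (h2 : d ≤ ξ.degree) :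
    ∃ ζ, η ≤ ζ ∧ ζ ≤ ξ ∧ ζ.degree = d := by
  obtain ⟨ρ, rfl⟩ := exists_add_of_le h
  rw [map_add] at h2
  obtain ⟨g, h3, h4⟩ := ρ.exists_le_degree_eq (d - η.degree) (by omega)
  exact ⟨η + g, le_self_add, add_le_add_right h3 _, by rw [map_add]; omega⟩

theorem div_sym (μ : Fin N →₀ ℕ) {j t : ℕ} (h : j + t = μ.degree) :
    #{ν ∈ finsuppAntidiag univ t | ν ≤ μ} ≤ #{ν ∈ finsuppAntidiag univ j | ν ≤ μ} := by
  refine card_le_card_of_injOn (fun ν => μ - ν) (fun ν hν => ?_) fun ν hν ξ hξ h1 => ?_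
  · obtain ⟨h1, h2⟩ := mem_filter.1 hν
    obtain ⟨ρ, rfl⟩ := exists_add_of_le h2
    refine mem_filter.2 ⟨?_, tsub_le_self⟩
    rw [map_add, mem_fa.1 h1] at h
    simp only [mem_fa, add_tsub_cancel_left]
    omega
  · exact (tsub_right_inj (mem_filter.1 hν).2 (mem_filter.1 hξ).2).1 h1

variable (h1 : ∀ a b, a ≤ b → Δ b → Δ a)

include h1

theorem down_one {k a r : ℕ} (ha : 1 ≤ a) (hr : r ≤ a) (h2 : ∀ μ, Δ μ → ∀ i, μ i < a + 1)
    (h3 : Nat.card {μ : Fin N →₀ ℕ // μ.degree = k * a + r ∧ Δ μ} ≠ 0) (t : ℕ) :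
    coeff t (G (a + 1) ^ k * G (r + 1)) ≤ Nat.card {μ : Fin N →₀ ℕ // μ.degree = t ∧ Δ μ} := by
  classical
  obtain ⟨⟨μ, h4, h5⟩⟩ := (Nat.card_ne_zero.1 h3).1
  have h6 := (compress ha (fun i => Nat.lt_succ_iff.1 (h2 μ h5 i)) univ k r hr
    (by rw [← h4, Finsupp.degree_eq_sum])).coeff t
  rw [coeff_prod_G] at h6
  rw [card_eq]
  exact h6.trans (card_le_card (monotone_filter_right _ fun ν _ h => h1 _ _ h h5))

theorem gap_three {k b : ℕ} (h2 : ∀ μ, Δ μ → ∀ i, μ i < b + 3)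
    (h3 : Nat.card {μ : Fin N →₀ ℕ // μ.degree = (k + 1) * (b + 2) ∧ Δ μ} ≠ 0)
    {s : ℕ} (hs : s + 1 = (k + 1) * (b + 2))
    (h4 : k + 2 ≤ Nat.card {μ : Fin N →₀ ℕ // μ.degree = s ∧ Δ μ}) :
    (∀ t, coeff (t + 1) (G (b + 3) ^ k * G (b + 3)) + coeff t (G (b + 3) ^ k * G (b + 1)) ≤
      Nat.card {μ : Fin N →₀ ℕ // μ.degree = t + 1 ∧ Δ μ}) ∧
    (Nat.card {μ : Fin N →₀ ℕ // μ.degree = b + 4 ∧ Δ μ} ≤
      coeff (b + 4) (G (b + 3) ^ k * G (b + 3)) + coeff (b + 3) (G (b + 3) ^ k * G (b + 1)) →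
      ∀ j t, j + t + 1 = s → j ≤ b + 3 → b + 3 ≤ t →
        Nat.card {μ : Fin N →₀ ℕ // μ.degree = t + 1 ∧ Δ μ} ≤
          coeff (j + 1) (G (b + 3) ^ k * G (b + 3)) + coeff j (G (b + 3) ^ k * G (b + 1))) := by
  classical
  obtain ⟨⟨μ, h5, h6⟩⟩ := (Nat.card_ne_zero.1 h3).1
  have hμ : ∀ i, μ i ≤ b + 2 := fun i => Nat.lt_succ_iff.1 (h2 μ h6 i)
  simp only [card_eq] at h4 ⊢
  have h5' := h5
  rw [Finsupp.degree_eq_sum] at h5
  have hm : ∀ t, ({ν ∈ finsuppAntidiag univ t | ν ≤ μ} : Finset (Fin N →₀ ℕ)) ⊆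
      ({ν ∈ finsuppAntidiag univ t | Δ ν} : Finset (Fin N →₀ ℕ)) := fun t =>
    monotone_filter_right _ fun ν _ h => h1 _ _ h h6
  by_cases h9 : ∃ i, μ i ≠ 0 ∧ μ i ≠ b + 2
  · obtain ⟨i, h9, h10⟩ := h9
    obtain ⟨u, hu⟩ : ∃ u, μ i = u + 1 := ⟨μ i - 1, by omega⟩
    obtain ⟨c, hc⟩ : ∃ c, b = u + c := ⟨b - u, by have := hμ i; omega⟩
    have h11 := (compress' (by omega) hμ (univ.erase i) k (c + 1) (by omega) (by
      rw [← add_sum_erase _ _ (mem_univ i), add_mul] at h5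
      omega)).mul (s' := s + 1) (n := μ i) (by rw [add_mul] at hs; omega)
    rw [prod_erase_mul _ _ (mem_univ i)] at h11
    have h12 : Lf (s + 1) (G (b + 3) ^ k * G (b + 3) + G (b + 3) ^ k * G (b + 1) * X)
        (G (b + 2 + 1) ^ k * G (c + 1 + 1) * G (μ i + 1)) := by
      refine ⟨G (b + 2 + 1) ^ k * (X ^ (1 + 1) * G u * G c), ?_,
        iv_err _ _ _ _ _ (by rw [add_mul] at hs; omega)⟩
      have h13 := G_two 1 (b + 1) 1
      rw [G_one, show 1 + (b + 1) + 1 = b + 3 by omega, add_comm 1 (b + 1)] at h13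
      rw [mul_assoc, hu, show c + 1 + 1 = 2 + c by omega, show u + 1 + 1 = 2 + u by omega, G_two,
        show 2 + u + c = b + 1 + 1 by omega, h13]
      ring
    have h13 := h12.trans h11
    refine ⟨fun t => ?_, fun h14 j t h15 h16 h17 => ?_⟩
    · have h14 := h13.le (t + 1)
      rw [coeff_prod_G, map_add, coeff_succ_mul_X] at h14
      exact h14.trans (card_le_card (hm _))
    · have h18 := h13.le (b + 4)
      have h19 := h13.ge (j := j + 1) (t := b + 4) (by
        rw [coeff_prod_G, map_add, coeff_succ_mul_X]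
        exact (card_le_card (hm _)).trans h14) (by omega) (by omega)
      rw [coeff_prod_G, map_add, coeff_succ_mul_X] at h18 h19
      have h20 := eq_of_subset_of_card_le (hm _) (h14.trans h18)
      refine ((card_le_card fun ξ hξ => ?_).trans (div_sym μ (t := t + 1) (by omega))).trans h19
      obtain ⟨h21, h22⟩ := mem_filter.1 hξ
      refine mem_filter.2 ⟨h21, fun l => not_lt.1 fun h23 => ?_⟩
      obtain ⟨ζ, h24, h25, h26⟩ := exists_mid (d := b + 4) (Finsupp.single_le_iff.2 h23 :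
        Finsupp.single l (μ l + 1) ≤ ξ) (by rw [Finsupp.degree_single]; have := hμ l; omega)
        (by rw [mem_fa.1 h21]; omega)
      have h27 := Finsupp.single_le_iff.1 (h24.trans (mem_filter.1
        (h20.ge (mem_filter.2 ⟨mem_fa.2 h26, h1 _ _ h25 h22⟩))).2)
      omega
  · have h10 : #μ.support = k + 1 := by
      refine Nat.eq_of_mul_eq_mul_right (by omega : 0 < b + 2) ?_
      rw [← h5', Finsupp.degree_apply, ← smul_eq_mul, ← sum_const]
      exact sum_congr rfl fun i hi =>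
        (not_not.1 fun h => h9 ⟨i, Finsupp.mem_support_iff.1 hi, h⟩).symm
    obtain ⟨ν, hν, h11⟩ : ∃ ν ∈ ({ν ∈ finsuppAntidiag univ s | Δ ν} : Finset _), ¬ ν ≤ μ := by
      by_contra! h
      have h11 : ({ν ∈ finsuppAntidiag univ s | Δ ν} : Finset _) ⊆
          μ.support.image fun i => μ - Finsupp.single i 1 := fun ν hν => by
        obtain ⟨ρ, hρ⟩ := exists_add_of_le (h ν hν)
        have h12 : ρ.degree = 1 := by
          have h13 := congrArg Finsupp.degree hρ
          rw [map_add, mem_fa.1 (mem_filter.1 hν).1, h5'] at h13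
          omega
        obtain ⟨i, rfl⟩ : ∃ i, Finsupp.single i 1 = ρ := by
          rw [← Set.mem_range, Finsupp.range_single_one]
          exact h12
        exact mem_image.2 ⟨i, by simp [hρ], by rw [hρ, add_tsub_cancel_right]⟩
      have h12 := (card_le_card h11).trans card_image_le
      omega
    have hp : ∀ ξ, Δ ξ → ¬ ξ ≤ μ → ∃ y, μ y = 0 ∧ 1 ≤ ξ y := fun ξ h12 h13 => by
      obtain ⟨y, hy⟩ : ∃ y, μ y < ξ y := by simpa [Finsupp.le_def] using h13
      refine ⟨y, ?_, by omega⟩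
      by_contra h
      have := h2 ξ h12 y
      have := not_not.1 fun h' => h9 ⟨y, h, h'⟩
      omega
    obtain ⟨h12, h13⟩ := mem_filter.1 hν
    obtain ⟨y, h14, hy⟩ := hp ν h13 h11
    obtain ⟨ρ, rfl⟩ := exists_add_of_le (Finsupp.single_le_iff.2 hy)
    rw [mem_fa, map_add, Finsupp.degree_single] at h12
    rw [add_mul, one_mul] at hs h5 h5'
    have h15 := compress' (by omega) hμ univ k (b + 2) le_rfl h5
    have h16 := compress' (a := b + 2) (by omega) (fun i => Nat.lt_succ_iff.1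
      (h2 ρ (h1 _ _ le_add_self h13) i)) univ k b (by omega) (by
        rw [← Finsupp.degree_eq_sum]
        omega)
    rw [show b + 2 + 1 = b + 3 from rfl] at h15 h16
    have h17 : ∀ t, ({ν ∈ finsuppAntidiag univ (t + 1) | ν ≤ μ} : Finset _) ∪
        ({ν ∈ finsuppAntidiag univ t | ν ≤ ρ} : Finset _).map
          (addLeftEmbedding (Finsupp.single y 1)) ⊆
        ({ν ∈ finsuppAntidiag univ (t + 1) | Δ ν} : Finset (Fin N →₀ ℕ)) :=
      fun t => union_subset (hm _) fun ν hν => by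
        obtain ⟨ξ, hξ, rfl⟩ := mem_map.1 hν
        obtain ⟨h17, h18⟩ := mem_filter.1 hξ
        refine mem_filter.2 ⟨?_, h1 _ _ (add_le_add_right h18 _) h13⟩
        rw [mem_fa, addLeftEmbedding_apply, map_add, Finsupp.degree_single, mem_fa.1 h17]
        omega
    have h18 : ∀ t, #(({ν ∈ finsuppAntidiag univ (t + 1) | ν ≤ μ} : Finset _) ∪
        ({ν ∈ finsuppAntidiag univ t | ν ≤ ρ} : Finset _).map
          (addLeftEmbedding (Finsupp.single y 1))) =
        coeff (t + 1) (∏ i, G (μ i + 1)) + coeff t (∏ i, G (ρ i + 1)) := fun t => by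
      rw [card_union_of_disjoint, card_map, coeff_prod_G, coeff_prod_G]
      refine disjoint_left.2 fun ν h17 hν => ?_
      obtain ⟨ξ, -, rfl⟩ := mem_map.1 hν
      have h18 := (mem_filter.1 h17).2 y
      simp [h14] at h18
    refine ⟨fun t => ?_, fun h19 j t h20 h21 h22 => ?_⟩
    · exact (add_le_add (h15.le _) (h16.le _)).trans ((h18 t).ge.trans (card_le_card (h17 t)))
    · have h23 := h15.le (b + 4)
      have h24 := h16.le (b + 3)
      have h25 : coeff (b + 4) _ + _ ≤ #({ν ∈ finsuppAntidiag univ (b + 4) | Δ ν} : Finset _) :=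
        (h18 (b + 3)).ge.trans (card_le_card (h17 _))
      have h26 := eq_of_subset_of_card_le (h17 (b + 3))
        (h19.trans ((add_le_add h23 h24).trans (h18 (b + 3)).ge))
      have h27 := h15.ge (j := j + 1) (t := b + 4) (by omega) (by omega) (by omega)
      have h28 := h16.ge (j := j) (t := b + 3) (by omega) (by omega) (by omega)
      rw [coeff_prod_G] at h27 h28
      refine le_trans (card_le_card fun ξ hξ => ?_) ((h18 t).le.trans ?_)
      · obtain ⟨h29, h30⟩ := mem_filter.1 hξ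
        by_cases h31 : ξ ≤ μ
        · exact mem_union_left _ (mem_filter.2 ⟨h29, h31⟩)
        obtain ⟨i, h32, h33⟩ := hp ξ h30 h31
        have h34 : ∀ η, η ≤ ξ → η.degree ≤ b + 3 → ∃ ζ, η ≤ ζ ∧ ζ ≤ ξ ∧
            Finsupp.single y 1 ≤ ζ ∧ ζ ≤ Finsupp.single y 1 + ρ := fun η h34 h35 => by
          obtain ⟨ζ, h36, h37, h38⟩ := exists_mid (d := b + 3 + 1)
            (sup_le (Finsupp.single_le_iff.2 h33) h34) (by
              refine (Finsupp.degree_mono (sup_le le_self_add le_add_self)).trans ?_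
              rw [map_add, Finsupp.degree_single]
              omega) (by rw [mem_fa.1 h29]; omega)
          refine ⟨ζ, le_sup_right.trans h36, h37, ?_⟩
          rcases mem_union.1 (h26.ge (mem_filter.2 ⟨mem_fa.2 h38, h1 _ _ h37 h30⟩)) with h | h
          · have := Finsupp.single_le_iff.1 ((le_sup_left.trans h36).trans (mem_filter.1 h).2)
            omega
          · obtain ⟨ξ', h39, rfl⟩ := mem_map.1 h
            exact ⟨le_self_add, add_le_add_right (mem_filter.1 h39).2 _⟩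
        obtain ⟨ζ, -, h35, h36, -⟩ := h34 0 zero_le (by simp)
        obtain ⟨ξ', rfl⟩ := exists_add_of_le (h36.trans h35)
        refine mem_union_right _ (mem_map.2 ⟨ξ', mem_filter.2 ⟨?_, ?_⟩, rfl⟩)
        · rw [mem_fa, map_add, Finsupp.degree_single] at h29
          exact mem_fa.2 (by omega)
        · refine le_of_add_le_add_left (a := Finsupp.single y 1) fun l => not_lt.1 fun h37 => ?_
          obtain ⟨ζ', h38, -, -, h39⟩ := h34 _ (Finsupp.single_le_iff.2 (Nat.succ_le_of_lt h37)) (by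
            rw [Finsupp.degree_single]
            have := h2 _ h30 l
            omega)
          exact absurd (Finsupp.single_le_iff.1 (h38.trans h39)) (Nat.not_succ_le_self _)
      · rw [coeff_prod_G, coeff_prod_G]
        exact add_le_add ((div_sym μ (by omega)).trans h27) ((div_sym ρ (by omega)).trans h28)

end down

end Pool.Agent.Lib.MP_e9c0f3_ag.MC.Gap
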