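import Mathlib

/-! Order ideals of exponents in a box. -/

open Finsupp

namespace Pool.Agent.Lib.MP_e9c0f3_ag.MC

variable {N : ℕ}

/-- The exponents of degree `t` with a property. -/
def dg (P : (Fin N →₀ ℕ) → Prop) (t : ℕ) : Set (Fin N →₀ ℕ) := {a | a.degree = t ∧ P a}

theorem dg_fin (P : (Fin N →₀ ℕ) → Prop) (t : ℕ) : (dg P t).Finite :=
  (finite_of_degree_eq t).subset fun _ h => h.1

theorem sum_two {i j : Fin N} (h : i ≠ j) (f : Fin N → ℕ) :
    ∑ l, f l = f i + f j + ∑ l ∈ (Finset.univ.erase i).erase j, f l := by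
  rw [← Finset.add_sum_erase _ _ (Finset.mem_univ i),
    ← Finset.add_sum_erase _ _ (Finset.mem_erase.2 ⟨h.symm, Finset.mem_univ j⟩), add_assoc]

theorem deg_sub {a b : Fin N →₀ ℕ} (h : b ≤ a) : (a - b).degree + b.degree = a.degree := by
  rw [← map_add, tsub_add_cancel_of_le h]

theorem deg_one {a : Fin N →₀ ℕ} (h : a.degree = 1) : ∃ j, single j 1 = a :=
  (range_single_one (σ := Fin N)).ge h

theorem box_shift {γ γ' : Fin N →₀ ℕ} {i j : Fin N} {t : ℕ} (hij : i ≠ j) (hi : γ' i = γ i + 1)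
    (hj : γ' j + 1 = γ j) (hl : ∀ l, l ≠ i → l ≠ j → γ' l = γ l) (h1 : γ j ≤ γ i) (h2 : γ j ≤ t)
    (h3 : t + γ j ≤ γ.degree) : (dg (· ≤ γ') t).ncard < (dg (· ≤ γ) t).ncard := by
  classical
  have h4 : single i (γ j) + single j (γ j) ≤ γ := fun l => by
    simp only [Finsupp.add_apply, single_apply]
    split_ifs with a b
    · exact absurd (a.trans b.symm) hij
    · subst a
      omega
    · subst_vars
      omega
    · omega
  have h5 := deg_sub h4
  rw [map_add, degree_single, degree_single] at h5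
  obtain ⟨b, hb, hbd⟩ := exists_le_degree_eq (γ - (single i (γ j) + single j (γ j))) (t - γ j)
    (by omega)
  have hb' : ∀ l, b l ≤ γ l - ((if i = l then γ j else 0) + if j = l then γ j else 0) := fun l => by
    simpa [single_apply] using hb l
  have h6 : b + single j (γ j) ∈ dg (· ≤ γ) t := by
    refine ⟨by rw [map_add, degree_single]; omega, fun l => ?_⟩
    have := hb' l
    simp only [Finsupp.add_apply, single_apply]
    split_ifs at this ⊢ <;> subst_vars <;> omega
  refine lt_of_le_of_lt ?_ (Set.ncard_sdiff_singleton_lt_of_mem h6 (dg_fin _ _))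
  let φ : (Fin N →₀ ℕ) → Fin N →₀ ℕ := fun a =>
    if a i ≤ γ i then a else a - single i (γ j - a j) + single j (γ j - a j)
  have hφ : ∀ a : Fin N →₀ ℕ, ¬ a i ≤ γ i → ∀ l, φ a l =
      a l - (if i = l then γ j - a j else 0) + if j = l then γ j - a j else 0 := fun a h l => by
    simp only [φ, if_neg h, Finsupp.add_apply, tsub_apply, single_apply]
  have h7 := hb' i
  have h8 := hb' j
  rw [if_pos rfl, if_neg hij.symm] at h7
  rw [if_pos rfl, if_neg hij] at h8
  refine Set.ncard_le_ncard_of_injOn φ (fun a ha => ?_) (fun a ha a' ha' h => ?_)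
    ((dg_fin _ _).subset Set.sdiff_subset)
  · have hai := ha.2 i
    have haj := ha.2 j
    by_cases h : a i ≤ γ i
    · rw [show φ a = a from if_pos h]
      refine ⟨⟨ha.1, fun l => ?_⟩, fun h9 => ?_⟩
      · by_cases a1 : l = i
        · exact a1 ▸ h
        · by_cases a2 : l = j
          · subst a2
            omega
          · exact hl l a1 a2 ▸ ha.2 l
      · have := DFunLike.congr_fun (Set.mem_singleton_iff.1 h9) j
        simp only [Finsupp.add_apply, single_eq_same] at this
        omega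
    · refine ⟨⟨?_, fun l => ?_⟩, fun h9 => ?_⟩
      · have h9 := deg_sub (a := a) (b := single i (γ j - a j)) (single_le_iff.2 (by omega))
        rw [degree_single] at h9
        rw [show φ a = _ from if_neg h, map_add, degree_single, h9, ha.1]
      · rw [hφ a h]
        split_ifs with a1 a2 a2
        · exact absurd (a1.trans a2.symm) hij
        · subst a1
          omega
        · subst a2
          omega
        · have := ha.2 l
          rw [hl l (Ne.symm a1) (Ne.symm a2)] at this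
          omega
      · have := DFunLike.congr_fun (Set.mem_singleton_iff.1 h9) i
        rw [hφ a h, if_pos rfl, if_neg hij.symm, Finsupp.add_apply, single_apply, if_neg hij.symm] at this
        omega
  · have hai := ha.2 i
    have haj := ha.2 j
    have hai' := ha'.2 i
    have haj' := ha'.2 j
    have e := fun l => DFunLike.congr_fun h l
    by_cases h9 : a i ≤ γ i <;> by_cases h10 : a' i ≤ γ i
    · rwa [show φ a = a from if_pos h9, show φ a' = a' from if_pos h10] at h
    · have := e j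
      rw [show φ a = a from if_pos h9, hφ a' h10, if_pos rfl, if_neg hij] at this
      omega
    · have := e j
      rw [show φ a' = a' from if_pos h10, hφ a h9, if_pos rfl, if_neg hij] at this
      omega
    · have e1 := e i
      rw [hφ a h9, hφ a' h10, if_pos rfl, if_pos rfl, if_neg hij.symm, if_neg hij.symm] at e1
      ext l
      have e2 := e l
      rw [hφ a h9, hφ a' h10] at e2
      split_ifs at e2 <;> subst_vars <;> omega

theorem box_card {γ : Fin N →₀ ℕ} {s m : ℕ} (hs : 1 ≤ s) (h : ∀ i, γ i = 0 ∨ γ i = s)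
    (hd : γ.degree = m * s) : γ.support.card = m := by
  rw [degree_apply, Finset.sum_congr rfl fun i hi => (h i).resolve_left (mem_support_iff.1 hi),
    Finset.sum_const, smul_eq_mul] at hd
  exact Nat.eq_of_mul_eq_mul_right hs hd

theorem box_base {γ : Fin N →₀ ℕ} {s k : ℕ} (hs : 1 ≤ s) (h : ∀ i, γ i = 0 ∨ γ i = s)
    (hd : γ.degree = (k + 1) * s) :
    (s + 2 + k).choose k ≤ (dg (· ≤ γ) (s + 2)).ncard + (k + 1) ^ 2 := by
  classical
  have h1 := box_card hs h hd
  have h2 := Finset.card_finsuppAntidiag_nat_eq_choose (s := γ.support) (s + 2)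
  rw [h1, show k + 1 + (s + 2) - 1 = s + 2 + k by omega, Nat.choose_symm_add] at h2
  let T := (γ.support ×ˢ γ.support).image fun p => single p.2 1 + single p.1 (s + 1)
  have h3 : T.card ≤ (k + 1) ^ 2 := Finset.card_image_le.trans (by rw [Finset.card_product, h1, sq])
  rw [← h2, ← Set.ncard_coe_finset]
  refine (Set.ncard_le_ncard (t := dg (· ≤ γ) (s + 2) ∪ T) (fun a ha => ?_)
    ((dg_fin _ _).union T.finite_toSet)).trans ((Set.ncard_union_le _ _).trans ?_)
  · obtain ⟨h4, h5⟩ := Finset.mem_finsuppAntidiag'.1 ha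
    have h6 : a.degree = s + 2 := h4
    by_cases h7 : a ≤ γ
    · exact Or.inl ⟨h6, h7⟩
    obtain ⟨i, hi⟩ : ∃ i, γ i < a i := by
      by_contra! h8
      exact h7 h8
    have h8 : i ∈ γ.support := h5 (mem_support_iff.2 (by omega))
    have h9 : single i (s + 1) ≤ a := single_le_iff.2 (by
      have := (h i).resolve_left (mem_support_iff.1 h8)
      omega)
    have h10 := deg_sub h9
    rw [degree_single] at h10
    obtain ⟨j, hj⟩ := deg_one (a := a - single i (s + 1)) (by omega)
    refine Or.inr (Finset.mem_coe.2 (Finset.mem_image.2 ⟨(i, j), Finset.mem_product.2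
      ⟨h8, h5 (mem_support_iff.2 ?_)⟩, by rw [hj, tsub_add_cancel_of_le h9]⟩))
    have := DFunLike.congr_fun hj j
    rw [single_eq_same, tsub_apply] at this
    change a j ≠ 0
    omega
  · rw [Set.ncard_coe_finset]
    omega

theorem box_lower {s k : ℕ} (hs : 1 ≤ s) (hk : 2 ≤ k) (γ : Fin N →₀ ℕ) (h : ∀ i, γ i ≤ s)
    (hd : γ.degree = (k + 1) * s) :
    (s + 2 + k).choose k ≤ (dg (· ≤ γ) (s + 2)).ncard + (k + 1) ^ 2 ∧
      ((∃ i, γ i ≠ 0 ∧ γ i ≠ s) →
        (s + 2 + k).choose k < (dg (· ≤ γ) (s + 2)).ncard + (k + 1) ^ 2) := by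
  classical
  induction hn : ∑ i, γ i * (s - γ i) using Nat.strong_induction_on generalizing γ with
  | _ n ih =>
    by_cases h0 : ∀ i, γ i = 0 ∨ γ i = s
    · exact ⟨box_base hs h0 hd, fun ⟨i, h1, h2⟩ => ((h0 i).elim h1 h2).elim⟩
    suffices (s + 2 + k).choose k < (dg (· ≤ γ) (s + 2)).ncard + (k + 1) ^ 2 from
      ⟨this.le, fun _ => this⟩
    obtain ⟨i, j, hij, h1, h2, h3⟩ : ∃ i j, i ≠ j ∧ γ j ≠ 0 ∧ γ j ≤ γ i ∧ γ i < s := by
      push Not at h0
      obtain ⟨i, h1, h2⟩ := h0
      obtain ⟨j, hij, h3, h4⟩ : ∃ j, j ≠ i ∧ γ j ≠ 0 ∧ γ j ≠ s := by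
        by_contra! h3
        have h4 : s ∣ ∑ l ∈ Finset.univ.erase i, γ l := Finset.dvd_sum fun l hl => by
          by_cases h5 : γ l = 0
          · rw [h5]
            exact dvd_zero s
          · rw [h3 l (Finset.mem_erase.1 hl).1 h5]
        have h5 : s ∣ γ i + ∑ l ∈ Finset.univ.erase i, γ l := by
          rw [Finset.add_sum_erase _ _ (Finset.mem_univ i), ← degree_eq_sum, hd]
          exact dvd_mul_left _ _
        have h6 := Nat.le_of_dvd (Nat.pos_of_ne_zero h1) ((Nat.dvd_add_left h4).1 h5)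
        exact h2 (le_antisymm (h i) h6)
      rcases le_total (γ j) (γ i) with h5 | h5
      · exact ⟨i, j, hij.symm, h3, h5, lt_of_le_of_ne (h i) h2⟩
      · exact ⟨j, i, hij, h1, h5, lt_of_le_of_ne (h j) h4⟩
    have h4 : single j 1 ≤ γ := single_le_iff.2 (by omega)
    have h5 : ∀ l, (γ - single j 1 + single i 1 : Fin N →₀ ℕ) l =
        γ l - (if j = l then 1 else 0) + if i = l then 1 else 0 := fun l => by
      simp only [Finsupp.add_apply, tsub_apply, single_apply]
    have h6 : (γ - single j 1 + single i 1).degree = (k + 1) * s := by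
      have := deg_sub h4
      rw [degree_single] at this
      rw [map_add, degree_single, this, hd]
    generalize γ - single j 1 + single i 1 = γ' at h5 h6
    have hi := h5 i
    have hj := h5 j
    rw [if_pos rfl, if_neg hij.symm] at hi
    rw [if_pos rfl, if_neg hij] at hj
    have hl : ∀ l, l ≠ i → l ≠ j → γ' l = γ l := fun l a b => by
      rw [h5, if_neg a.symm, if_neg b.symm]
      omega
    have h7 := box_shift (γ := γ) (γ' := γ') (t := s + 2) hij (by omega) (by omega) hl h2 (by omega)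
      (by rw [hd]; nlinarith)
    have h8 := (ih _ ?_ γ' (fun l => ?_) h6 rfl).1
    · omega
    · rw [← hn, sum_two hij, sum_two hij fun l => γ l * (s - γ l), Finset.sum_congr rfl
        fun l hl' => by
          rw [hl l (Finset.mem_erase.1 (Finset.mem_erase.1 hl').2).1 (Finset.mem_erase.1 hl').1]]
      obtain ⟨b, hb⟩ : ∃ b, γ j = b + 1 := ⟨γ j - 1, by omega⟩
      obtain ⟨c, hc⟩ : ∃ c, γ i = b + 1 + c := ⟨γ i - γ j, by omega⟩
      obtain ⟨r, hr⟩ : ∃ r, s = b + 1 + c + 1 + r := ⟨s - γ i - 1, by omega⟩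
      rw [show γ' i = b + 1 + c + 1 by omega, show γ' j = b by omega, hb, hc,
        show s - (b + 1 + c + 1) = r by omega, show s - b = c + r + 2 by omega,
        show s - (b + 1 + c) = r + 1 by omega, show s - (b + 1) = c + r + 1 by omega]
      nlinarith
    · by_cases a1 : l = i
      · subst a1
        omega
      · by_cases a2 : l = j
        · subst a2
          omega
        · exact hl l a1 a2 ▸ h l

variable {Δ : (Fin N →₀ ℕ) → Prop} {s k : ℕ}

theorem down_lower (hs : 1 ≤ s) (hk : 2 ≤ k) (h1 : ∀ a b, a ≤ b → Δ b → Δ a)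
    (h2 : ∀ a, Δ a → ∀ i, a i < s + 1) (h3 : (dg Δ ((k + 1) * s)).ncard ≠ 0) :
    (s + 2 + k).choose k ≤ (dg Δ (s + 2)).ncard + (k + 1) ^ 2 := by
  obtain ⟨γ, h4, h5⟩ := Set.nonempty_of_ncard_ne_zero h3
  have h6 := (box_lower hs hk γ (fun i => Nat.le_of_lt_succ (h2 γ h5 i)) h4).1
  have h7 : (dg (· ≤ γ) (s + 2)).ncard ≤ (dg Δ (s + 2)).ncard :=
    Set.ncard_le_ncard (fun a ha => ⟨ha.1, h1 a γ ha.2 h5⟩) (dg_fin _ _)
  omega

theorem down_strict {n : ℕ} (hs : 1 ≤ s) (hk : 2 ≤ k) (h1 : ∀ a b, a ≤ b → Δ b → Δ a)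
    (h2 : ∀ a, Δ a → ∀ i, a i < s + 1) (h3 : (dg Δ ((k + 1) * s)).ncard ≠ 0)
    (hn : n + 1 = (k + 1) * s) (hsn : s + 2 ≤ n) (h : k + 2 ≤ (dg Δ n).ncard) :
    (s + 2 + k).choose k < (dg Δ (s + 2)).ncard + (k + 1) ^ 2 := by
  classical
  obtain ⟨γ, h4, h5⟩ := Set.nonempty_of_ncard_ne_zero h3
  obtain ⟨h6, h7⟩ := box_lower hs hk γ (fun i => Nat.le_of_lt_succ (h2 γ h5 i)) h4
  have h8 : dg (· ≤ γ) (s + 2) ⊆ dg Δ (s + 2) := fun a ha => ⟨ha.1, h1 a γ ha.2 h5⟩
  by_cases h0 : ∀ i, γ i = 0 ∨ γ i = s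
  swap
  · push Not at h0
    have := Set.ncard_le_ncard h8 (dg_fin _ _)
    have := h7 h0
    omega
  obtain ⟨δ, h9, h10⟩ : ∃ δ ∈ dg Δ n, ¬ δ ≤ γ := by
    by_contra! h9
    have h10 : dg Δ n ⊆ (γ.support.image fun i => γ - single i 1 : Finset _) := fun a ha => by
      have h11 := deg_sub (h9 a ha)
      obtain ⟨j, hj⟩ := deg_one (a := γ - a) (by have := ha.1; omega)
      refine Finset.mem_coe.2 (Finset.mem_image.2 ⟨j, mem_support_iff.2 ?_, by
        rw [hj, tsub_tsub_cancel_of_le (h9 a ha)]⟩)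
      have := DFunLike.congr_fun hj j
      rw [single_eq_same, tsub_apply] at this
      omega
    have h11 := Set.ncard_le_ncard h10 (Finset.finite_toSet _)
    rw [Set.ncard_coe_finset] at h11
    have h12 := h11.trans Finset.card_image_le
    rw [box_card hs h0 h4] at h12
    omega
  obtain ⟨j, hj⟩ : ∃ j, γ j < δ j := by
    by_contra! h11
    exact h10 h11
  have h11 : γ j = 0 := (h0 j).resolve_right fun h11 => by
    have := h2 δ h9.2 j
    omega
  have h12 : single j 1 ≤ δ := single_le_iff.2 (by omega)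
  have h13 := deg_sub h12
  rw [degree_single, h9.1] at h13
  obtain ⟨b, hb, hbd⟩ := exists_le_degree_eq (δ - single j 1) (s + 1) (by omega)
  have h14 : dg (· ≤ γ) (s + 2) ⊂ dg Δ (s + 2) := (Set.ssubset_iff_of_subset h8).2
    ⟨b + single j 1, ⟨by rw [map_add, degree_single, hbd], h1 _ δ
      ((le_tsub_iff_right h12).1 hb) h9.2⟩, fun h14 => by
      have := h14.2 j
      rw [Finsupp.add_apply, single_eq_same] at this
      omega⟩
  have := Set.ncard_lt_ncard h14 (dg_fin _ _)
  omega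

theorem down_sqfree {m : ℕ} (h1 : ∀ a b, a ≤ b → Δ b → Δ a) (h2 : ∀ a, Δ a → ∀ i, a i < 1 + 1)
    (h3 : (dg Δ m).ncard ≠ 0) (t : ℕ) : m.choose t ≤ (dg Δ t).ncard := by
  classical
  obtain ⟨γ, h4, h5⟩ := Set.nonempty_of_ncard_ne_zero h3
  have h6 := box_card (γ := γ) (s := 1) (m := m) le_rfl (fun i => by have := h2 γ h5 i; omega)
    (by rw [h4, mul_one])
  have h7 : ∀ (u : Finset (Fin N)) (i : Fin N),
      (∑ j ∈ u, single j 1 : Fin N →₀ ℕ) i = if i ∈ u then 1 else 0 := fun u i => by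
    simp [finsetSum_apply, single_apply]
  rw [← h6, ← Finset.card_powersetCard, ← Set.ncard_coe_finset]
  refine Set.ncard_le_ncard_of_injOn (fun u => ∑ j ∈ u, single j 1) (fun u hu => ?_)
    (fun u _ v _ h => Finset.ext fun i => ?_) (dg_fin _ _)
  · obtain ⟨h8, h9⟩ := Finset.mem_powersetCard.1 (Finset.mem_coe.1 hu)
    refine ⟨by simp [h9], h1 _ γ (fun i => ?_) h5⟩
    rw [h7]
    split_ifs with h10
    · exact Nat.pos_of_ne_zero (mem_support_iff.1 (h8 h10))
    · exact Nat.zero_le _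
  · have h8 := DFunLike.congr_fun h i
    rw [h7, h7] at h8
    split_ifs at h8 with a b b <;> simp_all

end Pool.Agent.Lib.MP_e9c0f3_ag.MC
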