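import Pool.Agent.Lib.MP_e9c0f3_ag.MC.Base
import Pool.Agent.Lib.MP_3924db_ag.EG.Final

/-! The order ideal of standard monomials. -/

open MvPolynomial Module

namespace Pool.Agent.Lib.MP_e9c0f3_ag.MC

variable {K : Type} [Field K] {N : ℕ}

theorem egh_down {d : ℕ} (hd : 2 ≤ d) {f : Fin N → Pol N K} (hf1 : ∀ j, (f j).IsHomogeneous d)
    (hf2 : ∀ i, ∃ M, (X i : Pol N K) ^ M ∈ Ideal.span (Set.range f)) {I : Ideal (Pol N K)}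
    (_hg : ∀ p ∈ I, ∀ n, homogeneousComponent n p ∈ I) (hI : ∀ j, f j ∈ I) :
    ∃ Δ : (Fin N →₀ ℕ) → Prop, (∀ a b, a ≤ b → Δ b → Δ a) ∧ (∀ a, Δ a → ∀ i, a i < d) ∧
      ∀ t, hf I t = Nat.card {a : Fin N →₀ ℕ // a.degree = t ∧ Δ a} :=
  Pool.Agent.Lib.MP_3924db_ag.EG.egh_down hd hf1 hf2 hI

end Pool.Agent.Lib.MP_e9c0f3_ag.MC
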