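import Pool.Agent.Lib.MP_e9c0f3_ag.MC.Soc
import Pool.Agent.Lib.MP_e9c0f3_ag.MC.Box
import Pool.Agent.Lib.MP_e9c0f3_ag.MC.Egh

/-! Lower bounds for Gorenstein quotients of complete intersections. -/

open MvPolynomial Module

namespace Pool.Agent.Lib.MP_e9c0f3_ag.MC

variable {K : Type} [Field K] [CharZero K] {N k s : ℕ} {I : Ideal (Pol N K)}

theorem bpf_down (hs : 1 ≤ s) (hg : Hg I) (hb : Bpf I (s + 1)) :
    ∃ Δ : (Fin N →₀ ℕ) → Prop, (∀ a b, a ≤ b → Δ b → Δ a) ∧ (∀ a, Δ a → ∀ i, a i < s + 1) ∧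
      ∀ t, hf I t = (dg Δ t).ncard := by
  obtain ⟨f, h1, h2⟩ := exists_param (by omega) hb
  exact egh_down (by omega) (fun j => (h1 j).2) h2 hg fun j => (h1 j).1

theorem hf_lower (hs : 1 ≤ s) (hk : 2 ≤ k) (hg : Hg I) (hb : Bpf I (s + 1))
    (h0 : hf I ((k + 1) * s) ≠ 0) : (s + 2 + k).choose k ≤ hf I (s + 2) + (k + 1) ^ 2 := by
  obtain ⟨Δ, h1, h2, h3⟩ := bpf_down hs hg hb
  rw [h3] at h0 ⊢
  exact down_lower hs hk h1 h2 h0

theorem hf_strict {μ : Pol N K →ₗ[K] K} (hs : 1 ≤ s) (hk : 2 ≤ k) (h : s + 3 ≤ (k + 1) * s)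
    (hμ : Conc μ ((k + 1) * s)) (h0 : μ ≠ 0) (hb : Bpf (ann μ) (s + 1))
    (h4 : k + 2 ≤ hf (ann μ) 1) :
    (s + 2 + k).choose k < hf (ann μ) (s + 2) + (k + 1) ^ 2 := by
  obtain ⟨Δ, h1, h2, h3⟩ := bpf_down hs hμ.hg hb
  have h5 := hμ.hf_top h0
  rw [hμ.hf_sym (i := 1) (j := (k + 1) * s - 1) (by omega)] at h4
  rw [h3] at h4 h5 ⊢
  exact down_strict hs hk h1 h2 h5 (by omega) (by omega) h4

theorem col_seven {μ : Pol N K →ₗ[K] K} (hμ : Conc μ 8) (hb : Bpf (ann μ) 3) {y : Pol N K}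
    (hy : y.IsHomogeneous 1) (hn : y ∉ ann μ) : 4 < hf (col (ann μ) y) 3 := by
  have h1 := Conc.sh (σ := 7) hμ hy
  have h2 := hf_lower (s := 2) (k := 2) (by omega) le_rfl h1.hg (hb.mono fun a ha => by
    rw [← col_ann]
    exact Ideal.mul_mem_left _ _ ha) fun h => h1.hf_top (sh_ne_zero hn) (hf_zero_succ h)
  have h3 : Nat.choose (2 + 2 + 2) 2 = 15 := by decide
  rw [col_ann, h1.hf_sym (i := 3) (j := 2 + 2) rfl]
  omega

theorem choose_big' {e : ℕ} (hk : 2 ≤ k) (he : 3 ≤ e) (h : e = 3 → 4 ≤ k) :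
    (k + 1) ^ 2 + (k + 1) < (e + k).choose k := by
  have h1 : ∀ a, a ≤ e → (a + k).choose k ≤ (e + k).choose k := fun a ha =>
    Nat.choose_le_choose k (by omega)
  by_cases h2 : 4 ≤ k
  · have h3 := h1 3 he
    have h4 := Nat.add_one_mul_choose_eq (k + 2) 2
    have h5 := Nat.add_one_mul_choose_eq (k + 1) 1
    rw [add_comm 3 k, Nat.choose_symm_add] at h3
    rw [Nat.choose_one_right] at h5
    have h6 : (k + 3).choose 3 * 6 = (k + 3) * ((k + 2) * (k + 1)) := by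
      change (k + 2 + 1).choose (2 + 1) * 6 = _
      change (k + 2) * (k + 1) = (k + 2).choose 2 * 2 at h5
      rw [h5]
      nlinarith
    have h7 : 7 * ((k + 2) * (k + 1)) ≤ (k + 3) * ((k + 2) * (k + 1)) :=
      Nat.mul_le_mul_right _ (by omega)
    nlinarith
  · have h3 := h1 4 (by omega)
    obtain rfl | rfl : k = 2 ∨ k = 3 := by omega
    · have : Nat.choose (4 + 2) 2 = 15 := by decide
      omega
    · have : Nat.choose (4 + 3) 3 = 35 := by decide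
      omega

end Pool.Agent.Lib.MP_e9c0f3_ag.MC
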