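import Pool.Agent.Lib.MP_e9c0f3_ag.MC.P4
import Pool.Agent.Lib.MP_e9c0f3_ag.MC.Down

/-! The linear space lies in the hypersurface: the case of cubics. -/

open MvPolynomial Module

namespace Pool.Agent.Lib.MP_e9c0f3_ag.MC

variable {K : Type} [Field K] {N : ℕ}

theorem exists_quotB (I : Ideal (Pol N K)) : ∃ (R : Type) (_ : CommRing R) (_ : Algebra K R)
    (π : Pol N K →ₐ[K] R), Function.Surjective π ∧ ∀ q, π q = 0 ↔ q ∈ I :=
  ⟨_, _, _, Ideal.Quotient.mkₐ K I, Ideal.Quotient.mkₐ_surjective K I,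
    fun _ => Ideal.Quotient.eq_zero_iff_mem⟩

variable [CharZero K]

omit [CharZero K] in
theorem col_leB {I : Ideal (Pol N K)} {R : Type} [CommRing R] [Algebra K R] {π : Pol N K →ₐ[K] R}
    (hI : ∀ q, π q = 0 ↔ q ∈ I) {y : Pol N K} {n : ℕ} (W : Submodule K R) [Module.Finite K W]
    (h : ∀ p : Pol N K, p.IsHomogeneous n → π (y * p) ∈ W) : hf (col I y) n ≤ finrank K W := by
  have h1 := base_rank (π.toLinearMap ∘ₗ LinearMap.mulLeft K y) (Sd N K n)
  have h2 := hf_add (col I y) n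
  have e : LinearMap.ker (π.toLinearMap ∘ₗ LinearMap.mulLeft K y) =
      (col I y).restrictScalars K := by
    ext q
    exact hI _
  rw [e] at h1
  have h3 : (Sd N K n).map (π.toLinearMap ∘ₗ LinearMap.mulLeft K y) ≤ W := by
    rintro _ ⟨p, hp, rfl⟩
    exact h p hp
  have h5 := Submodule.finrank_mono h3
  omega

omit [CharZero K] in
/-- The bracket relation forces the first linear form into the ideal. -/
theorem bracket_memB {I : Ideal (Pol N K)} {m e : ℕ} (h1 : hf I 1 ≤ m) (h2 : m < hf I e)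
    (hy : ∀ y : Pol N K, y.IsHomogeneous 1 → y ∉ I → 3 ≤ hf (col I y) e)
    (ha : ∀ q : Pol N K, q.IsHomogeneous e → q ∉ I → m ≤ hf (col I q) 1 + 2)
    (α β : Sd N K e → Pol N K) (hα : ∀ p, (α p).IsHomogeneous 1) (hβ : ∀ a, (β a).IsHomogeneous 1)
    (h : ∀ p a : Sd N K e, α p * a - β a * p ∈ I) (p : Sd N K e) : α p ∈ I := by
  by_contra hn
  obtain ⟨R, _, _, π, -, hI⟩ := exists_quotB I
  have h3 : ∀ p a : Sd N K e, π (α p * a) = π (β a * p) := fun p a => by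
    rw [← sub_eq_zero, ← map_sub]
    exact (hI _).2 (h p a)
  obtain ⟨q, hq, hq1, hq2⟩ : ∃ q : Pol N K, q.IsHomogeneous e ∧ q ∉ I ∧ ∀ a, q * β a ∈ I := by
    by_contra! hc
    obtain ⟨y, -, hy⟩ := exists_span_of_hf_le h1
    let φ : Pol N K →ₗ[K] Sd N K e → R :=
      LinearMap.pi fun a => π.toLinearMap ∘ₗ LinearMap.mulLeft K (β a)
    let ψ : Fin m → Sd N K e → R := fun j a => π (y j * a)
    have i1 : Module.Finite K (Submodule.span K (Set.range ψ)) :=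
      Module.Finite.span_of_finite K (Set.finite_range _)
    have h4 : (Sd N K e).map φ ≤ Submodule.span K (Set.range ψ) := by
      rintro _ ⟨u, hu, rfl⟩
      obtain ⟨c, hc⟩ := hy _ (hα ⟨u, hu⟩)
      refine (Submodule.mem_span_range_iff_exists_fun K).2 ⟨c, funext fun a => ?_⟩
      have h5 := (hI _).2 (I.mul_mem_right a.1 hc)
      rw [sub_mul, map_sub, sub_eq_zero, h3, Finset.sum_mul, map_sum] at h5
      rw [Finset.sum_apply]
      refine Eq.trans (Finset.sum_congr rfl fun j _ => ?_) h5.symm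
      rw [smul_mul_assoc, map_smul]
      rfl
    have h5 := (Submodule.finrank_mono h4).trans
      ((finrank_range_le_card _).trans (Fintype.card_fin m).le)
    have h6 := base_rank φ (Sd N K e)
    have h7 := hf_add I e
    have h8 : Sd N K e ⊓ LinearMap.ker φ ≤ Sd N K e ⊓ I.restrictScalars K := fun u hu => by
      refine ⟨hu.1, ?_⟩
      by_contra h9
      obtain ⟨a, h10⟩ := hc u hu.1 h9
      exact h10 (mul_comm (β a) u ▸ (hI _).1 (congrFun hu.2 a))
    have h9 := Submodule.finrank_mono h8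
    omega
  let U : Submodule K (Pol N K) := Sd N K 1 ⊓ (col I q).restrictScalars K
  have h4 := col_leB hI (y := α p) (n := e)
    (U.map (π.toLinearMap ∘ₗ LinearMap.mulRight K p.1)) fun a ha =>
      ⟨β ⟨a, ha⟩, ⟨hβ _, hq2 _⟩, (h3 p ⟨a, ha⟩).symm⟩
  have h5 := base_rank (π.toLinearMap ∘ₗ LinearMap.mulRight K p.1) U
  have h6 : Sd N K 1 ⊓ I.restrictScalars K ≤
      U ⊓ LinearMap.ker (π.toLinearMap ∘ₗ LinearMap.mulRight K p.1) := fun u hu =>
    ⟨⟨hu.1, I.mul_mem_left q hu.2⟩, (hI _).2 (I.mul_mem_right _ hu.2)⟩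
  have i2 : Module.Finite K (U ⊓ LinearMap.ker (π.toLinearMap ∘ₗ LinearMap.mulRight K p.1) :
    Submodule K (Pol N K)) := Submodule.finiteDimensional_of_le inf_le_left
  have h7 := Submodule.finrank_mono h6
  have h8 := hf_add I 1
  have h9 : _ + finrank K U = _ := hf_add (col I q) 1
  have h10 := hy _ (hα p) hn
  have h11 := ha q hq hq1
  omega

theorem Lin.plane2B {m e : ℕ} {I : Ideal (Pol (m + m) K)} {x w : Fin m → Pol (m + m) K}
    (h : Lin I e x w) (he : 1 ≤ e) {F : Pol (m + m) K} (hF : F.IsHomogeneous (e + 1))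
    (hJ : jac F ≤ I) (S : Set (Pol (m + m) K →+ Pol (m + m) K))
    (hD : ∀ E ∈ S, Der E ∧ ∀ a, E (pderiv a F) - pderiv a (E F) ∈ I)
    (hs : ∀ G ∈ I, G.IsHomogeneous (e + 1) → ∃ E ∈ S, E F = G)
    (hbr : ∀ E ∈ S, ∀ E' ∈ S, E (E' F) - E' (E F) ∈ I) (h1 : hf I 1 ≤ m) (h2 : m < hf I e)
    (hy : ∀ y : Pol (m + m) K, y.IsHomogeneous 1 → y ∉ I → 3 ≤ hf (col I y) e)
    (ha : ∀ q : Pol (m + m) K, q.IsHomogeneous e → q ∉ I → m ≤ hf (col I q) 1 + 2) :
    ∃ g : Fin m → Pol (m + m) K, (∀ i, (g i).IsHomogeneous e) ∧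
      F = ∑ i, x i * g i ∧ ∀ i, g i ∈ I := by
  refine h.split hF hJ (h.euler hF fun v hv => h.ker he hF hJ (fun u hu j => ?_) hv)
  by_contra hj
  refine (by omega : hf I e ≠ 0) (hf_eq_zero.2 fun p hp => ?_)
  have hxI : ∀ i, x i ∈ I := fun i => h.le (px_x_mem x i)
  have hG : ∀ i, ∀ a : Sd (m + m) K e, ∃ E ∈ S, E F = x i * a := by
    intro i a
    refine hs _ (I.mul_mem_right _ (hxI i)) ?_
    rw [add_comm e 1]
    exact (h.hx i).mul a.2
  choose Φ hΦ hΦF using hG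
  have hx : ∀ i, Φ j ⟨p, hp⟩ (x i) ∈ I := fun i =>
    bracket_memB h1 h2 hy ha (fun p => Φ j p (x i)) (fun a => Φ i a (x j))
      (fun p => (hD _ (hΦ j p)).1.homog 1 _ (h.hx i))
      (fun a => (hD _ (hΦ i a)).1.homog 1 _ (h.hx j)) (fun p a => by
        have h3 := hbr _ (hΦ j p) _ (hΦ i a)
        rw [hΦF, hΦF, (hD _ (hΦ j p)).1.leib, (hD _ (hΦ i a)).1.leib] at h3
        have h4 := I.add_mem (I.sub_mem h3 (I.mul_mem_right (Φ j p a) (hxI i)))
          (I.mul_mem_right (Φ i a p) (hxI j))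
        convert h4 using 1
        ring) _
  have hEF : Φ j ⟨p, hp⟩ F = x j * p := hΦF j ⟨p, hp⟩
  obtain ⟨hd, hI⟩ := hD _ (hΦ j ⟨p, hp⟩)
  generalize Φ j ⟨p, hp⟩ = E at hx hEF hd hI
  obtain ⟨q, hq⟩ := px_mem_lid.1 hu
  have hc := px_const (pxd_homog (n := 0) (h.hx j) u)
  set c := coeff 0 (pxd (x j) u)
  have hc0 : c ≠ 0 := fun e0 => hj (by rw [hc, e0, map_zero])
  have h3 : E (pxd F u) - pxd (x j * p) u ∈ I := by
    rw [pxd_apply, pxd_apply, map_sum, ← Finset.sum_sub_distrib]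
    refine I.sum_mem fun a _ => ?_
    rw [smul_eq_C_mul, smul_eq_C_mul, hd.leib, add_sub_assoc, ← mul_sub, ← hEF]
    exact I.add_mem (I.mul_mem_left _ (hJ (Ideal.subset_span ⟨a, rfl⟩)))
      (I.mul_mem_left _ (hI a))
  have h4 : E (pxd F u) ∈ I := by
    rw [← hq, map_sum]
    refine I.sum_mem fun i _ => ?_
    rw [hd.leib]
    exact I.add_mem (I.mul_mem_left _ (hxI i)) (I.mul_mem_left _ (hx i))
  have h5 := I.mul_mem_left (C c⁻¹) (I.sub_mem (I.sub_mem h4 h3)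
    (I.mul_mem_right (pxd p u) (hxI j)))
  have e2 : (C c⁻¹ : Pol (m + m) K) * C c = 1 := by
    rw [← map_mul, inv_mul_cancel₀ hc0, map_one]
  rw [pxd_mul, hc] at h5
  convert h5 using 1
  linear_combination (-p) * e2

theorem col_lowerB {m n : ℕ} {μ : Pol N K →ₗ[K] K} (hμ : Conc μ (m + n))
    (hb : Bpf (ann μ) 2) {q : Pol N K} (hq : q.IsHomogeneous n) (hn : q ∉ ann μ) (t : ℕ) :
    m.choose t ≤ hf (col (ann μ) q) t := by
  rw [col_ann]
  obtain ⟨Δ, h1, h2, h3⟩ := bpf_down (s := 1) le_rfl (hμ.sh hq).hg (hb.mono fun a ha => by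
    rw [← col_ann]
    exact Ideal.mul_mem_left _ _ ha)
  have h4 := (hμ.sh hq).hf_top (sh_ne_zero hn)
  rw [h3] at h4 ⊢
  exact down_sqfree h1 h2 h4 t

end Pool.Agent.Lib.MP_e9c0f3_ag.MC
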