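import Pool.Agent.Lib.MP_e9c0f3_ag.MC.GapF
import Pool.Agent.Lib.MP_e9c0f3_ag.MC.P3

/-! The quadric lies in the hypersurface. -/

open MvPolynomial Module

namespace Pool.Agent.Lib.MP_e9c0f3_ag.MC

variable {K : Type} [Field K] {N : ℕ} {I Y : Ideal (Pol N K)} {F : Pol N K}

theorem brk {y a : Pol N K} {i j : ℕ} (h : ∀ b : Pol N K, b.IsHomogeneous j →
    ∃ c : Pol N K, c.IsHomogeneous i ∧ y * b - c * a ∈ I) : hf (col I y) j ≤ hf I i := by
  obtain ⟨z, -, hz⟩ := exists_span_of_hf_le (le_refl (hf I i))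
  refine p4_col (fun o => z o * a) fun b hb => ?_
  obtain ⟨c, h1, h2⟩ := h b hb
  obtain ⟨u, hu⟩ := hz c h1
  refine ⟨u, ?_⟩
  simp only [← smul_mul_assoc, ← Finset.sum_mul]
  convert I.add_mem h2 (I.mul_mem_right a hu) using 1
  ring

theorem bracket_gen {n e : ℕ} (h2 : hf I n < hf I e)
    (hy : ∀ y q : Pol N K, y.IsHomogeneous n → y ∉ I → q.IsHomogeneous e → q ∉ I →
      hf I n < hf (col I y) e + hf (col I q) n)
    (α β : Sd N K e → Pol N K) (hα : ∀ p, (α p).IsHomogeneous n) (hβ : ∀ a, (β a).IsHomogeneous n)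
    (h : ∀ p a : Sd N K e, α p * a - β a * p ∈ I) (p : Sd N K e) : α p ∈ I := by
  by_contra hn
  obtain ⟨R, _, _, π, -, hI⟩ := exists_quotB I
  have h3 : ∀ p a : Sd N K e, π (α p * a) = π (β a * p) := fun p a => by
    rw [← sub_eq_zero, ← map_sub]
    exact (hI _).2 (h p a)
  obtain ⟨q, hq, hq1, hq2⟩ : ∃ q : Pol N K, q.IsHomogeneous e ∧ q ∉ I ∧ ∀ a, q * β a ∈ I := by
    by_contra! hc
    obtain ⟨y, -, hy⟩ := exists_span_of_hf_le (le_refl (hf I n))
    let φ : Pol N K →ₗ[K] Sd N K e → R :=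
      LinearMap.pi fun a => π.toLinearMap ∘ₗ LinearMap.mulLeft K (β a)
    let ψ : Fin (hf I n) → Sd N K e → R := fun j a => π (y j * a)
    have i1 : Module.Finite K (Submodule.span K (Set.range ψ)) :=
      Module.Finite.span_of_finite K (Set.finite_range _)
    have h4 : (Sd N K e).map φ ≤ Submodule.span K (Set.range ψ) := by
      rintro _ ⟨u, hu, rfl⟩
      obtain ⟨c, hc⟩ := hy _ (hα ⟨u, hu⟩)
      refine (Submodule.mem_span_range_iff_exists_fun K).2 ⟨c, funext fun a => ?_⟩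
      have h5 := (hI _).2 (I.mul_mem_right a.1 hc)
      rw [sub_mul, map_sub, sub_eq_zero, h3, Finset.sum_mul, map_sum] at h5
      rw [Finset.sum_apply]
      refine Eq.trans (Finset.sum_congr rfl fun j _ => ?_) h5.symm
      rw [smul_mul_assoc, map_smul]
      rfl
    have h5 := (Submodule.finrank_mono h4).trans
      ((finrank_range_le_card _).trans (Fintype.card_fin _).le)
    have h6 := base_rank φ (Sd N K e)
    have h7 := hf_add I e
    have h8 : Sd N K e ⊓ LinearMap.ker φ ≤ Sd N K e ⊓ I.restrictScalars K := fun u hu => by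
      refine ⟨hu.1, ?_⟩
      by_contra h9
      obtain ⟨a, h10⟩ := hc u hu.1 h9
      exact h10 (mul_comm (β a) u ▸ (hI _).1 (congrFun hu.2 a))
    have h9 := Submodule.finrank_mono h8
    omega
  let U : Submodule K (Pol N K) := Sd N K n ⊓ (col I q).restrictScalars K
  have h4 := col_leB hI (y := α p) (n := e)
    (U.map (π.toLinearMap ∘ₗ LinearMap.mulRight K p.1)) fun a ha =>
      ⟨β ⟨a, ha⟩, ⟨hβ _, hq2 _⟩, (h3 p ⟨a, ha⟩).symm⟩
  have h5 := base_rank (π.toLinearMap ∘ₗ LinearMap.mulRight K p.1) U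
  have h6 : Sd N K n ⊓ I.restrictScalars K ≤
      U ⊓ LinearMap.ker (π.toLinearMap ∘ₗ LinearMap.mulRight K p.1) := fun u hu =>
    ⟨⟨hu.1, I.mul_mem_left q hu.2⟩, (hI _).2 (I.mul_mem_right _ hu.2)⟩
  have i2 : Module.Finite K (U ⊓ LinearMap.ker (π.toLinearMap ∘ₗ LinearMap.mulRight K p.1) :
    Submodule K (Pol N K)) := Submodule.finiteDimensional_of_le inf_le_left
  have h7 := Submodule.finrank_mono h6
  have h8 := hf_add I n
  have h9 : _ + finrank K U = _ := hf_add (col I q) n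
  have h10 := hy _ _ (hα p) hn hq hq1
  omega

theorem br_pair {E E' : Pol N K →+ Pol N K} (hE : Der E) (hE' : Der E')
    (hbr : E (E' F) - E' (E F) ∈ I) {f f' a b : Pol N K} (h1 : E F = f * a) (h2 : E' F = f' * b)
    (h3 : f ∈ I) (h4 : f' ∈ I) : E f' * b - E' f * a ∈ I := by
  rw [h1, h2, hE.leib, hE'.leib] at hbr
  convert I.add_mem (I.sub_mem hbr (I.mul_mem_right (E b) h4)) (I.mul_mem_right (E' a) h3) using 1
  ring

theorem der_pxd (hJ : jac F ≤ I) {E : Pol N K →+ Pol N K} (hE : Der E)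
    (h : ∀ a, E (pderiv a F) - pderiv a (E F) ∈ I) (v : Fin N → K) :
    E (pxd F v) - pxd (E F) v ∈ I := by
  rw [pxd_apply, pxd_apply, map_sum, ← Finset.sum_sub_distrib]
  refine I.sum_mem fun a _ => ?_
  rw [smul_eq_C_mul, smul_eq_C_mul, hE.leib, add_sub_assoc, ← mul_sub]
  exact I.add_mem (I.mul_mem_left _ (hJ (Ideal.subset_span ⟨a, rfl⟩))) (I.mul_mem_left _ (h a))

theorem hf_rank (I Y : Ideal (Pol N K)) (n : ℕ) : hf Y n ≤ hf I n + finrank K
    ((Sd N K n ⊓ I.restrictScalars K).map (Ideal.Quotient.mkₐ K Y).toLinearMap) ∧ (Y ≤ I →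
      hf I n + finrank K ((Sd N K n ⊓ I.restrictScalars K).map
        (Ideal.Quotient.mkₐ K Y).toLinearMap) ≤ hf Y n) := by
  have h1 := base_rank (Ideal.Quotient.mkₐ K Y).toLinearMap (Sd N K n ⊓ I.restrictScalars K)
  have h2 := hf_add I n
  have h3 := hf_add Y n
  have : Module.Finite K ((Sd N K n ⊓ I.restrictScalars K) ⊓
      LinearMap.ker (Ideal.Quotient.mkₐ K Y).toLinearMap : Submodule K _) :=
    Submodule.finiteDimensional_of_le inf_le_left
  have h4 := Submodule.finrank_mono (s := (Sd N K n ⊓ I.restrictScalars K) ⊓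
    LinearMap.ker (Ideal.Quotient.mkₐ K Y).toLinearMap) (t := Sd N K n ⊓ Y.restrictScalars K)
    fun p hp => ⟨hp.1.1, Ideal.Quotient.eq_zero_iff_mem.1 hp.2⟩
  refine ⟨by omega, fun h => ?_⟩
  have h5 := Submodule.finrank_mono (t := (Sd N K n ⊓ I.restrictScalars K) ⊓
    LinearMap.ker (Ideal.Quotient.mkₐ K Y).toLinearMap) (s := Sd N K n ⊓ Y.restrictScalars K)
    fun p hp => ⟨⟨hp.1, h hp.2⟩, Ideal.Quotient.eq_zero_iff_mem.2 hp.2⟩
  omega

theorem no_plane {k d c : ℕ} (hc : c + (k + 1) = N) (hY : LinI Y c) (hF : F ∈ Y) (hg : Hg I)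
    (hs : ∀ G ∈ I, G.IsHomogeneous (d + 1) → ∃ E, Der E ∧ E F = G) {l : Pol N K}
    (hl : l.IsHomogeneous 1) (h1 : l ∈ Y) :
    (d + 1 + k).choose k + hf (col I l) d ≤ hf I (d + 1) + c * (k + 1) := by
  obtain ⟨x, hx, rfl⟩ := hY.gens
  obtain ⟨f, hf'⟩ := px_mem_lid.1 hF
  obtain ⟨z, -, hz⟩ := exists_span_of_hf_le ((hY.hf hc 1).trans
    (by rw [add_comm, Nat.choose_succ_self_right])).le
  have h2 := (hf_rank (I ⊔ Ideal.span {l}) (lid x) (d + 1)).1
  let u := fun t : Fin c × Fin (k + 1) => Ideal.Quotient.mkₐ K (lid x) (f t.1 * z t.2)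
  have : Module.Finite K (Submodule.span K (Set.range u)) :=
    Module.Finite.span_of_finite K (Set.finite_range _)
  have h3 := (Submodule.finrank_mono (s := (Sd N K (d + 1) ⊓ (I ⊔ Ideal.span {l}).restrictScalars
      K).map (Ideal.Quotient.mkₐ K (lid x)).toLinearMap) (by
    rintro _ ⟨p, hp, rfl⟩
    obtain ⟨a, h3, h4⟩ := hg.div hl hp.1 hp.2
    obtain ⟨E, hE, h5⟩ := hs _ h4 (IsHomogeneous.sub hp.1 (add_comm 1 d ▸ hl.mul h3))
    choose b hb using fun i => hz _ (hE.homog 1 _ (hx i))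
    rw [AlgHom.toLinearMap_apply, gap_mk (c := fun t : Fin c × Fin (k + 1) => b t.1 t.2)
      (u := fun t => f t.1 * z t.2) ?_]
    · exact Submodule.sum_mem _ fun o _ => Submodule.smul_mem _ _ (Submodule.subset_span ⟨o, rfl⟩)
    · simp only [Fintype.sum_prod_type, ← mul_smul_comm, ← Finset.mul_sum]
      rw [← sub_add_cancel p (l * a), ← h5, ← hf', map_sum, add_sub_right_comm,
        ← Finset.sum_sub_distrib]
      refine Ideal.add_mem _ (Ideal.sum_mem _ fun j _ => ?_) (Ideal.mul_mem_right _ _ h1)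
      rw [hE.leib, add_sub_assoc, ← mul_sub]
      exact Ideal.add_mem _ (Ideal.mul_mem_left _ _ (px_x_mem x j))
        (Ideal.mul_mem_left _ _ (hb j)))).trans (finrank_range_le_card u)
  have h4 := hf_es hg hl d
  rw [hY.hf hc] at h2
  rw [Fintype.card_prod, Fintype.card_fin, Fintype.card_fin] at h3
  omega

theorem mem_of_nsmul [CharZero K] {n : ℕ} {p : Pol N K} (h : (n + 1) • p ∈ I) : p ∈ I := by
  have h1 := Submodule.smul_of_tower_mem I ((n + 1 : ℕ) : K)⁻¹ h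
  rwa [← Nat.cast_smul_eq_nsmul K, smul_smul, inv_mul_cancel₀ (Nat.cast_ne_zero.2 n.succ_ne_zero),
    one_smul] at h1

theorem sup_mem {q a : Pol N K} (c : Pol N K) (h : a - q * c ∈ Y) : a ∈ Y ⊔ Ideal.span {q} := by
  rw [← sub_add_cancel a (q * c)]
  exact Submodule.add_mem_sup h (Ideal.mul_mem_right _ _ (Ideal.mem_span_singleton_self q))

/-- A relation `l * r = q * c` modulo linear forms. -/
theorem LinI.rel {c : ℕ} (h : LinI Y c) {l q r u : Pol N K} (hl : l.IsHomogeneous 1) (hn : l ∉ Y)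
    (hq : q.IsHomogeneous 2) (h1 : l * r - q * u ∈ Y) : r ∈ Y ⊔ Ideal.span {q} ∨
      (u ∉ Y ⊔ Ideal.span {l} ∧ ∃ l' : Pol N K, l'.IsHomogeneous 1 ∧ q - l * l' ∈ Y ∧
        r - l' * u ∈ Y) := by
  by_cases h2 : u ∈ Y ⊔ Ideal.span {l}
  · obtain ⟨y, hy, _, h3, rfl⟩ := Submodule.mem_sup.1 h2
    obtain ⟨a, rfl⟩ := Ideal.mem_span_singleton'.1 h3
    refine Or.inl (sup_mem a ((h.prime.mem_or_mem ?_).resolve_left hn))
    convert Y.add_mem h1 (Y.mul_mem_left q hy) using 1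
    ring
  · have h3 := ((h.sup hl hn).prime.mem_or_mem (sup_mem r (by
      convert Y.neg_mem h1 using 1
      ring) : q * u ∈ _)).resolve_right h2
    obtain ⟨l', h4, h5⟩ := h.hg.div (n := 1) hl hq h3
    refine Or.inr ⟨h2, l', h4, h5, (h.prime.mem_or_mem ?_).resolve_left hn⟩
    convert Y.add_mem h1 (Y.mul_mem_right u h5) using 1
    ring

theorem quad_step [CharZero K] {k b : ℕ} (hN : k + (k + 1 + 1) = N) (hg : Hg I)
    (hF : F.IsHomogeneous (b + 4 + 1)) (hJ : jac F ≤ I) (S : Set (Pol N K →+ Pol N K))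
    (hD : ∀ E ∈ S, Der E ∧ ∀ a, E (pderiv a F) - pderiv a (E F) ∈ I)
    (hs : ∀ G ∈ I, G.IsHomogeneous (b + 4 + 1) → ∃ E ∈ S, E F = G)
    (hbr : ∀ E ∈ S, ∀ E' ∈ S, E (E' F) - E' (E F) ∈ I) (n1 : hf I 1 = k + 2)
    (n2 : hf I 2 + 1 = (2 + (k + 1)).choose (k + 1))
    (n3 : hf I (b + 3) + (b + 1 + (k + 1)).choose (k + 1) < (b + 3 + (k + 1)).choose (k + 1))
    (n4 : (b + 4 + (k + 1)).choose (k + 1) ≤
      hf I (b + 4) + (b + 2 + (k + 1)).choose (k + 1) + (2 * k + 2))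
    (n5 : hf I 2 < hf I (b + 3)) (n6 : hf I (b + 3) < hf I (b + 4))
    (c1 : ∀ y : Pol N K, y.IsHomogeneous 1 → y ∉ I → k + 2 < hf (col I y) (b + 4) ∧
      (b + 2 + k).choose k ≤ hf (col I y) (b + 2) ∧
      hf I (b + 4 + 1) + (k + 1) * (k + 1) < (b + 4 + 1 + k).choose k + hf (col I y) (b + 4))
    (c2 : ∀ y : Pol N K, y.IsHomogeneous 2 → y ∉ I → k + 2 < hf (col I y) (b + 3) ∧
      ∀ q : Pol N K, q.IsHomogeneous (b + 3) → q ∉ I →
        hf I 2 < hf (col I y) (b + 3) + hf (col I q) 2) :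
    ∃ Y, LinI Y k ∧ Y ≤ I ∧ ∃ q ∈ I, q.IsHomogeneous 2 ∧ F ∈ Y ⊔ Ideal.span {q} := by
  obtain ⟨Y, hY, hYI, hY1⟩ := exists_linI (I := I) (c := k) (by omega)
  have h1 := hY.hf hN
  obtain ⟨q, hqI, hq, hqY⟩ := exists_of_hf (I := I) (Y := Y) (n := 2) (by rw [h1]; omega)
  refine ⟨Y, hY, hYI, q, hqI, hq, ?_⟩
  have h2 : ∀ t, hf (Y ⊔ Ideal.span {q}) (t + 2) + (t + (k + 1)).choose (k + 1) =
      (t + 2 + (k + 1)).choose (k + 1) := fun t => by
    rw [← h1, ← h1, hf_es' hY.hg hq, show col Y q = Y from Ideal.ext fun p =>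
      ⟨fun h => (hY.prime.mem_or_mem h).resolve_left hqY, Y.mul_mem_left q⟩]
  have hWI : Y ⊔ Ideal.span {q} ≤ I := sup_le hYI ((Ideal.span_singleton_le_iff_mem _).2 hqI)
  have hW : Hg (Y ⊔ Ideal.span {q}) := hY.hg.sup (hg_span fun p hp => ⟨2, hp ▸ hq⟩)
  have h3 : ∀ p ∈ I, p.IsHomogeneous 2 → p ∈ Y ⊔ Ideal.span {q} := fun p hp hp' =>
    mem_of_hf (fun p h _ => hWI h) (by
      have := h2 0
      rw [zero_add, zero_add, Nat.choose_self] at this
      omega) hp hp'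
  obtain ⟨r, hrI, hr, hrW⟩ := exists_of_hf (I := I) (Y := Y ⊔ Ideal.span {q}) (n := b + 3) (by
    have : hf _ (b + 3) + _ = (b + 3 + (k + 1)).choose (k + 1) := h2 (b + 1)
    omega)
  have hnI : ∀ l l' : Pol N K, l'.IsHomogeneous 1 → q - l * l' ∈ Y → l' ∉ I := fun l l' h h' hm =>
    hqY (by simpa using Y.add_mem h' (Y.mul_mem_left l (hY1 _ hm h)))
  have h4 : hf Y 1 ≤ hf (col (Y ⊔ Ideal.span {q}) r) 1 := hf_mono fun l hl hm => by
    by_contra hn
    obtain ⟨u, hu, h4⟩ := hY.hg.div (n := b + 2) hq (hr.mul hl) hm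
    rcases hY.rel hl hn hq (mul_comm r l ▸ h4) with h | ⟨h5, l', h6, h7, h8⟩
    · exact hrW h
    refine h5 (mem_of_hf (I := col I l') (fun p hp _ => ?_) (((hY.sup hl hn).hf (j := k)
      (by omega) _).trans_le (c1 l' h6 (hnI _ _ h6 h7)).2.1) ?_ hu)
    · refine (sup_le (fun p hp => I.mul_mem_left l' (hYI hp))
        ((Ideal.span_singleton_le_iff_mem _).2 ?_) : _ ≤ col I l') hp
      simpa [mem_col, mul_comm] using I.sub_mem hqI (hYI h7)
    · simpa [mem_col] using I.sub_mem hrI (hYI h8)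
  have h5 := hf_es' hW hr 1
  have h6 := (hf_rank I (Y ⊔ Ideal.span {q} ⊔ Ideal.span {r}) (b + 4)).2
    (sup_le hWI ((Ideal.span_singleton_le_iff_mem _).2 hrI))
  have h7 : hf _ (b + 4) + _ = (b + 4 + (k + 1)).choose (k + 1) := h2 (b + 2)
  rw [h1, add_comm 1 (k + 1), Nat.choose_succ_self_right] at h4
  rw [show 1 + (b + 3) = b + 4 by omega] at h5
  have hx : ∀ x ∈ Y, x.IsHomogeneous 1 → ∀ p : Pol N K, p.IsHomogeneous (b + 4) →
      ∃ E ∈ S, E F = x * p := fun x h h' p hp =>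
    hs _ (I.mul_mem_right _ (hYI h)) (add_comm 1 (b + 4) ▸ h'.mul hp)
  choose Φ hΦ hΦF using fun p : Sd N K (b + 3) => hs (q * p) (I.mul_mem_right _ hqI)
    ((show 2 + (b + 3) = b + 4 + 1 by omega) ▸ hq.mul p.2)
  have hpres : ∀ E, Der E → (∀ x ∈ Y, x.IsHomogeneous 1 → E x ∈ I) → E q ∈ I →
      ∀ p ∈ Y ⊔ Ideal.span {q}, E p ∈ I := fun E hE h h' p hp => by
    obtain ⟨U, -, rfl⟩ := hY
    rw [← Ideal.span_union] at hp
    refine hE.map_mem ?_ hp
    rintro _ (⟨u, hu, rfl⟩ | rfl)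
    · exact ⟨hYI (Ideal.subset_span ⟨u, hu, rfl⟩),
        h _ (Ideal.subset_span ⟨u, hu, rfl⟩) (H48.lin_homog u)⟩
    · exact ⟨hqI, h'⟩
  have hA : ∀ E ∈ S, ∀ x ∈ Y, x.IsHomogeneous 1 → ∀ p, E F = x * p →
      ∀ p ∈ Y ⊔ Ideal.span {q}, E p ∈ I := fun E hE x h h' p hp =>
    hpres E (hD E hE).1 (fun y hy hy' => by
      by_contra hn
      refine absurd (brk (a := p) fun a ha => ?_)
        (not_le.2 (n1 ▸ (c1 _ ((hD E hE).1.homog 1 _ hy') hn).1))
      obtain ⟨E', h8, h9⟩ := hx y hy hy' a ha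
      exact ⟨_, (hD _ h8).1.homog 1 _ h',
        br_pair (hD E hE).1 (hD _ h8).1 (hbr _ hE _ h8) hp h9 (hYI h) (hYI hy)⟩) (by
      by_contra hn
      exact absurd (brk (a := p) fun a ha => ⟨_, (hD _ (hΦ ⟨a, ha⟩)).1.homog 1 _ h', br_pair
        (hD E hE).1 (hD _ (hΦ _)).1 (hbr _ hE _ (hΦ _)) hp (hΦF _) (hYI h) hqI⟩)
        (not_le.2 (n1 ▸ (c2 _ ((hD E hE).1.homog 2 _ hq) hn).1)))
  have hB : ∀ a, ∀ p ∈ Y ⊔ Ideal.span {q}, Φ a p ∈ I := fun a =>
    hpres _ (hD _ (hΦ a)).1 (fun y hy hy' => by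
      by_contra hn
      have h8 := (c1 _ ((hD _ (hΦ a)).1.homog 1 _ hy') hn).1
      rw [hf_eq_zero.2 fun p hp => ?_] at h8
      · omega
      obtain ⟨E', h8, h9⟩ := hx y hy hy' p hp
      simpa [mem_col] using I.add_mem (br_pair (hD _ (hΦ a)).1 (hD _ h8).1 (hbr _ (hΦ a) _ h8)
        (hΦF a) h9 hqI (hYI hy)) (I.mul_mem_right a.1 (hA E' h8 y hy hy' p h9 q
          (Ideal.mem_sup_right (Ideal.mem_span_singleton_self q)))))
      (bracket_gen n5 (fun y u h8 h9 => (c2 y h8 h9).2 u) (fun p => Φ p q) (fun p => Φ p q)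
        (fun p => (hD _ (hΦ p)).1.homog 2 _ hq) (fun p => (hD _ (hΦ p)).1.homog 2 _ hq)
        (fun p a => br_pair (hD _ (hΦ p)).1 (hD _ (hΦ a)).1 (hbr _ (hΦ p) _ (hΦ a)) (hΦF p)
          (hΦF a) hqI hqI) a)
  have hC : ∀ E ∈ S, (∀ p ∈ Y ⊔ Ideal.span {q}, E p ∈ I) → ∀ v C,
      pxd F v - r * C ∈ Y ⊔ Ideal.span {q} → pxd (E F) v - E r * C ∈ I := fun E hE h v C hC => by
    have h8 := h _ hC
    rw [map_sub, (hD E hE).1.leib] at h8
    convert I.add_mem (I.sub_mem h8 (der_pxd hJ (hD E hE).1 (hD E hE).2 v))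
      (I.mul_mem_right (E C) hrI) using 1
    ring
  obtain ⟨P, t, h8, h9, -, h10, h11⟩ := hY.euler
  let τ := (Ideal.Quotient.mkₐ K (Y ⊔ Ideal.span {q} ⊔ Ideal.span {r})).toLinearMap ∘ₗ pxd F
  have hτ : ∀ v ∈ LinearMap.ker τ, ∃ C : Pol N K, C.IsHomogeneous 1 ∧
      pxd F v - r * C ∈ Y ⊔ Ideal.span {q} := fun v hv =>
    hW.div hr ((show b + 4 = 1 + (b + 3) by omega) ▸ pxd_homog hF v)
      (Ideal.Quotient.eq_zero_iff_mem.1 hv)
  have h12 : LinearMap.ker τ = P := by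
    refine Submodule.eq_of_le_of_finrank_le (fun v hv => h9 v fun x h h' => ?_) ?_
    · by_contra hn
      obtain ⟨c, hc⟩ := px_norm h' hn
      obtain ⟨C, -, hC'⟩ := hτ _ (Submodule.smul_mem _ c hv)
      refine absurd (brk (y := 1) (a := C) fun p hp => ?_) (not_le.2 (n6.trans_le
        (hf_mono fun p _ hp => by rwa [mem_col, one_mul] at hp)))
      obtain ⟨E, h12, h13⟩ := hx x h h' p hp
      have h14 := hC E h12 (hA E h12 x h h' p h13) _ C hC'
      rw [h13, pxd_mul, hc] at h14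
      exact ⟨E r, (hD E h12).1.homog _ _ hr, by
        convert I.sub_mem h14 (I.mul_mem_right (pxd p (c • v)) (hYI h)) using 1
        ring⟩
    · have h12 := LinearMap.finrank_range_add_finrank_ker τ
      have h13 := Submodule.finrank_mono (s := LinearMap.range τ) (t := (Sd N K (b + 4) ⊓
          I.restrictScalars K).map (Ideal.Quotient.mkₐ K _).toLinearMap) (by
        rintro _ ⟨v, rfl⟩
        exact ⟨_, ⟨pxd_homog hF v, hJ (pxd_mem_jac F v)⟩, rfl⟩)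
      rw [finrank_fin_fun] at h12
      omega
  choose C hC1 hC2 using fun a => hτ (t a) (h12 ▸ h10 a)
  have h13 : ∀ a a', pxd q (t a') * C a - pxd q (t a) * C a' ∈ Y ⊔ Ideal.span {q} := fun a a' => by
    have h13 := ((pxd_homog (n := 1) hq (t a')).mul (hC1 a)).sub
      ((pxd_homog (n := 1) hq (t a)).mul (hC1 a'))
    refine h3 _ ?_ h13
    by_contra hn
    have h14 := (c2 _ h13 hn).1
    rw [hf_eq_zero.2 fun p hp => ?_] at h14
    · omega
    have h15 := fun a => hC _ (hΦ ⟨p, hp⟩) (hB _) _ _ (hC2 a)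
    simp only [hΦF, pxd_mul] at h15
    rw [mem_col]
    convert I.sub_mem (I.mul_mem_right (C a) (I.sub_mem (h15 a') (I.mul_mem_right (pxd p (t a'))
      hqI))) (I.mul_mem_right (C a') (I.sub_mem (h15 a) (I.mul_mem_right (pxd p (t a)) hqI)))
      using 1
    ring
  have h14 : (b + 4 + 1) • F - r * ∑ a, X a * C a ∈ Y ⊔ Ideal.span {q} := by
    convert Ideal.add_mem _ (Ideal.mem_sup_left (h11 _ F hF)) (Ideal.sum_mem _
      fun a (_ : a ∈ Finset.univ) => Ideal.mul_mem_left _ (X a) (hC2 a)) using 1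
    simp only [mul_sub, Finset.sum_sub_distrib, Finset.mul_sum, mul_left_comm r]
    ring
  obtain ⟨a, ha⟩ : ∃ a, pxd q (t a) ∉ Y := by
    by_contra! h
    exact hqY (mem_of_nsmul (n := 1) (by simpa using (Y.add_mem (h11 2 q hq) (Y.sum_mem
      fun a (_ : a ∈ Finset.univ) => Y.mul_mem_left (X a) (h a)))))
  have h15 : pxd q (t a) * ∑ a, X a * C a ∈ Y ⊔ Ideal.span {q} := by
    convert Ideal.sub_mem _ (Ideal.mul_mem_right (C a) _ (sup_mem 2 (Y.neg_mem_iff.1 (by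
      convert h11 2 q hq using 1
      ring)) : ∑ a, X a * pxd q (t a) ∈ _)) (Ideal.sum_mem _
      fun a' (_ : a' ∈ Finset.univ) => Ideal.mul_mem_left _ (X a') (h13 a a')) using 1
    simp only [mul_sub, Finset.sum_sub_distrib, Finset.mul_sum, Finset.sum_mul, mul_assoc,
      mul_left_comm (pxd q (t a))]
    ring
  have hl := pxd_homog (n := 1) hq (t a)
  obtain ⟨u, -, h16⟩ := hY.hg.div (n := 1) hq (hl.mul (IsHomogeneous.sum _ _ 2 fun a _ =>
    (isHomogeneous_X K a).mul (hC1 a))) h15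
  rcases hY.rel hl ha hq h16 with h | ⟨-, l, h17, h18, h19⟩
  · exact mem_of_nsmul ((Submodule.sub_mem_iff_left _ (Ideal.mul_mem_left _ r h)).1 h14)
  have h20 : Y ⊔ Ideal.span {q} ≤ Y ⊔ Ideal.span {l} := sup_le le_sup_left
    ((Ideal.span_singleton_le_iff_mem _).2 (sup_mem _ (mul_comm _ l ▸ h18)))
  have h21 := no_plane (k := k) (by omega) (hY.sup h17 fun h => hnI _ _ h17 h18 (hYI h))
    (mem_of_nsmul ((Submodule.sub_mem_iff_left _ (Ideal.mul_mem_left _ r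
      (sup_mem u h19))).1 (h20 h14))) hg (fun G h h' => (hs G h h').imp fun E hE => ⟨(hD E hE.1).1, hE.2⟩) h17
    (Ideal.mem_sup_right (Ideal.mem_span_singleton_self l))
  exact absurd (c1 l h17 (hnI _ _ h17 h18)).2.2 (not_lt.2 h21)

end Pool.Agent.Lib.MP_e9c0f3_ag.MC
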