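import Pool.Agent.Lib.MP_e9c0f3_ag.MC.Hodge
import Pool.Agent.Lib.MP_e9c0f3_ag.MC.GapE
import Pool.Agent.Lib.MP_e9c0f3_ag.MC.GapG

/-! The two smallest Hodge loci over the function field of the base. -/

open MvPolynomial Module

namespace Pool.Agent.Lib.MP_e9c0f3_ag.MC

variable {K : Type} [Field K] {N : ℕ}

theorem tangK_le {F β : Pol N K} {d : ℕ} (hd : 1 ≤ d) (hF : F.IsHomogeneous d) :
    tangK F β ≤ Sd N K d := by
  refine Submodule.span_le.2 ?_
  rintro _ (⟨δ, -, rfl⟩ | ⟨i, j, rfl⟩)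
  · exact cmap_isHomogeneous δ hF
  · have h := (isHomogeneous_X K i).mul (hF.pderiv (i := j))
    rwa [Nat.add_sub_cancel' hd] at h

theorem gap_low {F β : Pol N K} {d σ : ℕ} (hd : 1 ≤ d) (hF : F.IsHomogeneous d)
    {ρ : Pol N K →ₗ[K] K} (hρ : Conc ρ (σ + σ)) (hJ : ann ρ = jac F)
    (hB : ∀ I : Ideal (Pol N K), Hg I → jac F ≤ I → hf I (σ + 1) ≠ 0 →
      finrank K (Sd N K d) + 1 < finrank K (tangK F β) + hf I d)
    (z : Pol N K) {Q : Pol N K} {r : ℕ} (hr : r < σ) (hQ : Q.IsHomogeneous r)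
    (h : ∀ δ, Flt F β δ → ∃ a : K, cmap δ F * Q + a • z ∈ jac F) : Q ∈ jac F := by
  by_contra h0
  have h1 : Conc (sh ρ Q) (σ + σ - r) := Conc.sh (by rwa [Nat.sub_add_cancel (by omega)]) hQ
  have h2 := hB _ h1.hg (fun p hp => by
    rw [← col_ann, hJ]
    exact Ideal.mul_mem_left _ _ hp) fun h2 =>
      h1.hf_top (sh_ne_zero (hJ ▸ h0)) (hf_zero_of_le h2 (by omega))
  have h3 := tangK_le (β := β) hd hF
  have := Submodule.finiteDimensional_of_le h3
  let Θ := (Ideal.Quotient.mkₐ K (jac F)).toLinearMap ∘ₗ LinearMap.mulLeft K Q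
  have h4 := base_rank Θ (tangK F β)
  have h5 : finrank K ((tangK F β).map Θ) ≤ 1 := by
    refine (Submodule.finrank_mono (t := Submodule.span K {Ideal.Quotient.mkₐ K (jac F) z})
      ?_).trans (by simpa using finrank_span_le_card ({Ideal.Quotient.mkₐ K (jac F) z} : Set _))
    rintro _ ⟨G, hG, rfl⟩
    obtain ⟨δ, hδ, c, -, rfl⟩ := mem_tangK hG
    obtain ⟨a, ha⟩ := h δ hδ
    refine Submodule.mem_span_singleton.2 ⟨-a, ?_⟩
    rw [← map_smul]
    refine Ideal.Quotient.eq.2 ?_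
    convert (jac F).neg_mem ((jac F).add_mem ha
      ((jac F).mul_mem_left Q (H48.vf_mem_jac c F))) using 1
    rw [LinearMap.mulLeft_apply, neg_smul]
    ring
  have h6 : finrank K (tangK F β ⊓ LinearMap.ker Θ : Submodule K _) ≤
      finrank K (Sd N K d ⊓ (ann (sh ρ Q)).restrictScalars K : Submodule K _) :=
    Submodule.finrank_mono fun G hG => ⟨h3 hG.1, by
      rw [← col_ann, hJ]
      exact mem_col.2 ((Ideal.Quotient.eq_zero_iff_mem (I := jac F)).1 hG.2)⟩
  have h7 := hf_add (ann (sh ρ Q)) d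
  omega

theorem col_jd [CharZero K] {m : ℕ} {x g : Fin m → Pol (m + m) K}
    (hx : ∀ i, ∃ e, 0 < e ∧ (x i).IsHomogeneous e) (hg : ∀ i, ∃ e, 0 < e ∧ (g i).IsHomogeneous e)
    (hi : Isol (∑ i, x i * g i)) :
    col (jac (∑ i, x i * g i)) (H48.jd (Fin.append x g)) = lid (Sum.elim x g) := by
  refine le_antisymm (fun c hc => ?_) (Ideal.span_le.2 ?_)
  · obtain ⟨a, b, rfl⟩ := H48.ann_jd hx hg hi (mul_comm _ c ▸ mem_col.1 hc)
    exact Ideal.add_mem _
      (Ideal.sum_mem _ fun i _ => Ideal.mul_mem_left _ _ (Ideal.subset_span ⟨Sum.inl i, rfl⟩))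
      (Ideal.sum_mem _ fun i _ => Ideal.mul_mem_left _ _ (Ideal.subset_span ⟨Sum.inr i, rfl⟩))
  · rintro _ ⟨i | i, rfl⟩
    · exact mem_col.2 (mul_comm (x i) _ ▸ H48.vf_cof_right x g i ▸ H48.vf_mem_jac _ _)
    · exact mem_col.2 (mul_comm (g i) _ ▸ H48.vf_cof_left x g i ▸ H48.vf_mem_jac _ _)

theorem class_gap [CharZero K] {m σ d : ℕ} {x g : Fin m → Pol (m + m) K}
    {ρ : Pol (m + m) K →ₗ[K] K} (hd : 2 ≤ d) (hx : ∀ i, ∃ e, 0 < e ∧ (x i).IsHomogeneous e)
    (hg : ∀ i, ∃ e, 0 < e ∧ (g i).IsHomogeneous e) {F β b : Pol (m + m) K} (hi : Isol F)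
    (hF : F.IsHomogeneous d) (he : F = ∑ i, x i * g i)
    (hz : (H48.jd (Fin.append x g)).IsHomogeneous σ) (hdσ : d ≤ σ)
    (hρ : Conc ρ (σ + σ)) (hJ : ann ρ = jac F) (hβ : β ∈ lt _ K (σ + 1)) (h2 : b ∈ lt _ K (σ + 1))
    (h3 : Exact F (β - b)) (hle : lid (Sum.elim x g) ≤ ann (sh ρ (homogeneousComponent σ b)))
    (hB : ∀ I : Ideal (Pol (m + m) K), Hg I → jac F ≤ I → hf I (σ + 1) ≠ 0 →
      finrank K (Sd (m + m) K d) + 1 < finrank K (tangK F β) + hf I d) :
    ∃ c : K, Exact F (β - c • H48.jd (Fin.append x g)) ∧ ∀ δ, Flt F β δ → δ c = 0 := by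
  have hc := col_jd hx hg (he ▸ hi)
  have hfl := fun (δ : K →+ K) (hδ : ∀ a b, δ (a * b) = δ a * b + a * δ b) =>
    exact_iff.2 ⟨_, H48.jd_flat (cmap δ) (cmap_leibniz hδ) (cmap_pderiv δ) x g⟩
  rw [← he] at hc hfl
  generalize H48.jd (Fin.append x g) = z at hz hc hfl
  have hI : ann (sh ρ z) = lid (Sum.elim x g) := by rw [← col_ann, hJ, hc]
  have hz0 : ∀ a : K, a • z ∈ jac F → a = 0 := fun a ha => by
    by_contra h
    have h1 : z * 1 ∈ jac F := by
      have := Submodule.smul_of_tower_mem _ a⁻¹ ha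
      rwa [smul_smul, inv_mul_cancel₀ h, one_smul, ← mul_one z] at this
    have h2 : lid (Sum.elim x g) ≤ mx _ K := Ideal.span_le.2 (by
      rintro _ ⟨i | i, rfl⟩
      · exact reg_mem (hx i)
      · exact reg_mem (hg i))
    have h3 : mx (m + m) K ≤ RingHom.ker constantCoeff := Ideal.span_le.2 (by
      rintro _ ⟨i, rfl⟩
      simp)
    exact one_ne_zero ((map_one _).symm.trans (RingHom.mem_ker.1 (h3 (h2 (hc ▸ mem_col.2 h1)))))
  obtain ⟨c, h6⟩ := (hρ.sh hz).eq_smul (hρ.sh (homogeneousComponent_isHomogeneous σ b)) (hI ▸ hle)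
  have h7 : homogeneousComponent σ (b - c • z) ∈ jac F := by
    rw [map_sub, map_smul, homogeneousComponent_of_mem hz, if_pos rfl, ← hJ]
    intro q
    have := LinearMap.congr_fun h6 q
    rw [sh_apply, LinearMap.smul_apply, sh_apply] at this
    rw [sub_mul, map_sub, this, smul_mul_assoc, map_smul, sub_self]
  have hzl : ∀ a : K, a • z ∈ lt _ K (σ + 1) := fun a =>
    Submodule.smul_mem _ a (mem_lt_of_isHomogeneous hz σ.lt_succ_self)
  have h8 : ∀ b', Exact F (β - c • z - b') → ∀ δ, Flt F β δ →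
      Exact F (cmap δ b' + cmap δ F * b' + δ c • z) := fun b' hb' δ hδ => by
    have h8 : cmap δ (c • z) = δ c • z + c • cmap δ z := by
      ext n
      simp [coeff_cmap, hδ.1]
    convert (hδ.2.sub (conn_exact hδ.1 hb')).sub (exact_smul c (hfl δ hδ.1)) using 1
    rw [map_sub, map_sub, h8]
    simp only [smul_eq_C_mul]
    ring
  have h9 : Exact F (β - c • z) := by
    by_contra h9
    obtain ⟨s, h10, b', h11, h12, h13⟩ := min_rep hF _ _ ((lt _ K _).sub_mem hβ (hzl c)) h9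
    have hs : s < σ := by
      by_contra h
      obtain rfl : s = σ := by omega
      have h14 := top_mem hd hF hi (by omega) ((lt _ K _).sub_mem ((lt _ K _).sub_mem h2 (hzl c)) h11)
        (by convert h12.sub h3 using 1; ring)
      rw [map_sub] at h14
      exact h13 (by simpa using (jac F).sub_mem h7 h14)
    refine h13 (gap_low (by omega) hF hρ hJ hB z hs (homogeneousComponent_isHomogeneous s b')
      fun δ hδ => ?_)
    by_cases h : s + d < σ
    · refine ⟨0, by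
        rw [zero_smul, add_zero]
        refine tang_mul hd hF hi h11 ⟨hδ.1, ?_⟩
        have h14 := top_mem hd hF hi (by omega) ((lt _ K _).add_mem
          (lt_mono (by omega) (conn_lt hF h11)) (hzl (δ c))) (h8 b' h12 δ hδ)
        rw [map_add, tw2_hc_eq_zero (conn_lt hF h11) (by omega), zero_add, map_smul,
          homogeneousComponent_of_mem hz, if_pos rfl] at h14
        simpa [hz0 _ h14] using h8 b' h12 δ hδ⟩
    · have h14 := top_mem hd hF hi (by omega) ((lt _ K _).add_mem (conn_lt hF h11)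
        (lt_mono (by omega) (hzl (δ c)))) (h8 b' h12 δ hδ)
      rw [map_add, conn_top hd hF h11, map_smul, homogeneousComponent_of_mem hz] at h14
      split_ifs at h14
      · exact ⟨_, h14⟩
      · exact ⟨0, by rwa [zero_smul, ← smul_zero (δ c)]⟩
  refine ⟨c, h9, fun δ hδ => hz0 _ ?_⟩
  have h10 := top_mem hd hF hi (by omega) (hzl (δ c)) (by
    simpa using h8 0 (by simpa using h9) δ hδ)
  rwa [map_smul, homogeneousComponent_of_mem hz, if_pos rfl] at h10

theorem choose_gap (k b : ℕ) (hk : 2 ≤ k) :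
    k + 2 < (2 + k).choose k ∧ (k + 1) * (k + 1) + 2 * (k + 1) ≤
      (b + 3 + k).choose k + (2 + k).choose k := by
  have h1 : (3 + k).choose k ≤ (b + 3 + k).choose k := Nat.choose_le_choose k (by omega)
  have h2 := Nat.add_one_mul_choose_eq (k + 2) 2
  have h3 := Nat.add_one_mul_choose_eq (k + 1) 1
  rw [add_comm 3 k, Nat.choose_symm_add] at h1
  rw [Nat.choose_one_right] at h3
  rw [add_comm 2 k, Nat.choose_symm_add]
  change (k + 2) * (k + 1) = (k + 2).choose 2 * 2 at h3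
  change (k + 3) * (k + 2).choose 2 = (k + 3).choose 3 * 3 at h2
  have h4 : 5 * (k + 2).choose 2 ≤ (k + 3) * (k + 2).choose 2 := Nat.mul_le_mul_right _ (by omega)
  constructor <;> nlinarith

theorem choose_step {k : ℕ} (hk : 2 ≤ k) (t : ℕ) :
    (t + k).choose k + (t + k) ≤ (t + 1 + k).choose k := by
  obtain ⟨k, rfl⟩ : ∃ j, k = j + 1 := ⟨k - 1, by omega⟩
  have h : ∀ j, t + (j + 1 + 1) ≤ (t + (j + 1 + 1)).choose (j + 1) := fun j => by
    induction j with
    | zero => simp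
    | succ j ih =>
      have h1 := Nat.choose_pos (show j + 1 + 1 ≤ t + (j + 1 + 1) by omega)
      rw [← add_assoc t, Nat.choose_succ_succ']
      omega
  obtain ⟨k, rfl⟩ : ∃ j, k = j + 1 := ⟨k - 1, by omega⟩
  have h1 := h k
  rw [show t + 1 + (k + 1 + 1) = t + (k + 1 + 1) + 1 by omega, Nat.choose_succ_succ']
  omega

theorem choose_pas (k t : ℕ) :
    (t + 1 + (k + 1)).choose (k + 1) = (t + (k + 1)).choose (k + 1) + (t + 1 + k).choose k := by
  rw [← add_assoc, Nat.choose_succ_succ', add_comm, add_right_comm t, add_assoc t k]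

theorem col_low {k a r n : ℕ} {F : Pol N K} (ha : 1 ≤ a) (hr : r ≤ a)
    (hF : F.IsHomogeneous (a + 2)) (hi : Isol F) {μ : Pol N K →ₗ[K] K}
    (hμ : Conc μ (k * a + r + n)) (hJ : jac F ≤ ann μ) {y : Pol N K} (hy : y.IsHomogeneous n)
    (hn : y ∉ ann μ) (t : ℕ) : (t + k).choose k ≤ hf (col (ann μ) y) t +
      k * (if a + 1 ≤ t then (t - (a + 1) + k).choose k else 0) +
        if r + 1 ≤ t then (t - (r + 1) + k).choose k else 0 := by
  obtain ⟨Δ, h1, h2, h3⟩ := egh_down (d := a + 1) (by omega) (f := fun i => pderiv i F)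
    (fun i => hF.pderiv) hi (hμ.sh hy).hg fun j => by
      rw [← col_ann]
      exact Ideal.mul_mem_left _ _ (hJ (Ideal.subset_span ⟨j, rfl⟩))
  have h4 := Gap.down_one h1 ha hr h2 (h3 _ ▸ (hμ.sh hy).hf_top (sh_ne_zero hn)) t
  have h5 := Gap.box_gen k (a + 1) (r + 1) t
  rw [col_ann, h3]
  omega

theorem gap_big {k a : ℕ} {F : Pol N K} (hF : F.IsHomogeneous (a + 4)) (hi : Isol F)
    {μ : Pol N K →ₗ[K] K} (hμ : Conc μ ((k + 1) * (a + 2))) (hJ : jac F ≤ ann μ)
    (h : k + 2 ≤ hf (ann μ) 1) : (a + 4 + k).choose k + (a + 3 + k).choose k ≤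
      hf (ann μ) (a + 4) + (k + 1) ^ 2 + k + (2 + k).choose k := by
  obtain ⟨Δ, h1, h2, h3⟩ := egh_down (d := a + 3) (by omega) (f := fun i => pderiv i F)
    (fun i => hF.pderiv) hi hμ.hg fun j => hJ (Ideal.subset_span ⟨j, rfl⟩)
  have h4 : 1 * (a + 2) ≤ (k + 1) * (a + 2) := Nat.mul_le_mul_right _ (by omega)
  have h5 := Gap.gap_two h1 h2 (h3 _ ▸ hμ.hf_top fun h0 => by
    rw [hf_eq_zero.2 fun p _ q => by rw [h0, LinearMap.zero_apply]] at h
    omega) (s := (k + 1) * (a + 2) - 1) (by omega)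
    (by rw [← h3, ← hμ.hf_sym (i := 1) (by omega)]; omega)
  rwa [← h3] at h5

theorem quad_case [CharZero K] {k b : ℕ} (hk : 2 ≤ k) {F β : Pol (k + 1 + (k + 1)) K}
    (hF : F.IsHomogeneous (b + 5)) (hi : Isol F) {ρ μ : Pol (k + 1 + (k + 1)) K →ₗ[K] K}
    (hρ : Conc ρ ((k + 1) * (b + 3) + (k + 1) * (b + 3))) (hJ : ann ρ = jac F)
    (hμ : Conc μ ((k + 1) * (b + 3))) (h7 : jac F ≤ ann μ) (h8 : ∀ G ∈ tangK F β, G ∈ ann μ)
    (h9 : ∀ G ∈ ann μ, G.IsHomogeneous (b + 5) → G ∈ tangK F β) (h12 : k + 2 ≤ hf (ann μ) 1)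
    (hc : hf (ann μ) (b + 5) + (k + 1) ^ 2 + k + (2 + k).choose k ≤
      (b + 5 + k).choose k + (b + 4 + k).choose k) :
    ∃ (q r : Pol (k + 1 + (k + 1)) K) (x g : Fin k → Pol (k + 1 + (k + 1)) K),
      q.IsHomogeneous 2 ∧ r.IsHomogeneous (b + 3) ∧ (∀ i, (x i).IsHomogeneous 1) ∧
      (∀ i, (g i).IsHomogeneous (b + 4)) ∧ F = q * r + ∑ i, x i * g i ∧
      (H48.jd (Fin.append (Fin.cons q x : Fin (k + 1) → _)
        (Fin.cons r g : Fin (k + 1) → _))).IsHomogeneous ((k + 1) * (b + 3)) ∧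
      lid (Sum.elim (Fin.cons q x : Fin (k + 1) → _) (Fin.cons r g : Fin (k + 1) → _)) ≤ ann μ := by
  have hσ : 3 * (b + 3) ≤ (k + 1) * (b + 3) := Nat.mul_le_mul_right _ (by omega)
  obtain ⟨Δ, h1, h2, h3⟩ := egh_down (d := b + 4) (by omega) (f := fun i => pderiv i F)
    (fun i => hF.pderiv) hi hμ.hg fun j => h7 (Ideal.subset_span ⟨j, rfl⟩)
  obtain ⟨L, U⟩ := Gap.gap_three (b := b + 1) h1 h2 (h3 _ ▸ hμ.hf_top fun h0 => by
    rw [hf_eq_zero.2 fun p _ q => by rw [h0, LinearMap.zero_apply]] at h12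
    omega) (s := (k + 1) * (b + 3) - 1) (by change _ = (k + 1) * (b + 3); omega)
    (by rw [← h3, ← hμ.hf_sym (i := 1) (by omega)]; omega)
  simp only [← h3, add_assoc b, Nat.reduceAdd] at L U
  have g1 := Gap.box_gen k (b + 4) (b + 4)
  have g2 := Gap.box_gen k (b + 4) (b + 2)
  have u1 := Gap.box_up k (b + 4) (b + 4)
  have u2 := Gap.box_up k (b + 4) (b + 2)
  have e0 : (0 + k).choose k = 1 := by simp
  have e1 : (1 + k).choose k = k + 1 := by rw [add_comm, Nat.choose_succ_self_right]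
  have U' := fun j (hj : j ≤ b + 2) => (hμ.hf_sym (i := j + 1) (by omega)).trans_le (U (by
    have := g1 (b + 5)
    have := g2 (b + 4)
    simp only [show b + 4 ≤ b + 5 by omega, show b + 2 ≤ b + 4 by omega, le_refl, if_true,
      show b + 5 - (b + 4) = 1 by omega, show b + 4 - (b + 2) = 2 by omega, Nat.sub_self, e0,
      e1] at *
    nlinarith) j ((k + 1) * (b + 3) - 2 - j) (by omega) (by omega) (by omega))
  have s0 : _ ≤ (2 + k).choose k := choose_step hk 1
  have s1 : (2 + k).choose k ≤ (b + 2 + k).choose k := Nat.choose_le_choose k (by omega)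
  have s2 : _ ≤ (b + 3 + k).choose k := choose_step hk (b + 2)
  have s3 : _ ≤ (b + 4 + k).choose k := choose_step hk (b + 3)
  have a1 : hf (ann μ) 1 ≤ k + 2 := by
    have := U' 0 (by omega)
    have := u1 (0 + 1)
    have := u2 0
    simp only [zero_add, Nat.choose_self] at *
    omega
  have a2 : hf (ann μ) 2 = (2 + k).choose k + (k + 1) := by
    have := U' 1 (by omega)
    have := L 1
    have := u1 2
    have := u2 1
    have := g1 2
    have := g2 1
    simp only [show ¬ b + 4 ≤ 2 by omega, show ¬ b + 4 ≤ 1 by omega, show ¬ b + 2 ≤ 1 by omega,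
      if_false, Nat.reduceAdd] at *
    omega
  have a3 : hf (ann μ) (b + 3) + 1 = (b + 3 + k).choose k + (b + 2 + k).choose k := by
    have := U' (b + 2) le_rfl
    have := L (b + 2)
    have := u1 (b + 3)
    have := u2 (b + 2)
    have := g1 (b + 3)
    have := g2 (b + 2)
    simp only [show ¬ b + 4 ≤ b + 3 by omega, show ¬ b + 4 ≤ b + 2 by omega, le_refl, if_true,
      if_false, Nat.sub_self, e0, add_assoc b 2 1, Nat.reduceAdd] at *
    omega
  have a4 : (b + 4 + k).choose k + (b + 3 + k).choose k ≤ hf (ann μ) (b + 4) + (2 * k + 2) := by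
    have := L (b + 3)
    have := g1 (b + 4)
    have := g2 (b + 3)
    simp only [show ¬ b + 4 ≤ b + 3 by omega, show b + 2 ≤ b + 3 by omega, le_refl, if_true,
      if_false, Nat.sub_self, e0, show b + 3 - (b + 2) = 1 by omega, add_assoc b 3 1,
      Nat.reduceAdd] at *
    omega
  have hcol := fun r n (h : r + n = b + 3) y hy hn => col_low (k := k) (a := b + 3) (r := r)
    (n := n) (y := y) (by omega) (by omega) hF hi (by rwa [add_assoc (k * _), h, ← add_one_mul k]) h7 hy hn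
  obtain ⟨Y, hY, hYI, q, hqI, hq, h13⟩ := quad_step (k := k) (b := b) (by omega) hμ.hg hF h7
    {E | ∃ δ, Flt F β δ ∧ ∃ c : Fin _ → Pol _ K, (∀ i, (c i).IsHomogeneous 1) ∧ E = dvf δ c}
    (by
      rintro _ ⟨δ, hδ, c, hc, rfl⟩
      exact ⟨dvf_der hδ.1 hc, fun a => h7 (dvf_pderiv c a)⟩)
    (fun G hG hG' => by
      obtain ⟨δ, hδ, c, hc, rfl⟩ := mem_tangK (h9 G hG hG')
      exact ⟨_, ⟨δ, hδ, c, hc, rfl⟩, rfl⟩)
    (by
      rintro _ ⟨δ, hδ, c, -, rfl⟩ _ ⟨δ', hδ', c', -, rfl⟩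
      simpa using Ideal.add_mem _ (h7 (dvf_bracket hδ.1 hδ'.1 c c'))
        (h8 _ (Submodule.subset_span (Or.inl ⟨_, hδ.bracket hδ', rfl⟩))))
    (by omega)
    (by
      rw [choose_pas k 1, choose_pas k 0, zero_add, Nat.choose_self]
      change _ = 1 + (1 + k).choose k + (2 + k).choose k
      omega)
    (by
      rw [choose_pas k (b + 2), choose_pas k (b + 1)]
      change _ < _ + (b + 2 + k).choose k + (b + 3 + k).choose k
      omega)
    (by
      rw [choose_pas k (b + 3), choose_pas k (b + 2)]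
      change _ + (b + 3 + k).choose k + (b + 4 + k).choose k ≤ _
      omega)
    (by omega) (by omega)
    (fun y hy hn => by
      have := hcol (b + 2) 1 rfl y hy hn (b + 4)
      have := hcol (b + 2) 1 rfl y hy hn (b + 2)
      simp only [show b + 2 + 1 ≤ b + 4 by omega, show ¬ b + 3 + 1 ≤ b + 2 by omega,
        show ¬ b + 2 + 1 ≤ b + 2 by omega, le_refl, if_true, if_false, Nat.sub_self, e0,
        show b + 4 - (b + 2 + 1) = 1 by omega, add_assoc b 4 1, Nat.reduceAdd, sq] at *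
      omega)
    (fun y hy hn => by
      have := hcol (b + 1) 2 rfl y hy hn (b + 3)
      simp only [show b + 1 + 1 ≤ b + 3 by omega, show ¬ b + 3 + 1 ≤ b + 3 by omega, if_true,
        if_false, show b + 3 - (b + 1 + 1) = 1 by omega] at this
      refine ⟨by omega, fun u hu hn' => ?_⟩
      have := hcol 0 (b + 3) (zero_add _) u hu hn' 2
      simp only [show ¬ b + 3 + 1 ≤ 2 by omega, show 0 + 1 ≤ 2 by omega, if_true, if_false,
        show 2 - (0 + 1) = 1 by omega] at this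
      omega)
  obtain ⟨r, hr, h14⟩ := hY.hg.div (n := b + 3) hq hF h13
  obtain ⟨x, hx, rfl⟩ := hY.gens
  obtain ⟨c, hc'⟩ := px_mem_lid.1 h14
  have h15 := H48.hom_dec hx (hF.sub ((show 2 + (b + 3) = b + 5 by omega) ▸ hq.mul hr)) hc'.symm
  simp only [show 1 ≤ b + 5 by omega, if_true, mul_comm (homogeneousComponent _ _)] at h15
  obtain ⟨g, hg, h16⟩ : ∃ g : Fin k → Pol (k + 1 + (k + 1)) K,
      (∀ i, (g i).IsHomogeneous (b + 4)) ∧ F = q * r + ∑ i, x i * g i :=
    ⟨_, fun i => homogeneousComponent_isHomogeneous _ _, eq_add_of_sub_eq' h15⟩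
  have hy : ∀ o, (Sum.elim (Fin.cons q x : Fin (k + 1) → _) (Fin.cons r g : Fin (k + 1) → _)
      o).IsHomogeneous (Sum.elim (Fin.cons 2 fun _ => 1 : Fin (k + 1) → ℕ)
        (Fin.cons (b + 3) fun _ => b + 4 : Fin (k + 1) → ℕ) o) := by
    rintro (i | i)
    · exact Fin.cases hq hx i
    · exact Fin.cases hr hg i
  have h17 : F = ∑ i, (Fin.cons q x : Fin (k + 1) → _) i * (Fin.cons r g : Fin (k + 1) → _) i := by
    rw [h16, Fin.sum_univ_succ]
    rfl
  have hz : (H48.jd (Fin.append (Fin.cons q x : Fin (k + 1) → _)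
      (Fin.cons r g : Fin (k + 1) → _))).IsHomogeneous ((k + 1) * (b + 3)) := by
    have := H48.jd_homog (P := Fin.append (Fin.cons q x : Fin (k + 1) → _)
      (Fin.cons r g : Fin (k + 1) → _)) (n := Fin.append (Fin.cons 2 fun _ => 1 : Fin (k + 1) → ℕ)
        (Fin.cons (b + 3) fun _ => b + 4 : Fin (k + 1) → ℕ)) fun i => by
      refine Fin.addCases (fun j => ?_) (fun j => ?_) i
      · rw [Fin.append_left, Fin.append_left]
        exact hy (Sum.inl j)
      · rw [Fin.append_right, Fin.append_right]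
        exact hy (Sum.inr j)
    rw [Fin.sum_univ_add] at this
    simp only [Fin.append_left, Fin.append_right, Fin.sum_univ_succ, Fin.cons_zero,
      Fin.cons_succ] at this
    convert this using 1
    simp
    ring
  refine ⟨q, r, x, g, hq, hr, hx, hg, h16, hz, ?_⟩
  have h18 := col_jd (x := Fin.cons q x) (g := Fin.cons r g)
    (fun i => Fin.cases ⟨2, two_pos, hq⟩ (fun i => ⟨1, one_pos, hx i⟩) i)
    (fun i => Fin.cases ⟨_, by omega, hr⟩ (fun i => ⟨_, by omega, hg i⟩) i) (h17 ▸ hi)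
  rw [← h17, ← hJ, col_ann] at h18
  have h19 := gap_big (a := b + 1) hF hi (hρ.sh hz) (fun p hp => by
    rw [← col_ann, hJ]
    exact Ideal.mul_mem_left _ _ hp) (by
      rw [h18]
      refine le_trans ?_ (hf_mono (I' := lid x) fun l hl hm => ?_)
      · rw [hY.hf (j := k + 1) (by omega), add_comm 1, Nat.choose_succ_self_right]
      obtain ⟨a, ha⟩ := Ideal.mem_span_range_iff_exists_fun.1 hm
      rw [H48.hom_dec hy hl ha.symm]
      refine Ideal.sum_mem _ ?_
      rintro (i | i) -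
      · refine Fin.cases (by simp) (fun i => Ideal.mul_mem_left _ _ (px_x_mem x i)) i
      · refine Fin.cases (by simp) (fun i => by simp) i)
  rw [h18] at h19
  refine Ideal.span_le.2 ?_
  rintro _ ⟨o, rfl⟩
  by_contra hn
  have h20 : Sum.elim (Fin.cons 2 fun _ => 1 : Fin (k + 1) → ℕ)
      (Fin.cons (b + 3) fun _ => b + 4 : Fin (k + 1) → ℕ) o ≤ b + 5 := by
    rcases o with i | i <;> exact Fin.cases (by simp) (fun _ => by simp) i
  obtain ⟨u, h21, h22⟩ := hμ.exists_mul (hy o) hn ((Nat.add_sub_cancel' h20).trans_le (by omega))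
  refine h22 (mem_of_hf (n := b + 5) (I := lid (Sum.elim (Fin.cons q x : Fin (k + 1) → _)
    (Fin.cons r g : Fin (k + 1) → _))) (fun G hG hG' => ?_) (by
    change (b + 5 + k).choose k + (b + 4 + k).choose k ≤ hf _ (b + 5) + _ + _ + _ at h19
    omega) (Ideal.mul_mem_right _ _ (Ideal.subset_span ⟨o, rfl⟩))
    (Nat.add_sub_cancel' h20 ▸ (hy o).mul h21))
  obtain ⟨δ, hδ, c, h23, rfl⟩ := mem_tangK (h9 G hG hG')
  rw [← dvf_apply, h17, map_sum]
  refine Ideal.sum_mem _ fun i _ => ?_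
  rw [(dvf_der hδ.1 h23).leib]
  exact Ideal.add_mem _ (Ideal.mul_mem_left _ _ (Ideal.subset_span ⟨Sum.inr i, rfl⟩))
    (Ideal.mul_mem_right _ _ (Ideal.subset_span ⟨Sum.inl i, rfl⟩))

theorem generic2 [CharZero K] {k d : ℕ} (hk : 2 ≤ k) (hd : 4 ≤ d)
    {F β : Pol (k + 1 + (k + 1)) K} (hF : F.IsHomogeneous d) (hi : Isol F)
    (hβ : β ∈ lt _ K ((k + 1) * (d - 2) + 1)) (h0 : ¬ Exact F β)
    (hc : (d + (2 * k + 1)).choose d + (k + 1) ^ 2 + k + (k + 2).choose 2 ≤
      finrank K (tangK F β) + (d + k).choose k + (d - 1 + k).choose k)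
    (hc' : d = 4 → (d + (2 * k + 1)).choose d + (k + 1) ^ 2 + k + (k + 2).choose 2 <
      finrank K (tangK F β) + (d + k).choose k + (d - 1 + k).choose k) :
    ∃ (n : ℕ) (c : K) (q r : Pol (k + 1 + (k + 1)) K) (x g : Fin k → Pol (k + 1 + (k + 1)) K),
      (n = 1 ∨ n = 2 ∧ finrank K (tangK F β) + (d + k).choose k + (d - 1 + k).choose k ≤
        (d + (2 * k + 1)).choose d + (k + 1) ^ 2 + k + (k + 2).choose 2) ∧
      q.IsHomogeneous n ∧ r.IsHomogeneous (d - n) ∧ (∀ i, (x i).IsHomogeneous 1) ∧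
      (∀ i, (g i).IsHomogeneous (d - 1)) ∧ F = q * r + ∑ i, x i * g i ∧
      Exact F (β - c • H48.jd (Fin.append (Fin.cons q x : Fin (k + 1) → _)
        (Fin.cons r g : Fin (k + 1) → _))) ∧ ∀ δ, Flt F β δ → δ c = 0 := by
  obtain ⟨a, rfl⟩ : ∃ a, d = a + 4 := ⟨d - 4, by omega⟩
  change β ∈ lt _ K ((k + 1) * (a + 2) + 1) at hβ
  obtain ⟨ρ, -, hρ, hJ⟩ := exists_soc (y := fun i => pderiv i F) (n := fun _ => a + 2)
    (fun i => hF.pderiv) hi
  rw [Finset.sum_const, Finset.card_univ, Fintype.card_fin, smul_eq_mul, add_mul] at hρ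
  change _ = jac F at hJ
  have h10 : finrank K (Sd (k + 1 + (k + 1)) K (a + 4)) = (a + 4 + (2 * k + 1)).choose (a + 4) := by
    rw [Nat.choose_symm_add, show 2 * k + 1 = k + 1 + k by omega]
    exact finrank_Sd (k + 1 + k) K (a + 4)
  rw [← h10, ← Nat.choose_symm_add (a := k), add_comm k 2, show a + 4 - 1 = a + 3 from rfl]
    at hc hc' ⊢
  obtain ⟨n1, n2⟩ := choose_gap k a hk
  have hE := fun (I : Ideal (Pol (k + 1 + (k + 1)) K)) (h1 : Hg I) (h2 : jac F ≤ I) =>
    egh_down (d := a + 3) (by omega) (f := fun i => pderiv i F) (fun i => hF.pderiv) hi h1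
      fun j => h2 (Ideal.subset_span ⟨j, rfl⟩)
  have hB : ∀ I : Ideal (Pol (k + 1 + (k + 1)) K), Hg I → jac F ≤ I →
      hf I ((k + 1) * (a + 2) + 1) ≠ 0 →
      finrank K (Sd (k + 1 + (k + 1)) K (a + 4)) + 1 < finrank K (tangK F β) + hf I (a + 4) :=
    fun I h1 h2 h3 => by
      obtain ⟨Δ, h4, h5, h6⟩ := hE I h1 h2
      rw [h6] at h3
      have h7 : (a + 4 + k).choose k + (a + 3 + k).choose k ≤ _ :=
        Gap.gap_one h4 (a := a + 2) (by omega) h5 h3
      rw [← h6, show a + 2 + 2 = a + 4 from rfl] at h7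
      omega
  have hσ : 3 * (a + 2) ≤ (k + 1) * (a + 2) := Nat.mul_le_mul_right _ (by omega)
  obtain ⟨r, h1, b, h2, h3, h4⟩ := min_rep hF _ β hβ h0
  have hP := homogeneousComponent_isHomogeneous r b
  have h5 := fun δ (hδ : Flt F β δ) => tang_mul (by omega) hF hi h2 (hδ.congr h3)
  obtain rfl : r = (k + 1) * (a + 2) := by
    by_contra h
    exact h4 (gap_low (by omega) hF hρ hJ hB 0 (by omega) hP fun δ hδ =>
      ⟨0, by simpa using h5 δ hδ⟩)
  have hμ := hρ.sh hP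
  have hμ0 := sh_ne_zero (hJ ▸ h4)
  have h7 : jac F ≤ ann (sh ρ (homogeneousComponent ((k + 1) * (a + 2)) b)) := fun p hp => by
    rw [← col_ann, hJ]
    exact Ideal.mul_mem_left _ _ hp
  have h8 : tangK F β ≤ Sd _ K (a + 3 + 1) ⊓
      (ann (sh ρ (homogeneousComponent ((k + 1) * (a + 2)) b))).restrictScalars K := by
    refine le_inf (tangK_le (by omega) hF) fun G hG => ?_
    obtain ⟨δ, hδ, c, -, rfl⟩ := mem_tangK hG
    refine Ideal.add_mem _ ?_ (h7 (H48.vf_mem_jac c F))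
    rw [← col_ann, hJ, mem_col, mul_comm]
    exact h5 δ hδ
  have hcl := fun x g hx hg he hz hle => class_gap (σ := (k + 1) * (a + 2)) (x := x) (g := g)
    (by omega) hx hg hi hF he hz (by omega) hρ hJ hβ h2 h3 hle hB
  generalize sh ρ (homogeneousComponent ((k + 1) * (a + 2)) b) = μ at hμ hμ0 h7 h8 hcl
  have h9 := hf_add (ann μ) (a + 3 + 1)
  have h11 := Submodule.finrank_mono h8
  rcases lt_or_ge (k + 1) (hf (ann μ) 1) with h12 | h12
  · have h13 := gap_big hF hi hμ h7 h12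
    change hf (ann μ) (a + 4) + _ = finrank K (Sd _ K (a + 4)) at h9
    obtain ⟨a, rfl⟩ : ∃ a', a = a' + 1 := ⟨a - 1, by omega⟩
    obtain ⟨q, r, x, g, h14, h15, h16, h17, h18, h19, h20⟩ := quad_case hk hF hi hρ hJ hμ h7
      (fun G hG => (h8 hG).2) (fun G hG hG' =>
        (Submodule.eq_of_le_of_finrank_le h8 (by omega)).ge ⟨hG', hG⟩) h12 (by
        change hf (ann μ) (a + 1 + 4) + _ + _ + _ ≤ (a + 1 + 4 + k).choose k +
          (a + 1 + 3 + k).choose k
        omega)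
    obtain ⟨c, h22, h23⟩ := hcl _ _ (fun i => Fin.cases ⟨2, two_pos, h14⟩
      (fun i => ⟨1, one_pos, h16 i⟩) i) (fun i => Fin.cases ⟨_, a.succ_pos.trans_le (by omega), h15⟩
      (fun i => ⟨_, a.succ_pos.trans_le (by omega), h17 i⟩) i)
      (h18.trans (Fin.sum_univ_succ fun i => (Fin.cons q x : Fin (k + 1) → _) i *
        (Fin.cons r g : Fin (k + 1) → _) i).symm) h19 h20
    exact ⟨2, c, q, r, x, g, Or.inr ⟨rfl, by omega⟩, h14, h15, h16, h17, h18, h22, h23⟩
  obtain ⟨⟨x, w, hl⟩, h13, h14⟩ := ci_case (e := a + 3) (by omega) hμ hμ0 (fun i => by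
    obtain ⟨M, hM⟩ := hi i
    refine ⟨M, Ideal.span_mono ?_ hM⟩
    rintro _ ⟨j, rfl⟩
    exact ⟨h7 (Ideal.subset_span ⟨j, rfl⟩), hF.pderiv⟩) h12
  rw [show a + 3 + 1 = a + 4 from rfl] at h14
  rw [sq] at h14 hc
  obtain ⟨g, h17, h18, h19⟩ := hl.split hF h7 (hl.gap (by omega) hF h7 h8 (fun G hG => by
    obtain ⟨δ, hδ, c, h15, rfl⟩ := mem_tangK hG
    exact ⟨_, dvf_der hδ.1 h15, rfl, fun a => h7 (dvf_pderiv c a)⟩) h12
    (by rw [show a + 3 + 1 = a + 4 from rfl]; omega)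
    (by rw [show a + 3 + 1 = a + 4 from rfl]; omega))
  obtain ⟨c, h22, h23⟩ := hcl x g (fun i => ⟨1, one_pos, hl.hx i⟩)
    (fun i => ⟨_, by omega, h17 i⟩) h18 (cyc_homog (d := a + 4) (by omega) hl.hx h17)
    (Ideal.span_le.2 (by
    rintro _ ⟨i | i, rfl⟩
    · exact hl.le (px_x_mem x i)
    · exact h19 i))
  exact ⟨1, c, x 0, g 0, Fin.tail x, Fin.tail g, Or.inl rfl, hl.hx 0, h17 0, fun i => hl.hx _,
    fun i => h17 _, h18.trans (Fin.sum_univ_succ _), by rwa [Fin.cons_self_tail,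
      Fin.cons_self_tail], h23⟩

end Pool.Agent.Lib.MP_e9c0f3_ag.MC
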