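import Pool.Agent.Lib.MP_e9c0f3_ag.MC.Main
import Pool.Agent.Lib.MP_e9c0f3_ag.MC.GapC

/-! Assembly of the theorem on the two smallest Hodge loci. -/

open MvPolynomial Module

namespace Pool.Agent.Lib.MP_e9c0f3_ag.MC

theorem gap_has {R : Type} [CommRing R] {k d n : ℕ} {c : R} {F β : H48.PS k R} :
    H48.Has d (fun _ : Fin 1 => n) (fun _ => c) F β ↔
      ∃ (q r : H48.PS k R) (x g : Fin k → H48.PS k R), q.IsHomogeneous n ∧
        r.IsHomogeneous (d - n) ∧ (∀ i, (x i).IsHomogeneous 1) ∧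
        (∀ i, (g i).IsHomogeneous (d - 1)) ∧ F = q * r + ∑ i, x i * g i ∧
        Exact F (β - c • H48.jd (Fin.append (Fin.cons q x : Fin (k + 1) → _)
          (Fin.cons r g : Fin (k + 1) → _))) := by
  have h1 : ∀ (x g : Fin k → H48.PS k R) (f : Fin 1 → H48.PS k R) (r : H48.PS k R),
      H48.cmb x g f r (fun _ => c) = c • H48.jd (Fin.append (Fin.cons (f 0) x : Fin (k + 1) → _)
        (Fin.cons r g : Fin (k + 1) → _)) := fun x g f r => by
    have h2 : (Finset.univ : Finset (Fin 1)).erase 0 = ∅ := rfl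
    rw [H48.cmb, Fin.sum_univ_one, H48.cyc, h2, Finset.prod_empty, one_mul]
  constructor
  · rintro ⟨x, g, f, r, hs, he⟩
    refine ⟨f 0, r, x, g, hs.hf 0, by simpa using hs.hr, hs.hx, hs.hg, ?_, h1 x g f r ▸ he⟩
    rw [hs.eq, Fin.prod_univ_one]
    exact add_comm _ _
  · rintro ⟨q, r, x, g, hq, hr, hx, hg, hF, he⟩
    refine ⟨x, g, fun _ => q, r, ⟨hx, hg, fun _ => hq, by simpa using hr, ?_⟩, h1 x g _ r ▸ he⟩
    rw [hF, Fin.prod_univ_one]
    exact add_comm _ _

theorem main2 (k d : ℕ) (hk : 2 ≤ k) (hd : 3 ≤ d) (hkd : ¬ (k = 2 ∧ d = 3))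
    (A : Type) [CommRing A] [IsDomain A] [Algebra ℂ A] [Algebra.Smooth ℂ A]
    (F β : MvPolynomial (Fin (k + 1 + (k + 1))) A) (hF : F.IsHomogeneous d)
    (hs : ∀ (s : A →ₐ[ℂ] ℂ) (z : Fin (k + 1 + (k + 1)) → ℂ),
      (∀ i, eval z (pderiv i (map (s : A →+* ℂ) F)) = 0) → z = 0)
    (hβ : β.totalDegree ≤ (k + 1) * (d - 2))
    (hflat : ∀ D : Derivation ℂ A A, Exact F (coeffMap D β + coeffMap D F * β))
    (s₀ : A →ₐ[ℂ] ℂ) (h0 : ¬ Exact (map (s₀ : A →+* ℂ) F) (map (s₀ : A →+* ℂ) β)) :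
    finrank ℂ (tang F s₀) + (d + k).choose k ≤ (d + (2 * k + 1)).choose d + (k + 1) ^ 2 ∧
      (finrank ℂ (tang F s₀) + (d + k).choose k = (d + (2 * k + 1)).choose d + (k + 1) ^ 2 ∨
          (d + (2 * k + 1)).choose d + (k + 1) ^ 2 + k + (k + 2).choose 2 <
            finrank ℂ (tang F s₀) + (d + k).choose k + (d - 1 + k).choose k ∨
          5 ≤ d ∧ finrank ℂ (tang F s₀) + (d + k).choose k + (d - 1 + k).choose k =
            (d + (2 * k + 1)).choose d + (k + 1) ^ 2 + k + (k + 2).choose 2 →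
        ∃ (n : ℕ) (c : ℂ), (n = 1 ∨ n = 2 ∧
            finrank ℂ (tang F s₀) + (d + k).choose k + (d - 1 + k).choose k =
              (d + (2 * k + 1)).choose d + (k + 1) ^ 2 + k + (k + 2).choose 2) ∧
          ∀ s : A →ₐ[ℂ] ℂ, ∃ (q r : MvPolynomial (Fin (k + 1 + (k + 1))) ℂ)
            (x g : Fin k → MvPolynomial (Fin (k + 1 + (k + 1))) ℂ),
            q.IsHomogeneous n ∧ r.IsHomogeneous (d - n) ∧ (∀ i, (x i).IsHomogeneous 1) ∧
            (∀ i, (g i).IsHomogeneous (d - 1)) ∧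
            map (s : A →+* ℂ) F = q * r + ∑ i, x i * g i ∧
            Exact (map (s : A →+* ℂ) F) (map (s : A →+* ℂ) β - c • H48.jd
              (Fin.append (Fin.cons q x : Fin (k + 1) → _) (Fin.cons r g : Fin (k + 1) → _)))) := by
  obtain ⟨g1, g2⟩ := main k d hk hd hkd A F β hF hs hβ hflat s₀ h0
  refine ⟨g1, fun he => he.elim (fun he => (g2 he).elim fun c hc =>
    ⟨1, c, Or.inl rfl, fun s => gap_has.1 (main_has.2 (hc s))⟩) fun he => ?_⟩
  have hd4 : 4 ≤ d := by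
    by_contra h
    obtain rfl : d = 3 := by omega
    rw [show 3 - 1 + k = k + 2 by omega, Nat.choose_symm_add (a := k)] at he
    omega
  have hφ : Function.Injective (algebraMap A (FractionRing A)) := IsFractionRing.injective _ _
  have : CharZero (FractionRing A) :=
    ((algebraMap A (FractionRing A)).comp (algebraMap ℂ A)).charZero_iff (RingHom.injective _) |>.1
      inferInstance
  have i0 := isol_of_smooth (hs s₀)
  choose δ hδ hδa hδp using fun D => main_flt (K := FractionRing A) D (hflat D)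
  have h1 : finrank ℂ (tang F s₀) ≤ finrank (FractionRing A)
      (tangK (map (algebraMap A (FractionRing A)) F) (map (algebraMap A (FractionRing A)) β)) := by
    let S : Set (Pol (k + 1 + (k + 1)) A) :=
      {p | ∃ D : Derivation ℂ A A, p = coeffMap D F} ∪ {p | ∃ i j, p = X i * pderiv j F}
    have hS : ∀ p ∈ S, p.IsHomogeneous d := by
      rintro _ (⟨D, rfl⟩ | ⟨i, j, rfl⟩)
      · exact cmap_isHomogeneous (D : A →+ A) hF
      · exact main_hom (by omega) hF i j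
    have h2 : tang F s₀ ≤ Submodule.span ℂ (map (s₀ : A →+* ℂ) '' S) := by
      refine Submodule.span_mono ?_
      rintro _ (⟨D, rfl⟩ | ⟨i, j, rfl⟩)
      · exact ⟨_, Or.inl ⟨D, rfl⟩, rfl⟩
      · exact ⟨_, Or.inr ⟨i, j, rfl⟩, by rw [map_mul, map_X, pderiv_map]⟩
    have h3 : tangK (map (algebraMap A (FractionRing A)) F)
        (map (algebraMap A (FractionRing A)) β) ≤ Sd _ _ d := by
      refine Submodule.span_le.2 ?_
      rintro _ (⟨D, -, rfl⟩ | ⟨i, j, rfl⟩)
      · exact cmap_isHomogeneous D (hF.map _)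
      · exact main_hom (by omega) (hF.map _) i j
    have i1 := Submodule.finiteDimensional_of_le h3
    have i2 := Submodule.finiteDimensional_of_le (spec_span_le (s₀ : A →+* ℂ) hS)
    refine (Submodule.finrank_mono h2).trans ((finrank_generic hφ s₀ hS).trans
      (Submodule.finrank_mono (Submodule.span_mono ?_)))
    rintro _ ⟨_, ⟨D, rfl⟩ | ⟨i, j, rfl⟩, rfl⟩
    · exact Or.inl ⟨δ D, hδ D, hδp D F⟩
    · exact Or.inr ⟨i, j, by rw [map_mul, map_X, pderiv_map]⟩
  obtain ⟨n, c, q, r, x, g, hn, hq, hr, hx, hg, h4, h5, h6⟩ := generic2 hk hd4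
    (hF.map (algebraMap A (FractionRing A)))
    (isol_generic hφ s₀ (by omega) hF i0)
    (map_mem_lt _ (mem_lt_of_totalDegree (Nat.lt_succ_of_le hβ)))
    (fun h => h0 (exact_special hφ s₀ (by omega) hF i0 h)) (by omega) (by omega)
  obtain ⟨⟨a, b, hb⟩, hc⟩ := IsLocalization.surj (nonZeroDivisors A) c
  have hb0 : b ≠ 0 := nonZeroDivisors.ne_zero hb
  obtain ⟨c₀, h7⟩ := const_of_der (a := a) hb0 fun D => hφ (by
    have h8 := congrArg (δ D) hc
    rw [(hδ D).1, h6 _ (hδ D), zero_mul, zero_add, hδa, hδa] at h8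
    rw [map_mul, map_mul, ← h8, ← hc]
    ring)
  have h9 : c = algebraMap A (FractionRing A) (algebraMap ℂ A c₀) := by
    refine mul_right_cancel₀ ((map_ne_zero_iff _ hφ).2 hb0) ?_
    rw [← map_mul, ← h7]
    exact hc
  rw [h9] at h5
  exact ⟨n, c₀, by omega, fun s => gap_has.1 (H48.Has.specialize (α := fun _ => c₀)
    (by simp; omega) hφ hF (gap_has.2 ⟨q, r, x, g, hq, hr, hx, hg, h4, h5⟩) s
    (isol_of_smooth (hs s)))⟩

end Pool.Agent.Lib.MP_e9c0f3_ag.MC
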