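import Pool.Agent.Lib.MP_e9c0f3_ag.MC.Base

/-! Annihilators of homogeneous functionals. -/

open MvPolynomial Module

namespace Pool.Agent.Lib.MP_e9c0f3_ag.MC

variable {K : Type} [Field K] {N : ℕ}
variable {I I' : Ideal (Pol N K)} {n : ℕ} {μ : Pol N K →ₗ[K] K} {σ : ℕ} {p : Pol N K}

/-- A functional that kills all products of `p` with forms kills all multiples of `p`. -/
theorem ann_aux1 (h : ∀ j, ∀ b : Pol N K, b.IsHomogeneous j → μ (p * b) = 0) : p ∈ ann μ := by
  intro b
  rw [← sum_homogeneousComponent b, Finset.mul_sum, map_sum]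
  exact Finset.sum_eq_zero fun j _ => h j _ (homogeneousComponent_isHomogeneous j b)

/-- Only one component of `p` is seen in the product with a form. -/
theorem ann_aux2 (h : Conc μ σ) {i j : ℕ} (hij : i + j = σ) (p : Pol N K) {b : Pol N K}
    (hb : b.IsHomogeneous j) : μ (homogeneousComponent i p * b) = μ (p * b) := by
  conv_rhs => rw [← sum_homogeneousComponent p, Finset.sum_mul, map_sum]
  rw [Finset.sum_eq_single i]
  · intro m _ hm
    exact h (m + j) (by omega) _ ((homogeneousComponent_isHomogeneous m p).mul hb)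
  · intro hi
    rw [homogeneousComponent_eq_zero, zero_mul, map_zero]
    rw [Finset.mem_range] at hi
    omega

theorem ann_aux3 (h : Conc μ σ) (p : Pol N K) : μ (homogeneousComponent σ p) = μ p := by
  have := ann_aux2 h (Nat.add_zero σ) p (isHomogeneous_one (Fin N) K)
  rwa [mul_one, mul_one] at this

theorem Conc.hg (h : Conc μ σ) : Hg (ann μ) := by
  intro p hp m
  refine ann_aux1 fun j b hb => ?_
  by_cases hj : m + j = σ
  · rw [ann_aux2 h hj p hb]
    exact hp b
  · exact h _ hj _ ((homogeneousComponent_isHomogeneous m p).mul hb)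

theorem col_ann : col (ann μ) p = ann (sh μ p) := by
  ext a
  rw [mem_col, mem_ann, mem_ann]
  refine forall_congr' fun b => ?_
  rw [sh_apply, mul_assoc]

theorem Conc.sh (h : Conc μ (σ + n)) (hp : p.IsHomogeneous n) : Conc (sh μ p) σ := by
  intro m hm q hq
  rw [sh_apply]
  exact h (n + m) (by omega) _ (hp.mul hq)

theorem sh_ne_zero (hp : p ∉ ann μ) : sh μ p ≠ 0 := by
  intro h0
  refine hp fun b => ?_
  rw [← sh_apply, h0, LinearMap.zero_apply]

theorem Conc.mem_ann_iff (h : Conc μ σ) {i j : ℕ} (hp : p.IsHomogeneous i) (hij : i + j = σ) :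
    p ∈ ann μ ↔ ∀ b : Pol N K, b.IsHomogeneous j → μ (p * b) = 0 := by
  refine ⟨fun hm b _ => hm b, fun hb => ann_aux1 fun m b hm => ?_⟩
  by_cases hj : m = j
  · exact hb b (hj ▸ hm)
  · exact h (i + m) (by omega) _ (hp.mul hm)

theorem Conc.mem_ann (h : Conc μ σ) (hp : p.IsHomogeneous n) (hn : σ < n) : p ∈ ann μ :=
  ann_aux1 fun m _ hm => h (n + m) (by omega) _ (hp.mul hm)

theorem ann_aux4 (h : Conc μ σ) {i j : ℕ} (hij : i + j = σ) :
    hf (ann μ) i ≤ hf (ann μ) j := by
  obtain ⟨y, _, hy⟩ := exists_span_of_hf_le (le_refl (hf (ann μ) j))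
  let φ : Sd N K i →ₗ[K] (Fin (hf (ann μ) j) → K) :=
    LinearMap.pi fun k => (μ ∘ₗ LinearMap.mulRight K (y k)) ∘ₗ (Sd N K i).subtype
  have hφ : ∀ (q : Sd N K i) k, φ q k = μ (q.1 * y k) := fun _ _ => rfl
  have h1 := LinearMap.finrank_range_add_finrank_ker φ
  have h2 : finrank K (LinearMap.range φ) ≤ hf (ann μ) j := by
    have := Submodule.finrank_le (LinearMap.range φ)
    rwa [Module.finrank_fin_fun] at this
  have h3 := hf_add (ann μ) i
  have h4 : LinearMap.ker φ ≤ Submodule.comap (Sd N K i).subtype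
      (Sd N K i ⊓ (ann μ).restrictScalars K : Submodule K (Pol N K)) := by
    intro q hq
    refine ⟨q.2, ?_⟩
    have hq' : ∀ k, μ (q.1 * y k) = 0 := fun k => by
      rw [← hφ, LinearMap.mem_ker.mp hq, Pi.zero_apply]
    refine (h.mem_ann_iff q.2 hij).mpr fun b hb => ?_
    obtain ⟨c, hc⟩ := hy b hb
    have h5 := hc q.1
    rw [mul_comm, mul_sub, map_sub, Finset.mul_sum, map_sum, Finset.sum_eq_zero, sub_zero] at h5
    · exact h5
    · intro k _
      rw [mul_smul_comm, map_smul, hq' k, smul_zero]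
  have h5 := Submodule.finrank_mono h4
  rw [(Submodule.comapSubtypeEquivOfLe inf_le_left).finrank_eq] at h5
  omega

theorem Conc.hf_sym (h : Conc μ σ) {i j : ℕ} (hij : i + j = σ) :
    hf (ann μ) i = hf (ann μ) j :=
  le_antisymm (ann_aux4 h hij) (ann_aux4 h (by omega))

theorem Conc.hf_top (h : Conc μ σ) (h0 : μ ≠ 0) : hf (ann μ) σ ≠ 0 := by
  intro h1
  refine h0 (LinearMap.ext fun p => ?_)
  have := hf_eq_zero.mp h1 _ (homogeneousComponent_isHomogeneous σ p) 1
  rwa [mul_one, ann_aux3 h] at this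

/-- A form outside `ann μ` has a multiple of any degree up to `σ` outside `ann μ`. -/
theorem Conc.exists_mul (h : Conc μ σ) (hp : p.IsHomogeneous n) (hm : p ∉ ann μ) {j : ℕ}
    (hj : n + j ≤ σ) : ∃ u : Pol N K, u.IsHomogeneous j ∧ p * u ∉ ann μ := by
  by_contra hc
  have h1 : hf (col (ann μ) p) j = 0 := hf_eq_zero.mpr fun u hu => by
    by_contra h2
    exact hc ⟨u, hu, h2⟩
  have h2 := hf_eq_zero.mp (hf_zero_of_le h1 (show j ≤ σ - n by omega))
  refine hm ((h.mem_ann_iff hp (show n + (σ - n) = σ by omega)).mpr fun b hb => ?_)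
  have := mem_col.mp (h2 b hb) 1
  rwa [mul_one] at this

theorem exists_conc (h : Hg I) (h0 : hf I σ ≠ 0) :
    ∃ ν : Pol N K →ₗ[K] K, ν ≠ 0 ∧ Conc ν σ ∧ I ≤ ann ν := by
  have h1 : ∃ g : Pol N K, g.IsHomogeneous σ ∧ g ∉ I := by
    by_contra hc
    refine h0 (hf_eq_zero.mpr fun g hg => ?_)
    by_contra h2
    exact hc ⟨g, hg, h2⟩
  obtain ⟨g, hg, hgI⟩ := h1
  obtain ⟨f, hf1, hf2⟩ := Submodule.exists_le_ker_of_notMem
    (p := I.restrictScalars K) (v := g) hgI
  refine ⟨f ∘ₗ homogeneousComponent σ, fun h2 => hf1 ?_, fun m hm q hq => ?_, fun q hq b => ?_⟩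
  · have := LinearMap.congr_fun h2 g
    rwa [LinearMap.comp_apply, homogeneousComponent_eq_self hg] at this
  · rw [LinearMap.comp_apply, homogeneousComponent_of_mem hq, if_neg (Ne.symm hm), map_zero]
  · exact hf2 (h _ (I.mul_mem_right b hq) σ)

theorem Conc.eq_smul {ρ : Pol N K →ₗ[K] K} (hρ : Conc ρ σ) (h : Conc μ σ)
    (hle : ann ρ ≤ ann μ) : ∃ c : K, μ = c • ρ := by
  have key : ∀ q : Pol N K, ρ q = 0 → μ q = 0 := by
    intro q hq
    have h1 : homogeneousComponent σ q ∈ ann ρ := by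
      refine (hρ.mem_ann_iff (homogeneousComponent_isHomogeneous σ q) (Nat.add_zero σ)).mpr
        fun b hb => ?_
      rw [← homogeneousComponent_eq_self hb, homogeneousComponent_zero, mul_comm, C_mul',
        map_smul, ann_aux3 hρ, hq, smul_zero]
    have := hle h1 1
    rwa [mul_one, ann_aux3 h] at this
  by_cases h0 : ρ = 0
  · refine ⟨0, LinearMap.ext fun q => ?_⟩
    rw [zero_smul, LinearMap.zero_apply]
    exact key q (by rw [h0, LinearMap.zero_apply])
  · obtain ⟨g, hg⟩ : ∃ g, ρ g ≠ 0 := by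
      by_contra hc
      refine h0 (LinearMap.ext fun g => ?_)
      by_contra h2
      exact hc ⟨g, h2⟩
    refine ⟨μ g / ρ g, LinearMap.ext fun q => ?_⟩
    have h1 := key (ρ g • q - ρ q • g) (by
      rw [map_sub, map_smul, map_smul, smul_eq_mul, smul_eq_mul, mul_comm, sub_self])
    rw [map_sub, map_smul, map_smul, smul_eq_mul, smul_eq_mul, sub_eq_zero] at h1
    rw [LinearMap.smul_apply, smul_eq_mul, div_mul_eq_mul_div, eq_div_iff hg, mul_comm, h1,
      mul_comm]

theorem Bpf.mono {e : ℕ} (h : Bpf I e) (hle : I ≤ I') : Bpf I' e := by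
  intro i
  obtain ⟨M, hM⟩ := h i
  refine ⟨M, Ideal.span_mono ?_ hM⟩
  exact fun q hq => ⟨hle hq.1, hq.2⟩

theorem Bpf.succ {e : ℕ} (h : Bpf I e) : Bpf I (e + 1) := by
  intro i
  obtain ⟨M, hM⟩ := h i
  refine ⟨M + 1, ?_⟩
  have h1 : Ideal.span {p : Pol N K | p ∈ I ∧ p.IsHomogeneous e} ≤
      col (Ideal.span {p : Pol N K | p ∈ I ∧ p.IsHomogeneous (e + 1)}) (X i) := by
    refine Ideal.span_le.mpr fun q hq => ?_
    refine mem_col.mpr (Ideal.subset_span ⟨I.mul_mem_left _ hq.1, ?_⟩)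
    rw [mul_comm]
    exact hq.2.mul (isHomogeneous_X K i)
  rw [pow_succ']
  exact mem_col.mp (h1 hM)

/-- A basis whose first `c` vectors span a space containing `U`. -/
theorem exists_basis (U : Submodule K (Fin N → K)) {c : ℕ} (hU : finrank K U ≤ c) (hc : c ≤ N) :
    ∃ b : Basis (Fin N) K (Fin N → K), U ≤ Submodule.span K (b '' {i | i.val < c}) := by
  obtain ⟨W, hW⟩ := U.exists_isCompl
  have hk : finrank K U + finrank K W = N := by
    rw [Submodule.finrank_add_eq_of_isCompl hW, Module.finrank_fin_fun]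
  let bU := Module.finBasis K U
  let bW := Module.finBasis K W
  let b0 := (bU.prod bW).map (Submodule.prodEquivOfIsCompl U W hW)
  let ε : Fin (finrank K U) ⊕ Fin (finrank K W) ≃ Fin N := finSumFinEquiv.trans (finCongr hk)
  refine ⟨b0.reindex ε, fun u hu => ?_⟩
  have h1 : u = ∑ i, bU.repr ⟨u, hu⟩ i • (bU i : Fin N → K) := by
    have := congrArg U.subtype (bU.sum_repr ⟨u, hu⟩)
    rw [map_sum] at this
    exact this.symm
  rw [h1]
  refine Submodule.sum_mem _ fun i _ => Submodule.smul_mem _ _ (Submodule.subset_span ?_)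
  refine ⟨ε (Sum.inl i), ?_, ?_⟩
  · have h2 : (ε (Sum.inl i)).val = i.val := rfl
    have h3 := i.2
    change (ε (Sum.inl i)).val < c
    omega
  · rw [Basis.reindex_apply, Equiv.symm_apply_apply]
    simp [b0]

end Pool.Agent.Lib.MP_e9c0f3_ag.MC
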