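import Mathlib

/-! Products of anticommuting elements with square zero. -/

open Module

namespace Pool.Agent.Lib.MP_e9c0f3_ag.MC

variable {T ι D : Type} [Ring T] {Y : ι → T}

/-- The product along a list. -/
def xl (Y : ι → T) (L : List ι) : T := (L.map Y).prod

/-- Anticommuting elements with square zero. -/
structure Anti (Y : ι → T) : Prop where
  anti : ∀ i j, i ≠ j → Y i * Y j = -(Y j * Y i)
  sq : ∀ i, Y i * Y i = 0

theorem xl_nil : xl Y [] = 1 := rfl

theorem xl_cons (i : ι) (L : List ι) : xl Y (i :: L) = Y i * xl Y L := by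
  simp [xl]

theorem xl_append (L L' : List ι) : xl Y (L ++ L') = xl Y L * xl Y L' := by
  simp [xl]

theorem xl_one (i : ι) : xl Y [i] = Y i := by
  simp [xl]

theorem Anti.perm (h : Anti Y) {L L' : List ι} (hp : L.Perm L') :
    xl Y L = xl Y L' ∨ xl Y L = -xl Y L' := by
  induction hp with
  | nil => exact Or.inl rfl
  | cons x _ ih =>
    rw [xl_cons, xl_cons]
    rcases ih with e | e
    · exact Or.inl (by rw [e])
    · exact Or.inr (by rw [e, mul_neg])
  | swap x y l =>
    by_cases e : x = y
    · exact Or.inl (by rw [e])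
    · refine Or.inr ?_
      rw [xl_cons, xl_cons, xl_cons, xl_cons, ← mul_assoc, ← mul_assoc, h.anti x y e, neg_mul,
        neg_neg]
  | trans _ _ ih1 ih2 =>
    rcases ih1 with e | e <;> rcases ih2 with e' | e' <;> simp [e, e']

theorem Anti.dup (h : Anti Y) {L : List ι} (hL : ¬ L.Nodup) : xl Y L = 0 := by
  rw [List.nodup_iff_sublist] at hL
  push Not at hL
  obtain ⟨a, ha⟩ := hL
  obtain ⟨l, hl⟩ := ha.exists_perm_append
  have h1 : xl Y ([a, a] ++ l) = 0 := by
    rw [xl_append, xl_cons, xl_one, h.sq, zero_mul]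
  rcases h.perm hl with e | e
  · rw [e, h1]
  · rw [e, h1, neg_zero]

variable [DivisionRing D] [Module D T]

theorem Anti.mem (h : Anti Y) {L L' : List ι} (hp : L.Perm L') {W : Submodule D T}
    (hW : xl Y L' ∈ W) : xl Y L ∈ W := by
  rcases h.perm hp with e | e
  · rwa [e]
  · rw [e]
    exact W.neg_mem hW

theorem card_le_of_span {κ κ' : Type} [Fintype κ] [Fintype κ'] {V : Type} [AddCommGroup V]
    [Module D V] {v : κ → V} {w : κ' → V} (hv : LinearIndependent D v)
    (h : ∀ i, v i ∈ Submodule.span D (Set.range w)) : Fintype.card κ ≤ Fintype.card κ' := by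
  have : Module.Finite D (Submodule.span D (Set.range w)) :=
    Module.Finite.span_of_finite D (Set.finite_range _)
  rw [← finrank_span_eq_card hv]
  exact (Submodule.finrank_mono (Submodule.span_le.2 (Set.range_subset_iff.2 h))).trans
    (finrank_range_le_card w)

theorem span_le_of_card {κ κ' : Type} [Fintype κ] [Fintype κ'] {V : Type} [AddCommGroup V]
    [Module D V] {v : κ → V} {w : κ' → V} (hv : LinearIndependent D v)
    (h : ∀ i, v i ∈ Submodule.span D (Set.range w)) (hc : Fintype.card κ' ≤ Fintype.card κ) :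
    Submodule.span D (Set.range w) ≤ Submodule.span D (Set.range v) := by
  have : Module.Finite D (Submodule.span D (Set.range w)) :=
    Module.Finite.span_of_finite D (Set.finite_range _)
  refine (Submodule.eq_of_le_of_finrank_le
    (Submodule.span_le.2 (Set.range_subset_iff.2 h)) ?_).ge
  rw [finrank_span_eq_card hv]
  exact (finrank_range_le_card w).trans hc

variable [IsScalarTower D T T] [DecidableEq ι]

theorem Anti.indep (h : Anti Y) {M : List ι} (h0 : xl Y M ≠ 0) (t : ℕ) :
    LinearIndependent D fun s : M.toFinset.powersetCard t => xl Y s.1.toList := by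
  have hM : M.Nodup := by
    by_contra hM
    exact h0 (h.dup hM)
  refine linearIndependent_iff'.2 fun u c hc s hs => ?_
  have h1 := congrArg (· * xl Y (M.toFinset \ s.1).toList) hc
  simp only [Finset.sum_mul, smul_mul_assoc, zero_mul, ← xl_append] at h1
  obtain ⟨hs1, hs2⟩ := Finset.mem_powersetCard.1 s.2
  rw [Finset.sum_eq_single_of_mem s hs] at h1
  · refine (smul_eq_zero.1 h1).resolve_right fun h2 => h0 ?_
    have h3 : M.Perm (s.1.toList ++ (M.toFinset \ s.1).toList) := by
      refine (List.perm_ext_iff_of_nodup hM ?_).2 fun a => ?_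
      · refine List.Nodup.append (Finset.nodup_toList _) (Finset.nodup_toList _) fun a ha hb => ?_
        rw [Finset.mem_toList] at ha hb
        exact (Finset.mem_sdiff.1 hb).2 ha
      · rw [List.mem_append, Finset.mem_toList, Finset.mem_toList, Finset.mem_sdiff,
          List.mem_toFinset]
        refine ⟨fun ha => ?_, fun ha => ha.elim (fun hb => List.mem_toFinset.1 (hs1 hb)) And.left⟩
        by_cases hb : a ∈ s.1
        · exact Or.inl hb
        · exact Or.inr ⟨ha, hb⟩
    rcases h.perm h3 with e | e <;> simp [e, h2]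
  · intro s' _ hne
    obtain ⟨hs3, hs4⟩ := Finset.mem_powersetCard.1 s'.2
    rw [h.dup, smul_zero]
    intro hn
    refine hne (Subtype.ext (Finset.eq_of_subset_of_card_le (fun a ha => ?_) (by omega)))
    by_contra hb
    exact List.disjoint_of_nodup_append hn (Finset.mem_toList.2 ha)
      (Finset.mem_toList.2 (Finset.mem_sdiff.2 ⟨hs3 ha, hb⟩))

/-- The span of the products of length `t` of elements of `M`. -/
def gsp (D : Type) [DivisionRing D] [Module D T] (Y : ι → T) (M : List ι) (t : ℕ) :
    Submodule D T :=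
  Submodule.span D (Set.range fun s : M.toFinset.powersetCard t => xl Y s.1.toList)

omit [IsScalarTower D T T] in
theorem Anti.mem_gsp (h : Anti Y) {M L : List ι} (hL : ∀ a ∈ L, a ∈ M) {t : ℕ}
    (ht : L.length = t) : xl Y L ∈ gsp D Y M t := by
  by_cases hn : L.Nodup
  · refine h.mem (List.toFinset_toList hn).symm (Submodule.subset_span ⟨⟨L.toFinset, ?_⟩, rfl⟩)
    refine Finset.mem_powersetCard.2 ⟨fun a ha => ?_, ?_⟩
    · exact List.mem_toFinset.2 (hL a (List.mem_toFinset.1 ha))
    · rw [List.toFinset_card_of_nodup hn, ht]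
  · rw [h.dup hn]
    exact zero_mem _

theorem gsp_mul {M : List ι} {t : ℕ} {z w : T} {W : Submodule D T} (hz : z ∈ gsp D Y M t)
    (hW : ∀ L : List ι, (∀ a ∈ L, a ∈ M) → L.length = t → xl Y L * w ∈ W) : z * w ∈ W := by
  induction hz using Submodule.span_induction with
  | mem x hx =>
    obtain ⟨s, rfl⟩ := hx
    obtain ⟨h1, h2⟩ := Finset.mem_powersetCard.1 s.2
    exact hW _ (fun a ha => List.mem_toFinset.1 (h1 (Finset.mem_toList.1 ha)))
      (by rw [Finset.length_toList, h2])
  | zero => simp
  | add x y _ _ hx hy =>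
    rw [add_mul]
    exact W.add_mem hx hy
  | smul a x _ hx =>
    rw [smul_mul_assoc]
    exact W.smul_mem _ hx

theorem Anti.grow (h : Anti Y) {M : List ι}
    (h3 : ∀ L : List ι, L.length = 3 → xl Y L ∈ gsp D Y M 3) (t : ℕ) :
    ∀ L : List ι, L.length = t + 3 → xl Y L ∈ gsp D Y M (t + 3) := by
  induction t with
  | zero => exact h3
  | succ t ih =>
    intro L hL
    obtain ⟨j, L₀, rfl⟩ := List.exists_cons_of_length_eq_add_one hL
    refine h.mem (List.perm_append_singleton j L₀).symm ?_
    rw [xl_append]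
    refine gsp_mul (ih L₀ (by simpa using hL)) fun L₁ h1 h2 => ?_
    obtain ⟨a, L₂, rfl⟩ := List.exists_cons_of_length_eq_add_one h2
    obtain ⟨b, L₃, rfl⟩ := List.exists_cons_of_length_eq_add_one (n := t + 1)
      (l := L₂) (by simpa using h2)
    rw [← xl_append]
    refine h.mem (L' := [a, b, j] ++ L₃) (((List.perm_append_singleton j L₃).cons b).cons a) ?_
    rw [xl_append]
    refine gsp_mul (h3 _ rfl) fun L₄ h4 h5 => ?_
    rw [← xl_append]
    refine h.mem_gsp (fun c hc => ?_) ?_
    · rcases List.mem_append.1 hc with hc | hc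
      · exact h4 c hc
      · exact h1 c (by simp [hc])
    · simp only [List.length_cons] at h2
      rw [List.length_append]
      omega

end Pool.Agent.Lib.MP_e9c0f3_ag.MC
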