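import Pool.Agent.Lib.MP_e9c0f3_ag.H48.Defs

/-! The tangent image of a family of forms. -/

open MvPolynomial

namespace Pool.Agent.Lib.MP_e9c0f3_ag.MC

/-- The span of the derivatives at the point `s` of the family `F` along vector fields of the
base and of the degree `d` part of the Jacobian ideal of the fibre. -/
noncomputable def tang {A : Type} [CommRing A] [Algebra ℂ A] {N : ℕ} (F : MvPolynomial (Fin N) A)
    (s : A →ₐ[ℂ] ℂ) : Submodule ℂ (MvPolynomial (Fin N) ℂ) :=
  Submodule.span ℂ ({p | ∃ D : Derivation ℂ A A, p = map (s : A →+* ℂ) (coeffMap D F)} ∪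
    {p | ∃ i j, p = X i * pderiv j (map (s : A →+* ℂ) F)})

end Pool.Agent.Lib.MP_e9c0f3_ag.MC
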