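import Pool.Agent.Lib.MP_e9c0f3_ag.H48.Sp
import Pool.Agent.Lib.MP_e9c0f3_ag.MC.Defs

/-! Hilbert functions, annihilators of functionals, generic linear forms. -/

open MvPolynomial Module

namespace Pool.Agent.Lib.MP_e9c0f3_ag.MC

variable {K : Type} [Field K] {N : ℕ}

/-- Forms of degree `n`. -/
abbrev Sd (N : ℕ) (K : Type) [Field K] (n : ℕ) : Submodule K (Pol N K) :=
  homogeneousSubmodule (Fin N) K n

/-- The Hilbert function of the quotient by `I`. -/
noncomputable def hf (I : Ideal (Pol N K)) (n : ℕ) : ℕ :=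
  finrank K ((Sd N K n).map (Ideal.Quotient.mkₐ K I).toLinearMap)

/-- Homogeneous ideals. -/
def Hg (I : Ideal (Pol N K)) : Prop := ∀ p ∈ I, ∀ n, homogeneousComponent n p ∈ I

/-- The forms of degree `e` in `I` have no common zero. -/
def Bpf (I : Ideal (Pol N K)) (e : ℕ) : Prop :=
  ∀ i, ∃ M, (X i : Pol N K) ^ M ∈ Ideal.span {p | p ∈ I ∧ p.IsHomogeneous e}

/-- A functional concentrated in degree `σ`. -/
def Conc (μ : Pol N K →ₗ[K] K) (σ : ℕ) : Prop :=
  ∀ n, n ≠ σ → ∀ p : Pol N K, p.IsHomogeneous n → μ p = 0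

/-- The largest ideal killed by `μ`. -/
def ann (μ : Pol N K →ₗ[K] K) : Ideal (Pol N K) where
  carrier := {a | ∀ b, μ (a * b) = 0}
  add_mem' := fun ha hb c => by rw [add_mul, map_add, ha c, hb c, add_zero]
  zero_mem' := fun c => by rw [zero_mul, map_zero]
  smul_mem' := fun c a ha b => by
    rw [smul_eq_mul, mul_comm c a, mul_assoc]
    exact ha _

/-- The functional `b ↦ μ (p * b)`. -/
noncomputable def sh (μ : Pol N K →ₗ[K] K) (p : Pol N K) : Pol N K →ₗ[K] K :=
  μ ∘ₗ LinearMap.mulLeft K p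

/-- The colon ideal `I : p`. -/
def col (I : Ideal (Pol N K)) (p : Pol N K) : Ideal (Pol N K) where
  carrier := {a | p * a ∈ I}
  add_mem' := fun ha hb => by
    rw [Set.mem_ofPred_eq, mul_add]
    exact I.add_mem ha hb
  zero_mem' := by simp
  smul_mem' := fun c a ha => by
    rw [Set.mem_ofPred_eq, smul_eq_mul, mul_left_comm]
    exact I.mul_mem_left c ha

/-- The colon of `I` by the forms of degree `j`. -/
def lev (I : Ideal (Pol N K)) (j : ℕ) : Ideal (Pol N K) where
  carrier := {a | ∀ b : Pol N K, b.IsHomogeneous j → a * b ∈ I}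
  add_mem' := fun ha hb c hc => by
    rw [add_mul]
    exact I.add_mem (ha c hc) (hb c hc)
  zero_mem' := fun c _ => by simp
  smul_mem' := fun c a ha b hb => by
    rw [smul_eq_mul, mul_assoc]
    exact I.mul_mem_left c (ha b hb)

/-- The ideal of a family. -/
noncomputable def lid {ι : Type} (l : ι → Pol N K) : Ideal (Pol N K) := Ideal.span (Set.range l)

/-- A derivation that preserves degrees. -/
structure Der (E : Pol N K →+ Pol N K) : Prop where
  leib : ∀ p q, E (p * q) = E p * q + p * E q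
  homog : ∀ n p, p.IsHomogeneous n → (E p).IsHomogeneous n

/-- The linear forms `l` are generic for `I`. -/
structure Gen (I : Ideal (Pol N K)) {c : ℕ} (l : Fin c → Pol N K) : Prop where
  hg : Hg I
  lin : ∀ j, (l j).IsHomogeneous 1
  der : ∀ j a, ∃ E, Der E ∧ (∀ p ∈ I, E p ∈ I) ∧ E (l j) = X a ∧ ∀ i, i ≠ j → E (l i) = 0

variable {I I' : Ideal (Pol N K)} {n : ℕ} {μ : Pol N K →ₗ[K] K} {σ : ℕ} {p : Pol N K}

theorem mem_ann : p ∈ ann μ ↔ ∀ b, μ (p * b) = 0 := Iff.rfl

theorem mem_col {a : Pol N K} : a ∈ col I p ↔ p * a ∈ I := Iff.rfl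

theorem mem_lev {j : ℕ} : p ∈ lev I j ↔ ∀ b : Pol N K, b.IsHomogeneous j → p * b ∈ I := Iff.rfl

theorem sh_apply (b : Pol N K) : sh μ p b = μ (p * b) := rfl

instance (n : ℕ) : Module.Finite K (Sd N K n) := by
  exact Module.Finite.iff_fg.2 (homogeneousSubmodule_fg (Fin N) K n)

theorem base_rank {V W : Type} [AddCommGroup V] [Module K V] [AddCommGroup W] [Module K W]
    (f : V →ₗ[K] W) (S : Submodule K V) [Module.Finite K S] :
    finrank K (S.map f) + finrank K (S ⊓ LinearMap.ker f : Submodule K V) = finrank K S := by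
  rw [← LinearMap.finrank_range_add_finrank_ker (f.domRestrict S), LinearMap.range_domRestrict,
    LinearMap.ker_domRestrict, ← Submodule.map_comap_subtype, Submodule.finrank_map_subtype_eq]

instance (n : ℕ) (U : Submodule K (Pol N K)) :
    Module.Finite K (Sd N K n ⊓ U : Submodule K (Pol N K)) :=
  Submodule.finiteDimensional_of_le (inf_le_left : Sd N K n ⊓ U ≤ Sd N K n)

theorem base_add (I : Ideal (Pol N K)) (n : ℕ) :
    hf I n + finrank K (Sd N K n ⊓ I.restrictScalars K : Submodule K (Pol N K)) =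
      finrank K (Sd N K n) := by
  have e : I.restrictScalars K = LinearMap.ker (Ideal.Quotient.mkₐ K I).toLinearMap := by
    ext q
    exact Ideal.Quotient.eq_zero_iff_mem.symm
  rw [e]
  exact base_rank _ _

theorem finrank_Sd (N : ℕ) (K : Type) [Field K] (n : ℕ) :
    finrank K (Sd (N + 1) K n) = (n + N).choose N := by
  have e : Sd (N + 1) K n = restrictSupport K
      ((Finset.univ.finsuppAntidiag n : Finset (Fin (N + 1) →₀ ℕ)) : Set (Fin (N + 1) →₀ ℕ)) := by
    rw [Sd, homogeneousSubmodule_eq_finsupp_supported, restrictSupport]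
    congr 1
    ext d
    simp [Finsupp.degree_eq_sum]
  rw [e, finrank_eq_nat_card_basis (basisRestrictSupport K _), Nat.card_coe_set_eq,
    Set.ncard_coe_finset, Finset.card_finsuppAntidiag_nat_eq_choose, Finset.card_univ,
    Fintype.card_fin, show N + 1 + n - 1 = n + N by omega, Nat.choose_symm_add]

theorem hf_le_of (U : Submodule K (Pol N K)) [Module.Finite K U]
    (h : ∀ p : Pol N K, p.IsHomogeneous n → ∃ u ∈ U, p - u ∈ I) : hf I n ≤ finrank K U := by
  refine le_trans (Submodule.finrank_mono ?_)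
    (Submodule.finrank_map_le (Ideal.Quotient.mkₐ K I).toLinearMap U)
  rintro _ ⟨q, hq, rfl⟩
  obtain ⟨u, hu, k⟩ := h q hq
  exact ⟨u, hu, (Ideal.Quotient.eq.2 k).symm⟩

theorem le_hf {W : Type} [AddCommGroup W] [Module K W] (f : W →ₗ[K] Pol N K)
    (h : ∀ w, (f w).IsHomogeneous n) (hi : ∀ w, f w ∈ I → w = 0) : finrank K W ≤ hf I n := by
  refine LinearMap.finrank_le_finrank_of_injective
    (f := ((Ideal.Quotient.mkₐ K I).toLinearMap ∘ₗ f).codRestrict _ fun w => ⟨f w, h w, rfl⟩) ?_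
  rw [injective_iff_map_eq_zero]
  exact fun w hw => hi w (Ideal.Quotient.eq_zero_iff_mem.1 (congrArg Subtype.val hw))

theorem le_hf_add {W : Type} [AddCommGroup W] [Module K W] [Module.Finite K W]
    (f : W →ₗ[K] Pol N K) (h : ∀ w, (f w).IsHomogeneous n) (U : Submodule K W)
    (hi : ∀ w, f w ∈ I → w ∈ U) : finrank K W ≤ hf I n + finrank K U := by
  rw [← LinearMap.finrank_range_add_finrank_ker ((Ideal.Quotient.mkₐ K I).toLinearMap ∘ₗ f)]
  refine add_le_add (Submodule.finrank_mono ?_) (Submodule.finrank_mono fun w hw =>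
    hi w (Ideal.Quotient.eq_zero_iff_mem.1 hw))
  rintro _ ⟨w, rfl⟩
  exact ⟨f w, h w, rfl⟩

theorem hf_mono (h : ∀ p : Pol N K, p.IsHomogeneous n → p ∈ I → p ∈ I') : hf I' n ≤ hf I n := by
  have h1 := base_add I n
  have h2 := base_add I' n
  have h3 : finrank K (Sd N K n ⊓ I.restrictScalars K : Submodule K (Pol N K)) ≤
      finrank K (Sd N K n ⊓ I'.restrictScalars K : Submodule K (Pol N K)) :=
    Submodule.finrank_mono fun q hq => ⟨hq.1, h q hq.1 hq.2⟩
  omega

theorem hf_eq_zero : hf I n = 0 ↔ ∀ p : Pol N K, p.IsHomogeneous n → p ∈ I := by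
  rw [hf, Submodule.finrank_eq_zero, ← LinearMap.le_ker_iff_map]
  exact ⟨fun h q hq => Ideal.Quotient.eq_zero_iff_mem.1 (h hq),
    fun h q hq => Ideal.Quotient.eq_zero_iff_mem.2 (h q hq)⟩

theorem hf_add (I : Ideal (Pol N K)) (n : ℕ) :
    hf I n + finrank K (Sd N K n ⊓ I.restrictScalars K : Submodule K (Pol N K)) =
      finrank K (Sd N K n) := by
  exact base_add I n

theorem exists_span_of_hf_le {r : ℕ} (h : hf I n ≤ r) : ∃ y : Fin r → Pol N K,
    (∀ j, (y j).IsHomogeneous n) ∧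
      ∀ p : Pol N K, p.IsHomogeneous n → ∃ c : Fin r → K, p - ∑ j, c j • y j ∈ I := by
  obtain ⟨f, hf1⟩ := (finrank_le_iff_exists_linearMap (R := K)
    (M := (Sd N K n).map (Ideal.Quotient.mkₐ K I).toLinearMap) (M' := Fin r → K)).1
    (by rw [Module.finrank_fin_fun]; exact h)
  obtain ⟨g, hg⟩ := f.exists_leftInverse_of_injective (LinearMap.ker_eq_bot.2 hf1)
  choose y hy1 hy2 using fun j : Fin r => (g (Pi.single j 1)).2
  refine ⟨y, hy1, fun q hq => ?_⟩
  refine ⟨f ⟨Ideal.Quotient.mkₐ K I q, q, hq, rfl⟩, Ideal.Quotient.eq.1 ?_⟩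
  generalize hc : f ⟨Ideal.Quotient.mkₐ K I q, q, hq, rfl⟩ = c
  have e1 : (g c).1 = Ideal.Quotient.mkₐ K I q := by
    rw [← hc]
    exact congrArg Subtype.val (LinearMap.congr_fun hg _)
  have e2 : g c = ∑ j, c j • g (Pi.single j 1) := by
    rw [LinearMap.pi_apply_eq_sum_univ]
    refine Finset.sum_congr rfl fun j _ => ?_
    congr 2
    ext i
    simp [Pi.single_apply, eq_comm]
  change Ideal.Quotient.mkₐ K I q = (Ideal.Quotient.mkₐ K I).toLinearMap (∑ j, c j • y j)
  rw [← e1, e2, map_sum, Submodule.coe_sum]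
  refine Finset.sum_congr rfl fun j _ => ?_
  rw [map_smul, hy2, Submodule.coe_smul]

theorem hf_zero_succ (h : hf I n = 0) : hf I (n + 1) = 0 := by
  rw [hf_eq_zero] at h ⊢
  intro q hq
  have h1 : q ∈ Sd N K n * Sd N K 1 := by
    rw [← mem_homogeneousSubmodule, ← homogeneousSubmodule_one_pow, pow_succ,
      homogeneousSubmodule_one_pow] at hq
    exact hq
  exact Submodule.mul_induction_on h1 (fun a ha b _ => I.mul_mem_right b (h a ha))
    fun a b ha hb => I.add_mem ha hb

theorem hf_zero_of_le {m : ℕ} (h : hf I n = 0) (hm : n ≤ m) : hf I m = 0 := by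
  induction hm with
  | refl => exact h
  | step _ ih => exact hf_zero_succ ih

theorem Hg.sup (h : Hg I) (h' : Hg I') : Hg (I ⊔ I') := by
  intro q hq m
  obtain ⟨a, ha, b, hb, rfl⟩ := Submodule.mem_sup.1 hq
  rw [map_add]
  exact Submodule.add_mem_sup (h a ha m) (h' b hb m)

theorem hg_span {s : Set (Pol N K)} (hs : ∀ p ∈ s, ∃ n, p.IsHomogeneous n) :
    Hg (Ideal.span s) := by
  intro q hq m
  have key : ∀ b, homogeneousComponent m (q * b) ∈ Ideal.span s := by
    induction hq using Submodule.span_induction with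
    | mem x hx =>
      intro b
      obtain ⟨e, he⟩ := hs x hx
      rw [tw2_hc_mul he]
      split_ifs
      · exact Ideal.mul_mem_right _ _ (Ideal.subset_span hx)
      · exact zero_mem _
    | zero => simp
    | add x y _ _ hx hy =>
      intro b
      rw [add_mul, map_add]
      exact add_mem (hx b) (hy b)
    | smul a x _ hx =>
      intro b
      rw [smul_eq_mul, mul_comm a x, mul_assoc]
      exact hx _
  simpa using key 1

theorem Hg.col (h : Hg I) (hp : p.IsHomogeneous n) : Hg (col I p) := by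
  intro a ha m
  have h1 := h _ ha (n + m)
  rw [tw2_hc_mul hp, if_pos (Nat.le_add_right n m), Nat.add_sub_cancel_left] at h1
  exact h1

theorem Hg.lev (h : Hg I) (j : ℕ) : Hg (lev I j) := by
  intro a ha m b hb
  have h1 := h _ (ha b hb) (j + m)
  rw [mul_comm, tw2_hc_mul hb, if_pos (Nat.le_add_right j m), Nat.add_sub_cancel_left,
    mul_comm] at h1
  exact h1

/-- Division by a form modulo a homogeneous ideal. -/
theorem Hg.div (h : Hg I) {g : Pol N K} {a : ℕ} (hp : p.IsHomogeneous a)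
    (hg : g.IsHomogeneous (n + a)) (hm : g ∈ I ⊔ Ideal.span {p}) :
    ∃ q : Pol N K, q.IsHomogeneous n ∧ g - p * q ∈ I := by
  obtain ⟨i, hi, b, hb, e⟩ := Submodule.mem_sup.1 hm
  obtain ⟨c, rfl⟩ := Ideal.mem_span_singleton'.1 hb
  refine ⟨homogeneousComponent n c, homogeneousComponent_isHomogeneous n c, ?_⟩
  have h1 := congrArg (homogeneousComponent (n + a)) e
  rw [homogeneousComponent_eq_self hg, map_add, mul_comm, tw2_hc_mul hp,
    if_pos (Nat.le_add_left a n), Nat.add_sub_cancel] at h1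
  rw [← h1, add_sub_cancel_right]
  exact h i hi _

theorem hf_es (h : Hg I) (hp : p.IsHomogeneous 1) (n : ℕ) :
    hf I (n + 1) = hf (I ⊔ Ideal.span {p}) (n + 1) + hf (col I p) n := by
  have h1 := hf_add I (n + 1)
  have h2 := hf_add (I ⊔ Ideal.span {p}) (n + 1)
  have h3 := hf_add (col I p) n
  have h4 := base_rank (Ideal.Quotient.mkₐ K I).toLinearMap
    (Sd N K (n + 1) ⊓ (I ⊔ Ideal.span {p}).restrictScalars K)
  have h5 := base_rank ((Ideal.Quotient.mkₐ K I).toLinearMap ∘ₗ LinearMap.mulLeft K p) (Sd N K n)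
  have e1 : (Sd N K (n + 1) ⊓ (I ⊔ Ideal.span {p}).restrictScalars K) ⊓
      LinearMap.ker (Ideal.Quotient.mkₐ K I).toLinearMap =
      Sd N K (n + 1) ⊓ I.restrictScalars K := by
    refine le_antisymm (fun q hq => ⟨hq.1.1, Ideal.Quotient.eq_zero_iff_mem.1 hq.2⟩) fun q hq =>
      ⟨⟨hq.1, Ideal.mem_sup_left hq.2⟩, Ideal.Quotient.eq_zero_iff_mem.2 hq.2⟩
  have e2 : Sd N K n ⊓
      LinearMap.ker ((Ideal.Quotient.mkₐ K I).toLinearMap ∘ₗ LinearMap.mulLeft K p) =
      Sd N K n ⊓ (col I p).restrictScalars K := by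
    refine le_antisymm (fun q hq => ⟨hq.1, (Ideal.Quotient.eq_zero_iff_mem (I := I)).1 hq.2⟩)
      fun q hq => ⟨hq.1, (Ideal.Quotient.eq_zero_iff_mem (I := I)).2 hq.2⟩
  have e3 : (Sd N K (n + 1) ⊓ (I ⊔ Ideal.span {p}).restrictScalars K).map
      (Ideal.Quotient.mkₐ K I).toLinearMap =
      (Sd N K n).map ((Ideal.Quotient.mkₐ K I).toLinearMap ∘ₗ LinearMap.mulLeft K p) := by
    refine le_antisymm ?_ ?_
    · rintro _ ⟨g, hg, rfl⟩
      obtain ⟨q, hq, k⟩ := h.div hp hg.1 hg.2
      exact ⟨q, hq, (Ideal.Quotient.eq.2 k).symm⟩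
    · rintro _ ⟨q, hq, rfl⟩
      refine ⟨p * q, ⟨?_, Ideal.mem_sup_right (Ideal.mul_mem_right _ _
        (Ideal.mem_span_singleton_self p))⟩, rfl⟩
      rw [add_comm]
      exact hp.mul hq
  rw [e1, e3] at h4
  rw [e2] at h5
  omega

theorem hf_surj (h : Hg I) (hp : p.IsHomogeneous 1)
    (h0 : hf (I ⊔ Ideal.span {p}) (n + 1) = 0) : hf I (n + 1) ≤ hf I n := by
  rw [hf_es h hp, h0, zero_add]
  exact hf_mono fun q _ hq => I.mul_mem_left p hq

end Pool.Agent.Lib.MP_e9c0f3_ag.MC
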