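import Pool.Agent.Lib.MP_e9c0f3_ag.MC.Ann

/-! The linear space lies in the hypersurface. -/

open MvPolynomial Module

namespace Pool.Agent.Lib.MP_e9c0f3_ag.MC

variable {K : Type} [Field K] {N : ℕ}

/-- `I` is generated by independent linear forms `x` and forms `w` of degree `e`. -/
structure Lin {m : ℕ} (I : Ideal (Pol (m + m) K)) (e : ℕ) (x w : Fin m → Pol (m + m) K) :
    Prop where
  hx : ∀ i, (x i).IsHomogeneous 1
  hw : ∀ i, (w i).IsHomogeneous e
  eq : I = lid x ⊔ lid w
  dual : ∃ T : Fin m → Fin (m + m) → K, ∀ i j,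
    ∑ a, T j a • pderiv a (x i) = if i = j then 1 else 0

/-- The derivative of `p` along a constant vector field. -/
noncomputable def pxd (p : Pol N K) : (Fin N → K) →ₗ[K] Pol N K :=
  Fintype.linearCombination K fun a => pderiv a p

theorem pxd_apply (p : Pol N K) (v : Fin N → K) : pxd p v = ∑ a, v a • pderiv a p :=
  Fintype.linearCombination_apply ..

theorem pxd_mul (p q : Pol N K) (v : Fin N → K) :
    pxd (p * q) v = p * pxd q v + pxd p v * q := by
  simp only [pxd_apply, Finset.mul_sum, Finset.sum_mul, ← Finset.sum_add_distrib]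
  refine Finset.sum_congr rfl fun a _ => ?_
  rw [pderiv_mul, smul_add, mul_smul_comm, smul_mul_assoc, add_comm]

theorem pxd_sum {ι : Type} [Fintype ι] (p : ι → Pol N K) (v : Fin N → K) :
    pxd (∑ i, p i) v = ∑ i, pxd (p i) v := by
  simp only [pxd_apply, map_sum, Finset.smul_sum]
  exact Finset.sum_comm

theorem pxd_homog {p : Pol N K} {n : ℕ} (hp : p.IsHomogeneous (n + 1)) (v : Fin N → K) :
    (pxd p v).IsHomogeneous n := by
  rw [pxd_apply]
  exact (Sd N K n).sum_mem fun a _ => (Sd N K n).smul_mem _ hp.pderiv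

theorem pxd_mem_jac (F : Pol N K) (v : Fin N → K) : pxd F v ∈ jac F := by
  rw [pxd_apply]
  refine Ideal.sum_mem _ fun a _ => ?_
  rw [smul_eq_C_mul]
  exact Ideal.mul_mem_left _ _ (Ideal.subset_span ⟨a, rfl⟩)

theorem px_const {p : Pol N K} (hp : p.IsHomogeneous 0) : p = C (coeff 0 p) := by
  rw [← homogeneousComponent_zero, homogeneousComponent_eq_self hp]

theorem px_mem_lid {m : ℕ} {x : Fin m → Pol N K} {p : Pol N K} :
    p ∈ lid x ↔ ∃ c : Fin m → Pol N K, ∑ i, c i * x i = p := Ideal.mem_span_range_iff_exists_fun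

theorem px_x_mem {m : ℕ} (x : Fin m → Pol N K) (i : Fin m) : x i ∈ lid x :=
  Ideal.subset_span ⟨i, rfl⟩

section lin

variable {m e : ℕ} {I : Ideal (Pol (m + m) K)} {x w : Fin m → Pol (m + m) K}
  {F : Pol (m + m) K}

theorem Lin.le (h : Lin I e x w) : lid x ≤ I := h.eq ▸ le_sup_left

/-- The decomposition once `F` lies in the ideal of the linear forms. -/
theorem Lin.split (h : Lin I e x w) (hF : F.IsHomogeneous (e + 1)) (hJ : jac F ≤ I)
    (hm : F ∈ lid x) : ∃ g : Fin m → Pol (m + m) K, (∀ i, (g i).IsHomogeneous e) ∧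
      F = ∑ i, x i * g i ∧ ∀ i, g i ∈ I := by
  obtain ⟨c, hc⟩ := px_mem_lid.1 hm
  have h1 := H48.hom_dec h.hx hF hc.symm
  simp only [if_pos (Nat.le_add_left 1 e), Nat.add_sub_cancel,
    mul_comm (homogeneousComponent _ _)] at h1
  refine ⟨fun i => homogeneousComponent e (c i), fun i => homogeneousComponent_isHomogeneous _ _,
    h1, fun j => ?_⟩
  obtain ⟨T, hT⟩ := h.dual
  have h2 := hJ (pxd_mem_jac F (T j))
  rw [h1, pxd_sum] at h2
  simp only [pxd_mul, Finset.sum_add_distrib] at h2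
  have h3 : ∑ i, pxd (x i) (T j) * homogeneousComponent e (c i) =
      homogeneousComponent e (c j) := by
    simp only [pxd_apply, hT, ite_mul, one_mul, zero_mul, Finset.sum_ite_eq', Finset.mem_univ,
      if_true]
  rw [h3] at h2
  exact (Submodule.add_mem_iff_right I (I.sum_mem fun i _ =>
    I.mul_mem_right _ (h.le (px_x_mem x i)))).1 h2

/-- A tangent vector field that moves a linear form bounds the Hilbert function. -/
theorem Lin.count (h : Lin I e x w) (hJ : jac F ≤ I)
    (hE : ∀ G ∈ I, G.IsHomogeneous (e + 1) →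
      ∃ E, Der E ∧ ∀ a, E (pderiv a F) - pderiv a G ∈ I) (h1 : hf I 1 ≤ m)
    {v : Fin (m + m) → K} (hv : pxd F v ∈ lid x) {j : Fin m} (hj : pxd (x j) v ≠ 0) :
    hf I e ≤ m ^ 2 := by
  obtain ⟨q, hq⟩ := px_mem_lid.1 hv
  obtain ⟨y, -, hy⟩ := exists_span_of_hf_le h1
  have hc := px_const (pxd_homog (n := 0) (h.hx j) v)
  set c := coeff 0 (pxd (x j) v)
  have hc0 : c ≠ 0 := fun e0 => hj (by rw [hc, e0, map_zero])
  let u : Fin m × Fin m → Pol (m + m) K := fun t => q t.1 * y t.2
  have : Module.Finite K (Submodule.span K (Set.range u)) :=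
    Module.Finite.span_of_finite K (Set.finite_range u)
  refine (hf_le_of (Submodule.span K (Set.range u)) fun p hp => ?_).trans ?_
  · have hG : (x j * p).IsHomogeneous (e + 1) := by
      rw [add_comm e 1]
      exact (h.hx j).mul hp
    obtain ⟨E, hD, hI⟩ := hE (x j * p) (I.mul_mem_right _ (h.le (px_x_mem x j))) hG
    have h3 : E (pxd F v) - pxd (x j * p) v ∈ I := by
      rw [pxd_apply, pxd_apply, map_sum, ← Finset.sum_sub_distrib]
      refine I.sum_mem fun a _ => ?_
      rw [smul_eq_C_mul, smul_eq_C_mul, hD.leib, add_sub_assoc, ← mul_sub]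
      exact I.add_mem (I.mul_mem_left _ (hJ (Ideal.subset_span ⟨a, rfl⟩)))
        (I.mul_mem_left _ (hI a))
    choose d hd using fun i => hy (E (x i)) (hD.homog 1 _ (h.hx i))
    have h4 : E (pxd F v) - ∑ i, ∑ k, d i k • u (i, k) ∈ I := by
      rw [← hq, map_sum, ← Finset.sum_sub_distrib]
      refine I.sum_mem fun i _ => ?_
      have e1 : ∑ k, d i k • u (i, k) = q i * ∑ k, d i k • y k := by
        simp only [u, Finset.mul_sum, mul_smul_comm]
      rw [hD.leib, e1, add_sub_assoc, ← mul_sub]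
      exact I.add_mem (I.mul_mem_left _ (h.le (px_x_mem x i))) (I.mul_mem_left _ (hd i))
    refine ⟨c⁻¹ • ∑ i, ∑ k, d i k • u (i, k), Submodule.smul_mem _ _ (Submodule.sum_mem _
      fun i _ => Submodule.sum_mem _ fun k _ => Submodule.smul_mem _ _
        (Submodule.subset_span ⟨(i, k), rfl⟩)), ?_⟩
    have h5 := I.mul_mem_left (C c⁻¹) (I.sub_mem (I.sub_mem h4 h3)
      (I.mul_mem_right (pxd p v) (h.le (px_x_mem x j))))
    have e2 : (C c⁻¹ : Pol (m + m) K) * C c = 1 := by
      rw [← map_mul, inv_mul_cancel₀ hc0, map_one]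
    rw [pxd_mul, hc] at h5
    rw [smul_eq_C_mul]
    convert h5 using 1
    linear_combination (-p) * e2
  · refine (finrank_range_le_card u).trans ?_
    rw [Fintype.card_prod, Fintype.card_fin, sq]

/-- Comparison of two kernels of dimension `m`. -/
theorem Lin.ker (h : Lin I e x w) (he : 1 ≤ e) (hF : F.IsHomogeneous (e + 1)) (hJ : jac F ≤ I)
    (hk : ∀ v, pxd F v ∈ lid x → ∀ i, pxd (x i) v = 0) {v : Fin (m + m) → K}
    (hv : ∀ i, pxd (x i) v = 0) : pxd F v ∈ lid x := by
  let π : Pol (m + m) K →ₗ[K] Pol (m + m) K ⧸ lid x := (Ideal.Quotient.mkₐ K (lid x)).toLinearMap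
  have hπ : ∀ p, π p = 0 ↔ p ∈ lid x := fun p => Ideal.Quotient.eq_zero_iff_mem
  let τ := π ∘ₗ pxd F
  let κ : (Fin (m + m) → K) →ₗ[K] (Fin m → K) := LinearMap.pi fun i => lcoeff K 0 ∘ₗ pxd (x i)
  have hκ : ∀ v i, κ v i = coeff 0 (pxd (x i) v) := fun _ _ => rfl
  have h1 : LinearMap.ker τ ≤ LinearMap.ker κ := by
    intro u hu
    refine funext fun i => ?_
    rw [hκ, hk u ((hπ _).1 hu) i]
    rfl
  have h2 : LinearMap.range κ = ⊤ := by
    obtain ⟨T, hT⟩ := h.dual
    rw [eq_top_iff, ← (Pi.basisFun K (Fin m)).span_eq, Submodule.span_le]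
    rintro _ ⟨j, rfl⟩
    refine ⟨T j, funext fun i => ?_⟩
    rw [hκ, pxd_apply, hT, Pi.basisFun_apply, Pi.single_apply]
    split_ifs <;> simp
  have h3 : LinearMap.range τ ≤ Submodule.span K (Set.range fun j => π (w j)) := by
    rintro _ ⟨u, rfl⟩
    have h4 := hJ (pxd_mem_jac F u)
    rw [h.eq] at h4
    obtain ⟨a, ha, b, hb, hab⟩ := Submodule.mem_sup.1 h4
    obtain ⟨c, rfl⟩ := px_mem_lid.1 ha
    obtain ⟨d, rfl⟩ := px_mem_lid.1 hb
    have h5 := H48.hom_dec (y := Sum.elim x w) (c := Sum.elim c d)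
      (n := Sum.elim (fun _ => 1) fun _ => e) (fun o => by
        rcases o with o | o
        · exact h.hx o
        · exact h.hw o) (pxd_homog hF u) (by rw [← hab, Fintype.sum_sum_type]; rfl)
    simp only [Fintype.sum_sum_type, Sum.elim_inl, Sum.elim_inr, he, le_refl, if_true,
      Nat.sub_self, homogeneousComponent_zero, ← smul_eq_C_mul] at h5
    have h6 : π (∑ i, homogeneousComponent (e - 1) (c i) * x i) = 0 :=
      (hπ _).2 (px_mem_lid.2 ⟨_, rfl⟩)
    change π (pxd F u) ∈ _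
    rw [h5, map_add, h6, zero_add, map_sum]
    refine Submodule.sum_mem _ fun j _ => ?_
    rw [map_smul]
    exact Submodule.smul_mem _ _ (Submodule.subset_span ⟨j, rfl⟩)
  have : Module.Finite K (Submodule.span K (Set.range fun j => π (w j))) :=
    Module.Finite.span_of_finite K (Set.finite_range _)
  have h7 : finrank K (LinearMap.range τ) ≤ m :=
    (Submodule.finrank_mono h3).trans ((finrank_range_le_card _).trans (Fintype.card_fin m).le)
  have h8 := LinearMap.finrank_range_add_finrank_ker τ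
  have h9 := LinearMap.finrank_range_add_finrank_ker κ
  rw [h2, finrank_top, finrank_fin_fun, finrank_fin_fun] at h9
  rw [finrank_fin_fun] at h8
  have h10 : LinearMap.ker τ = LinearMap.ker κ :=
    Submodule.eq_of_le_of_finrank_le h1 (by omega)
  have h11 : v ∈ LinearMap.ker κ := funext fun i => by
    rw [hκ, hv i]
    rfl
  rw [← h10] at h11
  exact (hπ _).1 h11

/-- The Euler identity. -/
theorem Lin.euler [CharZero K] (h : Lin I e x w) (hF : F.IsHomogeneous (e + 1))
    (hk : ∀ v, (∀ i, pxd (x i) v = 0) → pxd F v ∈ lid x) : F ∈ lid x := by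
  obtain ⟨T, hT⟩ := h.dual
  have hs : ∀ (p : Pol (m + m) K) a, pxd p (Pi.single a 1) = pderiv a p := fun p a => by
    rw [pxd, Fintype.linearCombination_apply_single, one_smul]
  have hc : ∀ j a, pderiv a (x j) = C (coeff 0 (pderiv a (x j))) := fun j a =>
    px_const (h.hx j).pderiv
  have h1 : ∀ a, pderiv a F - ∑ j, pderiv a (x j) * pxd F (T j) ∈ lid x := by
    intro a
    have h2 := hk (Pi.single a 1 - ∑ j, coeff 0 (pderiv a (x j)) • T j) fun i => by
      rw [map_sub, hs, map_sum]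
      simp only [map_smul, pxd_apply, hT, smul_ite, smul_zero, Finset.sum_ite_eq,
        Finset.mem_univ, if_true]
      rw [smul_eq_C_mul, mul_one, ← hc, sub_self]
    rw [map_sub, hs, map_sum] at h2
    simp only [map_smul, smul_eq_C_mul, ← hc] at h2
    exact h2
  have h3 : ∑ a, X a * ∑ j, pderiv a (x j) * pxd F (T j) = ∑ j, x j * pxd F (T j) := by
    simp only [Finset.mul_sum]
    rw [Finset.sum_comm]
    refine Finset.sum_congr rfl fun j _ => ?_
    simp only [← mul_assoc]
    rw [← Finset.sum_mul, (h.hx j).sum_X_mul_pderiv, one_smul]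
  have h4 := (lid x).sum_mem fun a (_ : a ∈ Finset.univ) => (lid x).mul_mem_left (X a) (h1 a)
  simp only [mul_sub, Finset.sum_sub_distrib] at h4
  rw [h3, hF.sum_X_mul_pderiv] at h4
  have h5 : (e + 1) • F ∈ lid x := by
    have := (lid x).add_mem h4 ((lid x).sum_mem fun j (_ : j ∈ Finset.univ) =>
      (lid x).mul_mem_right (pxd F (T j)) (px_x_mem x j))
    rwa [sub_add_cancel] at this
  have h6 : ((e + 1 : ℕ) : K) ≠ 0 := Nat.cast_ne_zero.2 (Nat.succ_ne_zero e)
  have h7 := (lid x).mul_mem_left (C ((e + 1 : ℕ) : K)⁻¹) h5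
  rwa [nsmul_eq_mul, ← mul_assoc, ← map_natCast (C : K →+* Pol (m + m) K), ← map_mul,
    inv_mul_cancel₀ h6, map_one, one_mul] at h7

end lin

variable [CharZero K]

theorem Lin.plane {m e : ℕ} {I : Ideal (Pol (m + m) K)} {x w : Fin m → Pol (m + m) K}
    (h : Lin I e x w) (he : 1 ≤ e) {F : Pol (m + m) K} (hF : F.IsHomogeneous (e + 1))
    (hJ : jac F ≤ I) (hE : ∀ G ∈ I, G.IsHomogeneous (e + 1) →
      ∃ E, Der E ∧ ∀ a, E (pderiv a F) - pderiv a G ∈ I) (h1 : hf I 1 ≤ m)
    (h2 : m ^ 2 < hf I e) : ∃ g : Fin m → Pol (m + m) K, (∀ i, (g i).IsHomogeneous e) ∧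
      F = ∑ i, x i * g i ∧ ∀ i, g i ∈ I := by
  refine h.split hF hJ (h.euler hF fun v hv => h.ker he hF hJ (fun u hu i => ?_) hv)
  by_contra hi
  exact absurd (h.count hJ hE h1 hu hi) (not_le.2 h2)

end Pool.Agent.Lib.MP_e9c0f3_ag.MC
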