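import Pool.Agent.Lib.MP_e9c0f3_ag.MC.Ann

/-! Complete intersections are annihilators of homogeneous functionals. -/

open MvPolynomial Module

namespace Pool.Agent.Lib.MP_e9c0f3_ag.MC

variable {K : Type} [Field K] {N : ℕ}

/-- A homogeneous generator of the socle of a complete intersection. -/
theorem soc_aux1 [CharZero K] {y : Fin N → Pol N K} {n : Fin N → ℕ}
    (hy : ∀ i, (y i).IsHomogeneous (n i + 1)) (hX : ∀ i, ∃ M, (X i : Pol N K) ^ M ∈ lid y) :
    ∃ Δ : Pol N K, Δ.IsHomogeneous (∑ i, n i) ∧ Δ ∉ lid y ∧ ∀ i, X i * Δ ∈ lid y := by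
  classical
  let M : Matrix (Fin N) (Fin N) (Pol N K) :=
    Matrix.of fun i j => C (((n i + 1 : ℕ) : K)⁻¹) * pderiv j (y i)
  have hM : M.mulVec (X : Fin N → Pol N K) = y := by
    funext i
    have h1 := (hy i).sum_X_mul_pderiv
    have h2 : ((n i + 1 : ℕ) : K) ≠ 0 := Nat.cast_ne_zero.2 (Nat.succ_ne_zero _)
    have h3 : M.mulVec (X : Fin N → Pol N K) i =
        C (((n i + 1 : ℕ) : K)⁻¹) * ∑ j, X j * pderiv j (y i) := by
      simp only [M, Matrix.mulVec, dotProduct, Matrix.of_apply, Finset.mul_sum]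
      exact Finset.sum_congr rfl fun j _ => by ring
    rw [h3, h1, nsmul_eq_mul, ← mul_assoc, ← map_natCast (C : K →+* Pol N K), ← map_mul,
      inv_mul_cancel₀ h2, map_one, one_mul]
  refine ⟨M.det, ?_, fun h => ?_, fun i => ?_⟩
  · rw [Matrix.det_apply']
    refine IsHomogeneous.sum _ _ _ fun σ _ => ?_
    rw [← map_intCast (C : K →+* Pol N K)]
    refine IsHomogeneous.C_mul ?_ _
    rw [← Equiv.sum_comp σ n]
    refine IsHomogeneous.prod _ _ (fun i => n (σ i)) fun i _ => ?_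
    exact ((hy (σ i)).pderiv (i := i)).C_mul _
  · have h1 := H48.wiebe (y := (X : Fin N → Pol N K))
      (fun i => ⟨1, Nat.one_pos, isHomogeneous_X K i⟩) M (by rw [hM]; exact hX) (c := 1)
      (by rw [hM, one_mul]; exact h)
    obtain ⟨b, hb⟩ := Ideal.mem_span_range_iff_exists_fun.1 h1
    have h2 := congrArg (constantCoeff (σ := Fin N) (R := K)) hb
    simp at h2
  · rw [mul_comm, H48.det_mul_mem, hM]
    exact Ideal.sum_mem _ fun j _ => Ideal.mul_mem_left _ _ (Ideal.subset_span ⟨j, rfl⟩)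

theorem exists_soc [CharZero K] {y : Fin N → Pol N K} {n : Fin N → ℕ}
    (hy : ∀ i, (y i).IsHomogeneous (n i + 1)) (hX : ∀ i, ∃ M, (X i : Pol N K) ^ M ∈ lid y) :
    ∃ ρ : Pol N K →ₗ[K] K, ρ ≠ 0 ∧ Conc ρ (∑ i, n i) ∧ ann ρ = lid y := by
  obtain ⟨Δ, hΔ, hn, hs⟩ := soc_aux1 hy hX
  obtain ⟨D, hD1, hD2⟩ := socle_of_param y (fun i => ⟨n i + 1, Nat.succ_pos _, hy i⟩) hX
  have hg : Hg (lid y) := hg_span (by
    rintro _ ⟨i, rfl⟩
    exact ⟨_, hy i⟩)
  have hsoc : ∀ a : Pol N K, (∀ i, X i * a ∈ lid y) → ∃ c : K, a - c • D ∈ lid y := by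
    intro a ha
    obtain ⟨c, hc⟩ := hD2 a ha
    refine ⟨coeff 0 c, ?_⟩
    have h1 := add_mem hc (frob_sub_const _ D hD1 c)
    rwa [sub_add_sub_cancel] at h1
  let W : Submodule K (Pol N K) := (lid y).restrictScalars K
  obtain ⟨ρ0, h0, h1⟩ := Submodule.exists_dual_map_eq_bot_of_notMem (p := W) (x := Δ) hn
    inferInstance
  have hz0 : ∀ a ∈ lid y, ρ0 a = 0 := by
    intro a ha
    have : ρ0 a ∈ W.map ρ0 := Submodule.mem_map_of_mem ha
    rwa [h1, Submodule.mem_bot] at this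
  let ρ : Pol N K →ₗ[K] K := ρ0 ∘ₗ homogeneousComponent (∑ i, n i)
  have hρ : ∀ p, ρ p = ρ0 (homogeneousComponent (∑ i, n i) p) := fun _ => rfl
  have hz : ∀ a ∈ lid y, ρ a = 0 := fun a ha => hz0 _ (hg a ha _)
  have hρΔ : ρ Δ ≠ 0 := by
    rw [hρ, homogeneousComponent_eq_self hΔ]
    exact h0
  have hρD : ρ D ≠ 0 := by
    intro h
    obtain ⟨c, hc⟩ := hsoc Δ hs
    have h2 := hz _ hc
    rw [map_sub, map_smul, h, smul_zero, sub_zero] at h2
    exact hρΔ h2
  refine ⟨ρ, fun h => hρΔ (by rw [h]; rfl), fun m hm p hp => ?_, le_antisymm ?_ ?_⟩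
  · rw [hρ, homogeneousComponent_of_mem hp, if_neg (Ne.symm hm), map_zero]
  · intro a ha
    by_contra haJ
    obtain ⟨b, hab, hb⟩ := frob_exists_socle _ hX a haJ
    obtain ⟨c, hc⟩ := hsoc _ hb
    have h3 := hz _ hc
    rw [map_sub, mem_ann.1 ha b, map_smul, zero_sub, neg_eq_zero, smul_eq_mul, mul_eq_zero] at h3
    rcases h3 with h3 | h3
    · rw [h3, zero_smul, sub_zero] at hc
      exact hab hc
    · exact hρD h3
  · intro a ha
    exact mem_ann.2 fun b => hz _ (Ideal.mul_mem_right b _ ha)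

/-- A form evaluated on a line. -/
theorem soc_aux2 {ι A : Type} [CommRing A] [Algebra K A] {H : MvPolynomial ι K} {D : ℕ}
    (hH : H.IsHomogeneous D) (c : ι → K) (t : A) :
    aeval (fun i => c i • t) H = eval c H • t ^ D := by
  classical
  rw [aeval_def, eval₂_eq, eval_eq, Finset.sum_smul]
  refine Finset.sum_congr rfl fun d hd => ?_
  have h1 : ∑ i ∈ d.support, d i = D := (hH.degree_eq_sum_deg_support hd).symm
  simp only [smul_pow, Finset.prod_smul, Finset.prod_pow_eq_pow_sum, h1]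
  rw [mul_smul, Algebra.smul_def (coeff d H)]

/-- More than `N` forms of the same positive degree satisfy a homogeneous relation. -/
theorem soc_aux3 {r e : ℕ} (he : 1 ≤ e) (hr : N < r) {v : Fin r → Pol N K}
    (hv : ∀ i, (v i).IsHomogeneous e) :
    ∃ (H : MvPolynomial (Fin r) K) (D : ℕ), H ≠ 0 ∧ H.IsHomogeneous D ∧ aeval v H = 0 := by
  have h1 : ¬ AlgebraicIndependent K v := by
    intro h
    have h2 := h.cardinalMk_le_trdeg
    rw [MvPolynomial.trdeg_of_isDomain] at h2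
    simp only [Cardinal.mk_fintype, Fintype.card_fin, Cardinal.lift_natCast, Nat.cast_le] at h2
    omega
  rw [algebraicIndependent_iff] at h1
  push Not at h1
  obtain ⟨H, hH, h0⟩ := h1
  have h2 : ∃ D ∈ Finset.range (H.totalDegree + 1), homogeneousComponent D H ≠ 0 := by
    by_contra h
    push Not at h
    exact h0 (by rw [← sum_homogeneousComponent H]; exact Finset.sum_eq_zero h)
  obtain ⟨D, hD, hD0⟩ := h2
  refine ⟨_, D, hD0, homogeneousComponent_isHomogeneous D H, ?_⟩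
  have h3 := congrArg (homogeneousComponent (e * D)) hH
  rw [← sum_homogeneousComponent H, map_sum, map_sum, map_zero, Finset.sum_eq_single D,
    homogeneousComponent_eq_self ((homogeneousComponent_isHomogeneous D H).aeval v hv)] at h3
  · exact h3
  · intro b _ hb
    rw [homogeneousComponent_of_mem ((homogeneousComponent_isHomogeneous b H).aeval v hv), if_neg]
    intro h
    exact hb (Nat.eq_of_mul_eq_mul_left he h).symm
  · intro h
    exact absurd hD h

/-- One form can be dropped up to radical. -/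
theorem soc_aux4 [CharZero K] {r e : ℕ} (he : 1 ≤ e) (hr : N ≤ r) {v : Fin (r + 1) → Pol N K}
    (hv : ∀ i, (v i).IsHomogeneous e) : ∃ c : Fin (r + 1) → K,
      lid v ≤ (lid fun i : Fin r => c 0 • v i.succ - c i.succ • v 0).radical := by
  obtain ⟨H, D, h0, hH, hrel⟩ := soc_aux3 he (Nat.lt_succ_of_le hr) hv
  have h1 : ∃ c : Fin (r + 1) → K, eval c (H * X 0) ≠ 0 := by
    by_contra h
    push Not at h
    exact mul_ne_zero h0 (X_ne_zero 0) (MvPolynomial.funext fun c => by rw [h c, map_zero])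
  obtain ⟨c, hc⟩ := h1
  rw [map_mul, eval_X] at hc
  have hc1 := left_ne_zero_of_mul hc
  have hc0 := right_ne_zero_of_mul hc
  refine ⟨c, ?_⟩
  set J : Ideal (Pol N K) := lid fun i : Fin r => c 0 • v i.succ - c i.succ • v 0 with hJ
  let φ := Ideal.Quotient.mkₐ K J
  let t := (c 0)⁻¹ • φ (v 0)
  have h2 : ∀ i, φ (v i) = c i • t := by
    intro i
    refine Fin.cases ?_ (fun i => ?_) i
    · rw [smul_smul, mul_inv_cancel₀ hc0, one_smul]
    · have h3 : φ (c 0 • v i.succ - c i.succ • v 0) = 0 :=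
        Ideal.Quotient.eq_zero_iff_mem.2 (Ideal.subset_span ⟨i, rfl⟩)
      rw [map_sub, map_smul, map_smul, sub_eq_zero] at h3
      rw [smul_comm, ← h3, smul_smul, inv_mul_cancel₀ hc0, one_smul]
  have h4 : t ^ D = 0 := by
    have h6 : eval c H • t ^ D = 0 := by
      rw [← soc_aux2 hH c t, ← funext h2, ← comp_aeval_apply, hrel, map_zero]
    exact (smul_eq_zero_iff_right hc1).1 h6
  unfold lid
  rw [Ideal.span_le]
  rintro _ ⟨i, rfl⟩
  refine ⟨D, ?_⟩
  have h7 : φ (v i ^ D) = 0 := by rw [map_pow, h2, smul_pow, h4, smul_zero]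
  exact Ideal.Quotient.eq_zero_iff_mem.1 h7

theorem soc_aux5 [CharZero K] {I : Ideal (Pol N K)} {e : ℕ} (he : 1 ≤ e) (r : ℕ) :
    ∀ v : Fin (N + r) → Pol N K, (∀ i, v i ∈ I ∧ (v i).IsHomogeneous e) →
      ∃ w : Fin N → Pol N K, (∀ i, w i ∈ I ∧ (w i).IsHomogeneous e) ∧
        lid v ≤ (lid w).radical := by
  induction r with
  | zero => exact fun v hv => ⟨v, hv, Ideal.le_radical⟩
  | succ r ih =>
    intro v hv
    obtain ⟨c, hc⟩ := soc_aux4 (r := N + r) he (Nat.le_add_right N r) (v := v) fun i => (hv i).2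
    obtain ⟨w, hw, hle⟩ := ih (fun i : Fin (N + r) => c 0 • v i.succ - c i.succ • v 0) fun i => by
      simp only [smul_eq_C_mul]
      exact ⟨sub_mem (I.mul_mem_left _ (hv _).1) (I.mul_mem_left _ (hv _).1),
        ((hv _).2.C_mul _).sub ((hv _).2.C_mul _)⟩
    exact ⟨w, hw, hc.trans (Ideal.radical_le_radical_iff.2 hle)⟩

/-- A base point free system in `m` variables contains `m` forms without common zero. -/
theorem exists_param [CharZero K] {I : Ideal (Pol N K)} {e : ℕ} (he : 1 ≤ e) (hb : Bpf I e) :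
    ∃ w : Fin N → Pol N K, (∀ i, w i ∈ I ∧ (w i).IsHomogeneous e) ∧
      ∀ i, ∃ M, (X i : Pol N K) ^ M ∈ lid w := by
  classical
  choose M hM using hb
  choose T hT1 hT2 using fun i => Submodule.mem_span_finite_of_mem_span (hM i)
  let U : Finset (Pol N K) := Finset.univ.biUnion T
  let u : Fin U.card → Pol N K := fun j => U.equivFin.symm j
  have hu : ∀ j, u j ∈ I ∧ (u j).IsHomogeneous e := by
    intro j
    obtain ⟨i, -, hi⟩ := Finset.mem_biUnion.1 (U.equivFin.symm j).2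
    exact hT1 i hi
  obtain ⟨w, hw, hle⟩ := soc_aux5 (I := I) he U.card (Fin.append 0 u) fun i => by
    refine Fin.addCases (fun i => ?_) (fun i => ?_) i
    · rw [Fin.append_left]
      exact ⟨zero_mem _, isHomogeneous_zero _ _ _⟩
    · rw [Fin.append_right]
      exact hu i
  refine ⟨w, hw, fun i => ?_⟩
  have h1 : (X i : Pol N K) ^ M i ∈ lid (Fin.append (0 : Fin N → Pol N K) u) := by
    refine Submodule.span_mono ?_ (hT2 i)
    intro p hp
    refine ⟨Fin.natAdd N (U.equivFin ⟨p, Finset.mem_biUnion.2 ⟨i, Finset.mem_univ i, hp⟩⟩), ?_⟩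
    rw [Fin.append_right]
    simp [u]
  obtain ⟨m, hm⟩ := hle h1
  exact ⟨M i * m, by rwa [pow_mul]⟩

end Pool.Agent.Lib.MP_e9c0f3_ag.MC
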