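import Pool.Agent.Lib.MP_e9c0f3_ag.MC.Gen
import Pool.Agent.Lib.MP_e9c0f3_ag.MC.Soc
import Pool.Agent.Lib.MP_e9c0f3_ag.MC.PX

/-! The case of `k + 1` variables. -/

open MvPolynomial Module

namespace Pool.Agent.Lib.MP_e9c0f3_ag.MC

open H48

variable {K : Type} [Field K] {N : ℕ}

/-- The linear form with given coefficients, as a linear map. -/
noncomputable def ciL (N : ℕ) (K : Type) [Field K] : (Fin N → K) →ₗ[K] Pol N K where
  toFun := lin
  map_add' u v := by simp [lin, add_mul, Finset.sum_add_distrib]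
  map_smul' a v := by simp [lin, Finset.mul_sum, smul_eq_C_mul, mul_assoc]

theorem ci_pderiv (v : Fin N → K) (a : Fin N) : pderiv a (lin v) = C (v a) := by
  classical
  simp [lin, pderiv_X, Pi.single_apply]

theorem ci_inj : Function.Injective (ciL N K) := fun u v h => funext fun a => by
  have h1 := congrArg (pderiv a) (show lin u = lin v from h)
  rwa [ci_pderiv, ci_pderiv, C_inj] at h1

theorem ci_X (a : Fin N) : lin (Pi.single a (1 : K)) = X a := by
  classical
  simp [lin, Pi.single_apply, apply_ite C]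

theorem ci_aeval {M : ℕ} (f : Fin N → Fin M → K) (v : Fin N → K) :
    aeval (fun a => lin (f a)) (lin v) = lin (∑ a, v a • f a) := by
  rw [lin_sum, lin, map_sum]
  simp

theorem ci_homog {M n : ℕ} (f : Fin N → Fin M → K) {p : Pol N K} (h : p.IsHomogeneous n) :
    (aeval (fun a => lin (f a)) p).IsHomogeneous n := by
  simpa using h.aeval (fun a => lin (f a)) fun a => lin_homog _

theorem ci_repr (b : Basis (Fin N) K (Fin N → K)) (v : Fin N → K) (i : Fin N) :
    ∑ a, v a * b.repr (Pi.single a 1) i = b.repr v i := by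
  conv_rhs => rw [pi_eq_sum_univ' v]
  simp [map_sum, Finsupp.finsetSum_apply]

theorem ci_rad {J : Ideal (Pol N K)} (h : ∀ a, ∃ M, (X a : Pol N K) ^ M ∈ J) {p : Pol N K}
    (hp : p.IsHomogeneous 1) : p ∈ J.radical := by
  obtain ⟨v, rfl⟩ := exists_lin hp
  exact Ideal.sum_mem _ fun a _ => Ideal.mul_mem_left _ _ (h a)

theorem ci_split {m : ℕ} (b : Basis (Fin (m + m)) K (Fin (m + m) → K)) :
    ∃ (θ : Pol m K →ₐ[K] Pol (m + m) K) (π : Pol (m + m) K →ₐ[K] Pol m K),
      (∀ n p, p.IsHomogeneous n → (θ p).IsHomogeneous n) ∧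
      (∀ n p, p.IsHomogeneous n → (π p).IsHomogeneous n) ∧ (∀ q, π (θ q) = q) ∧
      (∀ i, π (lin (b (Fin.castAdd m i))) = 0) ∧
      ∀ p, p - θ (π p) ∈ lid fun i => lin (b (Fin.castAdd m i)) := by
  classical
  have h1 : ∀ v, aeval (fun a => lin fun j => b.repr (Pi.single a 1) (Fin.natAdd m j)) (lin v) =
      lin fun j => b.repr v (Fin.natAdd m j) := fun v => by
    rw [ci_aeval]
    congr 1
    funext j
    simp [ci_repr]
  refine ⟨aeval fun j => lin (b (Fin.natAdd m j)),
    aeval fun a => lin fun j => b.repr (Pi.single a 1) (Fin.natAdd m j),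
    fun n p => ci_homog _, fun n p => ci_homog _, fun q => ?_, fun i => ?_, fun p => ?_⟩
  · rw [← AlgHom.comp_apply]
    refine (AlgHom.congr_fun (algHom_ext fun j => ?_) q).trans (AlgHom.id_apply q)
    rw [AlgHom.comp_apply, aeval_X, h1, AlgHom.id_apply, ← ci_X]
    congr 1
    funext l
    simp [Finsupp.single_apply, Pi.single_apply, eq_comm]
  · rw [h1, ← map_zero (ciL m K)]
    congr 1
    funext l
    rw [b.repr_self, Finsupp.single_apply, if_neg, Pi.zero_apply]
    intro h
    have := congrArg Fin.val h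
    simp only [Fin.val_castAdd, Fin.val_natAdd] at this
    omega
  · induction p using MvPolynomial.induction_on with
    | C a => simp
    | add p q hp hq =>
      rw [map_add, map_add, add_sub_add_comm]
      exact add_mem hp hq
    | mul_X p a hp =>
      have h2 : X a - aeval (fun j => lin (b (Fin.natAdd m j))) (aeval (fun a => lin fun j =>
          b.repr (Pi.single a 1) (Fin.natAdd m j)) (X a : Pol (m + m) K)) ∈
          lid fun i => lin (b (Fin.castAdd m i)) := by
        rw [aeval_X, ci_aeval, ← ci_X]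
        conv => enter [2, 1, 1]; rw [← b.sum_repr (Pi.single a 1), Fin.sum_univ_add]
        rw [show ∀ u v, lin (u + v) = lin u + lin v from map_add (ciL (m + m) K),
          add_sub_cancel_right, lin_sum]
        exact Ideal.sum_mem _ fun i _ => Ideal.mul_mem_left _ _ (Ideal.subset_span ⟨i, rfl⟩)
      rw [map_mul, map_mul]
      convert add_mem (Ideal.mul_mem_right (X a) _ hp) (Ideal.mul_mem_left _ (aeval (fun j =>
        lin (b (Fin.natAdd m j))) (aeval (fun a => lin fun j =>
          b.repr (Pi.single a 1) (Fin.natAdd m j)) p)) h2) using 1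
      ring

theorem ci_count {m e j r : ℕ} {I : Ideal (Pol N K)} (θ : Pol m K →ₐ[K] Pol N K)
    (hθ : ∀ n p, p.IsHomogeneous n → (θ p).IsHomogeneous n) {w : Fin m → Pol m K}
    (hw : ∀ i, (w i).IsHomogeneous e) (h : ∀ q, θ q ∈ I → q ∈ lid w)
    (hr : finrank K (Sd m K j) = r) :
    finrank K (Sd m K (e + j)) ≤ hf I (e + j) + m * r := by
  let g : (Fin m → Sd m K j) →ₗ[K] Pol m K :=
    ∑ i, LinearMap.mulRight K (w i) ∘ₗ (Sd m K j).subtype ∘ₗ LinearMap.proj i
  refine (le_hf_add (I := I) (θ.toLinearMap ∘ₗ (Sd m K (e + j)).subtype) (fun q => hθ _ _ q.2)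
    ((LinearMap.range g).comap (Sd m K (e + j)).subtype) fun q hq => ?_).trans ?_
  · obtain ⟨c, hc⟩ := Ideal.mem_span_range_iff_exists_fun.1 (h _ hq)
    have h1 := hom_dec hw q.2 hc.symm
    simp only [if_pos (Nat.le_add_right e j), Nat.add_sub_cancel_left] at h1
    refine ⟨fun i => ⟨_, homogeneousComponent_isHomogeneous j (c i)⟩, ?_⟩
    simp only [g, LinearMap.sum_apply]
    exact h1.symm
  · refine Nat.add_le_add_left ?_ _
    refine ((Submodule.finrank_map_subtype_eq _ _).symm.trans_le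
      (Submodule.finrank_mono (Submodule.map_comap_le _ _))).trans ?_
    refine (LinearMap.finrank_range_le g).trans ?_
    rw [finrank_pi_fintype]
    simp [hr]

variable [CharZero K]

theorem ci_case {k e : ℕ} {μ : Pol (k + 1 + (k + 1)) K →ₗ[K] K} (he : 2 ≤ e)
    (h : Conc μ ((k + 1) * (e - 1))) (h0 : μ ≠ 0) (hb : Bpf (ann μ) e)
    (h1 : hf (ann μ) 1 ≤ k + 1) : (∃ x w, Lin (ann μ) e x w) ∧
      (e + k).choose k ≤ hf (ann μ) e + (k + 1) ∧
      (e + 1 + k).choose k ≤ hf (ann μ) (e + 1) + (k + 1) ^ 2 := by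
  classical
  let U := ((ann μ).restrictScalars K).comap (ciL (k + 1 + (k + 1)) K)
  have h2 : k + 1 ≤ finrank K U := by
    have := le_hf_add (I := ann μ) (ciL (k + 1 + (k + 1)) K) (fun v => lin_homog v) U fun v hv => hv
    rw [finrank_fin_fun] at this
    omega
  have h3 : finrank K U ≤ k + 1 := by
    have h4 := lbg (c := k) (t := 1) h h0 hb (by omega) he (by rw [add_mul]; omega)
    have h5 := hf_add (ann μ) 1
    have h6 : finrank K (Sd (k + 1 + (k + 1)) K 1) = _ := finrank_Sd (k + 1 + k) K 1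
    rw [add_comm 1, Nat.choose_succ_self_right] at h4 h6
    have h7 : U.map (ciL _ K) ≤ Sd (k + 1 + (k + 1)) K 1 ⊓ (ann μ).restrictScalars K := by
      rintro _ ⟨v, hv, rfl⟩
      exact ⟨lin_homog v, hv⟩
    have : Module.Finite K (Sd (k + 1 + (k + 1)) K 1 ⊓ (ann μ).restrictScalars K :
      Submodule K _) := Submodule.finiteDimensional_inf_left _ _
    have h8 := Submodule.finrank_mono h7
    rw [← (Submodule.equivMapOfInjective _ ci_inj U).finrank_eq] at h8
    omega
  obtain ⟨b, hU⟩ := exists_basis U h3 (by omega)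
  have h4 : b '' {i | i.val < k + 1} = Set.range fun i => b (Fin.castAdd (k + 1) i) := by
    ext v
    exact ⟨fun ⟨i, hi, hv⟩ => ⟨⟨i, hi⟩, hv⟩, fun ⟨i, hv⟩ => ⟨_, i.2, hv⟩⟩
  rw [h4] at hU
  have h5 := Submodule.eq_of_le_of_finrank_le hU
    (((finrank_range_le_card _).trans_eq (Fintype.card_fin _)).trans h2)
  obtain ⟨θ, π, hθ, hπ, hπθ, hx, hp⟩ := ci_split b
  set x := fun i => lin (b (Fin.castAdd (k + 1) i)) with hxd
  have h6 : lid x ≤ ann μ := Ideal.span_le.2 (by
    rintro _ ⟨i, rfl⟩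
    exact (h5.ge (Submodule.subset_span ⟨i, rfl⟩) : b _ ∈ U))
  obtain ⟨w, hw, hX⟩ := exists_param (I := (ann μ).map π) (by omega : 1 ≤ e) fun j => by
    obtain ⟨M, hM⟩ := ci_rad hb (hθ _ _ (isHomogeneous_X K j))
    have h7 := Ideal.mem_map_of_mem π hM
    rw [map_pow, hπθ, Ideal.map_span] at h7
    refine ⟨M, Ideal.span_mono ?_ h7⟩
    rintro _ ⟨p, ⟨h8, h9⟩, rfl⟩
    exact ⟨Ideal.mem_map_of_mem _ h8, hπ _ _ h9⟩
  have h7 : lid (fun i => θ (w i)) ≤ ann μ := Ideal.span_le.2 (by
    rintro _ ⟨i, rfl⟩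
    obtain ⟨p, h8, h9⟩ := (Ideal.mem_map_iff_of_surjective π fun q => ⟨_, hπθ q⟩).1 (hw i).1
    have h10 := sub_mem h8 (h6 (hp p))
    rwa [sub_sub_cancel, h9] at h10)
  have h8 : lid (Fin.append x fun i => θ (w i)) = lid x ⊔ lid fun i => θ (w i) := by
    rw [lid, lid, lid, ← Ideal.span_union]
    congr 1
    refine Set.Subset.antisymm ?_ (Set.union_subset ?_ ?_)
    · rintro _ ⟨i, rfl⟩
      refine Fin.addCases (fun i => ?_) (fun i => ?_) i
      · exact Or.inl ⟨i, (Fin.append_left _ _ i).symm⟩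
      · exact Or.inr ⟨i, (Fin.append_right x (fun i => θ (w i)) i).symm⟩
    · rintro _ ⟨i, rfl⟩
      exact ⟨_, Fin.append_left _ _ i⟩
    · rintro _ ⟨i, rfl⟩
      exact ⟨_, Fin.append_right _ _ i⟩
  obtain ⟨ρ, -, hρ, h9⟩ := exists_soc (y := Fin.append x fun i => θ (w i))
    (n := Fin.append (fun _ => 0) fun _ => e - 1) (fun i => by
      refine Fin.addCases (fun i => ?_) (fun i => ?_) i
      · rw [Fin.append_left, Fin.append_left]
        exact lin_homog _
      · rw [Fin.append_right, Fin.append_right, Nat.sub_add_cancel (by omega)]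
        exact hθ _ _ (hw i).2)
    fun a => by
      obtain ⟨M, hM⟩ := ci_rad hX (hπ _ _ (isHomogeneous_X K a))
      have h10 := Ideal.mem_map_of_mem θ hM
      rw [map_pow, lid, Ideal.map_span, ← Set.range_comp] at h10
      rw [h8]
      have h11 : X a - θ (π (X a)) + θ (π (X a)) ∈ (lid x ⊔ lid fun i => θ (w i)).radical :=
        add_mem (Ideal.le_radical (Ideal.mem_sup_left (hp _))) ⟨M, Ideal.mem_sup_right h10⟩
      rwa [sub_add_cancel] at h11
  rw [h8] at h9
  have h10 : ann μ = lid x ⊔ lid fun i => θ (w i) := by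
    rw [Fin.sum_univ_add] at hρ
    simp only [Fin.append_left, Fin.append_right, Finset.sum_const, smul_eq_mul, mul_zero,
      zero_add, Finset.card_univ, Fintype.card_fin] at hρ
    obtain ⟨c, hc⟩ := hρ.eq_smul h (h9 ▸ sup_le h6 h7)
    refine le_antisymm (fun p hp => h9 ▸ fun q => ?_) (sup_le h6 h7)
    have h11 := hp q
    rw [hc, LinearMap.smul_apply, smul_eq_mul] at h11
    exact (mul_eq_zero.1 h11).resolve_left fun h12 => h0 (by rw [hc, h12, zero_smul])
  have h11 : ∀ q, θ q ∈ ann μ → q ∈ lid w := fun q hq => by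
    have h12 : ann μ ≤ (lid w).comap π := by
      rw [h10]
      refine sup_le (Ideal.span_le.2 ?_) (Ideal.span_le.2 ?_)
      · rintro _ ⟨i, rfl⟩
        show π _ ∈ lid w
        rw [hx i]
        exact zero_mem _
      · rintro _ ⟨i, rfl⟩
        show π _ ∈ lid w
        rw [hπθ]
        exact Ideal.subset_span ⟨i, rfl⟩
    simpa [hπθ] using h12 hq
  refine ⟨⟨x, _, fun i => lin_homog _, fun i => hθ _ _ (hw i).2, h10,
    fun j a => b.repr (Pi.single a 1) (Fin.castAdd _ j), fun i j => ?_⟩, ?_, ?_⟩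
  · simp only [hxd, ci_pderiv, smul_eq_C_mul, ← C_mul, ← map_sum, mul_comm (b.repr _ _)]
    rw [ci_repr, b.repr_self, Finsupp.single_apply]
    simp [apply_ite C]
  · have h12 := ci_count θ hθ (fun i => (hw i).2) h11 (finrank_Sd k K 0)
    simpa [finrank_Sd] using h12
  · have h12 := ci_count θ hθ (fun i => (hw i).2) h11 (finrank_Sd k K 1)
    rwa [finrank_Sd, add_comm 1, Nat.choose_succ_self_right, ← sq] at h12

end Pool.Agent.Lib.MP_e9c0f3_ag.MC
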