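import Pool.Agent.Lib.MP_e9c0f3_ag.CL.E

/-! Anticommuting blocks of Clifford generators in a division ring. -/

open MvPolynomial

namespace Pool.Agent.Lib.MP_e9c0f3_ag.MC

open CL

theorem blk {α β W : Type} [Fintype α] [Fintype β] [AddCommMonoid W] {r : α → β}
    (hr : Function.Injective r) (t : β → β → W)
    (h : ∀ a b, a ∉ Set.range r ∨ b ∉ Set.range r → t a b = 0) :
    ∑ a, ∑ b, t (r a) (r b) = ∑ a, ∑ b, t a b :=
  Fintype.sum_of_injective r hr _ _
    (fun a ha => Finset.sum_eq_zero fun b _ => h a b (Or.inl ha))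
    fun a => Fintype.sum_of_injective r hr _ _ (fun b hb => h _ b (Or.inr hb)) fun _ => rfl

theorem exists_clif {K : Type} [Field K] {N : ℕ} (f : Fin N → MvPolynomial (Fin N) K)
    (hf : ∀ j, (f j).IsHomogeneous 2)
    (hprim : ∀ i, ∃ M, (X i : MvPolynomial (Fin N) K) ^ M ∈ Ideal.span (Set.range f))
    (p : ℕ) : ∃ (D : Type) (_ : DivisionRing D) (_ : Algebra K D) (g : Fin p → Fin N → D),
      (∀ i j a b, i ≠ j → g i a * g j b = -(g j b * g i a)) ∧
      (∀ φ : MvPolynomial (Fin N) K →ₗ[K] K, (∀ j, φ (f j) = 0) →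
        ∀ i, ∑ a, ∑ b, φ (X a * X b) • (g i a * g i b) = 0) ∧
      LinearIndependent K (fun a : Fin p → Fin N => (List.ofFn fun i => g i (a i)).prod) := by
  classical
  choose κ hκ using fun j => exists_kap (hf j)
  let e : Fin p × Fin N ≃ Fin (p * N) := finProdFinEquiv
  let r : Fin p → Fin N → Fin (p * N) := fun i a => e (i, a)
  have hr : ∀ i, Function.Injective (r i) := fun i a b h => congrArg Prod.snd (e.injective h)
  have hr' : ∀ i a b, a ∉ Set.range (r i) ∨ b ∉ Set.range (r i) →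
      ¬((e.symm a).1 = i ∧ (e.symm b).1 = i) := by
    rintro i a b h ⟨h1, h2⟩
    rcases h with h | h
    · exact h ⟨(e.symm a).2, by simp [r, ← h1]⟩
    · exact h ⟨(e.symm b).2, by simp [r, ← h2]⟩
  let κ' : Fin (p * N) → Fin (p * N) → Fin (p * N) → K := fun l a b =>
    if (e.symm a).1 = (e.symm l).1 ∧ (e.symm b).1 = (e.symm l).1 then
      κ (e.symm l).2 (e.symm a).2 (e.symm b).2 else 0
  obtain ⟨D, _, _, g, h1, h2, h3⟩ := core (κ := κ')
    (f := fun l => rename (r (e.symm l).1) (f (e.symm l).2)) (fun l => by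
      rw [← blk (hr (e.symm l).1) _ fun a b h => by rw [show κ' l a b = 0 from if_neg (hr' _ _ _ h),
        zero_smul], hκ]
      simp [κ', r]) (fun l => (hf _).rename_isHomogeneous) fun l => by
      obtain ⟨M, hM⟩ := hprim (e.symm l).2
      have h := Ideal.mem_map_of_mem (rename (R := K) (r (e.symm l).1)) hM
      rw [Ideal.map_span, map_pow, rename_X] at h
      refine ⟨M, Ideal.span_mono ?_ (by simpa [r] using h)⟩
      rintro _ ⟨_, ⟨j, rfl⟩, rfl⟩
      exact ⟨e ((e.symm l).1, j), by simp [r]⟩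
  refine ⟨D, _, inferInstance, fun i a => g (r i a), fun i j a b hij => h1 _ _ fun l => ?_,
    fun φ hφ i => ?_, h3 _ p r fun i j a b h => Prod.mk.inj (e.injective h)⟩
  · refine ⟨if_neg fun h => hij ?_, if_neg fun h => hij ?_⟩
    · simpa [r] using h.1.trans h.2.symm
    · simpa [r] using h.2.trans h.1.symm
  · let s : Fin (p * N) → Fin (p * N) → K := fun a b =>
      if (e.symm a).1 = i ∧ (e.symm b).1 = i then φ (X (e.symm a).2 * X (e.symm b).2) else 0
    have hs : ∀ a b, a ∉ Set.range (r i) ∨ b ∉ Set.range (r i) → s a b = 0 :=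
      fun a b h => if_neg (hr' _ _ _ h)
    have h4 := h2 s (fun a b => if_congr and_comm (by rw [mul_comm]) rfl) fun l => by
      rw [← blk (hr i) _ fun a b h => by rw [hs a b h, mul_zero]]
      by_cases hl : i = (e.symm l).1
      · have h5 := hφ (e.symm l).2
        rw [hκ] at h5
        simpa [κ', s, r, hl] using h5
      · simp [κ', r, hl]
    rw [← blk (hr i) _ fun a b h => by rw [hs a b h, zero_smul]] at h4
    simpa [s, r] using h4

end Pool.Agent.Lib.MP_e9c0f3_ag.MC
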