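import Pool.Agent.Lib.MP_e9c0f3_ag.MC.Ann

/-! Extension of the ground field and generic linear forms. -/

open MvPolynomial Module

namespace Pool.Agent.Lib.MP_e9c0f3_ag.MC

variable {K : Type} [Field K] {N : ℕ}

/-- A derivation of a domain extends to the field of fractions. -/
theorem exists_der_frac {A L : Type} [CommRing A] [IsDomain A] [Field L] [Algebra A L]
    [IsFractionRing A L] (D : A →+ A) (hD : ∀ a b, D (a * b) = D a * b + a * D b) :
    ∃ δ : L →+ L, (∀ a b, δ (a * b) = δ a * b + a * δ b) ∧
      ∀ a, δ (algebraMap A L a) = algebraMap A L (D a) := by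
  have h1 : D 1 = 0 := by
    have h := hD 1 1
    rw [mul_one, mul_one, one_mul] at h
    exact left_eq_add.mp h
  let f : A →+* TrivSqZeroExt L L :=
    { toFun := fun a => (algebraMap A L a, algebraMap A L (D a))
      map_one' := TrivSqZeroExt.ext (map_one (algebraMap A L)) (by
        show algebraMap A L (D 1) = 0
        rw [h1, map_zero])
      map_mul' := fun a b => TrivSqZeroExt.ext (map_mul (algebraMap A L) a b) (by
        show algebraMap A L (D (a * b)) = algebraMap A L a * algebraMap A L (D b) +
          algebraMap A L (D a) * algebraMap A L b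
        rw [hD, map_add, map_mul, map_mul, add_comm])
      map_zero' := TrivSqZeroExt.ext (map_zero (algebraMap A L)) (by
        show algebraMap A L (D 0) = 0
        rw [map_zero, map_zero])
      map_add' := fun a b => TrivSqZeroExt.ext (map_add (algebraMap A L) a b) (by
        show algebraMap A L (D (a + b)) = algebraMap A L (D a) + algebraMap A L (D b)
        rw [map_add, map_add]) }
  have hf1 : ∀ a, (f a).fst = algebraMap A L a := fun a => rfl
  have hf2 : ∀ a, (f a).snd = algebraMap A L (D a) := fun a => rfl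
  have hu : ∀ y : nonZeroDivisors A, IsUnit (f y) := fun y => by
    rw [TrivSqZeroExt.isUnit_iff_isUnit_fst, hf1]
    exact IsLocalization.map_units L y
  let g : L →+* TrivSqZeroExt L L := IsLocalization.lift (M := nonZeroDivisors A) hu
  have hg : ∀ a, g (algebraMap A L a) = f a := fun a => IsLocalization.lift_eq hu a
  have hg1 : ∀ x, (g x).fst = x := by
    have h : (TrivSqZeroExt.fstHom L L L).toRingHom.comp g = RingHom.id L := by
      refine IsLocalization.ringHom_ext (nonZeroDivisors A) ?_
      ext a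
      simp [hg, hf1]
    intro x
    exact DFunLike.congr_fun h x
  refine ⟨{ toFun := fun x => (g x).snd, map_zero' := by simp, map_add' := fun a b => by simp },
    fun a b => ?_, fun a => ?_⟩
  · show (g (a * b)).snd = (g a).snd * b + a * (g b).snd
    rw [map_mul, TrivSqZeroExt.snd_mul, hg1, hg1]
    simp
    ring
  · show (g (algebraMap A L a)).snd = _
    rw [hg, hf2]

/-- Extension of a functional along a ring homomorphism. -/
noncomputable def ext {R L : Type} [CommRing R] [CommRing L] (φ : R →+* L)
    (μ : Pol N R →ₗ[R] R) : Pol N L →ₗ[L] L :=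
  (basisMonomials (Fin N) L).constr L fun m => φ (μ (monomial m 1))

theorem ext_monomial {R L : Type} [CommRing R] [CommRing L] (φ : R →+* L)
    (μ : Pol N R →ₗ[R] R) (m : Fin N →₀ ℕ) (a : L) :
    ext φ μ (monomial m a) = a * φ (μ (monomial m 1)) := by
  have h : (monomial m a : Pol N L) = a • basisMonomials (Fin N) L m := by
    rw [coe_basisMonomials, smul_monomial, smul_eq_mul, mul_one]
  rw [h, map_smul, ext, Basis.constr_basis, smul_eq_mul]

theorem ext_map {R L : Type} [CommRing R] [CommRing L] (φ : R →+* L) (μ : Pol N R →ₗ[R] R)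
    (p : Pol N R) : ext φ μ (map φ p) = φ (μ p) := by
  induction p using MvPolynomial.induction_on' with
  | monomial m a =>
    have h : (monomial m a : Pol N R) = a • monomial m 1 := by
      rw [smul_monomial, smul_eq_mul, mul_one]
    rw [map_monomial, ext_monomial, h, map_smul, smul_eq_mul, map_mul]
  | add p q hp hq => rw [map_add, map_add, hp, hq, map_add, map_add]

theorem ext_aux_mono {L : Type} [Field L] (φ : K →+* L) (m : Fin N →₀ ℕ) (a : L) :
    (monomial m a : Pol N L) = a • map φ (monomial m 1) := by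
  rw [map_monomial, map_one, smul_monomial, smul_eq_mul, mul_one]

theorem ext_aux_ann {L : Type} [Field L] (φ : K →+* L) {μ : Pol N K →ₗ[K] K} {p : Pol N K}
    (hp : p ∈ ann μ) : map φ p ∈ ann (ext φ μ) := by
  rw [mem_ann] at hp ⊢
  intro b
  induction b using MvPolynomial.induction_on' with
  | monomial m a =>
    rw [ext_aux_mono φ, mul_smul_comm, map_smul, ← map_mul, ext_map, hp, map_zero, smul_zero]
  | add p q h1 h2 => rw [mul_add, map_add, h1, h2, add_zero]

theorem ext_aux_deg {R : Type} [CommRing R] {p : Pol N R} {n : ℕ} (hp : p.IsHomogeneous n)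
    {m : Fin N →₀ ℕ} (hm : m ∈ p.support) : m.degree = n := by
  by_contra h
  exact mem_support_iff.mp hm (hp.coeff_eq_zero h)

theorem ext_aux_basis (I : Ideal (Pol N K)) (n : ℕ) : ∃ y : Fin (hf I n) → Pol N K,
    (∀ j, (y j).IsHomogeneous n) ∧ ∀ a : Fin (hf I n) → K, ∑ j, a j • y j ∈ I → a = 0 := by
  let b := Module.finBasis K ((Sd N K n).map (Ideal.Quotient.mkₐ K I).toLinearMap)
  have h : ∀ j, ∃ y : Pol N K, y.IsHomogeneous n ∧ Ideal.Quotient.mkₐ K I y = (b j).1 := by
    intro j
    obtain ⟨y, hy, e⟩ := Submodule.mem_map.mp (b j).2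
    exact ⟨y, hy, e⟩
  choose y hy e using h
  refine ⟨y, hy, fun a ha => ?_⟩
  have h0 : ∑ j, a j • b j = 0 := by
    apply Subtype.ext
    have h1 : Ideal.Quotient.mkₐ K I (∑ j, a j • y j) = 0 :=
      Ideal.Quotient.eq_zero_iff_mem.mpr ha
    rw [map_sum] at h1
    rw [Submodule.coe_sum, Submodule.coe_zero, ← h1]
    exact Finset.sum_congr rfl fun j _ => by rw [map_smul, e, Submodule.coe_smul]
  funext j
  exact Fintype.linearIndependent_iff.mp b.linearIndependent a h0 j

theorem hf_ext {L : Type} [Field L] (φ : K →+* L) (μ : Pol N K →ₗ[K] K) (n : ℕ) :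
    hf (ann (ext φ μ)) n = hf (ann μ) n := by
  apply le_antisymm
  · obtain ⟨y, -, hs⟩ := exists_span_of_hf_le (le_refl (hf (ann μ) n))
    let U : Submodule L (Pol N L) := Submodule.span L (Set.range fun j => map φ (y j))
    have : Module.Finite L U := Module.Finite.span_of_finite L (Set.finite_range _)
    have hU : finrank L U ≤ hf (ann μ) n := by
      have h := finrank_range_le_card (R := L) fun j => (map φ (y j) : Pol N L)
      rwa [Fintype.card_fin] at h
    refine le_trans (hf_le_of U fun p hp => ?_) hU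
    have hm : p ∈ U ⊔ (ann (ext φ μ)).restrictScalars L := by
      rw [p.as_sum]
      refine Submodule.sum_mem _ fun m hm => ?_
      rw [ext_aux_mono φ]
      refine Submodule.smul_mem _ _ ?_
      obtain ⟨c, hc⟩ := hs (monomial m 1) (isHomogeneous_monomial 1 (ext_aux_deg hp hm))
      refine Submodule.mem_sup.mpr ⟨map φ (∑ j, c j • y j), ?_, _, ext_aux_ann φ hc, ?_⟩
      · rw [map_sum]
        refine Submodule.sum_mem _ fun j _ => ?_
        rw [smul_eq_C_mul, map_mul, map_C, ← smul_eq_C_mul]
        exact Submodule.smul_mem _ _ (Submodule.subset_span ⟨j, rfl⟩)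
      · rw [map_sub]
        ring
    obtain ⟨u, hu, v, hv, e⟩ := Submodule.mem_sup.mp hm
    refine ⟨u, hu, ?_⟩
    rw [← e, add_sub_cancel_left]
    exact hv
  · obtain ⟨y, hy, hi⟩ := ext_aux_basis (ann μ) n
    let _ : Algebra K L := φ.toAlgebra
    have key := le_hf (I := ann (ext φ μ)) (n := n)
      (Fintype.linearCombination L fun j => (map φ (y j) : Pol N L)) (fun w => ?_) fun w hw => ?_
    · simpa using key
    · rw [Fintype.linearCombination_apply]
      exact Submodule.sum_mem (Sd N L n) fun j _ => Submodule.smul_mem _ _ ((hy j).map φ)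
    · rw [Fintype.linearCombination_apply] at hw
      funext j
      refine (Module.forall_dual_apply_eq_zero_iff K (w j)).mp fun f => ?_
      refine congrFun (hi (fun j => f (w j)) fun b => ?_) j
      have h := hw (map φ b)
      rw [Finset.sum_mul, map_sum] at h ⊢
      have h2 := congrArg f h
      rw [map_zero, map_sum] at h2
      rw [← h2]
      refine Finset.sum_congr rfl fun j _ => ?_
      rw [smul_mul_assoc, smul_mul_assoc, map_smul, map_smul, ← map_mul, ext_map, smul_eq_mul,
        smul_eq_mul, mul_comm (w j)]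
      have h3 : φ (μ (y j * b)) * w j = μ (y j * b) • w j := (Algebra.smul_def _ _).symm
      rw [h3, map_smul, smul_eq_mul, mul_comm]

theorem ext_aux_cmap {R : Type} [CommRing R] (δ : R →+ R) (m : Fin N →₀ ℕ) (a : R) :
    cmap δ (monomial m a : Pol N R) = monomial m (δ a) := by
  classical
  ext m'
  rw [coeff_cmap, coeff_monomial, coeff_monomial]
  split_ifs
  · rfl
  · exact map_zero δ

theorem ext_aux_lin {R : Type} [CommRing R] (δ : R →+ R) (v : Fin N → R) :
    cmap δ (∑ a, C (v a) * X a : Pol N R) = ∑ a, C (δ (v a)) * X a := by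
  rw [map_sum]
  refine Finset.sum_congr rfl fun a _ => ?_
  rw [C_mul_X_eq_monomial, C_mul_X_eq_monomial, ext_aux_cmap]

theorem ext_aux_der {L : Type} [Field L] (φ : K →+* L) (μ : Pol N K →ₗ[K] K) {δ : L →+ L}
    (hδ : ∀ a b, δ (a * b) = δ a * b + a * δ b) (h0 : ∀ k, δ (φ k) = 0) (p : Pol N L) :
    ext φ μ (cmap δ p) = δ (ext φ μ p) := by
  induction p using MvPolynomial.induction_on' with
  | monomial m a => rw [ext_aux_cmap, ext_monomial, ext_monomial, hδ, h0, mul_zero, add_zero]
  | add p q hp hq => rw [map_add, map_add, hp, hq, map_add, map_add]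

/-- Generic linear forms exist after an extension of the field. -/
theorem exists_gen [CharZero K] {μ : Pol N K →ₗ[K] K} {σ e : ℕ} (h : Conc μ σ) (h0 : μ ≠ 0)
    (hb : Bpf (ann μ) e) (c : ℕ) :
    ∃ (L : Type) (_ : Field L) (_ : CharZero L) (ν : Pol N L →ₗ[L] L) (l : Fin c → Pol N L),
      Conc ν σ ∧ ν ≠ 0 ∧ Bpf (ann ν) e ∧ Gen (ann ν) l ∧ ∀ n, hf (ann ν) n = hf (ann μ) n := by
  classical
  let A := MvPolynomial (Fin c × Fin N) K
  let L := FractionRing A
  let φ : K →+* L := (algebraMap A L).comp C
  have hC : Conc (ext φ μ) σ := by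
    intro n hn p hp
    rw [p.as_sum, map_sum]
    refine Finset.sum_eq_zero fun m hm => ?_
    rw [ext_monomial, h n hn _ (isHomogeneous_monomial 1 (ext_aux_deg hp hm)), map_zero, mul_zero]
  refine ⟨L, inferInstance, charZero_of_injective_ringHom φ.injective, ext φ μ,
    fun j => ∑ a, C (algebraMap A L (X (j, a))) * X a, hC, ?_, ?_, ⟨hC.hg, ?_, ?_⟩, hf_ext φ μ⟩
  · intro hz
    apply h0
    refine LinearMap.ext fun p => φ.injective ?_
    rw [← ext_map, hz, LinearMap.zero_apply, LinearMap.zero_apply, map_zero]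
  · intro i
    obtain ⟨M, hM⟩ := hb i
    refine ⟨M, ?_⟩
    have h1 := Ideal.mem_map_of_mem (map φ : Pol N K →+* Pol N L) hM
    rw [Ideal.map_span, map_pow, map_X] at h1
    refine Ideal.span_mono ?_ h1
    rintro _ ⟨p, hp, rfl⟩
    exact ⟨ext_aux_ann φ hp.1, hp.2.map φ⟩
  · intro j
    exact IsHomogeneous.sum _ _ _ fun a _ => (isHomogeneous_X _ a).C_mul _
  · intro j a
    obtain ⟨δ, hδ, hδ'⟩ := exists_der_frac (A := A) (L := L)
      (pderiv (j, a) : Derivation K A A).toLinearMap.toAddMonoidHom fun x y => by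
        show pderiv (j, a) (x * y) = pderiv (j, a) x * y + x * pderiv (j, a) y
        rw [Derivation.leibniz, smul_eq_mul, smul_eq_mul]
        ring
    have hk : ∀ k, δ (φ k) = 0 := fun k => by
      show δ (algebraMap A L (C k)) = 0
      rw [hδ']
      show algebraMap A L (pderiv (j, a) (C k)) = 0
      rw [pderiv_C, map_zero]
    have hX : ∀ i b, δ (algebraMap A L (X (i, b))) = if (j, a) = (i, b) then 1 else 0 := by
      intro i b
      rw [hδ']
      show algebraMap A L (pderiv (j, a) (X (i, b))) = _
      split_ifs with hh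
      · rw [← hh, pderiv_X_self, map_one]
      · rw [pderiv_X_of_ne (Ne.symm hh), map_zero]
    refine ⟨cmap δ, ⟨cmap_leibniz hδ, fun n p hp => cmap_isHomogeneous δ hp⟩, ?_, ?_, ?_⟩
    · intro p hp b
      have h1 : cmap δ p * b = cmap δ (p * b) - p * cmap δ b := by
        rw [cmap_leibniz hδ, add_sub_cancel_right]
      rw [h1, map_sub, ext_aux_der φ μ hδ hk, hp b, hp, map_zero, sub_zero]
    · rw [ext_aux_lin, Finset.sum_eq_single a]
      · rw [hX, if_pos rfl, C_1, one_mul]
      · intro b _ hb
        rw [hX, if_neg fun hh => hb (Prod.ext_iff.mp hh).2.symm, C_0, zero_mul]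
      · intro hh
        exact absurd (Finset.mem_univ a) hh
    · intro i hi
      rw [ext_aux_lin]
      refine Finset.sum_eq_zero fun b _ => ?_
      rw [hX, if_neg fun hh => hi (Prod.ext_iff.mp hh).1.symm, C_0, zero_mul]

end Pool.Agent.Lib.MP_e9c0f3_ag.MC
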