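import Mathlib

/-! Counting divisors of monomials in a box. -/

open PowerSeries Finset

namespace Pool.Agent.Lib.MP_e9c0f3_ag.MC.Gap

/-- The sum of the first `n` powers. -/
noncomputable def G (n : ℕ) : ℕ⟦X⟧ := PowerSeries.mk fun i => if i < n then 1 else 0

/-- The sum of all powers. -/
noncomputable def E : ℕ⟦X⟧ := PowerSeries.mk 1

/-- Coefficientwise comparison. -/
def Le (p q : ℕ⟦X⟧) : Prop := ∃ r, q = p + r

theorem Le.trans {p q r : ℕ⟦X⟧} (h : Le p q) (h' : Le q r) : Le p r := by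
  obtain ⟨a, rfl⟩ := h
  obtain ⟨b, rfl⟩ := h'
  exact ⟨a + b, add_assoc _ _ _⟩

theorem Le.mul {p q : ℕ⟦X⟧} (h : Le p q) (r : ℕ⟦X⟧) : Le (p * r) (q * r) := by
  obtain ⟨a, rfl⟩ := h
  exact ⟨a * r, add_mul _ _ _⟩

theorem Le.coeff {p q : ℕ⟦X⟧} (h : Le p q) (t : ℕ) : coeff t p ≤ coeff t q := by
  obtain ⟨a, rfl⟩ := h
  rw [map_add]
  exact Nat.le_add_right _ _

theorem G_add (p c : ℕ) : G (p + c) = G p + X ^ p * G c := by
  ext i
  simp only [G, map_add, coeff_mk, coeff_X_pow_mul']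
  split_ifs <;> omega

theorem G_one : G 1 = 1 := by
  ext i
  simp only [G, coeff_mk, coeff_one]
  split_ifs <;> omega

theorem E_eq (n : ℕ) : E = G n + X ^ n * E := by
  ext i
  simp only [G, E, map_add, coeff_mk, coeff_X_pow_mul', Pi.one_apply]
  split_ifs <;> omega

theorem coeff_E (k t : ℕ) : coeff t (E ^ (k + 1)) = (t + k).choose k := by
  induction k generalizing t with
  | zero => simp [E]
  | succ k ih =>
    rw [pow_succ, coeff_mul, Nat.sum_antidiagonal_eq_sum_range_succ_mk]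
    simp only [ih]
    simp only [E, coeff_mk, Pi.one_apply, mul_one]
    exact Nat.sum_range_add_choose t k

theorem G_two (p b c : ℕ) : G (p + c) * G (p + b) = G p * G (p + b + c) + X ^ p * G b * G c := by
  have h : G (p + b) = G b + X ^ b * G p := by rw [add_comm p, G_add]
  rw [G_add p c, G_add (p + b) c, h]
  ring

theorem compress {ι : Type} [DecidableEq ι] {a : ℕ} (ha : 1 ≤ a) {μ : ι → ℕ} (hμ : ∀ i, μ i ≤ a)
    (s : Finset ι) : ∀ q r, r ≤ a → ∑ i ∈ s, μ i = q * a + r →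
      Le (G (a + 1) ^ q * G (r + 1)) (∏ i ∈ s, G (μ i + 1)) := by
  induction s using Finset.induction_on with
  | empty =>
    intro q r _ h
    rw [sum_empty] at h
    obtain rfl : r = 0 := by omega
    obtain rfl : q = 0 := by
      rcases q with _ | q
      · rfl
      · rw [add_mul] at h
        omega
    exact ⟨0, by simp [G_one]⟩
  | insert j s hj ih =>
    intro q r hr h
    rw [sum_insert hj] at h
    rw [prod_insert hj, mul_comm (G (μ j + 1))]
    have h1 := hμ j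
    by_cases h2 : μ j ≤ r
    · obtain ⟨c, rfl⟩ := Nat.exists_eq_add_of_le h2
      refine Le.trans ⟨G (a + 1) ^ q * (X ^ 1 * G (μ j) * G c), ?_⟩
        ((ih q c (by omega) (by omega)).mul _)
      rw [mul_assoc, add_comm c, add_comm (μ j) 1, G_two, G_one, add_comm (μ j + c), add_assoc]
      ring
    · obtain ⟨b, h3⟩ := Nat.exists_eq_add_of_le (not_le.1 h2).le
      obtain ⟨c, h4⟩ := Nat.exists_eq_add_of_le h1
      rcases q with _ | q
      · omega
      rw [add_mul, one_mul] at h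
      refine Le.trans ⟨G (a + 1) ^ q * (X ^ (r + 1) * G b * G c), ?_⟩
        ((ih q (r + c) (by omega) (by omega)).mul _)
      rw [mul_assoc, add_right_comm r c, h3, add_right_comm r b, G_two,
        show r + 1 + b + c = a + 1 by omega]
      ring

theorem coeff_prod_G {N : ℕ} (μ : Fin N →₀ ℕ) (t : ℕ) :
    coeff t (∏ i, G (μ i + 1)) = #{ν ∈ finsuppAntidiag univ t | ν ≤ μ} := by
  rw [coeff_prod, card_filter]
  refine sum_congr rfl fun ν _ => ?_
  simp only [G, coeff_mk, prod_ite_zero, mem_univ, forall_const, prod_const_one, Nat.lt_succ_iff,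
    Finsupp.le_def]

theorem union_step {j n : ℕ} {P R : ℕ⟦X⟧} (h : Le P (E ^ j) ∧ Le (E ^ j) (P + R * E ^ j)) :
    Le (P * G n) (E ^ (j + 1)) ∧ Le (E ^ (j + 1)) (P * G n + (R + X ^ n) * E ^ (j + 1)) := by
  obtain ⟨⟨u, hu⟩, v, hv⟩ := h
  have h1 : P * E = P * G n + X ^ n * (P * E) := by
    conv_lhs => rw [E_eq n]
    ring
  refine ⟨⟨X ^ n * (P * E) + u * E, by rw [pow_succ, hu, add_mul, ← add_assoc, ← h1]⟩,
    v * E + X ^ n * (u * E), ?_⟩
  calc _ = P * G n + X ^ n * (P * E) + R * E ^ j * E + X ^ n * (u * E) := by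
        rw [add_mul R, pow_succ]
        conv_lhs => enter [2, 2, 2, 1]; rw [hu]
        ring
    _ = _ := by
        rw [← h1, ← add_mul, hv]
        ring

theorem union_pow (j n : ℕ) :
    Le (G n ^ j) (E ^ j) ∧ Le (E ^ j) (G n ^ j + ((j : ℕ⟦X⟧) * X ^ n) * E ^ j) := by
  induction j with
  | zero => exact ⟨⟨0, by simp⟩, 0, by simp⟩
  | succ j ih =>
    have h := union_step (n := n) ih
    rwa [← pow_succ, ← add_one_mul, ← Nat.cast_succ] at h

theorem box_e (k a : ℕ) : (a + 1 + k).choose k ≤ coeff (a + 1) (G (a + 1) ^ (k + 1)) + (k + 1) := by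
  have h := (union_pow (k + 1) (a + 1)).2.coeff (a + 1)
  rwa [map_add, coeff_E, mul_assoc, ← nsmul_eq_mul, map_nsmul, coeff_X_pow_mul', if_pos le_rfl,
    Nat.sub_self, coeff_E, zero_add, Nat.choose_self, smul_eq_mul, mul_one] at h

theorem box_d (k a : ℕ) :
    (a + 2 + k).choose k ≤ coeff (a + 2) (G (a + 1) ^ (k + 1)) + (k + 1) ^ 2 := by
  have h := (union_pow (k + 1) (a + 1)).2.coeff (a + 2)
  rwa [map_add, coeff_E, mul_assoc, ← nsmul_eq_mul, map_nsmul, coeff_X_pow_mul',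
    if_pos (Nat.le_succ _), show a + 2 - (a + 1) = 1 by omega, coeff_E, add_comm 1 k,
    Nat.choose_succ_self_right, smul_eq_mul, ← sq] at h

theorem box_e' (k b : ℕ) :
    (b + 3 + k).choose k ≤ coeff (b + 3) (G (b + 3) ^ k * G (b + 1)) + k + (2 + k).choose k := by
  have h := (union_step (n := b + 1) (union_pow k (b + 3))).2.coeff (b + 3)
  rwa [map_add, coeff_E, add_mul, map_add, mul_assoc, ← nsmul_eq_mul, map_nsmul, coeff_X_pow_mul',
    if_pos le_rfl, Nat.sub_self, coeff_E, zero_add, Nat.choose_self, smul_eq_mul, mul_one,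
    coeff_X_pow_mul', if_pos (by omega), show b + 3 - (b + 1) = 2 by omega, coeff_E,
    ← add_assoc] at h

section down

variable {N : ℕ} {Δ : (Fin N →₀ ℕ) → Prop} (h1 : ∀ a b, a ≤ b → Δ b → Δ a)

theorem mem_fa {t : ℕ} {ν : Fin N →₀ ℕ} : ν ∈ finsuppAntidiag univ t ↔ ν.degree = t := by
  simp [Finsupp.degree_eq_sum]

theorem card_eq [DecidablePred Δ] (t : ℕ) : Nat.card {a : Fin N →₀ ℕ // a.degree = t ∧ Δ a} =
    #{ν ∈ finsuppAntidiag univ t | Δ ν} := by
  rw [← Nat.card_eq_finsetCard]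
  exact Nat.card_congr (Equiv.subtypeEquivRight fun a => by rw [mem_filter, mem_fa])

include h1

theorem gap_one {k a : ℕ} (ha : 1 ≤ a) (h2 : ∀ μ, Δ μ → ∀ i, μ i < a + 1)
    (h3 : Nat.card {μ : Fin N →₀ ℕ // μ.degree = (k + 1) * a + 1 ∧ Δ μ} ≠ 0) :
    (a + 2 + k).choose k + (a + 1 + k).choose k ≤
      Nat.card {μ : Fin N →₀ ℕ // μ.degree = a + 2 ∧ Δ μ} + (k + 1) ^ 2 + (k + 1) := by
  classical
  obtain ⟨⟨μ, h4, h5⟩⟩ := (Nat.card_ne_zero.1 h3).1
  have h6 := (compress ha (fun i => Nat.lt_succ_iff.1 (h2 μ h5 i)) univ (k + 1) 1 ha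
    (by rw [← h4, Finsupp.degree_eq_sum])).coeff (a + 2)
  rw [coeff_prod_G, G_add 1 1, G_one, mul_one, pow_one, mul_add, mul_one, map_add,
    coeff_succ_mul_X] at h6
  have h7 := box_e k a
  have h8 := box_d k a
  have h9 : #{ν ∈ finsuppAntidiag univ (a + 2) | ν ≤ μ} ≤ #{ν ∈ finsuppAntidiag univ (a + 2) | Δ ν} :=
    card_le_card (monotone_filter_right _ fun ν _ h => h1 _ _ h h5)
  rw [card_eq]
  omega

theorem gap_two {k b : ℕ} (h2 : ∀ μ, Δ μ → ∀ i, μ i < b + 3)
    (h3 : Nat.card {μ : Fin N →₀ ℕ // μ.degree = (k + 1) * (b + 2) ∧ Δ μ} ≠ 0)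
    {s : ℕ} (hs : s + 1 = (k + 1) * (b + 2))
    (h4 : k + 2 ≤ Nat.card {μ : Fin N →₀ ℕ // μ.degree = s ∧ Δ μ}) :
    (b + 4 + k).choose k + (b + 3 + k).choose k ≤
      Nat.card {μ : Fin N →₀ ℕ // μ.degree = b + 4 ∧ Δ μ} + (k + 1) ^ 2 + k + (2 + k).choose k := by
  classical
  obtain ⟨⟨μ, h5, h6⟩⟩ := (Nat.card_ne_zero.1 h3).1
  have h7 := box_e' k b
  have h8 : (b + 4 + k).choose k ≤ coeff (b + 4) (G (b + 3) ^ (k + 1)) + (k + 1) ^ 2 :=
    box_d k (b + 2)
  have hμ : ∀ i, μ i ≤ b + 2 := fun i => Nat.lt_succ_iff.1 (h2 μ h6 i)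
  rw [card_eq] at h4 ⊢
  rw [Finsupp.degree_eq_sum] at h5
  by_cases h9 : ∃ i, μ i ≠ 0 ∧ μ i ≠ b + 2
  · obtain ⟨i, h9, h10⟩ := h9
    obtain ⟨u, hu⟩ : ∃ u, μ i = u + 1 := ⟨μ i - 1, by omega⟩
    obtain ⟨c, hc⟩ : ∃ c, b = u + c := ⟨b - u, by have := hμ i; omega⟩
    have h11 := (compress (by omega) hμ (univ.erase i) k (c + 1) (by omega) (by
      rw [← add_sum_erase _ _ (mem_univ i), add_mul] at h5
      omega)).mul (G (μ i + 1))
    rw [prod_erase_mul _ _ (mem_univ i)] at h11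
    have h12 : Le (G (b + 3) ^ (k + 1) + G (b + 3) ^ k * G (b + 1) * X)
        (G (b + 2 + 1) ^ k * G (c + 1 + 1) * G (μ i + 1)) := by
      refine ⟨G (b + 3) ^ k * (X ^ 2 * G u * G c), ?_⟩
      have h13 := G_two 1 (b + 1) 1
      rw [G_one, show 1 + (b + 1) + 1 = b + 3 by omega, add_comm 1 (b + 1)] at h13
      rw [mul_assoc, hu, show c + 1 + 1 = 2 + c by omega, show u + 1 + 1 = 2 + u by omega, G_two,
        show 2 + u + c = b + 1 + 1 by omega, h13]
      ring
    have h13 := (h12.trans h11).coeff (b + 4)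
    rw [coeff_prod_G, map_add, coeff_succ_mul_X] at h13
    have h14 : #{ν ∈ finsuppAntidiag univ (b + 4) | ν ≤ μ} ≤
        #{ν ∈ finsuppAntidiag univ (b + 4) | Δ ν} :=
      card_le_card (monotone_filter_right _ fun ν _ h => h1 _ _ h h6)
    omega
  · have h10 : #μ.support = k + 1 := by
      refine Nat.eq_of_mul_eq_mul_right (by omega : 0 < b + 2) ?_
      rw [← h5, ← Finsupp.degree_eq_sum, Finsupp.degree_apply, ← smul_eq_mul, ← sum_const]
      exact sum_congr rfl fun i hi =>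
        (not_not.1 fun h => h9 ⟨i, Finsupp.mem_support_iff.1 hi, h⟩).symm
    obtain ⟨ν, hν, h11⟩ : ∃ ν ∈ ({ν ∈ finsuppAntidiag univ s | Δ ν} : Finset _), ¬ ν ≤ μ := by
      by_contra! h
      have h11 : ({ν ∈ finsuppAntidiag univ s | Δ ν} : Finset _) ⊆
          μ.support.image fun i => μ - Finsupp.single i 1 := fun ν hν => by
        obtain ⟨ρ, hρ⟩ := exists_add_of_le (h ν hν)
        have h12 : ρ.degree = 1 := by
          have h13 := congrArg Finsupp.degree hρ
          rw [map_add, mem_fa.1 (mem_filter.1 hν).1, Finsupp.degree_eq_sum] at h13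
          omega
        obtain ⟨i, rfl⟩ : ∃ i, Finsupp.single i 1 = ρ := by
          rw [← Set.mem_range, Finsupp.range_single_one]
          exact h12
        exact mem_image.2 ⟨i, by simp [hρ], by rw [hρ, add_tsub_cancel_right]⟩
      have h12 := (card_le_card h11).trans card_image_le
      omega
    obtain ⟨h12, h13⟩ := mem_filter.1 hν
    obtain ⟨y, hy⟩ : ∃ y, μ y < ν y := by simpa [Finsupp.le_def] using h11
    have h14 : μ y = 0 := by
      by_contra h
      have := h2 ν h13 y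
      have := not_not.1 fun h' => h9 ⟨y, h, h'⟩
      omega
    obtain ⟨ρ, rfl⟩ := exists_add_of_le (Finsupp.single_le_iff.2 (by omega) : Finsupp.single y 1 ≤ ν)
    have h15 := (compress (by omega) hμ univ (k + 1) 0 (by omega) h5).coeff (b + 4)
    have h16 := (compress (a := b + 2) (by omega) (fun i => Nat.lt_succ_iff.1
      (h2 ρ (h1 _ _ le_add_self h13) i)) univ k b (by omega) (by
        rw [mem_fa, map_add, Finsupp.degree_single, Finsupp.degree_eq_sum] at h12
        rw [add_mul] at hs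
        omega)).coeff (b + 3)
    rw [coeff_prod_G] at h15 h16
    rw [zero_add, G_one, mul_one] at h15
    rw [show b + 2 + 1 = b + 3 from rfl] at h15 h16
    have h17 : #{ν ∈ finsuppAntidiag univ (b + 4) | ν ≤ μ} +
        #{ν ∈ finsuppAntidiag univ (b + 3) | ν ≤ ρ} ≤ #{ν ∈ finsuppAntidiag univ (b + 4) | Δ ν} := by
      rw [← card_map (s := {ν ∈ finsuppAntidiag univ (b + 3) | ν ≤ ρ})
        (addLeftEmbedding (Finsupp.single y 1)), ← card_union_of_disjoint]
      · refine card_le_card (union_subset (monotone_filter_right _ fun ν _ h => h1 _ _ h h6) ?_)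
        intro ν hν
        obtain ⟨ξ, hξ, rfl⟩ := mem_map.1 hν
        obtain ⟨h17, h18⟩ := mem_filter.1 hξ
        refine mem_filter.2 ⟨?_, h1 _ _ (add_le_add_right h18 _) h13⟩
        rw [mem_fa, addLeftEmbedding_apply, map_add, Finsupp.degree_single, mem_fa.1 h17]
        omega
      · refine disjoint_left.2 fun ν h17 hν => ?_
        obtain ⟨ξ, -, rfl⟩ := mem_map.1 hν
        have h18 := (mem_filter.1 h17).2 y
        simp [h14] at h18
    omega

end down

end Pool.Agent.Lib.MP_e9c0f3_ag.MC.Gap
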