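import Pool.Agent.Lib.MP_e9c0f3_ag.MC.CI

/-! The linear space lies in the hypersurface when the deformation space is large. -/

open MvPolynomial Module

namespace Pool.Agent.Lib.MP_e9c0f3_ag.MC

variable {K : Type} [Field K] {N : ℕ}

theorem gap_mk {I : Ideal (Pol N K)} {ι : Type} [Fintype ι] {p : Pol N K} {c : ι → K}
    {u : ι → Pol N K} (h : p - ∑ o, c o • u o ∈ I) :
    Ideal.Quotient.mkₐ K I p = ∑ o, c o • Ideal.Quotient.mkₐ K I (u o) := by
  simp only [← map_smul, ← map_sum]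
  exact Ideal.Quotient.eq.2 h

/-- A dimension count. -/
theorem gap_pair {I J : Ideal (Pol N K)} (f g : Pol N K →ₗ[K] Pol N K)
    {A T : Submodule K (Pol N K)} [Module.Finite K A] (hT : T ≤ A) {a b : ℕ}
    (h1 : ∀ p q : Pol N K, p.IsHomogeneous a → q.IsHomogeneous b →
      ∃ G ∈ A, f G - p ∈ I ∧ g G - q ∈ J) {ι : Type} [Fintype ι] (u v : ι → Pol N K)
    (h2 : ∀ G ∈ T, ∃ c : ι → K, f G - ∑ o, c o • u o ∈ I ∧ g G - ∑ o, c o • v o ∈ J) :
    finrank K T + (hf I a + hf J b) ≤ finrank K A + Fintype.card ι := by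
  have := Submodule.finiteDimensional_of_le hT
  let Θ := ((Ideal.Quotient.mkₐ K I).toLinearMap ∘ₗ f).prod
    ((Ideal.Quotient.mkₐ K J).toLinearMap ∘ₗ g)
  let w := fun o => (Ideal.Quotient.mkₐ K I (u o), Ideal.Quotient.mkₐ K J (v o))
  have h3 := base_rank Θ A
  have h4 := base_rank Θ T
  have h5 : hf I a + hf J b ≤ finrank K (A.map Θ) := by
    rw [hf, hf, ← finrank_prod]
    refine LinearMap.finrank_le_finrank_of_injective (f := ((Submodule.subtype _).prodMap
      (Submodule.subtype _)).codRestrict (A.map Θ) ?_) fun s t h => ?_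
    · rintro ⟨⟨_, p, hp, rfl⟩, _, q, hq, rfl⟩
      obtain ⟨G, h5, h6, h7⟩ := h1 p q hp hq
      exact ⟨G, h5, Prod.ext (Ideal.Quotient.eq.2 h6) (Ideal.Quotient.eq.2 h7)⟩
    · have h5 := congrArg Subtype.val h
      exact Prod.ext (Subtype.ext (congrArg Prod.fst h5)) (Subtype.ext (congrArg Prod.snd h5))
  have : Module.Finite K (A ⊓ LinearMap.ker Θ : Submodule K _) :=
    Submodule.finiteDimensional_inf_left _ _
  have h6 := Submodule.finrank_mono (inf_le_inf_right (LinearMap.ker Θ) hT)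
  have : Module.Finite K (Submodule.span K (Set.range w)) :=
    Module.Finite.span_of_finite K (Set.finite_range w)
  have h7 : finrank K (T.map Θ) ≤ Fintype.card ι := by
    refine (Submodule.finrank_mono ?_).trans (finrank_range_le_card w)
    rintro _ ⟨G, hG, rfl⟩
    obtain ⟨c, h7, h8⟩ := h2 G hG
    have h9 : Θ G = ∑ o, c o • w o :=
      Prod.ext ((gap_mk h7).trans (Prod.fst_sum (f := fun o => c o • w o)).symm)
        ((gap_mk h8).trans (Prod.snd_sum (f := fun o => c o • w o)).symm)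
    rw [h9]
    exact Submodule.sum_mem _ fun o _ => Submodule.smul_mem _ _ (Submodule.subset_span ⟨o, rfl⟩)
  omega

theorem hf_lid {k : ℕ} {x : Fin (k + 1) → Pol (k + 1 + (k + 1)) K}
    (hx : ∀ i, (x i).IsHomogeneous 1) (t : ℕ) : (t + k).choose k ≤ hf (lid x) t := by
  choose v hv using fun i => H48.exists_lin (hx i)
  obtain ⟨b, hb⟩ := exists_basis (Submodule.span K (Set.range v)) (c := k + 1)
    ((finrank_range_le_card v).trans_eq (Fintype.card_fin _)) (by omega)
  obtain ⟨θ, π, hθ, -, hπθ, h1, -⟩ := ci_split b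
  have h2 : Submodule.span K (b '' {i | i.val < k + 1}) ≤
      LinearMap.ker (π.toLinearMap ∘ₗ ciL _ K) := by
    refine Submodule.span_le.2 ?_
    rintro _ ⟨i, hi, rfl⟩
    exact h1 ⟨i, hi⟩
  have h3 : lid x ≤ RingHom.ker π := Ideal.span_le.2 (by
    rintro _ ⟨i, rfl⟩
    rw [hv i]
    exact h2 (hb (Submodule.subset_span ⟨i, rfl⟩)))
  rw [← finrank_Sd k K t]
  refine le_hf (θ.toLinearMap ∘ₗ (Sd (k + 1) K t).subtype) (fun q => hθ _ _ q.2) fun q hq => ?_
  exact Subtype.ext ((hπθ q).symm.trans (h3 hq))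

/-- The derivative along a constant vector field, as a linear map. -/
noncomputable def pxl (v : Fin N → K) : Pol N K →ₗ[K] Pol N K :=
  ∑ a, v a • (pderiv a : Derivation K (Pol N K) (Pol N K)).toLinearMap

theorem pxl_apply (v : Fin N → K) (p : Pol N K) : pxl v p = pxd p v := by
  simp [pxl, pxd_apply]

theorem pxd_comm (p : Pol N K) (u v : Fin N → K) : pxd (pxd p u) v = pxd (pxd p v) u := by
  simp only [pxd_apply, map_sum, Derivation.map_smul, Finset.smul_sum]
  rw [Finset.sum_comm]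
  refine Finset.sum_congr rfl fun a _ => Finset.sum_congr rfl fun b _ => ?_
  rw [pderiv_pderiv_comm, smul_comm]

theorem px_norm {x : Pol N K} (hx : x.IsHomogeneous 1) {v : Fin N → K} (h : pxd x v ≠ 0) :
    ∃ c : K, pxd x (c • v) = 1 := by
  have hc := px_const (pxd_homog (n := 0) hx v)
  refine ⟨(coeff 0 (pxd x v))⁻¹, ?_⟩
  rw [map_smul, smul_eq_C_mul]
  nth_rewrite 2 [hc]
  rw [← map_mul, inv_mul_cancel₀ fun h0 => h (by rw [hc, h0, map_zero]), map_one]

theorem Der.pow {E : Pol N K →+ Pol N K} (h : Der E) {y : Pol N K} (hy : y.IsHomogeneous 1) (c : K)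
    (n : ℕ) : ∃ l : Pol N K, l.IsHomogeneous 1 ∧ E (c • y ^ (n + 1)) = y ^ n * l := by
  induction n with
  | zero => exact ⟨_, h.homog 1 _ ((Sd N K 1).smul_mem c hy), by simp⟩
  | succ n ih =>
    obtain ⟨l, h1, h2⟩ := ih
    refine ⟨l + c • E y, h1.add ((Sd N K 1).smul_mem c (h.homog 1 _ hy)), ?_⟩
    rw [pow_succ, ← smul_mul_assoc, h.leib, h2, smul_eq_C_mul, smul_eq_C_mul]
    ring

section lin

variable {m e : ℕ} {I : Ideal (Pol (m + m) K)} {x w : Fin m → Pol (m + m) K}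
  {F : Pol (m + m) K} (h : Lin I e x w)

include h

theorem Lin.dec {n : ℕ} {p : Pol (m + m) K} (hp : p.IsHomogeneous n) (hm : p ∈ I) :
    ∃ d : Fin m → Pol (m + m) K,
      p - ∑ i, (if e ≤ n then homogeneousComponent (n - e) (d i) else 0) * w i ∈ lid x := by
  rw [h.eq] at hm
  obtain ⟨a, ha, b, hb, hab⟩ := Submodule.mem_sup.1 hm
  obtain ⟨c, rfl⟩ := px_mem_lid.1 ha
  obtain ⟨d, rfl⟩ := px_mem_lid.1 hb
  have h5 := H48.hom_dec (y := Sum.elim x w) (c := Sum.elim c d)
    (n := Sum.elim (fun _ => 1) fun _ => e) (fun o => by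
      rcases o with o | o
      · exact h.hx o
      · exact h.hw o) hp (by rw [← hab, Fintype.sum_sum_type]; rfl)
  rw [Fintype.sum_sum_type] at h5
  exact ⟨d, px_mem_lid.2 ⟨_, (sub_eq_of_eq_add h5).symm⟩⟩

theorem Lin.dv (hJ : jac F ≤ I) {E : Pol (m + m) K →+ Pol (m + m) K} (hD : Der E)
    {G : Pol (m + m) K} (hI : ∀ a, E (pderiv a F) - pderiv a G ∈ I) {y q : Fin m → Pol (m + m) K}
    {d : Fin m → Fin m → K} (hd : ∀ i, E (x i) - ∑ k, d i k • y k ∈ I) {v : Fin (m + m) → K}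
    (hq : ∑ i, q i * x i = pxd F v) : pxl v G - ∑ i, ∑ k, d i k • (q i * y k) ∈ I := by
  have h3 : E (pxd F v) - pxd G v ∈ I := by
    rw [pxd_apply, pxd_apply, map_sum, ← Finset.sum_sub_distrib]
    refine I.sum_mem fun a _ => ?_
    rw [smul_eq_C_mul, smul_eq_C_mul, hD.leib, add_sub_assoc, ← mul_sub]
    exact I.add_mem (I.mul_mem_left _ (hJ (Ideal.subset_span ⟨a, rfl⟩)))
      (I.mul_mem_left _ (hI a))
  have h4 : E (pxd F v) - ∑ i, ∑ k, d i k • (q i * y k) ∈ I := by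
    rw [← hq, map_sum, ← Finset.sum_sub_distrib]
    refine I.sum_mem fun i _ => ?_
    simp only [← mul_smul_comm, ← Finset.mul_sum]
    rw [hD.leib, add_sub_assoc, ← mul_sub]
    exact I.add_mem (I.mul_mem_left _ (h.le (px_x_mem x i))) (I.mul_mem_left _ (hd i))
  rw [pxl_apply]
  convert I.sub_mem h4 h3 using 1
  ring

theorem Lin.line (hF : F.IsHomogeneous (e + 1)) (hJ : jac F ≤ I) {v₁ : Fin (m + m) → K}
    (hv : ∀ v, pxd F v ∈ lid x → ∃ c : K, ∀ i, pxd (x i) v = c • pxd (x i) v₁) :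
    ∃ u, (∀ i, pxd (x i) u = 0) ∧
      ∀ v, (∀ i, pxd (x i) v = 0) → ∃ c : K, pxd F (v - c • u) ∈ lid x := by
  let π : Pol (m + m) K →ₗ[K] Pol (m + m) K ⧸ lid x := (Ideal.Quotient.mkₐ K (lid x)).toLinearMap
  have hπ : ∀ p, π p = 0 ↔ p ∈ lid x := fun p => Ideal.Quotient.eq_zero_iff_mem
  let τ := π ∘ₗ pxd F
  let κ : (Fin (m + m) → K) →ₗ[K] (Fin m → K) := LinearMap.pi fun i => lcoeff K 0 ∘ₗ pxd (x i)
  have hκ : ∀ v i, κ v i = coeff 0 (pxd (x i) v) := fun _ _ => rfl
  have h2 : LinearMap.range κ = ⊤ := by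
    obtain ⟨T, hT⟩ := h.dual
    rw [eq_top_iff, ← (Pi.basisFun K (Fin m)).span_eq, Submodule.span_le]
    rintro _ ⟨j, rfl⟩
    refine ⟨T j, funext fun i => ?_⟩
    rw [hκ, pxd_apply, hT, Pi.basisFun_apply, Pi.single_apply]
    split_ifs <;> simp
  have : Module.Finite K (Submodule.span K (Set.range fun j => π (w j))) :=
    Module.Finite.span_of_finite K (Set.finite_range _)
  have h7 : finrank K (LinearMap.range τ) ≤ m := by
    refine (Submodule.finrank_mono ?_).trans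
      ((finrank_range_le_card fun j => π (w j)).trans (Fintype.card_fin m).le)
    rintro _ ⟨u, rfl⟩
    obtain ⟨d, hd⟩ := h.dec (pxd_homog hF u) (hJ (pxd_mem_jac F u))
    simp only [le_refl, if_true, Nat.sub_self, homogeneousComponent_zero, ← smul_eq_C_mul] at hd
    rw [show τ u = _ from gap_mk hd]
    exact Submodule.sum_mem _ fun o _ => Submodule.smul_mem _ _ (Submodule.subset_span ⟨o, rfl⟩)
  have h8 := LinearMap.finrank_range_add_finrank_ker τ
  have h9 := LinearMap.finrank_range_add_finrank_ker κ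
  rw [h2, finrank_top, finrank_fin_fun, finrank_fin_fun] at h9
  rw [finrank_fin_fun] at h8
  have h10 := base_rank κ (LinearMap.ker τ)
  have h11 := base_rank τ (LinearMap.ker κ)
  rw [inf_comm] at h11
  have h12 : finrank K ((LinearMap.ker τ).map κ) ≤ 1 := by
    refine (Submodule.finrank_mono (t := Submodule.span K {κ v₁}) ?_).trans
      (by simpa using finrank_span_le_card ({κ v₁} : Set (Fin m → K)))
    rintro _ ⟨v, h12, rfl⟩
    obtain ⟨c, hc⟩ := hv v ((hπ _).1 h12)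
    exact Submodule.mem_span_singleton.2 ⟨c, funext fun i => by
      rw [Pi.smul_apply, hκ, hκ, hc, coeff_smul]⟩
  obtain ⟨⟨_, u, hu, rfl⟩, h13⟩ :=
    finrank_le_one_iff.1 (by omega : finrank K ((LinearMap.ker κ).map τ) ≤ 1)
  refine ⟨u, fun i => ?_, fun v h14 => ?_⟩
  · rw [px_const (pxd_homog (n := 0) (h.hx i) u), ← hκ, LinearMap.mem_ker.1 hu]
    exact map_zero C
  · obtain ⟨c, hc⟩ := h13 ⟨_, v, funext fun i => by rw [hκ, h14 i]; rfl, rfl⟩
    refine ⟨c, (hπ _).1 ?_⟩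
    change τ _ = 0
    rw [map_sub, map_smul, sub_eq_zero]
    exact (congrArg Subtype.val hc).symm

theorem Lin.pow [CharZero K] {u : Fin (m + m) → K} (hu : ∀ i, pxd (x i) u = 0)
    (hW : ∀ v, (∀ i, pxd (x i) v = 0) → ∃ c : K, pxd F (v - c • u) ∈ lid x) :
    ∃ y : Pol (m + m) K, y.IsHomogeneous 1 ∧ ∀ (n : ℕ) (p : Pol (m + m) K), p.IsHomogeneous n →
      (∀ v, pxd F v ∈ lid x → pxd p v ∈ lid x) → ∃ c : K, p - c • y ^ n ∈ lid x := by
  obtain ⟨T, hT⟩ := h.dual
  have hs : ∀ (p : Pol (m + m) K) a, pxd p (Pi.single a 1) = pderiv a p := fun p a => by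
    rw [pxd, Fintype.linearCombination_apply_single, one_smul]
  have hc : ∀ j a, pderiv a (x j) = C (coeff 0 (pderiv a (x j))) := fun j a =>
    px_const (h.hx j).pderiv
  choose b hb using fun a => hW (Pi.single a 1 - ∑ j, coeff 0 (pderiv a (x j)) • T j) fun i => by
    rw [map_sub, hs, map_sum]
    simp only [map_smul, pxd_apply, hT, smul_ite, smul_zero, Finset.sum_ite_eq,
      Finset.mem_univ, if_true]
    rw [smul_eq_C_mul, mul_one, ← hc, sub_self]
  refine ⟨∑ a, b a • X a, (Sd _ K 1).sum_mem fun a _ => (Sd _ K 1).smul_mem _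
    (isHomogeneous_X K a), fun n => ?_⟩
  induction n with
  | zero =>
    refine fun p hp _ => ⟨coeff 0 p, ?_⟩
    rw [pow_zero, smul_eq_C_mul, mul_one, ← px_const hp, sub_self]
    exact zero_mem _
  | succ n ih =>
    intro p hp hv
    obtain ⟨c, h0⟩ := ih _ (pxd_homog hp u) fun v h0 => by
      obtain ⟨q, hq⟩ := px_mem_lid.1 (hv v h0)
      rw [pxd_comm, ← hq, pxd_sum]
      refine Ideal.sum_mem _ fun i _ => ?_
      rw [pxd_mul, hu, mul_zero, zero_add]
      exact Ideal.mul_mem_left _ _ (px_x_mem x i)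
    have h1 : ∀ a, pderiv a p - ∑ j, pderiv a (x j) * pxd p (T j) - b a • pxd p u ∈ lid x := by
      intro a
      have h2 := hv _ (hb a)
      rw [map_sub, map_sub, hs, map_sum, map_smul] at h2
      simp only [map_smul, smul_eq_C_mul (pxd p (T _)), ← hc] at h2
      exact h2
    have h3 : ∑ a, X a * ∑ j, pderiv a (x j) * pxd p (T j) = ∑ j, x j * pxd p (T j) := by
      simp only [Finset.mul_sum]
      rw [Finset.sum_comm]
      refine Finset.sum_congr rfl fun j _ => ?_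
      simp only [← mul_assoc]
      rw [← Finset.sum_mul, (h.hx j).sum_X_mul_pderiv, one_smul]
    have h4 := (lid x).sum_mem fun a (_ : a ∈ Finset.univ) => (lid x).mul_mem_left (X a) (h1 a)
    simp only [mul_sub, Finset.sum_sub_distrib, mul_smul_comm, ← smul_mul_assoc] at h4
    rw [h3, hp.sum_X_mul_pderiv, ← Finset.sum_mul] at h4
    have h6 : (C ((n + 1 : ℕ) : K)⁻¹ : Pol (m + m) K) * ((n + 1 : ℕ) : Pol (m + m) K) = 1 := by
      rw [← map_natCast (C : K →+* Pol (m + m) K), ← map_mul,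
        inv_mul_cancel₀ (Nat.cast_ne_zero.2 n.succ_ne_zero), map_one]
    refine ⟨((n + 1 : ℕ) : K)⁻¹ * c, ?_⟩
    convert (lid x).mul_mem_left (C ((n + 1 : ℕ) : K)⁻¹) ((lid x).add_mem ((lid x).add_mem h4
      ((lid x).sum_mem fun j (_ : j ∈ Finset.univ) => (lid x).mul_mem_right (pxd p (T j))
        (px_x_mem x j))) ((lid x).mul_mem_left (∑ a, b a • X a) h0)) using 1
    generalize ∑ a, b a • (X a : Pol (m + m) K) = y
    rw [nsmul_eq_mul, smul_eq_C_mul, smul_eq_C_mul, map_mul]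
    linear_combination (-p) * h6

end lin

theorem Lin.gap [CharZero K] {k e : ℕ} {I : Ideal (Pol (k + 1 + (k + 1)) K)}
    {x w : Fin (k + 1) → Pol (k + 1 + (k + 1)) K} {F : Pol (k + 1 + (k + 1)) K} (h : Lin I e x w)
    (he : 2 ≤ e) (hF : F.IsHomogeneous (e + 1)) (hJ : jac F ≤ I)
    {T : Submodule K (Pol (k + 1 + (k + 1)) K)} (hT : T ≤ Sd _ K (e + 1) ⊓ I.restrictScalars K)
    (hE : ∀ G ∈ T, ∃ E, Der E ∧ E F = G ∧ ∀ a, E (pderiv a F) - pderiv a G ∈ I)
    (h1 : hf I 1 ≤ k + 1)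
    (h2 : finrank K (Sd (k + 1 + (k + 1)) K (e + 1)) + ((k + 1) * (k + 1) + (k + 1)) <
      finrank K T + ((e + 1 + k).choose k + hf I e))
    (h3 : finrank K (Sd (k + 1 + (k + 1)) K (e + 1)) + (k + 1) * (k + 1) <
      finrank K T + (hf I e + hf I e) + hf I (e + 1)) : F ∈ lid x := by
  refine h.euler hF fun v hv => h.ker (by omega) hF hJ (fun u hu i => ?_) hv
  by_contra hi
  obtain ⟨c, hc⟩ := px_norm (h.hx i) hi
  have h4 : pxd F (c • u) ∈ lid x := by
    rw [map_smul]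
    exact Submodule.smul_of_tower_mem _ c hu
  generalize c • u = v₁ at hc h4
  obtain ⟨q₁, hq₁⟩ := px_mem_lid.1 h4
  obtain ⟨z, hz, h5⟩ := exists_span_of_hf_le h1
  have hx : ∀ j p, x j * p ∈ I := fun j p => I.mul_mem_right _ (h.le (px_x_mem x j))
  have hd : ∀ j (p : Pol _ K), p.IsHomogeneous e → (x j * p).IsHomogeneous (e + 1) :=
    fun j p hp => add_comm 1 e ▸ (h.hx j).mul hp
  by_cases h6 : ∀ v, pxd F v ∈ lid x → ∃ c : K, ∀ l, pxd (x l) v = c • pxd (x l) v₁
  · obtain ⟨u, h7, h8⟩ := h.line hF hJ h6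
    obtain ⟨y, hy, h9⟩ := h.pow h7 h8
    obtain ⟨a, ha⟩ := h9 _ F hF fun _ h => h
    obtain ⟨f, hf'⟩ := px_mem_lid.1 ha
    have h10 : ∀ p : Pol _ K, p.IsHomogeneous 1 → ∃ c : Fin (k + 1) → K,
        p - ∑ j, c j • z j ∈ lid x := fun p hp => by
      obtain ⟨c, h10⟩ := h5 p hp
      obtain ⟨d, h11⟩ := h.dec (hp.sub ((Sd _ K 1).sum_mem fun j _ =>
        (Sd _ K 1).smul_mem (c j) (hz j))) h10
      exact ⟨c, by simpa [show ¬ e ≤ 1 by omega] using h11⟩
    have h11 := gap_pair (I := lid x) (J := I) LinearMap.id (pxl v₁) (hT.trans inf_le_left)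
      (a := e + 1) (b := e) (fun p q hp hq => ⟨p + x i * (q - pxd p v₁),
        hp.add (hd _ _ (hq.sub (pxd_homog hp v₁))), by
          simpa using Ideal.mul_mem_right _ _ (px_x_mem x i), by
          rw [map_add, pxl_apply, pxl_apply, pxd_mul, hc]
          convert hx i (pxd (q - pxd p v₁) v₁) using 1
          ring⟩)
      (Sum.elim (fun t : Fin (k + 1) × Fin (k + 1) => f t.1 * z t.2) fun j => y ^ e * z j)
      (Sum.elim (fun t => q₁ t.1 * z t.2) fun _ => 0) fun G hG => by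
        obtain ⟨E, hD, rfl, h11⟩ := hE G hG
        choose d h12 using fun j => h10 _ (hD.homog 1 _ (h.hx j))
        obtain ⟨l, h13, h14⟩ := hD.pow hy a e
        obtain ⟨b, h15⟩ := h10 l h13
        refine ⟨Sum.elim (fun t => d t.1 t.2) b, ?_, ?_⟩
        · simp only [Fintype.sum_sum_type, Fintype.sum_prod_type, Sum.elim_inl, Sum.elim_inr,
            ← mul_smul_comm, ← Finset.mul_sum, LinearMap.id_apply]
          rw [← sub_add_cancel F (a • y ^ (e + 1)), ← hf', map_add, h14, map_sum,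
            add_sub_add_comm, ← mul_sub, ← Finset.sum_sub_distrib]
          refine Ideal.add_mem _ (Ideal.sum_mem _ fun j _ => ?_) (Ideal.mul_mem_left _ _ h15)
          rw [hD.leib, add_sub_assoc, ← mul_sub]
          exact Ideal.add_mem _ (Ideal.mul_mem_left _ _ (px_x_mem x j))
            (Ideal.mul_mem_left _ _ (h12 j))
        · simpa [Fintype.sum_prod_type] using h.dv hJ hD h11 (fun j => h.le (h12 j)) hq₁
    have h12 := hf_lid h.hx (e + 1)
    simp only [Fintype.card_sum, Fintype.card_prod, Fintype.card_fin] at h11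
    omega
  · push Not at h6
    obtain ⟨v, h7, h8⟩ := h6
    obtain ⟨l, h9⟩ := h8 (coeff 0 (pxd (x i) v))
    obtain ⟨a, ha⟩ := px_norm (h.hx l) (v := v - coeff 0 (pxd (x i) v) • v₁) (by
      rwa [map_sub, map_smul, sub_ne_zero])
    have h10 : pxd (x i) (a • (v - coeff 0 (pxd (x i) v) • v₁)) = 0 := by
      rw [map_smul, map_sub, map_smul, hc, smul_eq_C_mul 1, mul_one,
        ← px_const (pxd_homog (n := 0) (h.hx i) v), sub_self, smul_zero]
    have h11 : pxd F (a • (v - coeff 0 (pxd (x i) v) • v₁)) ∈ lid x := by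
      rw [map_smul, map_sub, map_smul]
      exact Submodule.smul_of_tower_mem _ a (sub_mem h7 (Submodule.smul_of_tower_mem _ _ h4))
    generalize a • (v - coeff 0 (pxd (x i) v) • v₁) = v₂ at ha h10 h11
    obtain ⟨q₂, hq₂⟩ := px_mem_lid.1 h11
    have h12 := gap_pair (I := I) (J := I) (pxl v₁) (pxl v₂) hT (a := e) (b := e)
      (fun p q hp hq => ⟨x i * (p - pxd (x l) v₁ * q) + x l * q, ⟨(hd _ _ (hp.sub (by
        simpa using (pxd_homog (n := 0) (h.hx l) v₁).mul hq))).add (hd _ _ hq),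
          I.add_mem (hx _ _) (hx _ _)⟩, by
          rw [map_add, pxl_apply, pxl_apply, pxd_mul, pxd_mul, hc]
          convert I.add_mem (hx i (pxd (p - pxd (x l) v₁ * q) v₁)) (hx l (pxd q v₁)) using 1
          ring, by
          rw [map_add, pxl_apply, pxl_apply, pxd_mul, pxd_mul, ha, h10]
          convert I.add_mem (hx i (pxd (p - pxd (x l) v₁ * q) v₂)) (hx l (pxd q v₂)) using 1
          ring⟩)
      (fun t : Fin (k + 1) × Fin (k + 1) => q₁ t.1 * z t.2) (fun t => q₂ t.1 * z t.2)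
      fun G hG => by
        obtain ⟨E, hD, -, h12⟩ := hE G hG
        choose d h13 using fun j => h5 _ (hD.homog 1 _ (h.hx j))
        refine ⟨fun t => d t.1 t.2, ?_, ?_⟩
        · simpa [Fintype.sum_prod_type] using h.dv hJ hD h12 h13 hq₁
        · simpa [Fintype.sum_prod_type] using h.dv hJ hD h12 h13 hq₂
    have h13 := hf_add I (e + 1)
    simp only [Fintype.card_prod, Fintype.card_fin] at h12
    omega

end Pool.Agent.Lib.MP_e9c0f3_ag.MC
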