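import Pool.Agent.Lib.MP_e9c0f3_ag.MC.GapB

/-! Ideals of linear subspaces. -/

open MvPolynomial Module

namespace Pool.Agent.Lib.MP_e9c0f3_ag.MC

open H48

variable {K : Type} [Field K] {N : ℕ}

/-- `Y` is generated by a space of linear forms of dimension `c`. -/
def LinI (Y : Ideal (Pol N K)) (c : ℕ) : Prop :=
  ∃ U : Submodule K (Fin N → K), finrank K U = c ∧ Y = Ideal.span (lin '' (U : Set (Fin N → K)))

theorem gf_aeval {M : ℕ} (f : (Fin N → K) →ₗ[K] (Fin M → K)) (v : Fin N → K) :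
    aeval (fun a => lin (f (Pi.single a 1))) (lin v) = lin (f v) := by
  rw [ci_aeval]
  congr 1
  simp only [← map_smul, ← map_sum]
  congr 1
  exact (pi_eq_sum_univ' v).symm

theorem gf_split (U : Submodule K (Fin N → K)) {n : ℕ} (h : finrank K U + n = N) :
    ∃ (θ : Pol n K →ₐ[K] Pol N K) (π : Pol N K →ₐ[K] Pol n K) (ε : (Fin N → K) →ₗ[K] (Fin N → K)),
      (∀ t p, p.IsHomogeneous t → (θ p).IsHomogeneous t) ∧
      (∀ t p, p.IsHomogeneous t → (π p).IsHomogeneous t) ∧ (∀ q, π (θ q) = q) ∧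
      RingHom.ker π = Ideal.span (lin '' (U : Set (Fin N → K))) ∧
      (∀ v, π (lin v) = 0 → v ∈ U) ∧ (∀ u ∈ U, ε u = 0) ∧ ∀ v, v - ε v ∈ U := by
  have h1 := U.finrank_quotient_add_finrank
  rw [finrank_fin_fun] at h1
  let pr := (LinearEquiv.ofFinrankEq (R := K) ((Fin N → K) ⧸ U) (Fin n → K) (by
    rw [finrank_fin_fun]; omega)).toLinearMap ∘ₗ U.mkQ
  have h2 : ∀ v, pr v = 0 ↔ v ∈ U := fun v => by simp [pr]
  obtain ⟨sec, h3⟩ := pr.exists_rightInverse_of_surjective (by simp [pr, LinearMap.range_comp])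
  have h4 : ∀ w, pr (sec w) = w := fun w => LinearMap.congr_fun h3 w
  have h5 : ∀ v, v - sec (pr v) ∈ U := fun v => (h2 _).1 (by rw [map_sub, h4, sub_self])
  have h6 : ∀ q, aeval (fun a => lin (pr (Pi.single a 1)))
      (aeval (fun j => lin (sec (Pi.single j 1))) q) = q := fun q => by
    rw [← AlgHom.comp_apply]
    refine (AlgHom.congr_fun (algHom_ext fun j => ?_) q).trans (AlgHom.id_apply q)
    rw [AlgHom.comp_apply, aeval_X, gf_aeval, h4, AlgHom.id_apply, ci_X]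
  refine ⟨aeval fun j => lin (sec (Pi.single j 1)), aeval fun a => lin (pr (Pi.single a 1)),
    sec ∘ₗ pr, fun t p => ci_homog _, fun t p => ci_homog _, h6, le_antisymm (fun p hp => ?_)
    (Ideal.span_le.2 ?_), fun v hv => ?_, fun u hu => ?_, h5⟩
  · have h7 : p - aeval (fun j => lin (sec (Pi.single j 1)))
        (aeval (fun a => lin (pr (Pi.single a 1))) p) ∈
        Ideal.span (lin '' (U : Set (Fin N → K))) := by
      clear hp
      induction p using MvPolynomial.induction_on with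
      | C a => simp
      | add p q hp hq =>
        rw [map_add, map_add, add_sub_add_comm]
        exact add_mem hp hq
      | mul_X p a hp =>
        have h8 := Ideal.subset_span (Set.mem_image_of_mem lin (h5 (Pi.single a 1)))
        rw [show ∀ u v, lin (u - v) = lin u - lin v from map_sub (ciL N K), ci_X] at h8
        rw [map_mul, map_mul, aeval_X, gf_aeval]
        convert add_mem (Ideal.mul_mem_right (X a) _ hp) (Ideal.mul_mem_left _ (aeval (fun j =>
          lin (sec (Pi.single j 1))) (aeval (fun a => lin (pr (Pi.single a 1))) p)) h8) using 1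
        ring
    rwa [RingHom.mem_ker.1 hp, map_zero, sub_zero] at h7
  · rintro _ ⟨u, hu, rfl⟩
    exact (gf_aeval pr u).trans ((congrArg lin ((h2 u).2 hu)).trans (map_zero (ciL n K)))
  · rw [gf_aeval] at hv
    exact (h2 v).1 (ci_inj (hv.trans (map_zero (ciL n K)).symm))
  · rw [LinearMap.comp_apply, (h2 u).2 hu, map_zero]

variable {Y I : Ideal (Pol N K)} {c : ℕ}

theorem gf_rank (U : Submodule K (Fin N → K)) : finrank K U + (N - finrank K U) = N := by
  have := U.finrank_le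
  rw [finrank_fin_fun] at this
  omega

theorem LinI.prime (h : LinI Y c) : Y.IsPrime := by
  obtain ⟨U, -, rfl⟩ := h
  obtain ⟨-, π, -, -, -, -, h, -⟩ := gf_split U (gf_rank U)
  exact h ▸ RingHom.ker_isPrime π

theorem LinI.hg (h : LinI Y c) : Hg Y := by
  obtain ⟨U, -, rfl⟩ := h
  refine hg_span ?_
  rintro _ ⟨u, -, rfl⟩
  exact ⟨1, lin_homog u⟩

theorem LinI.hf (h : LinI Y c) {j : ℕ} (hj : c + (j + 1) = N) (t : ℕ) :
    hf Y t = (t + j).choose j := by
  obtain ⟨U, rfl, rfl⟩ := h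
  obtain ⟨θ, π, -, hθ, hπ, hπθ, h, -⟩ := gf_split U hj
  rw [← h, ← finrank_Sd j K t]
  refine le_antisymm ((hf_le_of ((Sd (j + 1) K t).map θ.toLinearMap) fun p hp =>
    ⟨_, ⟨π p, hπ _ _ hp, rfl⟩, ?_⟩).trans (Submodule.finrank_map_le _ _))
    (le_hf (θ.toLinearMap ∘ₗ (Sd (j + 1) K t).subtype) (fun q => hθ _ _ q.2) fun q hq =>
      Subtype.ext ((hπθ q).symm.trans hq))
  rw [RingHom.mem_ker, map_sub, AlgHom.toLinearMap_apply, hπθ, sub_self]

theorem LinI.gens (h : LinI Y c) :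
    ∃ x : Fin c → Pol N K, (∀ i, (x i).IsHomogeneous 1) ∧ Y = lid x := by
  obtain ⟨U, rfl, rfl⟩ := h
  let b := Module.finBasis K U
  refine ⟨fun i => lin (b i : Fin N → K), fun i => lin_homog _,
    le_antisymm (Ideal.span_le.2 ?_) (Ideal.span_le.2 ?_)⟩
  · rintro _ ⟨u, hu, rfl⟩
    have h1 := congrArg U.subtype (b.sum_repr ⟨u, hu⟩)
    simp only [map_sum, map_smul, Submodule.subtype_apply] at h1
    rw [← h1, lin_sum]
    exact Ideal.sum_mem _ fun i _ => Ideal.mul_mem_left _ _ (Ideal.subset_span ⟨i, rfl⟩)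
  · rintro _ ⟨i, rfl⟩
    exact Ideal.subset_span ⟨_, (b i).2, rfl⟩

theorem LinI.sup (h : LinI Y c) {l : Pol N K} (hl : l.IsHomogeneous 1) (hn : l ∉ Y) :
    LinI (Y ⊔ Ideal.span {l}) (c + 1) := by
  obtain ⟨U, rfl, rfl⟩ := h
  obtain ⟨v, rfl⟩ := exists_lin hl
  refine ⟨U ⊔ Submodule.span K {v}, Submodule.finrank_sup_span_singleton fun hv =>
    hn (Ideal.subset_span ⟨v, hv, rfl⟩), le_antisymm (sup_le (Ideal.span_mono (Set.image_mono
      (le_sup_left : U ≤ _))) (Ideal.span_le.2 (Set.singleton_subset_iff.2 (Ideal.subset_span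
        ⟨v, Submodule.mem_sup_right (Submodule.mem_span_singleton_self v), rfl⟩))))
    (Ideal.span_le.2 ?_)⟩
  rintro _ ⟨w, hw, rfl⟩
  obtain ⟨u, hu, _, h1, rfl⟩ := Submodule.mem_sup.1 hw
  obtain ⟨a, rfl⟩ := Submodule.mem_span_singleton.1 h1
  rw [show lin (u + a • v) = lin u + a • lin v from
    (map_add (ciL N K) u (a • v)).trans (congrArg _ (map_smul (ciL N K) a v))]
  exact Submodule.add_mem_sup (Ideal.subset_span ⟨u, hu, rfl⟩)
    (Submodule.smul_of_tower_mem _ a (Ideal.mem_span_singleton_self _))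

theorem exists_linI (h : hf I 1 + c = N) :
    ∃ Y, LinI Y c ∧ Y ≤ I ∧ ∀ l ∈ I, l.IsHomogeneous 1 → l ∈ Y := by
  let U := (I.restrictScalars K).comap (ciL N K)
  refine ⟨_, ⟨U, ?_, rfl⟩, Ideal.span_le.2 ?_, fun l hl hl' => ?_⟩
  · have h1 := hf_add I 1
    have h2 : U.map (ciL N K) = Sd N K 1 ⊓ I.restrictScalars K := by
      refine le_antisymm ?_ fun p hp => ?_
      · rintro _ ⟨v, hv, rfl⟩
        exact ⟨lin_homog v, hv⟩
      · obtain ⟨v, rfl⟩ := exists_lin hp.1
        exact ⟨v, hp.2, rfl⟩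
    have h3 : LinearMap.range (ciL N K) = Sd N K 1 := by
      refine le_antisymm ?_ fun p hp => ?_
      · rintro _ ⟨v, rfl⟩
        exact lin_homog v
      · obtain ⟨v, rfl⟩ := exists_lin hp
        exact ⟨v, rfl⟩
    rw [← h2, ← h3, LinearMap.finrank_range_of_inj ci_inj, finrank_fin_fun,
      ← (Submodule.equivMapOfInjective _ ci_inj U).finrank_eq] at h1
    omega
  · rintro _ ⟨v, hv, rfl⟩
    exact hv
  · obtain ⟨v, rfl⟩ := exists_lin hl'
    exact Ideal.subset_span ⟨v, hl, rfl⟩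

theorem LinI.euler (h : LinI Y c) : ∃ (P : Submodule K (Fin N → K)) (t : Fin N → Fin N → K),
    finrank K P + c ≤ N ∧ (∀ v, (∀ x ∈ Y, x.IsHomogeneous 1 → pxd x v = 0) → v ∈ P) ∧
    (∀ v ∈ P, ∀ p ∈ Y, pxd p v ∈ Y) ∧ (∀ a, t a ∈ P) ∧ ∀ (n : ℕ) (p : Pol N K),
      p.IsHomogeneous n → n • p - ∑ a, X a * pxd p (t a) ∈ Y := by
  obtain ⟨U, rfl, rfl⟩ := h
  obtain ⟨-, -, ε, -, -, -, -, -, h1, h2⟩ := gf_split U (gf_rank U)
  have h3 : ∀ u v : Fin N → K, pxd (lin u) v = C (v ⬝ᵥ u) := fun u v => by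
    simp [pxd_apply, ci_pderiv, smul_eq_C_mul, dotProduct]
  have h4 : Function.Injective (dotProductBilin K K : (Fin N → K) →ₗ[K] (Fin N → K) →ₗ[K] K) :=
    fun u v h => dotProduct_eq _ _ fun w => LinearMap.congr_fun h w
  refine ⟨U.dualAnnihilator.comap (dotProductBilin K K), fun a b => ε (Pi.single b 1) a, ?_,
    fun v hv => ?_, fun v hv p hp => ?_, fun a => ?_, fun n p hp => ?_⟩
  · have h5 := Subspace.finrank_add_finrank_dualAnnihilator_eq U
    have h6 := Submodule.finrank_mono (Submodule.map_comap_le (dotProductBilin K K)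
      U.dualAnnihilator)
    rw [← (Submodule.equivMapOfInjective _ h4 _).finrank_eq] at h6
    rw [finrank_fin_fun] at h5
    exact (Nat.add_le_add_right h6 _).trans ((add_comm _ _).trans h5).le
  · refine (Submodule.mem_dualAnnihilator _).2 fun u hu => ?_
    have h5 := hv _ (Ideal.subset_span ⟨u, hu, rfl⟩) (lin_homog u)
    rwa [h3, C_eq_zero] at h5
  · induction hp using Submodule.span_induction with
    | mem x hx =>
      obtain ⟨u, hu, rfl⟩ := hx
      rw [h3, show v ⬝ᵥ u = 0 from (Submodule.mem_dualAnnihilator _).1 hv u hu, map_zero]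
      exact zero_mem _
    | zero => simp [← pxl_apply]
    | add x y _ _ hx hy =>
      rw [← pxl_apply, map_add, pxl_apply, pxl_apply]
      exact add_mem hx hy
    | smul a x h hx =>
      rw [smul_eq_mul, pxd_mul]
      exact add_mem (Ideal.mul_mem_left _ _ hx) (Ideal.mul_mem_left _ _ h)
  · refine (Submodule.mem_dualAnnihilator _).2 fun u hu => ?_
    have h5 := congrFun (h1 u hu) a
    rw [pi_eq_sum_univ' u, map_sum] at h5
    simpa [dotProduct, mul_comm] using h5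
  · have h5 : ∑ a, X a * pxd p (fun b => ε (Pi.single b 1) a) =
        ∑ b, lin (ε (Pi.single b 1)) * pderiv b p := by
      simp only [pxd_apply, lin, Finset.mul_sum, Finset.sum_mul, smul_eq_C_mul]
      rw [Finset.sum_comm]
      exact Finset.sum_congr rfl fun _ _ => Finset.sum_congr rfl fun _ _ => by ring
    rw [h5, ← hp.sum_X_mul_pderiv, ← Finset.sum_sub_distrib]
    refine Ideal.sum_mem _ fun b _ => ?_
    rw [← sub_mul, ← ci_X, ← show ∀ u v, lin (u - v) = lin u - lin v from map_sub (ciL N K)]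
    exact Ideal.mul_mem_right _ _ (Ideal.subset_span ⟨_, h2 _, rfl⟩)

theorem hf_es' {p : Pol N K} {a : ℕ} (h : Hg I) (hp : p.IsHomogeneous a) (n : ℕ) :
    hf I (n + a) = hf (I ⊔ Ideal.span {p}) (n + a) + hf (col I p) n := by
  have h1 := hf_add I (n + a)
  have h2 := hf_add (I ⊔ Ideal.span {p}) (n + a)
  have h3 := hf_add (col I p) n
  have h4 := base_rank (Ideal.Quotient.mkₐ K I).toLinearMap
    (Sd N K (n + a) ⊓ (I ⊔ Ideal.span {p}).restrictScalars K)
  have h5 := base_rank ((Ideal.Quotient.mkₐ K I).toLinearMap ∘ₗ LinearMap.mulLeft K p) (Sd N K n)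
  have e1 : (Sd N K (n + a) ⊓ (I ⊔ Ideal.span {p}).restrictScalars K) ⊓
      LinearMap.ker (Ideal.Quotient.mkₐ K I).toLinearMap =
      Sd N K (n + a) ⊓ I.restrictScalars K := by
    refine le_antisymm (fun q hq => ⟨hq.1.1, Ideal.Quotient.eq_zero_iff_mem.1 hq.2⟩) fun q hq =>
      ⟨⟨hq.1, Ideal.mem_sup_left hq.2⟩, Ideal.Quotient.eq_zero_iff_mem.2 hq.2⟩
  have e2 : Sd N K n ⊓
      LinearMap.ker ((Ideal.Quotient.mkₐ K I).toLinearMap ∘ₗ LinearMap.mulLeft K p) =
      Sd N K n ⊓ (col I p).restrictScalars K := by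
    refine le_antisymm (fun q hq => ⟨hq.1, (Ideal.Quotient.eq_zero_iff_mem (I := I)).1 hq.2⟩)
      fun q hq => ⟨hq.1, (Ideal.Quotient.eq_zero_iff_mem (I := I)).2 hq.2⟩
  have e3 : (Sd N K (n + a) ⊓ (I ⊔ Ideal.span {p}).restrictScalars K).map
      (Ideal.Quotient.mkₐ K I).toLinearMap =
      (Sd N K n).map ((Ideal.Quotient.mkₐ K I).toLinearMap ∘ₗ LinearMap.mulLeft K p) := by
    refine le_antisymm ?_ ?_
    · rintro _ ⟨g, hg, rfl⟩
      obtain ⟨q, hq, k⟩ := h.div hp hg.1 hg.2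
      exact ⟨q, hq, (Ideal.Quotient.eq.2 k).symm⟩
    · rintro _ ⟨q, hq, rfl⟩
      refine ⟨p * q, ⟨?_, Ideal.mem_sup_right (Ideal.mul_mem_right _ _
        (Ideal.mem_span_singleton_self p))⟩, rfl⟩
      rw [add_comm]
      exact hp.mul hq
  rw [e1, e3] at h4
  rw [e2] at h5
  omega

/-- Equality of ideals in one degree from the Hilbert functions. -/
theorem mem_of_hf {n : ℕ} (h : ∀ p ∈ Y, p.IsHomogeneous n → p ∈ I) (h1 : hf Y n ≤ hf I n)
    {p : Pol N K} (hp : p ∈ I) (hn : p.IsHomogeneous n) : p ∈ Y := by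
  have h2 := hf_add I n
  have h3 := hf_add Y n
  exact ((Submodule.eq_of_le_of_finrank_le (S₁ := Sd N K n ⊓ Y.restrictScalars K)
    (S₂ := Sd N K n ⊓ I.restrictScalars K) (fun q hq => ⟨hq.1, h q hq.2 hq.1⟩)
    (by omega)).ge ⟨hn, hp⟩).2

theorem exists_of_hf {n : ℕ} (h : hf I n < hf Y n) : ∃ p ∈ I, p.IsHomogeneous n ∧ p ∉ Y := by
  by_contra! h1
  exact absurd (hf_mono fun p hp hm => h1 p hm hp) (not_le.2 h)

theorem Der.map_mem {E : Pol N K →+ Pol N K} (h : Der E) {s : Set (Pol N K)}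
    (h1 : ∀ g ∈ s, g ∈ I ∧ E g ∈ I) {p : Pol N K} (hp : p ∈ Ideal.span s) : E p ∈ I := by
  induction hp using Submodule.span_induction with
  | mem x hx => exact (h1 x hx).2
  | zero => simp
  | add x y _ _ hx hy => exact map_add E x y ▸ add_mem hx hy
  | smul a x h2 hx =>
    rw [smul_eq_mul, h.leib]
    exact add_mem (I.mul_mem_left _ (Ideal.span_le.2 (fun g hg => (h1 g hg).1) h2))
      (I.mul_mem_left _ hx)

end Pool.Agent.Lib.MP_e9c0f3_ag.MC
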