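import Pool.Agent.Lib.MP_e9c0f3_ag.MC.ThmA
import Pool.Agent.Lib.MP_e9c0f3_ag.MC.Ext

/-! Lower bounds from generic linear forms. -/

open MvPolynomial Module

namespace Pool.Agent.Lib.MP_e9c0f3_ag.MC

variable {K : Type} [Field K] {N : ℕ}

/-- A form of positive degree is a combination of the variables. -/
theorem gen_dec {n : ℕ} {p : Pol N K} (hp : p.IsHomogeneous (n + 1)) :
    ∃ q : Fin N → Pol N K, (∀ a, (q a).IsHomogeneous n) ∧ p = ∑ a, X a * q a := by
  have h1 : p ∈ homogeneousSubmodule (Fin N) K 1 * homogeneousSubmodule (Fin N) K n := by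
    rw [← homogeneousSubmodule_one_pow (σ := Fin N) K n, ← pow_succ',
      homogeneousSubmodule_one_pow]
    exact hp
  refine Submodule.mul_induction_on h1 (fun m hm r hr => ?_) ?_
  · rw [homogeneousSubmodule_one_eq_span_X] at hm
    obtain ⟨c, rfl⟩ := (Submodule.mem_span_range_iff_exists_fun K).1 hm
    refine ⟨fun a => c a • r, fun a => (homogeneousSubmodule (Fin N) K n).smul_mem _ hr, ?_⟩
    rw [Finset.sum_mul]
    refine Finset.sum_congr rfl fun a _ => ?_
    rw [smul_mul_assoc, mul_smul_comm]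
  · rintro _ _ ⟨q, hq, rfl⟩ ⟨q', hq', rfl⟩
    refine ⟨fun a => q a + q' a, fun a => (hq a).add (hq' a), ?_⟩
    rw [← Finset.sum_add_distrib]
    exact Finset.sum_congr rfl fun a _ => (mul_add _ _ _).symm

theorem gen_der_one {E : Pol N K →+ Pol N K} (hE : Der E) : E 1 = 0 := by
  have h := hE.leib 1 1
  rw [mul_one, mul_one, one_mul] at h
  exact left_eq_add.1 h

theorem gen_der_pow {E : Pol N K →+ Pol N K} (hE : Der E) (l : Pol N K) (j : ℕ) :
    E (l ^ (j + 1)) = ((j : Pol N K) + 1) * l ^ j * E l := by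
  induction j with
  | zero => simp
  | succ j ih =>
    rw [pow_succ, hE.leib, ih]
    push_cast
    ring

theorem gen_le_lev (D : Ideal (Pol N K)) (j : ℕ) : D ≤ lev D j :=
  fun _ hp b _ => D.mul_mem_right b hp

theorem gen_lev_mono {D D' : Ideal (Pol N K)} (h : D ≤ D') (j : ℕ) : lev D j ≤ lev D' j :=
  fun _ hp b hb => h (hp b hb)

theorem gen_lev_sup (D B : Ideal (Pol N K)) (j : ℕ) : lev D j ⊔ B ≤ lev (D ⊔ B) j :=
  sup_le (gen_lev_mono le_sup_left j) (le_sup_right.trans (gen_le_lev _ j))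

theorem gen_lev_zero (D : Ideal (Pol N K)) : lev D 0 = D := by
  refine le_antisymm (fun p hp => ?_) (gen_le_lev D 0)
  have h := mem_lev.1 hp 1 (isHomogeneous_one _ _)
  rwa [mul_one] at h

theorem gen_lev_succ_le (D : Ideal (Pol N K)) (j : ℕ) : lev D (j + 1) ≤ lev (lev D j) 1 := by
  intro p hp b1 hb1 b hb
  rw [mul_assoc]
  exact mem_lev.1 hp _ (by rw [add_comm]; exact hb1.mul hb)

theorem gen_hf_lev_one {D : Ideal (Pol N K)} {i : ℕ} (h : hf (lev D 1) i = 0) :
    hf D (i + 1) = 0 := by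
  rw [hf_eq_zero] at h ⊢
  intro p hp
  obtain ⟨q, hq, rfl⟩ := gen_dec hp
  refine Ideal.sum_mem _ fun a _ => ?_
  rw [mul_comm]
  exact mem_lev.1 (h _ (hq a)) _ (isHomogeneous_X _ _)

theorem gen_hf_lev {D : Ideal (Pol N K)} {j i : ℕ} (h : hf (lev D j) i = 0) :
    hf D (i + j) = 0 := by
  induction j generalizing i with
  | zero => rwa [gen_lev_zero] at h
  | succ j ih =>
    have h1 : hf (lev (lev D j) 1) i = 0 :=
      Nat.le_zero.1 (h ▸ hf_mono fun p _ hp => gen_lev_succ_le D j hp)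
    have h2 := ih (gen_hf_lev_one h1)
    rwa [add_assoc, add_comm 1 j] at h2

theorem gen_hockey (t c : ℕ) :
    ∑ j ∈ Finset.range (t + 1), (t - j + c).choose c = (t + (c + 1)).choose (c + 1) := by
  have h := Finset.sum_range_reflect (fun i => (i + c).choose c) (t + 1)
  rw [Nat.sum_range_add_choose] at h
  rw [← add_assoc, ← h]
  refine Finset.sum_congr rfl fun j _ => ?_
  rw [Nat.add_sub_cancel]

variable [CharZero K] {I : Ideal (Pol N K)} {c t : ℕ}

theorem gen_col_step {l : Pol N K}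
    (hE : ∀ a, ∃ E, Der E ∧ (∀ p ∈ I, E p ∈ I) ∧ E l = X a) (j : ℕ) {g : Pol N K}
    (hg : g ∈ col I (l ^ (j + 1)) ⊔ Ideal.span {l}) (a : Fin N) :
    g * X a ∈ col I (l ^ j) ⊔ Ideal.span {l} := by
  obtain ⟨g0, hg0, r, hr, rfl⟩ := Submodule.mem_sup.1 hg
  rw [add_mul]
  refine add_mem ?_ (Ideal.mem_sup_right (Ideal.mul_mem_right _ _ hr))
  obtain ⟨E, hD, hI, hl⟩ := hE a
  have h1 := hI _ (mem_col.1 hg0)
  rw [hD.leib, gen_der_pow hD, hl] at h1
  have h2 : ((j : Pol N K) + 1) * (g0 * X a) + l * E g0 ∈ col I (l ^ j) := by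
    rw [mem_col]
    convert h1 using 1
    ring
  have h3 : ((j : Pol N K) + 1) * (g0 * X a) ∈ col I (l ^ j) ⊔ Ideal.span {l} := by
    have h4 : l * E g0 ∈ col I (l ^ j) ⊔ Ideal.span {l} :=
      Ideal.mem_sup_right (Ideal.mul_mem_right _ _ (Ideal.mem_span_singleton_self l))
    have h5 := sub_mem (Ideal.mem_sup_left (T := Ideal.span {l}) h2) h4
    rwa [add_sub_cancel_right] at h5
  have hj : ((j : K) + 1) ≠ 0 := Nat.cast_add_one_ne_zero j
  have h6 : g0 * X a = C ((j : K) + 1)⁻¹ * (((j : Pol N K) + 1) * (g0 * X a)) := by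
    have h7 : ((j : Pol N K) + 1) = C ((j : K) + 1) := by simp
    rw [h7, ← mul_assoc, ← C_mul, inv_mul_cancel₀ hj, C_1, one_mul]
  rw [h6]
  exact Ideal.mul_mem_left _ _ h3

theorem col_pow_le {l : Pol N K} (hl : l.IsHomogeneous 1)
    (hE : ∀ a, ∃ E, Der E ∧ (∀ p ∈ I, E p ∈ I) ∧ E l = X a) (j : ℕ) :
    col I (l ^ j) ⊔ Ideal.span {l} ≤ lev (I ⊔ Ideal.span {l}) j := by
  have _ := hl
  induction j with
  | zero =>
    rw [gen_lev_zero]
    refine sup_le_sup_right (fun p hp => ?_) _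
    have h := mem_col.1 hp
    rwa [pow_zero, one_mul] at h
  | succ j ih =>
    intro g hg b hb
    obtain ⟨q, hq, rfl⟩ := gen_dec hb
    rw [Finset.mul_sum]
    refine Ideal.sum_mem _ fun a _ => ?_
    rw [← mul_assoc]
    exact mem_lev.1 (ih (gen_col_step hE j hg a)) _ (hq a)

omit [CharZero K] in
theorem gen_col_col (l : Pol N K) (j : ℕ) : col (col I (l ^ j)) l = col I (l ^ (j + 1)) := by
  ext p
  rw [mem_col, mem_col, mem_col, pow_succ, mul_assoc]

theorem gen_hf_sum (hI : Hg I) {l : Pol N K} (hl : l.IsHomogeneous 1)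
    (hE : ∀ a, ∃ E, Der E ∧ (∀ p ∈ I, E p ∈ I) ∧ E l = X a) (t i : ℕ) :
    ∑ j ∈ Finset.range (t + 1), hf (lev (I ⊔ Ideal.span {l}) (i + j)) (t - j) ≤
      hf (col I (l ^ i)) t := by
  induction t generalizing i with
  | zero =>
    rw [Finset.sum_range_one]
    exact hf_mono fun p _ hp => col_pow_le hl hE i (Ideal.mem_sup_left hp)
  | succ t ih =>
    rw [Finset.sum_range_succ', hf_es (hI.col (hl.pow i)) hl, gen_col_col, add_comm]
    refine Nat.add_le_add (hf_mono fun p _ hp => col_pow_le hl hE i hp) ?_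
    refine le_trans (le_of_eq ?_) (ih (i + 1))
    refine Finset.sum_congr rfl fun j _ => ?_
    rw [Nat.add_sub_add_right, add_assoc i 1 j, add_comm 1 j]

theorem hf_sum (hI : Hg I) {l : Pol N K} (hl : l.IsHomogeneous 1)
    (hE : ∀ a, ∃ E, Der E ∧ (∀ p ∈ I, E p ∈ I) ∧ E l = X a) (t : ℕ) :
    ∑ j ∈ Finset.range (t + 1), hf (lev (I ⊔ Ideal.span {l}) j) (t - j) ≤ hf I t := by
  have h := gen_hf_sum hI hl hE t 0
  have h1 : col I (l ^ 0) = I := by
    ext p
    rw [mem_col, pow_zero, one_mul]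
  rw [h1] at h
  simpa only [zero_add] using h

omit [CharZero K] in
theorem lid_succ (l : Fin (c + 1) → Pol N K) :
    lid l = Ideal.span {l 0} ⊔ lid (Fin.tail l) := by
  unfold lid
  rw [Fin.range_fin_succ, Ideal.span_insert]

omit [CharZero K] in
theorem Gen.tail {l : Fin (c + 1) → Pol N K} (h : Gen I l) :
    Gen (I ⊔ Ideal.span {l 0}) (Fin.tail l) := by
  refine ⟨h.hg.sup (hg_span ?_), fun j => h.lin j.succ, fun j a => ?_⟩
  · rintro p rfl
    exact ⟨1, h.lin 0⟩
  · obtain ⟨E, hD, hI, hj, hi⟩ := h.der j.succ a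
    refine ⟨E, hD, fun p hp => ?_, hj, fun i hij => hi _ fun e => hij (Fin.succ_injective _ e)⟩
    obtain ⟨p1, hp1, p2, hp2, rfl⟩ := Submodule.mem_sup.1 hp
    obtain ⟨r, rfl⟩ := Ideal.mem_span_singleton'.1 hp2
    rw [map_add, hD.leib, hi 0 (Fin.succ_ne_zero j).symm, mul_zero, add_zero]
    exact add_mem (Ideal.mem_sup_left (hI _ hp1))
      (Ideal.mem_sup_right (Ideal.mul_mem_left _ _ (Ideal.mem_span_singleton_self _)))

omit [CharZero K] in
theorem Gen.lev {l : Fin c → Pol N K} (h : Gen I l) (j : ℕ) : Gen (lev I j) l := by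
  refine ⟨h.hg.lev j, h.lin, fun i a => ?_⟩
  obtain ⟨E, hD, hI, hj, hi⟩ := h.der i a
  refine ⟨E, hD, fun p hp b hb => ?_, hj, hi⟩
  have h1 := hI _ (mem_lev.1 hp b hb)
  rw [hD.leib] at h1
  have h2 := sub_mem h1 (mem_lev.1 hp _ (hD.homog j b hb))
  rwa [add_sub_cancel_right] at h2

theorem gen_sum {l : Fin (c + 1) → Pol N K} (h : Gen I l) (t : ℕ) :
    ∑ j ∈ Finset.range (t + 1), hf (lev (I ⊔ Ideal.span {l 0}) j) (t - j) ≤ hf I t :=
  hf_sum h.hg (h.lin 0)
    (fun a => by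
      obtain ⟨E, hD, hI, hj, _⟩ := h.der 0 a
      exact ⟨E, hD, hI, hj⟩) t

omit [CharZero K] in
theorem gen_tail_le (I : Ideal (Pol N K)) (l : Fin (c + 1) → Pol N K) (j n : ℕ) :
    hf (lev (I ⊔ lid l) j) n ≤ hf (lev (I ⊔ Ideal.span {l 0}) j ⊔ lid (Fin.tail l)) n := by
  refine hf_mono fun p _ hp => ?_
  rw [lid_succ, ← sup_assoc]
  exact gen_lev_sup _ _ j hp

theorem Gen.lb {l : Fin c → Pol N K} (h : Gen I l) (h0 : hf (I ⊔ lid l) t ≠ 0) :
    (t + c).choose c ≤ hf I t := by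
  induction c generalizing I t with
  | zero =>
    have h1 : hf (I ⊔ lid l) t ≤ hf I t := hf_mono fun p _ hp => Ideal.mem_sup_left hp
    rw [Nat.choose_zero_right]
    omega
  | succ c ih =>
    rw [← gen_hockey]
    refine le_trans (Finset.sum_le_sum fun j hj => ?_) (gen_sum h t)
    have hjt : j ≤ t := Nat.lt_succ_iff.1 (Finset.mem_range.1 hj)
    refine ih (h.tail.lev j) fun h1 => h0 ?_
    have h2 : hf (MC.lev (I ⊔ lid l) j) (t - j) = 0 :=
      Nat.le_zero.1 (h1 ▸ gen_tail_le I l j (t - j))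
    have h3 := gen_hf_lev h2
    rwa [Nat.sub_add_cancel hjt] at h3

omit [CharZero K] in
theorem hf_le_one (h : hf (lev I 1) (t + 1) ≤ 1) : hf I (t + 2) ≤ 1 := by
  by_cases h0 : hf (lev I 1) (t + 1) = 0
  · rw [gen_hf_lev_one h0]
    exact zero_le_one
  obtain ⟨b, w, hw, hbw⟩ : ∃ (b : Fin N) (w : Pol N K), w.IsHomogeneous t ∧ X b * w ∉ lev I 1 := by
    by_contra hc
    push Not at hc
    refine h0 (hf_eq_zero.2 fun p hp => ?_)
    obtain ⟨q, hq, rfl⟩ := gen_dec hp
    exact Ideal.sum_mem _ fun a _ => hc a _ (hq a)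
  have hX : ∀ a : Fin N, (X a * w).IsHomogeneous (t + 1) := fun a => by
    rw [add_comm]
    exact (isHomogeneous_X K a).mul hw
  obtain ⟨y, _, hy⟩ := exists_span_of_hf_le h
  obtain ⟨c0, hc0⟩ := hy _ (hX b)
  rw [Fin.sum_univ_one] at hc0
  have hne : c0 0 ≠ 0 := by
    intro e
    rw [e, zero_smul, sub_zero] at hc0
    exact hbw hc0
  have hsp : ∀ p : Pol N K, p.IsHomogeneous (t + 1) →
      ∃ r : K, p - r • (X b * w) ∈ lev I 1 := by
    intro p hp
    obtain ⟨c1, hc1⟩ := hy p hp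
    rw [Fin.sum_univ_one] at hc1
    refine ⟨c1 0 * (c0 0)⁻¹, ?_⟩
    have h1 := sub_mem hc1 (Ideal.mul_mem_left _ (C (c1 0 * (c0 0)⁻¹)) hc0)
    convert h1 using 1
    rw [C_mul', smul_sub, smul_smul, mul_assoc, inv_mul_cancel₀ hne, mul_one]
    ring
  refine le_trans (hf_le_of (Submodule.span K {X b * (X b * w)}) fun p hp => ?_) ?_
  · obtain ⟨q, hq, rfl⟩ := gen_dec hp
    choose r hr using fun a => hsp _ (hq a)
    choose s hs using fun a => hsp _ (hX a)
    refine ⟨∑ a, (r a * s a) • (X b * (X b * w)), Submodule.sum_mem _ fun a _ =>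
      Submodule.smul_mem _ _ (Submodule.mem_span_singleton_self _), ?_⟩
    rw [← Finset.sum_sub_distrib]
    refine Ideal.sum_mem _ fun a _ => ?_
    have h1 := mem_lev.1 (hr a) _ (isHomogeneous_X K a)
    have h2 := mem_lev.1 (hs a) _ (isHomogeneous_X K b)
    have h3 := add_mem h1 (Ideal.mul_mem_left _ (C (r a)) h2)
    convert h3 using 1
    simp only [smul_eq_C_mul, C_mul]
    ring
  · exact (finrank_span_le_card ({X b * (X b * w)} : Set (Pol N K))).trans (by simp)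

omit [CharZero K] in
theorem gen_two_le {D : Ideal (Pol N K)} {j i : ℕ} (h : 2 ≤ hf D (i + 1 + j)) :
    2 ≤ hf (lev D j) (i + 1) := by
  induction j generalizing i with
  | zero => rwa [gen_lev_zero]
  | succ j ih =>
    have h1 : 2 ≤ hf (lev D j) (i + 1 + 1) := ih (by rwa [add_assoc (i + 1) 1 j, add_comm 1 j])
    by_contra hc
    have h2 : hf (lev (lev D j) 1) (i + 1) ≤ hf (lev D (j + 1)) (i + 1) :=
      hf_mono fun p _ hp => gen_lev_succ_le D j hp
    have h3 := hf_le_one (I := lev D j) (t := i) (by omega)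
    have h4 : i + 1 + 1 = i + 2 := rfl
    rw [h4] at h1
    omega

theorem Gen.lb2 {l : Fin c → Pol N K} (h : Gen I l) (h0 : 2 ≤ hf (I ⊔ lid l) (t + 1)) :
    (t + 1 + c).choose c + (t + c).choose c ≤ hf I (t + 1) := by
  induction c generalizing I t with
  | zero =>
    have h1 : hf (I ⊔ lid l) (t + 1) ≤ hf I (t + 1) :=
      hf_mono fun p _ hp => Ideal.mem_sup_left hp
    rw [Nat.choose_zero_right, Nat.choose_zero_right]
    omega
  | succ c ih =>
    rw [← gen_hockey, ← gen_hockey]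
    refine le_trans ?_ (gen_sum h (t + 1))
    rw [Finset.sum_range_succ _ (t + 1), Finset.sum_range_succ _ (t + 1), add_right_comm,
      ← Finset.sum_add_distrib]
    refine Nat.add_le_add (Finset.sum_le_sum fun j hj => ?_) ?_
    · have hjt : j ≤ t := Nat.lt_succ_iff.1 (Finset.mem_range.1 hj)
      have e1 : t + 1 - j = t - j + 1 := by omega
      rw [e1]
      refine ih (h.tail.lev j) (le_trans ?_ (gen_tail_le I l j (t - j + 1)))
      refine gen_two_le ?_
      have e2 : t - j + 1 + j = t + 1 := by omega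
      rwa [e2]
    · rw [Nat.sub_self, zero_add, Nat.choose_self]
      refine Nat.one_le_iff_ne_zero.2 fun h1 => ?_
      have h2 := gen_hf_lev h1
      have h3 : hf (I ⊔ lid l) (t + 1) ≤ hf (I ⊔ Ideal.span {l 0}) (t + 1) := by
        refine hf_mono fun p _ hp => ?_
        rw [lid_succ, ← sup_assoc]
        exact Ideal.mem_sup_left hp
      rw [zero_add] at h2
      omega

/-- The lower bound for Gorenstein quotients in degrees below `e`. -/
theorem lbg {μ : Pol N K →ₗ[K] K} {σ e : ℕ} (h : Conc μ σ) (h0 : μ ≠ 0) (hb : Bpf (ann μ) e)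
    (hc : c ≤ N) (ht : t + 1 ≤ e) (hσ : c * (e - 1) + t ≤ σ) :
    (t + c).choose c ≤ hf (ann μ) t := by
  obtain ⟨L, _, _, ν, l, hν, hν0, hνb, hg, hh⟩ := exists_gen h h0 hb c
  rw [← hh]
  exact hg.lb fun h1 => hν.hf_top hν0 (thmA hg.hg hνb hg.lin hc ht h1 hσ)

end Pool.Agent.Lib.MP_e9c0f3_ag.MC
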