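import Pool.Agent.Lib.MP_e9c0f3_ag.MC.CI
import Pool.Agent.Lib.MP_e9c0f3_ag.MC.P3

/-! The statement over the function field of the base. -/

open MvPolynomial Module

namespace Pool.Agent.Lib.MP_e9c0f3_ag.MC

variable {K : Type} [Field K] {N : ℕ}

/-- `β` is flat along the derivation `δ`. -/
def Flt (F β : Pol N K) (δ : K →+ K) : Prop :=
  (∀ a b, δ (a * b) = δ a * b + a * δ b) ∧ Exact F (cmap δ β + cmap δ F * β)

/-- The deformations of `F` along which `β` is flat. -/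
noncomputable def tangK (F β : Pol N K) : Submodule K (Pol N K) :=
  Submodule.span K ({p | ∃ δ, Flt F β δ ∧ p = cmap δ F} ∪ {p | ∃ i j, p = X i * pderiv j F})

variable {F β : Pol N K} {d : ℕ} {δ δ' : K →+ K}

theorem exact_smul {g : Pol N K} (a : K) (h : Exact F g) : Exact F (a • g) := by
  obtain ⟨u, rfl⟩ := exact_iff.1 h
  exact exact_iff.2 ⟨_, (dtw_smul F a u).symm⟩

theorem conn_exact (hδ : ∀ a b, δ (a * b) = δ a * b + a * δ b) {g : Pol N K} (h : Exact F g) :
    Exact F (cmap δ g + cmap δ F * g) := by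
  obtain ⟨u, rfl⟩ := exact_iff.1 h
  exact exact_iff.2 ⟨_, conn_dtw (cmap δ) (cmap_leibniz hδ) (cmap_pderiv δ) F u⟩

theorem Flt.congr (h : Flt F β δ) {b : Pol N K} (hb : Exact F (β - b)) : Flt F b δ := by
  refine ⟨h.1, ?_⟩
  convert h.2.sub (conn_exact h.1 hb) using 1
  rw [map_sub]
  ring

theorem Flt.bracket (h : Flt F β δ) (h' : Flt F β δ') : Flt F β (δ.comp δ' - δ'.comp δ) := by
  have h1 : ∀ p : Pol N K, cmap (δ.comp δ' - δ'.comp δ) p =
      cmap δ (cmap δ' p) - cmap δ' (cmap δ p) := fun p => by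
    ext m
    simp [coeff_cmap]
  refine ⟨fun a b => ?_, ?_⟩
  · simp only [AddMonoidHom.sub_apply, AddMonoidHom.comp_apply, h.1, h'.1, map_add]
    ring
  · convert (conn_exact h.1 h'.2).sub (conn_exact h'.1 h.2) using 1
    simp only [h1, map_add, cmap_leibniz h.1, cmap_leibniz h'.1]
    ring

theorem mem_tangK {G : Pol N K} (h : G ∈ tangK F β) : ∃ δ, Flt F β δ ∧ ∃ c : Fin N → Pol N K,
    (∀ i, (c i).IsHomogeneous 1) ∧ G = cmap δ F + H48.vf c F := by
  have h0 : ∀ p : Pol N K, cmap (0 : K →+ K) p = 0 := fun p => by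
    ext m
    simp [coeff_cmap]
  have hz : Flt F β 0 := ⟨by simp, by simpa [h0] using Exact.zero F⟩
  induction h using Submodule.span_induction with
  | mem p hp =>
    rcases hp with ⟨δ, h1, rfl⟩ | ⟨i, j, rfl⟩
    · exact ⟨δ, h1, 0, fun _ => isHomogeneous_zero _ _ _, by simp [H48.vf]⟩
    · refine ⟨0, hz, Pi.single j (X i), fun a => ?_, by simp [h0, H48.vf, Pi.single_apply]⟩
      rw [Pi.single_apply]
      split_ifs
      · exact isHomogeneous_X K i
      · exact isHomogeneous_zero _ _ _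
  | zero => exact ⟨0, hz, 0, fun _ => isHomogeneous_zero _ _ _, by simp [h0, H48.vf]⟩
  | add p q _ _ hp hq =>
    obtain ⟨δ, h1, c, h2, rfl⟩ := hp
    obtain ⟨δ', h1', c', h2', rfl⟩ := hq
    have h3 : ∀ p : Pol N K, cmap (δ + δ') p = cmap δ p + cmap δ' p := fun p => by
      ext m
      simp [coeff_cmap]
    refine ⟨δ + δ', ⟨fun a b => ?_, ?_⟩, c + c', fun i => (h2 i).add (h2' i), ?_⟩
    · simp only [AddMonoidHom.add_apply, h1.1, h1'.1]
      ring
    · convert h1.2.add h1'.2 using 1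
      simp only [h3]
      ring
    · rw [h3, H48.vf_add_left]
      ring
  | smul a p _ hp =>
    obtain ⟨δ, h1, c, h2, rfl⟩ := hp
    have h3 : ∀ p : Pol N K, cmap (a • δ) p = a • cmap δ p := fun p => by
      ext m
      simp [coeff_cmap]
    refine ⟨a • δ, ⟨fun x y => ?_, ?_⟩, (C a : Pol N K) • c,
      fun i => (isHomogeneous_C _ a).mul (h2 i), ?_⟩
    · simp only [AddMonoidHom.smul_apply, h1.1, smul_eq_mul]
      ring
    · convert exact_smul a h1.2 using 1
      simp only [h3, smul_add, smul_mul_assoc]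
    · rw [h3, H48.vf_smul_left, smul_add, smul_eq_C_mul (H48.vf c F)]

/-- A derivation of the field plus a vector field. -/
noncomputable def dvf (δ : K →+ K) (c : Fin N → Pol N K) : Pol N K →+ Pol N K :=
  cmap δ + AddMonoidHom.mk' (H48.vf c) (H48.vf_add c)

theorem dvf_apply (c : Fin N → Pol N K) (p : Pol N K) : dvf δ c p = cmap δ p + H48.vf c p := rfl

theorem dvf_der (hδ : ∀ a b, δ (a * b) = δ a * b + a * δ b) {c : Fin N → Pol N K}
    (hc : ∀ i, (c i).IsHomogeneous 1) : Der (dvf δ c) := by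
  refine ⟨fun p q => ?_, fun n p hp => (cmap_isHomogeneous δ hp).add ?_⟩
  · simp only [dvf_apply, cmap_leibniz hδ, H48.vf_mul]
    ring
  · cases n with
    | zero =>
      rw [totalDegree_eq_zero_iff_eq_C.1 (Nat.le_zero.1 hp.totalDegree_le)]
      change (H48.vf c _).IsHomogeneous 0
      rw [H48.vf_C]
      exact isHomogeneous_zero _ _ _
    | succ n => exact IsHomogeneous.sum _ _ _ fun i _ => add_comm 1 n ▸ (hc i).mul hp.pderiv

theorem dvf_pderiv (c : Fin N → Pol N K) (a : Fin N) :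
    dvf δ c (pderiv a F) - pderiv a (dvf δ c F) ∈ jac F := by
  convert (jac F).neg_mem (H48.vf_mem_jac (fun i => pderiv a (c i)) F) using 1
  simp only [dvf_apply, map_add, cmap_pderiv, H48.vf, map_sum, Derivation.leibniz, smul_eq_mul,
    Finset.sum_add_distrib, pderiv_pderiv_comm a, mul_comm]
  ring

theorem dvf_bracket (hδ : ∀ a b, δ (a * b) = δ a * b + a * δ b)
    (hδ' : ∀ a b, δ' (a * b) = δ' a * b + a * δ' b) (c c' : Fin N → Pol N K) :
    dvf δ c (dvf δ' c' F) - dvf δ' c' (dvf δ c F) - cmap (δ.comp δ' - δ'.comp δ) F ∈ jac F := by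
  have h1 : cmap (δ.comp δ' - δ'.comp δ) F = cmap δ (cmap δ' F) - cmap δ' (cmap δ F) := by
    ext m
    simp [coeff_cmap]
  have h2 : ∀ (δ : K →+ K), (∀ a b, δ (a * b) = δ a * b + a * δ b) → ∀ c : Fin N → Pol N K,
      cmap δ (H48.vf c F) = H48.vf (fun i => cmap δ (c i)) F + H48.vf c (cmap δ F) :=
    fun δ hδ c => by
      simp only [H48.vf, map_sum, cmap_leibniz hδ, cmap_pderiv, Finset.sum_add_distrib]
  have h3 : ∀ c c' : Fin N → Pol N K, H48.vf c (H48.vf c' F) = H48.vf (fun i => H48.vf c (c' i)) F +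
      ∑ i, ∑ j, c' i * (c j * pderiv j (pderiv i F)) := fun c c' => by
    rw [H48.vf.eq_1 c', H48.vf_sum, H48.vf.eq_1 (fun i => H48.vf c (c' i)),
      ← Finset.sum_add_distrib]
    refine Finset.sum_congr rfl fun i _ => ?_
    rw [H48.vf_mul, H48.vf.eq_1 c (pderiv i F), Finset.mul_sum]
    ring
  have h4 : ∑ i, ∑ j, c' i * (c j * pderiv j (pderiv i F)) =
      ∑ i, ∑ j, c i * (c' j * pderiv j (pderiv i F)) := by
    rw [Finset.sum_comm]
    refine Finset.sum_congr rfl fun i _ => Finset.sum_congr rfl fun j _ => ?_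
    rw [pderiv_pderiv_comm]
    ring
  convert (jac F).sub_mem ((jac F).add_mem (H48.vf_mem_jac (fun i => cmap δ (c' i)) F)
    (H48.vf_mem_jac (fun i => H48.vf c (c' i)) F)) ((jac F).add_mem
      (H48.vf_mem_jac (fun i => cmap δ' (c i)) F) (H48.vf_mem_jac (fun i => H48.vf c' (c i)) F))
    using 1
  simp only [dvf_apply, map_add, h1, h2 δ hδ, h2 δ' hδ', h3, h4]
  ring

theorem top_mem (hd : 2 ≤ d) (hF : F.IsHomogeneous d) (hi : Isol F) {n : ℕ} (hn : d - 1 ≤ n)
    {g : Pol N K} (hg : g ∈ lt N K (n + 1)) (he : Exact F g) :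
    homogeneousComponent n g ∈ jac F := by
  obtain ⟨n, rfl⟩ : ∃ m, n = m + (d - 1) := ⟨n - (d - 1), by omega⟩
  exact tw_top hd hF (hi.regAll hd hF) (homogeneousComponent_isHomogeneous _ g)
    (Submodule.neg_mem _ (tw2_sub_hc hg)) (by simpa using he.neg)

theorem min_rep (hF : F.IsHomogeneous d) (n : ℕ) : ∀ b ∈ lt N K n, ¬ Exact F b →
    ∃ r < n, ∃ b' ∈ lt N K (r + 1), Exact F (b - b') ∧ homogeneousComponent r b' ∉ jac F := by
  induction n with
  | zero => exact fun b hb h => absurd (eq_zero_of_mem_lt_zero hb ▸ Exact.zero F) h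
  | succ n ih =>
    intro b hb h
    by_cases h1 : homogeneousComponent n b ∈ jac F
    · obtain ⟨u, h2, h3⟩ := hz_dec (a := fun i => pderiv i F) (deg := fun _ => d - 1)
        (fun _ => hF.pderiv) (J := ⊥)
        (fun p hp n => by rw [Ideal.mem_bot.1 hp, map_zero]; exact Ideal.zero_mem _)
        (hz_of (homogeneousComponent_isHomogeneous n b)) (Ideal.mem_sup_left h1)
      have h4 : Exact F (dtw F u) := exact_iff.2 ⟨u, rfl⟩
      obtain ⟨r, h5, b', h6, h7, h8⟩ := ih (b - dtw F u) (by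
        have h5 := (lt N K n).sub_mem (tw2_sub_hc hb) ((lt N K n).sum_mem (t := Finset.univ)
          fun i _ => pderiv_mem_lt (n := n + 1) (mem_lt_of_isHomogeneous (h2 i).1 (by omega)) i)
        convert h5 using 1
        rw [sub_eq_zero.1 (Ideal.mem_bot.1 h3), dtw, Finset.sum_add_distrib]
        simp only [mul_comm]
        ring) fun h5 => h (by simpa using h5.add h4)
      exact ⟨r, by omega, b', h6, by convert h7.add h4 using 1; ring, h8⟩
    · exact ⟨n, n.lt_succ_self, b, hb, by simpa using Exact.zero F, h1⟩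

theorem conn_lt (hF : F.IsHomogeneous d) {r : ℕ} {b : Pol N K} (hb : b ∈ lt N K (r + 1)) :
    cmap δ b + cmap δ F * b ∈ lt N K (r + d + 1) :=
  Submodule.add_mem _ (lt_mono (by omega) (cmap_mem_lt δ hb))
    (lt_mono (by omega) (mul_mem_lt (cmap_isHomogeneous δ hF) hb))

theorem conn_top (hd : 2 ≤ d) (hF : F.IsHomogeneous d) {r : ℕ} {b : Pol N K}
    (hb : b ∈ lt N K (r + 1)) : homogeneousComponent (r + d) (cmap δ b + cmap δ F * b) =
      cmap δ F * homogeneousComponent r b := by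
  rw [map_add, tw2_hc_eq_zero (cmap_mem_lt δ hb) (by omega), zero_add,
    tw2_hc_mul (cmap_isHomogeneous δ hF), if_pos (by omega), Nat.add_sub_cancel]

/-- An ideal that contains the forms of degree `d` of `I` contains those of higher degree. -/
theorem sat_le {ι : Type} [Fintype ι] {y : ι → Pol N K} {n : ι → ℕ}
    (hy : ∀ i, (y i).IsHomogeneous (n i)) (hn : ∀ i, n i ≤ d) {J : Ideal (Pol N K)}
    (h : ∀ G ∈ lid y, G.IsHomogeneous d → G ∈ J) {j : ℕ} (hj : d ≤ j) {p : Pol N K}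
    (hp : p.IsHomogeneous j) (hm : p ∈ lid y) : p ∈ J := by
  obtain ⟨b, h1, h2⟩ := hz_dec hy (J := ⊥)
    (fun p hp n => by rw [Ideal.mem_bot.1 hp, map_zero]; exact Ideal.zero_mem _) (hz_of hp)
    (Ideal.mem_sup_left hm)
  rw [sub_eq_zero.1 (Ideal.mem_bot.1 h2)]
  refine J.sum_mem fun i _ => ?_
  have h3 : hf (col J (y i)) (d - n i) = 0 := hf_eq_zero.2 fun q hq => h _
    (Ideal.mul_mem_right _ _ (Ideal.subset_span ⟨i, rfl⟩)) (by
      have := (hy i).mul hq
      rwa [Nat.add_sub_cancel' (hn i)] at this)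
  rw [mul_comm]
  exact hf_eq_zero.1 (hf_zero_of_le h3 (by have := hn i; omega)) _ (h1 i).1

theorem tang_mul (hd : 2 ≤ d) (hF : F.IsHomogeneous d) (hi : Isol F) {r : ℕ} {b : Pol N K}
    (hb : b ∈ lt N K (r + 1)) (h : Flt F b δ) : cmap δ F * homogeneousComponent r b ∈ jac F := by
  rw [← conn_top hd hF hb]
  exact top_mem hd hF hi (by omega) (conn_lt hF hb) h.2

theorem Conc.mem_of_mul {ρ : Pol N K →ₗ[K] K} {σ i j : ℕ} (h : Conc ρ σ) {p : Pol N K}
    (hp : p.IsHomogeneous i) (hij : i + j = σ)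
    (hm : ∀ b : Pol N K, b.IsHomogeneous j → p * b ∈ ann ρ) : p ∈ ann ρ :=
  (h.mem_ann_iff hp hij).2 fun b hb => by simpa using hm b hb 1

section split

variable [CharZero K] {m σ : ℕ} {x g : Fin m → Pol (m + m) K} {ρ : Pol (m + m) K →ₗ[K] K}
  (hd : 2 ≤ d) (hx : ∀ i, (x i).IsHomogeneous 1) (hg : ∀ i, (g i).IsHomogeneous (d - 1))
  (hi : Isol (∑ i, x i * g i))

include hd hx hg

omit [CharZero K] in
theorem cyc_homog : (H48.jd (Fin.append x g)).IsHomogeneous (m * (d - 2)) := by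
  have := H48.jd_homog (P := Fin.append x g) (n := Fin.append (fun _ => 1) fun _ => d - 1)
    fun i => by
      refine Fin.addCases (fun j => ?_) (fun j => ?_) i
      · rw [Fin.append_left, Fin.append_left]
        exact hx j
      · rw [Fin.append_right, Fin.append_right]
        exact hg j
  rw [Fin.sum_univ_add] at this
  simp only [Fin.append_left, Fin.append_right] at this
  simpa [show d - 1 - 1 = d - 2 by omega] using this

include hi

theorem col_cyc : col (jac (∑ i, x i * g i)) (H48.jd (Fin.append x g)) = lid (Sum.elim x g) := by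
  refine le_antisymm (fun c hc => ?_) (Ideal.span_le.2 ?_)
  · obtain ⟨a, b, rfl⟩ := H48.ann_jd (fun i => ⟨1, one_pos, hx i⟩)
      (fun i => ⟨d - 1, by omega, hg i⟩) hi (mul_comm _ c ▸ mem_col.1 hc)
    exact Ideal.add_mem _
      (Ideal.sum_mem _ fun i _ => Ideal.mul_mem_left _ _ (Ideal.subset_span ⟨Sum.inl i, rfl⟩))
      (Ideal.sum_mem _ fun i _ => Ideal.mul_mem_left _ _ (Ideal.subset_span ⟨Sum.inr i, rfl⟩))
  · rintro _ ⟨i | i, rfl⟩
    · exact mem_col.2 (mul_comm (x i) _ ▸ H48.vf_cof_right x g i ▸ H48.vf_mem_jac _ _)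
    · exact mem_col.2 (mul_comm (g i) _ ▸ H48.vf_cof_left x g i ▸ H48.vf_mem_jac _ _)

theorem class_step {F β : Pol (m + m) K} (hF : F.IsHomogeneous d) (he : F = ∑ i, x i * g i)
    (hσ : m * (d - 2) = σ) (hdσ : d ≤ σ) (hρ : Conc ρ (σ + σ)) (hJ : ann ρ = jac F)
    (hβ : β ∈ lt _ K (σ + 1)) (h0 : ¬ Exact F β)
    (hT : ∀ G ∈ lid (Sum.elim x g), G.IsHomogeneous d → G ∈ tangK F β) :
    ∃ c : K, Exact F (β - c • H48.jd (Fin.append x g)) ∧ ∀ δ, Flt F β δ → δ c = 0 := by
  have hz := hσ ▸ cyc_homog hd hx hg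
  have hc := col_cyc hd hx hg hi
  have hfl := fun (δ : K →+ K) (hδ : ∀ a b, δ (a * b) = δ a * b + a * δ b) =>
    exact_iff.2 ⟨_, H48.jd_flat (cmap δ) (cmap_leibniz hδ) (cmap_pderiv δ) x g⟩
  rw [← he] at hi hc hfl
  generalize H48.jd (Fin.append x g) = z at hz hc hfl
  have hν := hρ.sh hz
  have hI : ann (sh ρ z) = lid (Sum.elim x g) := by rw [← col_ann, hJ, hc]
  have hy : ∀ i, (Sum.elim x g i).IsHomogeneous (Sum.elim (fun _ => 1) (fun _ => d - 1) i) := by
    rintro (i | i)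
    · exact hx i
    · exact hg i
  have hn : ∀ i : Fin m ⊕ Fin m, Sum.elim (fun _ => 1) (fun _ => d - 1) i ≤ d - 1 := by
    rintro (i | i)
    · exact (by omega : 1 ≤ d - 1)
    · exact le_rfl
  have hsat : ∀ Q : Pol (m + m) K, (∀ δ, Flt F β δ → cmap δ F * Q ∈ jac F) → ∀ j, d ≤ j →
      ∀ p ∈ lid (Sum.elim x g), p.IsHomogeneous j → Q * p ∈ jac F := fun Q hQ j hj p hp hp' =>
    sat_le hy (fun i => (hn i).trans (Nat.sub_le d 1)) (J := col (jac F) Q) (fun G hG hG' => by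
      obtain ⟨δ, h1, c, -, rfl⟩ := mem_tangK (hT G hG hG')
      rw [mem_col, mul_add, mul_comm]
      exact Ideal.add_mem _ (hQ δ h1) (Ideal.mul_mem_left _ _ (H48.vf_mem_jac _ _))) hj hp' hp
  have hk : ∀ (Q : Pol (m + m) K) (r : ℕ), r < σ → Q.IsHomogeneous r →
      (∀ δ, Flt F β δ → cmap δ F * Q ∈ jac F) → Q ∈ jac F := fun Q r hr hQ h => by
    rw [← hJ]
    refine hρ.mem_of_mul hQ (j := σ + σ - r) (by omega) fun b hb => ?_
    rw [hJ]
    exact hsat Q h _ (by omega) b (hI ▸ hν.mem_ann hb (by omega)) hb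
  have hz0 : ∀ a : K, a • z ∈ jac F → a = 0 := fun a ha => by
    by_contra h
    have h1 : z * 1 ∈ jac F := by
      have := Submodule.smul_of_tower_mem _ a⁻¹ ha
      rwa [smul_smul, inv_mul_cancel₀ h, one_smul, ← mul_one z] at this
    have h2 : lid (Sum.elim x g) ≤ mx _ K := Ideal.span_le.2 (by
      rintro _ ⟨i | i, rfl⟩
      · exact reg_mem ⟨1, one_pos, hx i⟩
      · exact reg_mem ⟨d - 1, by omega, hg i⟩)
    have h3 : mx (m + m) K ≤ RingHom.ker constantCoeff := Ideal.span_le.2 (by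
      rintro _ ⟨i, rfl⟩
      simp)
    exact one_ne_zero ((map_one _).symm.trans (RingHom.mem_ker.1 (h3 (h2 (hc ▸ mem_col.2 h1)))))
  obtain ⟨r, h1, b, h2, h3, h4⟩ := min_rep hF _ β hβ h0
  have h5 := fun δ (hδ : Flt F β δ) => tang_mul hd hF hi h2 (hδ.congr h3)
  have hP := homogeneousComponent_isHomogeneous r b
  obtain rfl : r = σ := by
    by_contra h
    exact h4 (hk _ r (by omega) hP h5)
  obtain ⟨c, h6⟩ := hν.eq_smul (hρ.sh hP) (by
    rw [hI]
    refine Ideal.span_le.2 ?_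
    rintro _ ⟨i, rfl⟩
    refine (hρ.sh hP).mem_of_mul (hy i) (Nat.add_sub_cancel' ((hn i).trans (by omega : d - 1 ≤ r)))
      fun q hq => ?_
    rw [← col_ann, hJ]
    refine hsat _ h5 r hdσ _ (Ideal.mul_mem_right _ _ (Ideal.subset_span ⟨i, rfl⟩)) ?_
    have := (hy i).mul hq
    rwa [Nat.add_sub_cancel' ((hn i).trans (by omega : d - 1 ≤ r))] at this)
  have h7 : homogeneousComponent r (b - c • z) ∈ jac F := by
    rw [map_sub, map_smul, homogeneousComponent_of_mem hz, if_pos rfl, ← hJ]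
    intro q
    have := LinearMap.congr_fun h6 q
    rw [sh_apply, LinearMap.smul_apply, sh_apply] at this
    rw [sub_mul, map_sub, this, smul_mul_assoc, map_smul, sub_self]
  have hzl : ∀ a : K, a • z ∈ lt _ K (r + 1) := fun a =>
    Submodule.smul_mem _ a (mem_lt_of_isHomogeneous hz r.lt_succ_self)
  have h8 : ∀ b', Exact F (β - c • z - b') → ∀ δ, Flt F β δ →
      Exact F (cmap δ b' + cmap δ F * b' + δ c • z) := fun b' hb' δ hδ => by
    have h8 : cmap δ (c • z) = δ c • z + c • cmap δ z := by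
      ext n
      simp [coeff_cmap, hδ.1]
    convert (hδ.2.sub (conn_exact hδ.1 hb')).sub (exact_smul c (hfl δ hδ.1)) using 1
    rw [map_sub, map_sub, h8]
    simp only [smul_eq_C_mul]
    ring
  have h9 : Exact F (β - c • z) := by
    by_contra h9
    obtain ⟨s, h10, b', h11, h12, h13⟩ := min_rep hF _ _ ((lt _ K _).sub_mem hβ (hzl c)) h9
    have hQ := homogeneousComponent_isHomogeneous s b'
    have hs : s < r := by
      by_contra h
      obtain rfl : s = r := by omega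
      have h14 := top_mem hd hF hi (by omega) ((lt _ K _).sub_mem ((lt _ K _).sub_mem h2 (hzl c)) h11)
        (by convert h12.sub h3 using 1; ring)
      rw [map_sub] at h14
      exact h13 (by simpa using (jac F).sub_mem h7 h14)
    rcases lt_trichotomy (s + d) r with h | h | h
    · refine h13 (hk _ s hs hQ fun δ hδ => tang_mul hd hF hi h11 ⟨hδ.1, ?_⟩)
      have h14 := top_mem hd hF hi (by omega) ((lt _ K _).add_mem
        (lt_mono (by omega) (conn_lt hF h11)) (hzl (δ c))) (h8 b' h12 δ hδ)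
      rw [map_add, tw2_hc_eq_zero (conn_lt hF h11) (by omega), zero_add, map_smul,
        homogeneousComponent_of_mem hz, if_pos rfl] at h14
      simpa [hz0 _ h14] using h8 b' h12 δ hδ
    · subst h
      refine h13 (hJ ▸ hρ.mem_of_mul hQ (j := s + d + d) (by omega) fun q hq => ?_)
      obtain ⟨a, h14, h15⟩ := hz_dec hy (J := ⊥)
        (fun p hp n => by rw [Ideal.mem_bot.1 hp, map_zero]; exact Ideal.zero_mem _) (hz_of hq)
        (Ideal.mem_sup_left (hI ▸ hν.mem_ann hq (by omega)))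
      rw [sub_eq_zero.1 (Ideal.mem_bot.1 h15), Finset.mul_sum, hJ]
      refine Ideal.sum_mem _ fun i _ => ?_
      have hi' := hn i
      rw [mul_comm (a i), ← mul_assoc]
      refine hsat _ (fun δ hδ => ?_) _ (by omega) _ (hI ▸ hν.mem_ann (h14 i).1 (by omega)) (h14 i).1
      have h16 := top_mem hd hF hi (by omega) ((lt _ K _).add_mem (conn_lt hF h11) (hzl (δ c)))
        (h8 b' h12 δ hδ)
      rw [map_add, conn_top hd hF h11, map_smul, homogeneousComponent_of_mem hz, if_pos rfl] at h16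
      have h17 : z * Sum.elim x g i ∈ jac F := mem_col.1 (hc ▸ Ideal.subset_span ⟨i, rfl⟩)
      convert (jac F).sub_mem ((jac F).mul_mem_right (Sum.elim x g i) h16)
        ((jac F).mul_mem_left (C (δ c)) h17) using 1
      rw [smul_eq_C_mul]
      ring
    · refine h13 (hk _ s hs hQ fun δ hδ => ?_)
      have h14 := top_mem hd hF hi (by omega) ((lt _ K _).add_mem (conn_lt hF h11)
        (lt_mono (by omega) (hzl (δ c)))) (h8 b' h12 δ hδ)
      rwa [map_add, conn_top hd hF h11, tw2_hc_eq_zero (hzl (δ c)) (by omega), add_zero] at h14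
  refine ⟨c, h9, fun δ hδ => hz0 _ ?_⟩
  have h10 := top_mem hd hF hi (by omega) (hzl (δ c)) (by
    simpa using h8 0 (by simpa using h9) δ hδ)
  rwa [map_smul, homogeneousComponent_of_mem hz, if_pos rfl] at h10

end split

theorem generic [CharZero K] {k d : ℕ} (hk : 2 ≤ k)
    (hd : 3 ≤ d) (hkd : ¬ (k = 2 ∧ d = 3))
    {F β : Pol (k + 1 + (k + 1)) K} (hF : F.IsHomogeneous d) (hi : Isol F)
    (hβ : β ∈ lt _ K ((k + 1) * (d - 2) + 1)) (h0 : ¬ Exact F β) :
    finrank K (tangK F β) + (d + k).choose k ≤ (d + (2 * k + 1)).choose d + (k + 1) ^ 2 ∧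
      ((d + (2 * k + 1)).choose d + (k + 1) ^ 2 ≤ finrank K (tangK F β) + (d + k).choose k →
        ∃ (c : K) (x g : Fin (k + 1) → Pol (k + 1 + (k + 1)) K),
          (∀ i, (x i).IsHomogeneous 1) ∧ (∀ i, (g i).IsHomogeneous (d - 1)) ∧
          F = ∑ i, x i * g i ∧ Exact F (β - c • H48.jd (Fin.append x g)) ∧
          ∀ δ, Flt F β δ → δ c = 0) := by
  obtain ⟨e, rfl⟩ : ∃ e, d = e + 1 := ⟨d - 1, by omega⟩
  have he : 2 ≤ e := by omega
  rw [show e + 1 - 2 = e - 1 by omega] at hβ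
  obtain ⟨ρ, -, hρ, hJ⟩ := exists_soc (y := fun i => pderiv i F) (n := fun _ => e - 1)
    (fun i => by rw [show e - 1 + 1 = e + 1 - 1 by omega]; exact hF.pderiv) hi
  rw [Finset.sum_const, Finset.card_univ, Fintype.card_fin, smul_eq_mul, add_mul] at hρ
  change _ = jac F at hJ
  set σ := (k + 1) * (e - 1) with hσ
  have hdσ : e + 1 ≤ σ := by
    have : 3 * (e - 1) ≤ σ := Nat.mul_le_mul_right _ (by omega)
    omega
  obtain ⟨r, h1, b, h2, h3, h4⟩ := min_rep hF _ β hβ h0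
  have hP := homogeneousComponent_isHomogeneous r b
  obtain ⟨u, hu, h5⟩ := hρ.exists_mul hP (hJ ▸ h4) (j := σ - r) (by omega)
  have hQ := hP.mul hu
  rw [show r + (σ - r) = σ by omega] at hQ
  have hμ := hρ.sh hQ
  have hμ0 := sh_ne_zero h5
  have h6 : ∀ δ, Flt F β δ → cmap δ F ∈ ann (sh ρ (homogeneousComponent r b * u)) := fun δ hδ => by
    rw [← col_ann, hJ, mem_col, mul_comm, ← mul_assoc]
    exact Ideal.mul_mem_right _ _ (tang_mul (by omega) hF hi h2 (hδ.congr h3))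
  have h7 : jac F ≤ ann (sh ρ (homogeneousComponent r b * u)) := fun p hp => by
    rw [← col_ann, hJ]
    exact Ideal.mul_mem_left _ _ hp
  generalize sh ρ (homogeneousComponent r b * u) = μ at hμ hμ0 h6 h7
  have hb : Bpf (ann μ) e := fun i => by
    obtain ⟨M, hM⟩ := hi i
    refine ⟨M, Ideal.span_mono ?_ hM⟩
    rintro _ ⟨j, rfl⟩
    exact ⟨h7 (Ideal.subset_span ⟨j, rfl⟩), hF.pderiv⟩
  have h8 : tangK F β ≤ Sd _ K (e + 1) ⊓ (ann μ).restrictScalars K := by
    refine Submodule.span_le.2 ?_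
    rintro _ (⟨δ, hδ, rfl⟩ | ⟨i, j, rfl⟩)
    · exact ⟨cmap_isHomogeneous δ hF, h6 δ hδ⟩
    · exact ⟨add_comm 1 e ▸ (isHomogeneous_X K i).mul hF.pderiv,
        h7 (Ideal.mul_mem_left _ _ (Ideal.subset_span ⟨j, rfl⟩))⟩
  have h9 := hf_add (ann μ) (e + 1)
  have h10 : finrank K (Sd (k + 1 + (k + 1)) K (e + 1)) = (e + 1 + (2 * k + 1)).choose (e + 1) := by
    rw [Nat.choose_symm_add, show 2 * k + 1 = k + 1 + k by omega]
    exact finrank_Sd (k + 1 + k) K (e + 1)
  have h11 := Submodule.finrank_mono h8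
  by_cases h12 : k + 2 ≤ hf (ann μ) 1
  · have h13 : (e + 1 + k).choose k < hf (ann μ) (e + 1) + (k + 1) ^ 2 := by
      obtain ⟨s, rfl⟩ : ∃ s, e = s + 1 := ⟨e - 1, by omega⟩
      refine hf_strict (by omega) hk ?_ hμ hμ0 hb h12
      by_cases h13 : s = 1
      · subst h13
        omega
      · have : 3 * s ≤ (k + 1) * s := Nat.mul_le_mul_right _ (by omega)
        omega
    exact ⟨by omega, fun h => by omega⟩
  obtain ⟨⟨x, w, hl⟩, h13, h14⟩ := ci_case (by omega) hμ hμ0 hb (by omega)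
  refine ⟨by omega, fun h => ?_⟩
  have h15 := Submodule.eq_of_le_of_finrank_le h8 (by omega)
  have h16 : ∀ G ∈ ann μ, G.IsHomogeneous (e + 1) → G ∈ tangK F β := fun G hG hG' =>
    h15 ▸ ⟨hG', hG⟩
  obtain ⟨g, h17, h18, h19⟩ : ∃ g : Fin (k + 1) → Pol (k + 1 + (k + 1)) K,
      (∀ i, (g i).IsHomogeneous e) ∧ F = ∑ i, x i * g i ∧ ∀ i, g i ∈ ann μ := by
    have hS1 : ∀ E ∈ {E | ∃ δ, Flt F β δ ∧ ∃ c : Fin _ → Pol _ K,
        (∀ i, (c i).IsHomogeneous 1) ∧ E = dvf δ c},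
        Der E ∧ ∀ a, E (pderiv a F) - pderiv a (E F) ∈ ann μ := by
      rintro _ ⟨δ, hδ, c, hc, rfl⟩
      exact ⟨dvf_der hδ.1 hc, fun a => h7 (dvf_pderiv c a)⟩
    have hS2 : ∀ G ∈ ann μ, G.IsHomogeneous (e + 1) → ∃ E ∈ {E | ∃ δ, Flt F β δ ∧
        ∃ c : Fin _ → Pol _ K, (∀ i, (c i).IsHomogeneous 1) ∧ E = dvf δ c}, E F = G :=
      fun G hG hG' => by
        obtain ⟨δ, hδ, c, hc, rfl⟩ := mem_tangK (h16 G hG hG')
        exact ⟨_, ⟨δ, hδ, c, hc, rfl⟩, rfl⟩
    have hS3 : ∀ E ∈ {E | ∃ δ, Flt F β δ ∧ ∃ c : Fin _ → Pol _ K,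
        (∀ i, (c i).IsHomogeneous 1) ∧ E = dvf δ c}, ∀ E' ∈ {E | ∃ δ, Flt F β δ ∧
        ∃ c : Fin _ → Pol _ K, (∀ i, (c i).IsHomogeneous 1) ∧ E = dvf δ c},
        E (E' F) - E' (E F) ∈ ann μ := by
      rintro _ ⟨δ, hδ, c, -, rfl⟩ _ ⟨δ', hδ', c', -, rfl⟩
      simpa using Ideal.add_mem _ (h7 (dvf_bracket hδ.1 hδ'.1 c c')) (h6 _ (hδ.bracket hδ'))
    by_cases h17 : e = 2
    · subst h17
      obtain ⟨n, rfl⟩ : ∃ n, k = n + 3 := ⟨k - 3, by omega⟩
      have h17 : Conc μ (n + 4) := by simpa [hσ] using hμ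
      have h18 : ∀ j, (j + 1).choose 2 = j + j.choose 2 := fun j => by
        rw [Nat.choose_succ_succ' j 1, Nat.choose_one_right]
      refine hl.plane2B (by omega) hF h7 _ hS1 hS2 hS3 (by omega) ?_ (fun y hy hn => ?_)
        fun q hq hn => ?_
      · have h19 := col_lowerB (n := 0) h17 hb (isHomogeneous_one _ _) (fun h19 => hμ0
          (LinearMap.ext fun q => by simpa using h19 q)) 2
        rw [h18, h18, h18, show col (ann μ) 1 = ann μ from Ideal.ext fun q => by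
          rw [mem_col, one_mul]] at h19
        omega
      · have h19 := col_lowerB (m := n + 3) h17 hb hy hn 2
        rw [h18, h18] at h19
        omega
      · have h19 := col_lowerB (m := n + 2) h17 hb hq hn 1
        rw [Nat.choose_one_right] at h19
        omega
    by_cases h18 : k = 2 ∧ e = 3
    · obtain ⟨rfl, rfl⟩ := h18
      have h17 : 7 ≤ hf (ann μ) 3 := by
        have : Nat.choose (3 + 2) 2 = 10 := by decide
        omega
      exact hl.plane' (by omega) hF h7 _ hS1 hS2 hS3 (by omega) (by omega)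
        fun y hy hn => col_four (by omega) hμ hb (by omega) h17 hy hn
    by_cases h19 : k = 3 ∧ e = 3
    · obtain ⟨rfl, rfl⟩ := h19
      have h17 : Nat.choose (3 + 3) 3 = 20 := by decide
      exact hl.plane' (by omega) hF h7 _ hS1 hS2 hS3 (by omega) (by omega)
        fun y hy hn => col_seven hμ hb hy hn
    · refine hl.plane (by omega) hF h7 (fun G hG hG' => ?_) (by omega) ?_
      · obtain ⟨δ, hδ, c, hc, rfl⟩ := mem_tangK (h16 G hG hG')
        exact ⟨_, dvf_der hδ.1 hc, fun a => h7 (dvf_pderiv c a)⟩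
      · have := choose_big' hk (e := e) (by omega) (by omega)
        omega
  have h20 := col_cyc (d := e + 1) (by omega) hl.hx h17 (h18 ▸ hi)
  have h21 := cyc_homog (d := e + 1) (by omega) hl.hx h17
  rw [← h18, ← hJ, col_ann] at h20
  obtain ⟨a, ha⟩ := (hρ.sh h21).eq_smul hμ (by
    rw [h20]
    refine Ideal.span_le.2 ?_
    rintro _ ⟨i | i, rfl⟩
    · exact hl.eq ▸ Ideal.mem_sup_left (Ideal.subset_span ⟨i, rfl⟩)
    · exact h19 i)
  obtain ⟨c, h22, h23⟩ := class_step (d := e + 1) (by omega) hl.hx h17 (h18 ▸ hi) hF h18 rfl hdσ hρ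
    hJ hβ h0 fun G hG hG' => h16 G (fun q => by
      rw [ha, LinearMap.smul_apply, (h20 ▸ hG : G ∈ ann _) q, smul_zero]) hG'
  exact ⟨c, x, g, hl.hx, h17, h18, h22, h23⟩

end Pool.Agent.Lib.MP_e9c0f3_ag.MC
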