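import Pool.Agent.Lib.MP_e9c0f3_ag.MC.Ext
import Pool.Agent.Lib.MP_e9c0f3_ag.MC.Soc

/-! From a point of the base to the generic point and back. -/

open MvPolynomial Module

namespace Pool.Agent.Lib.MP_e9c0f3_ag.MC

variable {K : Type} [Field K] {N : ℕ}

variable {A L : Type} [CommRing A] [Algebra ℂ A] [Field L] {φ : A →+* L}

theorem spec_ext (s : A →ₐ[ℂ] ℂ) (f : Pol N ℂ →ₗ[ℂ] ℂ) (p : Pol N A) :
    (s : A →+* ℂ) (ext (algebraMap ℂ A) f p) = f (map (s : A →+* ℂ) p) := by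
  induction p using MvPolynomial.induction_on' with
  | monomial m a =>
    have h1 : (monomial m ((s : A →+* ℂ) a) : Pol N ℂ) = (s : A →+* ℂ) a • monomial m 1 := by
      rw [smul_monomial, smul_eq_mul, mul_one]
    rw [ext_monomial, map_monomial, map_mul, h1, map_smul, smul_eq_mul]
    congr 1
    exact s.commutes _
  | add p q hp hq => rw [map_add, map_add, map_add, map_add, hp, hq]

theorem li_generic (hφ : Function.Injective φ) (s : A →ₐ[ℂ] ℂ) {r : ℕ} (v : Fin r → Pol N A)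
    (h : LinearIndependent ℂ fun i => map (s : A →+* ℂ) (v i)) :
    LinearIndependent L fun i => map φ (v i) := by
  classical
  obtain ⟨g, hg⟩ := LinearMap.exists_leftInverse_of_injective
    (Fintype.linearCombination ℂ fun i => map (s : A →+* ℂ) (v i))
    (LinearMap.ker_eq_bot.2 (linearIndependent_iff_injective_fintypeLinearCombination.1 h))
  obtain ⟨μ, hμ⟩ : ∃ μ : Fin r → Pol N A →ₗ[A] A, ∀ j p,
      (s : A →+* ℂ) (μ j p) = g (map (s : A →+* ℂ) p) j :=
    ⟨fun j => ext (algebraMap ℂ A) (LinearMap.proj j ∘ₗ g), fun j p => spec_ext s _ p⟩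
  obtain ⟨M, hM⟩ : ∃ M : Matrix (Fin r) (Fin r) A, ∀ i j, M i j = μ j (v i) :=
    ⟨Matrix.of fun i j => μ j (v i), fun _ _ => rfl⟩
  have h1 : (s : A →+* ℂ).mapMatrix M = 1 := by
    ext i j
    have h2 := congrFun (LinearMap.congr_fun hg (Pi.single i 1)) j
    rw [LinearMap.comp_apply, Fintype.linearCombination_apply_single, one_smul] at h2
    rw [RingHom.mapMatrix_apply, Matrix.map_apply, hM, hμ, h2, LinearMap.id_apply,
      Pi.single_apply, Matrix.one_apply]
    simp only [eq_comm]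
  have h3 : (φ.mapMatrix M).det ≠ 0 := by
    rw [← RingHom.map_det]
    intro h0
    have h4 : M.det = 0 := hφ (by rw [h0, map_zero])
    have h5 := (s : A →+* ℂ).map_det M
    rw [h1, h4, map_zero, Matrix.det_one] at h5
    exact zero_ne_one h5
  rw [Fintype.linearIndependent_iff]
  intro c hc
  refine congrFun (Matrix.eq_zero_of_vecMul_eq_zero h3 (v := c) (funext fun j => ?_))
  have h6 := congrArg (ext φ (μ j)) hc
  simp only [map_sum, map_zero, map_smul, ext_map, smul_eq_mul, ← hM] at h6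
  exact h6

omit [Algebra ℂ A] in
theorem spec_span_le {R : Type} [Field R] (f : A →+* R) {n : ℕ} {S : Set (Pol N A)}
    (hS : ∀ p ∈ S, p.IsHomogeneous n) : Submodule.span R (map f '' S) ≤ Sd N R n := by
  rw [Submodule.span_le]
  rintro _ ⟨p, hp, rfl⟩
  exact (hS p hp).map f

theorem finrank_generic (hφ : Function.Injective φ) (s : A →ₐ[ℂ] ℂ) {n : ℕ} {S : Set (Pol N A)}
    (hS : ∀ p ∈ S, p.IsHomogeneous n) :
    finrank ℂ (Submodule.span ℂ (map (s : A →+* ℂ) '' S)) ≤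
      finrank L (Submodule.span L (map φ '' S)) := by
  have i1 := Submodule.finiteDimensional_of_le (spec_span_le (s : A →+* ℂ) hS)
  have i2 := Submodule.finiteDimensional_of_le (spec_span_le φ hS)
  obtain ⟨f, hf, -, hl⟩ := Submodule.exists_fun_fin_finrank_span_eq ℂ (map (s : A →+* ℂ) '' S)
  choose v hv hv' using hf
  have h1 := li_generic hφ s v (by simpa only [hv'] using hl)
  have h2 := finrank_span_eq_card h1
  rw [Fintype.card_fin] at h2
  rw [← h2]
  refine Submodule.finrank_mono (Submodule.span_mono ?_)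
  rintro _ ⟨i, rfl⟩
  exact ⟨v i, hv i, rfl⟩

theorem isol_generic (hφ : Function.Injective φ) (s : A →ₐ[ℂ] ℂ) {d : ℕ} (hd : 2 ≤ d)
    {F : Pol N A} (hF : F.IsHomogeneous d) (h : Isol (map (s : A →+* ℂ) F)) :
    Isol (map φ F) := by
  intro i
  obtain ⟨N, rfl⟩ : ∃ M, N = M + 1 := ⟨N - 1, by have := i.2; omega⟩
  have hy : ∀ a, (pderiv a (map (s : A →+* ℂ) F)).IsHomogeneous (d - 1) := fun a =>
    (hF.map _).pderiv
  obtain ⟨ρ, -, h1, h2⟩ := exists_soc (y := fun a => pderiv a (map (s : A →+* ℂ) F))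
    (n := fun _ => d - 2) (fun a => by rw [show d - 2 + 1 = d - 1 by omega]; exact hy a) h
  obtain ⟨σ, hσ⟩ : ∃ σ, σ = ∑ _a : Fin (N + 1), (d - 2) := ⟨_, rfl⟩
  rw [← hσ] at h1
  let S : Set (Pol (N + 1) A) := {p | p ∈ jac F ∧ p.IsHomogeneous (σ + 1 + (d - 1))}
  have hS : ∀ p ∈ S, p.IsHomogeneous (σ + 1 + (d - 1)) := fun p hp => hp.2
  have h3 : Sd (N + 1) ℂ (σ + 1 + (d - 1)) ≤ Submodule.span ℂ (map (s : A →+* ℂ) '' S) := by
    intro p hp
    have h4 := h1.mem_ann hp (by omega)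
    rw [h2, lid, Ideal.mem_span_range_iff_exists_fun] at h4
    obtain ⟨c, hc⟩ := h4
    have h5 := H48.hom_dec hy hp hc.symm
    simp only [if_pos (Nat.le_add_left (d - 1) (σ + 1)), Nat.add_sub_cancel] at h5
    refine Submodule.subset_span ⟨∑ a, map (algebraMap ℂ A) (homogeneousComponent (σ + 1) (c a)) *
      pderiv a F, ⟨Ideal.sum_mem _ fun a _ => Ideal.mul_mem_left _ _ (Ideal.subset_span ⟨a, rfl⟩),
        IsHomogeneous.sum _ _ _ fun a _ =>
          ((homogeneousComponent_isHomogeneous _ _).map _).mul hF.pderiv⟩, ?_⟩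
    rw [h5, map_sum]
    refine Finset.sum_congr rfl fun a _ => ?_
    rw [map_mul, map_map_algebraMap, pderiv_map]
  have i1 := Submodule.finiteDimensional_of_le (spec_span_le (s : A →+* ℂ) hS)
  have h6 := (Submodule.finrank_mono h3).trans (finrank_generic hφ s hS)
  rw [finrank_Sd, ← finrank_Sd N L] at h6
  have h7 := Submodule.eq_of_le_of_finrank_le (spec_span_le φ hS) h6
  have h8 : Submodule.span L (map φ '' S) ≤ (jac (map φ F)).restrictScalars L := by
    rw [Submodule.span_le]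
    rintro _ ⟨p, hp, rfl⟩
    obtain ⟨c, hc⟩ := Ideal.mem_span_range_iff_exists_fun.1 hp.1
    change map φ p ∈ jac (map φ F)
    rw [← hc, map_sum]
    refine Ideal.sum_mem _ fun a _ => ?_
    rw [map_mul, ← pderiv_map]
    exact Ideal.mul_mem_left _ _ (Ideal.subset_span ⟨a, rfl⟩)
  refine ⟨σ + 1 + (d - 1), h8 ?_⟩
  rw [h7]
  exact isHomogeneous_X_pow i _

theorem spec_descend {R : Type} [Field R] (c : ℂ →+* R) {F g : Pol N ℂ}
    (h : Exact (map c F) (map c g)) : Exact F g := by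
  obtain ⟨u, hu⟩ := exact_iff.1 h
  obtain ⟨B, _, ψ, i, π, q, h2, h3, h4, h5⟩ := H48.exists_retract c u
  have hB : Exact (map i F) (map i g) := by
    refine exact_iff.2 ⟨q, map_injective ψ h2 ?_⟩
    rw [map_dtw]
    simp only [h5, MvPolynomial.map_map, h3]
    exact hu
  have h7 := hB.map π
  simpa only [MvPolynomial.map_map, h4, MvPolynomial.map_id] using h7

theorem exact_special (hφ : Function.Injective φ) (s : A →ₐ[ℂ] ℂ) {d : ℕ} (hd : 2 ≤ d)
    {F g : Pol N A} (hF : F.IsHomogeneous d) (h : Isol (map (s : A →+* ℂ) F))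
    (he : Exact (map φ F) (map φ g)) : Exact (map (s : A →+* ℂ) F) (map (s : A →+* ℂ) g) := by
  obtain ⟨O, ψ, c, h1, h2⟩ := exists_valuation hφ s
  rw [← h1, ← MvPolynomial.map_map, ← MvPolynomial.map_map] at he
  have h5 : ∀ p : Pol N A, map (IsLocalRing.residue O) (map ψ p) =
      map c (map (s : A →+* ℂ) p) := fun p => by
    rw [MvPolynomial.map_map, MvPolynomial.map_map, h2]
  have h6 := (exact_of_exact_frac (L := L) hd (hF.map ψ) (by
    rw [h5]
    exact (h.map c).regAll hd ((hF.map _).map c)) he).map (IsLocalRing.residue O)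
  rw [h5, h5] at h6
  exact spec_descend c h6

theorem spec_point [IsDomain A] [Algebra.FiniteType ℂ A] {b : A} (hb : b ≠ 0) :
    ∃ s : A →ₐ[ℂ] ℂ, s b ≠ 0 := by
  have : IsJacobsonRing A := isJacobsonRing_of_finiteType (A := ℂ)
  have h1 : b ∉ (⊥ : Ideal A).jacobson := by
    rw [← Ideal.radical_eq_jacobson, Ideal.radical_bot_of_isReduced, Ideal.mem_bot]
    exact hb
  rw [Ideal.jacobson, Ideal.mem_sInf] at h1
  push Not at h1
  obtain ⟨𝔪, ⟨-, h𝔪⟩, h2⟩ := h1
  let : Field (A ⧸ 𝔪) := Ideal.Quotient.field 𝔪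
  have : Module.Finite ℂ (A ⧸ 𝔪) := finite_of_finite_type_of_isJacobsonRing ℂ (A ⧸ 𝔪)
  let ε : ℂ ≃ₐ[ℂ] A ⧸ 𝔪 := AlgEquiv.ofBijective (Algebra.ofId ℂ (A ⧸ 𝔪))
    IsAlgClosed.algebraMap_bijective_of_isIntegral
  refine ⟨(ε.symm : (A ⧸ 𝔪) →ₐ[ℂ] ℂ).comp (Ideal.Quotient.mkₐ ℂ 𝔪), fun h0 => h2 ?_⟩
  have h3 : ε.symm (Ideal.Quotient.mk 𝔪 b) = 0 := h0
  exact Ideal.Quotient.eq_zero_iff_mem.1 (ε.symm.injective (h3.trans (map_zero _).symm))

theorem const_of_der [IsDomain A] [Algebra.Smooth ℂ A] {a b : A} (hb : b ≠ 0)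
    (h : ∀ D : Derivation ℂ A A, D a * b = a * D b) : ∃ c : ℂ, a = algebraMap ℂ A c * b := by
  have : IsNoetherianRing A := Algebra.FiniteType.isNoetherianRing ℂ A
  obtain ⟨s, hs⟩ := spec_point hb
  obtain ⟨E, hE⟩ := exists_euler s
  refine ⟨s a / s b, sub_eq_zero.1 ?_⟩
  obtain ⟨a', ha'⟩ : ∃ a', a' = a - algebraMap ℂ A (s a / s b) * b := ⟨_, rfl⟩
  rw [← ha']
  have h1 : E a' * b = a' * E b := by
    rw [ha', map_sub, ← Algebra.smul_def, Derivation.map_smul, sub_mul, sub_mul, h E,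
      smul_mul_assoc, smul_mul_assoc, mul_comm (E b)]
  have h2 : ∀ n : ℕ, a' ∈ RingHom.ker s ^ (n + 1) := by
    intro n
    induction n with
    | zero =>
      rw [zero_add, pow_one, RingHom.mem_ker, ha', map_sub, map_mul, AlgHom.commutes]
      change s a - s a / s b * s b = 0
      rw [div_mul_cancel₀ _ hs, sub_self]
    | succ n ih =>
      have h3 := Ideal.mul_mem_right b _ (hE.pow (n + 1) a' ih)
      have h4 := Ideal.mul_mem_mul ih (hE.mem b)
      have h5 := Ideal.mul_mem_mul ih (jet_sub_mem s b)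
      rw [← pow_succ] at h4 h5
      have h6 := Ideal.mul_mem_left _ (algebraMap ℂ A (((n + 1 : ℕ) : ℂ) * s b)⁻¹)
        (sub_mem (sub_mem h4 h3) (Ideal.mul_mem_left _ ((n + 1 : ℕ) : A) h5))
      have h7 : algebraMap ℂ A (((n + 1 : ℕ) : ℂ) * s b)⁻¹ *
          (((n + 1 : ℕ) : A) * algebraMap ℂ A (s b)) = 1 := by
        rw [← map_natCast (algebraMap ℂ A), ← map_mul, ← map_mul, inv_mul_cancel₀, map_one]
        exact mul_ne_zero (Nat.cast_ne_zero.2 (Nat.succ_ne_zero n)) hs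
      convert h6 using 1
      linear_combination (-a') * h7 + algebraMap ℂ A (((n + 1 : ℕ) : ℂ) * s b)⁻¹ * h1
  have hbot : ⨅ n : ℕ, RingHom.ker s ^ n = ⊥ :=
    Ideal.iInf_pow_eq_bot_of_isDomain _ (RingHom.ker_ne_top s)
  rw [← Ideal.mem_bot, ← hbot, Ideal.mem_iInf]
  exact fun n => Ideal.pow_le_pow_right (Nat.le_succ n) (h2 n)

end Pool.Agent.Lib.MP_e9c0f3_ag.MC
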