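import Pool.Agent.Lib.MP_e9c0f3_ag.MC.Hodge
import Pool.Agent.Lib.MP_e9c0f3_ag.MC.Spec

/-! Assembly. -/

open MvPolynomial Module

namespace Pool.Agent.Lib.MP_e9c0f3_ag.MC

variable {K : Type} [Field K] {N : ℕ}

theorem main_has {R : Type} [CommRing R] {k d : ℕ} {c : R} {F β : H48.PS k R} :
    H48.Has d (fun _ : Fin 1 => 1) (fun _ => c) F β ↔
      ∃ x g : Fin (k + 1) → H48.PS k R, (∀ i, (x i).IsHomogeneous 1) ∧
        (∀ i, (g i).IsHomogeneous (d - 1)) ∧ F = ∑ i, x i * g i ∧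
        Exact F (β - c • H48.jd (Fin.append x g)) := by
  have h1 : ∀ (x g : Fin k → H48.PS k R) (f : Fin 1 → H48.PS k R) (r : H48.PS k R),
      H48.cmb x g f r (fun _ => c) = c • H48.jd (Fin.append (Fin.cons (f 0) x : Fin (k + 1) → _)
        (Fin.cons r g : Fin (k + 1) → _)) := fun x g f r => by
    have h2 : (Finset.univ : Finset (Fin 1)).erase 0 = ∅ := rfl
    rw [H48.cmb, Fin.sum_univ_one, H48.cyc, h2, Finset.prod_empty, one_mul]
  constructor
  · rintro ⟨x, g, f, r, hs, he⟩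
    refine ⟨Fin.cons (f 0) x, Fin.cons r g, fun i => Fin.cases (hs.hf 0) hs.hx i,
      fun i => Fin.cases (by simpa using hs.hr) hs.hg i, ?_, h1 x g f r ▸ he⟩
    rw [hs.eq, Fin.sum_univ_succ, Fin.prod_univ_one]
    exact add_comm _ _
  · rintro ⟨x, g, hx, hg, hF, he⟩
    refine ⟨Fin.tail x, Fin.tail g, fun _ => x 0, g 0, ⟨fun i => hx _, fun i => hg _,
      fun _ => hx 0, by simpa using hg 0, ?_⟩, ?_⟩
    · rw [hF, Fin.sum_univ_succ, Fin.prod_univ_one]
      exact add_comm _ _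
    · rw [h1, Fin.cons_self_tail, Fin.cons_self_tail]
      exact he

theorem main_hom {R : Type} [CommRing R] {F : Pol N R} {d : ℕ} (hd : 1 ≤ d)
    (hF : F.IsHomogeneous d) (i j : Fin N) : (X i * pderiv j F).IsHomogeneous d := by
  have h := (isHomogeneous_X R i).mul (hF.pderiv (i := j))
  rwa [Nat.add_sub_cancel' hd] at h

theorem main_flt {A : Type} [CommRing A] [IsDomain A] [Algebra ℂ A] [Algebra A K]
    [IsFractionRing A K] {F β : Pol N A} (D : Derivation ℂ A A)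
    (h : Exact F (coeffMap D β + coeffMap D F * β)) :
    ∃ δ : K →+ K, Flt (map (algebraMap A K) F) (map (algebraMap A K) β) δ ∧
      (∀ a, δ (algebraMap A K a) = algebraMap A K (D a)) ∧
      ∀ p : Pol N A, map (algebraMap A K) (coeffMap D p) = cmap δ (map (algebraMap A K) p) := by
  obtain ⟨δ, h1, h2⟩ := exists_der_frac (L := K) (D : A →+ A) fun a b => by
    change D (a * b) = D a * b + a * D b
    rw [Derivation.leibniz, smul_eq_mul, smul_eq_mul]
    ring
  have h3 : ∀ p : Pol N A,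
      map (algebraMap A K) (coeffMap D p) = cmap δ (map (algebraMap A K) p) := fun p => by
    ext m
    rw [coeff_map, coeff_coeffMap (map_zero D), coeff_cmap, coeff_map, h2]
    rfl
  refine ⟨δ, ⟨h1, ?_⟩, h2, h3⟩
  have h4 := h.map (algebraMap A K)
  rwa [map_add, map_mul, h3, h3] at h4

theorem main (k d : ℕ) (hk : 2 ≤ k) (hd : 3 ≤ d) (hkd : ¬ (k = 2 ∧ d = 3))
    (A : Type) [CommRing A] [IsDomain A] [Algebra ℂ A] [Algebra.Smooth ℂ A]
    (F β : MvPolynomial (Fin (k + 1 + (k + 1))) A) (hF : F.IsHomogeneous d)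
    (hs : ∀ (s : A →ₐ[ℂ] ℂ) (z : Fin (k + 1 + (k + 1)) → ℂ),
      (∀ i, eval z (pderiv i (map (s : A →+* ℂ) F)) = 0) → z = 0)
    (hβ : β.totalDegree ≤ (k + 1) * (d - 2))
    (hflat : ∀ D : Derivation ℂ A A, Exact F (coeffMap D β + coeffMap D F * β))
    (s₀ : A →ₐ[ℂ] ℂ) (h0 : ¬ Exact (map (s₀ : A →+* ℂ) F) (map (s₀ : A →+* ℂ) β)) :
    finrank ℂ (tang F s₀) + (d + k).choose k ≤ (d + (2 * k + 1)).choose d + (k + 1) ^ 2 ∧
      (finrank ℂ (tang F s₀) + (d + k).choose k = (d + (2 * k + 1)).choose d + (k + 1) ^ 2 →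
        ∃ c : ℂ, ∀ s : A →ₐ[ℂ] ℂ, ∃ x g : Fin (k + 1) → MvPolynomial (Fin (k + 1 + (k + 1))) ℂ,
          (∀ i, (x i).IsHomogeneous 1) ∧ (∀ i, (g i).IsHomogeneous (d - 1)) ∧
          map (s : A →+* ℂ) F = ∑ i, x i * g i ∧
          Exact (map (s : A →+* ℂ) F) (map (s : A →+* ℂ) β - c • H48.jd (Fin.append x g))) := by
  have hφ : Function.Injective (algebraMap A (FractionRing A)) := IsFractionRing.injective _ _
  have : CharZero (FractionRing A) :=
    ((algebraMap A (FractionRing A)).comp (algebraMap ℂ A)).charZero_iff (RingHom.injective _) |>.1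
      inferInstance
  have i0 := isol_of_smooth (hs s₀)
  obtain ⟨g1, g2⟩ := generic hk hd hkd (hF.map (algebraMap A (FractionRing A)))
    (isol_generic hφ s₀ (by omega) hF i0)
    (map_mem_lt _ (mem_lt_of_totalDegree (Nat.lt_succ_of_le hβ)))
    fun h => h0 (exact_special hφ s₀ (by omega) hF i0 h)
  choose δ hδ hδa hδp using fun D => main_flt (K := FractionRing A) D (hflat D)
  have h1 : finrank ℂ (tang F s₀) ≤ finrank (FractionRing A)
      (tangK (map (algebraMap A (FractionRing A)) F) (map (algebraMap A (FractionRing A)) β)) := by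
    let S : Set (Pol (k + 1 + (k + 1)) A) :=
      {p | ∃ D : Derivation ℂ A A, p = coeffMap D F} ∪ {p | ∃ i j, p = X i * pderiv j F}
    have hS : ∀ p ∈ S, p.IsHomogeneous d := by
      rintro _ (⟨D, rfl⟩ | ⟨i, j, rfl⟩)
      · exact cmap_isHomogeneous (D : A →+ A) hF
      · exact main_hom (by omega) hF i j
    have h2 : tang F s₀ ≤ Submodule.span ℂ (map (s₀ : A →+* ℂ) '' S) := by
      refine Submodule.span_mono ?_
      rintro _ (⟨D, rfl⟩ | ⟨i, j, rfl⟩)
      · exact ⟨_, Or.inl ⟨D, rfl⟩, rfl⟩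
      · exact ⟨_, Or.inr ⟨i, j, rfl⟩, by rw [map_mul, map_X, pderiv_map]⟩
    have h3 : tangK (map (algebraMap A (FractionRing A)) F)
        (map (algebraMap A (FractionRing A)) β) ≤ Sd _ _ d := by
      refine Submodule.span_le.2 ?_
      rintro _ (⟨D, -, rfl⟩ | ⟨i, j, rfl⟩)
      · exact cmap_isHomogeneous D (hF.map _)
      · exact main_hom (by omega) (hF.map _) i j
    have i1 := Submodule.finiteDimensional_of_le h3
    have i2 := Submodule.finiteDimensional_of_le (spec_span_le (s₀ : A →+* ℂ) hS)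
    refine (Submodule.finrank_mono h2).trans ((finrank_generic hφ s₀ hS).trans
      (Submodule.finrank_mono (Submodule.span_mono ?_)))
    rintro _ ⟨_, ⟨D, rfl⟩ | ⟨i, j, rfl⟩, rfl⟩
    · exact Or.inl ⟨δ D, hδ D, hδp D F⟩
    · exact Or.inr ⟨i, j, by rw [map_mul, map_X, pderiv_map]⟩
  refine ⟨by omega, fun he => ?_⟩
  obtain ⟨c, x, g, hx, hg, h4, h5, h6⟩ := g2 (by omega)
  obtain ⟨⟨a, b, hb⟩, hc⟩ := IsLocalization.surj (nonZeroDivisors A) c
  have hb0 : b ≠ 0 := nonZeroDivisors.ne_zero hb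
  obtain ⟨c₀, h7⟩ := const_of_der (a := a) hb0 fun D => hφ (by
    have h8 := congrArg (δ D) hc
    rw [(hδ D).1, h6 _ (hδ D), zero_mul, zero_add, hδa, hδa] at h8
    rw [map_mul, map_mul, ← h8, ← hc]
    ring)
  have h9 : c = algebraMap A (FractionRing A) (algebraMap ℂ A c₀) := by
    refine mul_right_cancel₀ ((map_ne_zero_iff _ hφ).2 hb0) ?_
    rw [← map_mul, ← h7]
    exact hc
  rw [h9] at h5
  exact ⟨c₀, fun s => main_has.1 (H48.Has.specialize (α := fun _ => c₀) (by simp; omega) hφ hF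
    (main_has.2 ⟨x, g, hx, hg, h4, h5⟩) s (isol_of_smooth (hs s)))⟩

end Pool.Agent.Lib.MP_e9c0f3_ag.MC
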