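import Pool.Agent.Lib.MP_e9c0f3_ag.MC.Plane

/-! The strict bound in degree `e + 1`. -/

open MvPolynomial Module

namespace Pool.Agent.Lib.MP_e9c0f3_ag.MC

variable {K : Type} [Field K] {N : ℕ}

section aux

variable {μ : Pol N K →ₗ[K] K} {I : Ideal (Pol N K)} {p : Pol N K} {σ e c t : ℕ}

theorem num_le_sh : ann μ ≤ ann (sh μ p) := fun a ha b => by
  rw [sh_apply, mul_left_comm]
  exact ha _

theorem num_es (h : Conc μ σ) (hp : p.IsHomogeneous 1) (n : ℕ) :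
    hf (ann μ) (n + 1) = hf (ann μ ⊔ Ideal.span {p}) (n + 1) + hf (ann (sh μ p)) n := by
  rw [hf_es h.hg hp n, col_ann]

theorem num_diff (h : Conc μ σ) (hp : p.IsHomogeneous 1) {i j : ℕ} (hij : i + j + 1 = σ) :
    hf (ann μ) (i + 1) + hf (ann μ ⊔ Ideal.span {p}) (j + 1) =
      hf (ann μ) i + hf (ann μ ⊔ Ideal.span {p}) (i + 1) := by
  subst hij
  have h1 := num_es h hp i
  have h2 := num_es h hp j
  have h3 : hf (ann (sh μ p)) i = hf (ann (sh μ p)) j := (h.sh hp).hf_sym rfl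
  have h4 : hf (ann μ) i = hf (ann μ) (j + 1) := h.hf_sym (by omega)
  omega

theorem num_incr (h : Conc μ σ) (hp : p.IsHomogeneous 1) {T : ℕ}
    (h0 : ∀ n, T ≤ n → hf (ann μ ⊔ Ideal.span {p}) n = 0) {a : ℕ} (b : ℕ) (h1 : a + b ≤ σ)
    (h2 : a + b + T ≤ σ + 1) : hf (ann μ) a ≤ hf (ann μ) (a + b) := by
  induction b with
  | zero => exact le_rfl
  | succ b ih =>
    have h3 := num_diff h hp (i := a + b) (j := σ - (a + b) - 1) (by omega)
    have h4 := h0 (σ - (a + b) - 1 + 1) (by omega)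
    have h5 := ih (by omega) (by omega)
    rw [← add_assoc]
    omega

theorem num_top (h : Conc μ σ) (h0 : μ ≠ 0) (hb : Bpf (ann μ) e) {l : Fin c → Pol N K}
    (hl : ∀ j, (l j).IsHomogeneous 1) (hc : c ≤ N) (ht : t + 1 ≤ e) (hσ : c * (e - 1) + t ≤ σ) :
    hf (ann μ ⊔ lid l) t ≠ 0 := fun hz => h.hf_top h0 (thmA h.hg hb hl hc ht hz hσ)

theorem num_tail (I : Ideal (Pol N K)) (l : Fin (c + 1) → Pol N K) :
    I ⊔ lid l = (I ⊔ Ideal.span {l 0}) ⊔ lid (Fin.tail l) := by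
  rw [lid_succ, sup_assoc]

theorem num_vanish {l : Fin (c + 1) → Pol N K} (hg : Gen I l) (hb : Bpf I e) (hc : c ≤ N)
    (ht : t + 1 ≤ e) (hz : hf (I ⊔ lid l) t = 0) (n : ℕ) (hn : c * (e - 1) + t ≤ n) :
    hf (I ⊔ Ideal.span {l 0}) n = 0 := by
  rw [num_tail] at hz
  exact thmA hg.tail.hg (hb.mono le_sup_left) hg.tail.lin hc ht hz hn

theorem num_ne_zero {n : ℕ} (h : hf (ann μ) n ≠ 0) : μ ≠ 0 := by
  rintro rfl
  exact h (hf_eq_zero.2 fun _ _ _ => rfl)

theorem num_iter (hp : p.IsHomogeneous 1) {T : ℕ} (r : ℕ) (h : Conc μ (σ + r))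
    (h0 : ∀ n, T ≤ n → hf (ann μ ⊔ Ideal.span {p}) n = 0) :
    ∃ ν : Pol N K →ₗ[K] K, Conc ν σ ∧ ann μ ≤ ann ν ∧
      (∀ n, hf (ann ν) n ≤ hf (ann μ) (n + r)) ∧
      ∀ n, T ≤ n + 1 → hf (ann ν) n = hf (ann μ) (n + r) := by
  induction r generalizing μ with
  | zero => exact ⟨μ, h, le_rfl, fun _ => le_rfl, fun _ _ => rfl⟩
  | succ r ih =>
    have h1 : Conc (sh μ p) (σ + r) := Conc.sh (n := 1) h hp
    have h2 : ∀ n, T ≤ n → hf (ann (sh μ p) ⊔ Ideal.span {p}) n = 0 := fun n hn => by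
      have h3 : hf (ann (sh μ p) ⊔ Ideal.span {p}) n ≤ hf (ann μ ⊔ Ideal.span {p}) n :=
        hf_mono fun q _ hq => sup_le_sup_right num_le_sh _ hq
      have := h0 n hn
      omega
    obtain ⟨ν, hν, hle, ha, hb⟩ := ih h1 h2
    refine ⟨ν, hν, num_le_sh.trans hle, fun n => ?_, fun n hn => ?_⟩
    · have h3 := num_es h hp (n + r)
      have h4 := ha n
      rw [← add_assoc]
      omega
    · have h3 := num_es h hp (n + r)
      have h4 := hb n hn
      have h5 := h0 (n + r + 1) (by omega)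
      rw [← add_assoc]
      omega

theorem num_choose_two (n : ℕ) : 2 * (n + 1).choose 2 = (n + 1) * n := by
  induction n with
  | zero => rfl
  | succ n ih =>
    rw [Nat.choose_succ_succ' (n + 1) 1, Nat.choose_one_right, mul_add, ih]
    ring

theorem num_sum (n : ℕ) : 2 * ∑ i ∈ Finset.range n, (i + 1) = (n + 1) * n := by
  induction n with
  | zero => rfl
  | succ n ih =>
    rw [Finset.sum_range_succ, mul_add, ih]
    ring

theorem num_ratio {k t : ℕ} (h : 12 * k ≤ t + 1) :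
    12 * (t + 1 + k).choose k ≤ 13 * (t + k).choose k := by
  have h1 := Nat.choose_mul_succ_eq (t + k) k
  have h2 : t + k + 1 - k = t + 1 := by omega
  have h3 : t + k + 1 = t + 1 + k := by omega
  rw [h2, h3] at h1
  refine Nat.le_of_mul_le_mul_right (c := t + 1) ?_ (by omega)
  calc 12 * (t + 1 + k).choose k * (t + 1) = (t + k).choose k * (12 * (t + 1 + k)) := by
        rw [mul_assoc, ← h1]; ring
    _ ≤ (t + k).choose k * (13 * (t + 1)) := Nat.mul_le_mul_left _ (by omega)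
    _ = 13 * (t + k).choose k * (t + 1) := by ring

theorem num_double {k t : ℕ} (h : 12 * k ≤ t + 1) :
    (t + 8 + k).choose k ≤ 2 * (t + k).choose k := by
  have h0 := num_ratio (k := k) (t := t) h
  have h1 : 12 * (t + 2 + k).choose k ≤ _ := num_ratio (k := k) (t := t + 1) (by omega)
  have h2 : 12 * (t + 3 + k).choose k ≤ _ := num_ratio (k := k) (t := t + 2) (by omega)
  have h3 : 12 * (t + 4 + k).choose k ≤ _ := num_ratio (k := k) (t := t + 3) (by omega)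
  have h4 : 12 * (t + 5 + k).choose k ≤ _ := num_ratio (k := k) (t := t + 4) (by omega)
  have h5 : 12 * (t + 6 + k).choose k ≤ _ := num_ratio (k := k) (t := t + 5) (by omega)
  have h6 : 12 * (t + 7 + k).choose k ≤ _ := num_ratio (k := k) (t := t + 6) (by omega)
  have h7 : 12 * (t + 8 + k).choose k ≤ _ := num_ratio (k := k) (t := t + 7) (by omega)
  omega

variable [CharZero K]

/-- Two copies of the bound when there are at least `c + 2` independent linear forms. -/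
theorem num_two (h : Conc μ σ) {l : Fin c → Pol N K} (hg : Gen (ann μ) l)
    (h1 : c + 2 ≤ hf (ann μ) 1) (h2 : hf (ann μ ⊔ lid l) (t + 2) ≠ 0) {Q : ℕ}
    (hQ : Q ≤ (t + c).choose c)
    (hp : ∀ p : Pol N K, p.IsHomogeneous 1 → p ∉ ann μ → Q ≤ hf (ann (sh μ p)) t) :
    (t + 1 + c).choose c + Q ≤ hf (ann μ) (t + 1) := by
  rcases le_or_gt 2 (hf (ann μ ⊔ lid l) (t + 1)) with h3 | h3
  · have := hg.lb2 h3
    omega
  · obtain ⟨p, hp1, hp2, hp3⟩ := hg.plane (t := t + 1) (by omega) (by omega) h2 h1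
    have h4 := num_es h hp1 t
    have h5 := hp3 (t + 1) (by omega)
    have h6 := hp p hp1 hp2
    omega

theorem num_mid {k a b : ℕ} (hN : k + 1 ≤ N) (h : Conc μ σ) (h0 : μ ≠ 0) (hb : Bpf (ann μ) e)
    (ht : a + b + 1 ≤ e) (h1 : (k + 1) * (e - 1) + a ≤ σ)
    (h2 : k * (e - 1) + 2 * (a + b) ≤ σ + 1) (h3 : a + b ≤ σ) :
    (a + (k + 1)).choose (k + 1) ≤ hf (ann μ) (a + b) := by
  obtain ⟨L, _, _, ν, l, hν, hν0, hνb, hg, he⟩ := exists_gen h h0 hb (k + 1)
  rw [← he]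
  by_cases hz : hf (ann ν ⊔ lid l) (a + b) = 0
  · exact (lbg hν hν0 hνb hN (by omega) h1).trans
      (num_incr hν (hg.lin 0) (num_vanish hg hνb (by omega) ht hz) b h3 (by omega))
  · exact (Nat.choose_le_choose _ (by omega)).trans (hg.lb hz)

theorem num_low {k a : ℕ} (hN : k + 1 ≤ N) (h : Conc μ (k * (a + 6) + 2 * a + 8)) (h0 : μ ≠ 0)
    (hb : Bpf (ann μ) (a + 7)) (h1 : k + 1 + 2 ≤ hf (ann μ) 1) :
    2 * (a + (k + 1)).choose (k + 1) ≤ hf (ann μ) (a + 4) := by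
  obtain ⟨L, _, _, ν, l, hν, hν0, hνb, hg, he⟩ := exists_gen h h0 hb (k + 1)
  rw [← he] at h1 ⊢
  have hm : (k + 1) * (a + 7 - 1) = k * (a + 6) + (a + 6) := Nat.succ_mul _ _
  have hm' : k * (a + 7 - 1) = k * (a + 6) := rfl
  have hsh : ∀ p : Pol N L, p.IsHomogeneous 1 → Conc (sh ν p) (k * (a + 6) + 2 * a + 7) :=
    fun p hp => Conc.sh (n := 1) hν hp
  have m1 : (a + (k + 1)).choose (k + 1) ≤ (a + 1 + (k + 1)).choose (k + 1) :=
    Nat.choose_le_choose _ (by omega)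
  by_cases hz : hf (ann ν ⊔ lid l) (a + 5) = 0
  · have h2 : hf (ann ν ⊔ lid l) (a + 2) ≠ 0 :=
      num_top hν hν0 hνb hg.lin hN (by omega) (by omega)
    have h3 := num_two hν hg h1 h2 le_rfl fun p hp hn =>
      lbg (hsh p hp) (sh_ne_zero hn) (hνb.mono num_le_sh) hN (by omega) (by omega)
    have h4 : hf (ann ν) (a + 1) ≤ hf (ann ν) (a + 4) :=
      num_incr hν (hg.lin 0) (num_vanish hg hνb (by omega) (by omega) hz) 3 (by omega) (by omega)
    omega
  · have h3 := num_two (t := a + 3) (Q := (a + 1 + (k + 1)).choose (k + 1)) hν hg h1 hz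
      (Nat.choose_le_choose _ (by omega)) fun p hp hn =>
        num_mid (b := 2) hN (hsh p hp) (sh_ne_zero hn) (hνb.mono num_le_sh) (by omega) (by omega)
          (by omega) (by omega)
    have m2 : (a + (k + 1)).choose (k + 1) ≤ (a + 3 + 1 + (k + 1)).choose (k + 1) :=
      Nat.choose_le_choose _ (by omega)
    have h4 : hf (ann ν) (a + 3 + 1) = hf (ann ν) (a + 4) := rfl
    omega

/-- The case of a long first quotient. -/
theorem num_long {a : ℕ} (hN : 1 ≤ N) {l : Fin (c + 1) → Pol N K} (hg : Gen I l)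
    (hb : Bpf I (a + 3)) (hz : hf (I ⊔ Ideal.span {l 0}) (2 * a + 4) ≠ 0) :
    (a + 4) * (a + 3) + 2 * (2 * a + 3) ≤ 2 * hf I (a + 4) := by
  obtain ⟨ν, hν0, hν, hle⟩ := exists_conc hg.tail.hg hz
  have hνb : Bpf (ann ν) (a + 3) := hb.mono (le_sup_left.trans hle)
  have h1 := hf_sum hg.hg (hg.lin 0) (fun x => by
    obtain ⟨E, e1, e2, e3, -⟩ := hg.der 0 x
    exact ⟨E, e1, e2, e3⟩) (a + 4)
  have h2 : ∑ j ∈ Finset.range (a + 5), hf (ann ν) (a + 5 - 1 - j) ≤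
      ∑ j ∈ Finset.range (a + 4 + 1), hf (lev (I ⊔ Ideal.span {l 0}) j) (a + 4 - j) := by
    refine Finset.sum_le_sum fun j hj => hf_mono fun q hq hm => ?_
    have hj' := Finset.mem_range.1 hj
    by_contra hn
    obtain ⟨u, hu, hqu⟩ := hν.exists_mul hq hn (j := j) (by omega)
    exact hqu (hle (mem_lev.1 hm u hu))
  rw [Finset.sum_range_reflect (fun i => hf (ann ν) i), Finset.sum_range_succ,
    Finset.sum_range_succ] at h2
  have h3 : ∀ i, i ≤ a + 2 → i + 1 ≤ hf (ann ν) i := fun i hi => by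
    have := lbg (c := 1) (t := i) hν hν0 hνb hN (by omega) (by omega)
    rwa [Nat.choose_one_right] at this
  have h4 : ∑ i ∈ Finset.range (a + 3), (i + 1) ≤ ∑ i ∈ Finset.range (a + 3), hf (ann ν) i :=
    Finset.sum_le_sum fun i hi => h3 i (by have := Finset.mem_range.1 hi; omega)
  have h5 := num_sum (a + 3)
  have h6 : hf (ann ν) (a + 3) = hf (ann ν) (a + 1) := hν.hf_sym (by omega)
  have h7 : hf (ann ν) (a + 4) = hf (ann ν) a := hν.hf_sym (by omega)
  have h8 := h3 (a + 1) (by omega)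
  have h9 := h3 a (by omega)
  have h10 : (a + 3 + 1) * (a + 3) = (a + 4) * (a + 3) := rfl
  have h11 : hf (ann ν) (a + 3 + 1) = hf (ann ν) (a + 4) := rfl
  omega

end aux

variable [CharZero K] {μ : Pol N K →ₗ[K] K} {e : ℕ}

theorem hf_big_two (hN : 2 ≤ N) (he : 3 ≤ e) (h : Conc μ (3 * (e - 1))) (h0 : μ ≠ 0)
    (hb : Bpf (ann μ) e) (h1 : 4 ≤ hf (ann μ) 1) :
    (e + 1 + 2).choose 2 < hf (ann μ) (e + 1) + 9 := by
  obtain ⟨a, rfl⟩ : ∃ a, e = a + 3 := ⟨e - 3, by omega⟩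
  have h' : Conc μ (3 * a + 6) := h
  obtain ⟨L, _, _, ν, l, hν, hν0, hνb, hg, he'⟩ := exists_gen h' h0 hb 2
  rw [← he'] at h1 ⊢
  show (a + 5 + 1).choose 2 < hf (ann ν) (a + 4) + 9
  have c1 := num_choose_two (a + 5)
  by_cases hz : hf (ann ν ⊔ Ideal.span {l 0}) (2 * a + 4) = 0
  swap
  · have := num_long (by omega) hg hνb hz
    nlinarith
  by_cases hD : hf (ann ν ⊔ lid l) (a + 4) = 0
  swap
  · have : (a + 5 + 1).choose 2 ≤ _ := hg.lb hD
    omega
  have hlid : lid (Fin.tail l) = Ideal.span {Fin.tail l 0} := by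
    rw [lid, Set.range_unique]; rfl
  have hdec : ∀ b, hf (ann ν ⊔ Ideal.span {l 0}) (a + 3 + b) ≤
      hf (ann ν ⊔ Ideal.span {l 0}) (a + 3) := by
    intro b
    induction b with
    | zero => exact le_rfl
    | succ b ih =>
      refine le_trans (hf_surj (n := a + 3 + b) hg.tail.hg (hg.tail.lin 0) ?_) ih
      rw [← hlid, ← num_tail]
      exact hf_zero_of_le hD (by omega)
  have d1 := num_diff hν (hg.lin 0) (i := a + 3) (j := 2 * a + 2) (by omega)
  have d2 := num_diff hν (hg.lin 0) (i := a + 2) (j := 2 * a + 3) (by omega)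
  have d3 := num_diff hν (hg.lin 0) (i := a + 1) (j := 2 * a + 4) (by omega)
  have d4 := hdec a
  have d5 := hf_zero_succ hz
  have hD2 : hf (ann ν ⊔ lid l) (a + 2) ≠ 0 :=
    num_top hν hν0 hνb hg.lin hN (by omega) (by omega)
  have d6 : a + 2 + 1 ≤ hf (ann ν ⊔ Ideal.span {l 0}) (a + 2) := by
    have := hg.tail.lb (t := a + 2) (by rw [← num_tail]; exact hD2)
    rwa [Nat.choose_one_right] at this
  have d7 : (a + 2 + 1).choose 2 + (a + 1 + 1).choose 2 ≤ hf (ann ν) (a + 1) :=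
    num_two hν hg h1 hD2 le_rfl fun p hp hn =>
      lbg (σ := 3 * a + 5) (Conc.sh (n := 1) hν hp) (sh_ne_zero hn) (hνb.mono num_le_sh) hN
        (by omega) (by omega)
  have c2 := num_choose_two (a + 2)
  have c3 := num_choose_two (a + 1)
  have e1 : a + 3 + a = 2 * a + 2 + 1 := by omega
  rw [e1] at d4
  have hfin : hf (ann ν) (a + 1) + (a + 3) ≤ hf (ann ν) (a + 4) := by
    simp only [add_assoc, Nat.reduceAdd] at d1 d2 d3 d4 d5 d6 hz
    omega
  nlinarith [sq_nonneg ((a : ℤ) - 1), Nat.zero_le (a * a), Nat.le_mul_self a]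

theorem hf_big_any {k : ℕ} (hk : 1 ≤ k) (hN : k ≤ N) (he : 12 * k + 6 ≤ e)
    (h : Conc μ ((k + 1) * (e - 1))) (h0 : μ ≠ 0) (hb : Bpf (ann μ) e)
    (h1 : k + 2 ≤ hf (ann μ) 1) : (e + 1 + k).choose k ≤ hf (ann μ) (e + 1) := by
  obtain ⟨a, rfl⟩ : ∃ a, e = a + 7 := ⟨e - 7, by omega⟩
  obtain ⟨k, rfl⟩ : ∃ k', k = k' + 1 := ⟨k - 1, by omega⟩
  have hs : (k + 1 + 1) * (a + 7 - 1) = k * (a + 6) + 2 * a + 8 + 4 := by
    show (k + 1 + 1) * (a + 6) = _
    ring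
  rw [hs] at h
  obtain ⟨L, _, _, ν, l, hν, hν0, hνb, hg, he'⟩ := exists_gen h h0 hb (k + 1)
  rw [← he'] at h1 ⊢
  by_cases hD : hf (ann ν ⊔ lid l) (a + 7 + 1) = 0
  swap
  · exact hg.lb hD
  have hv := num_vanish hg hνb.succ.succ (by omega) le_rfl hD
  obtain ⟨ρ, hρ, hle, ha, hb'⟩ := num_iter (hg.lin 0) 4 hν hv
  have hm : k * (a + 7 + 1 + 1 - 1) = k * (a + 6) + 2 * k := by
    show k * (a + 8) = _
    ring
  have h2 := hb' (k * (a + 6) + 2 * a + 7) (by omega)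
  have h3 : hf (ann ρ) 1 = hf (ann ρ) (k * (a + 6) + 2 * a + 7) := hρ.hf_sym (by omega)
  have h4 : hf (ann ν) 1 = hf (ann ν) (k * (a + 6) + 2 * a + 7 + 4) := hν.hf_sym (by omega)
  have h5 : k + 1 + 2 ≤ hf (ann ρ) 1 := by omega
  have h6 := num_low hN hρ (num_ne_zero (n := 1) (by omega)) (hνb.mono hle) h5
  have h7 : hf (ann ρ) (a + 4) ≤ hf (ann ν) (a + 7 + 1) := ha (a + 4)
  have h8 : (a + 7 + 1 + (k + 1)).choose (k + 1) ≤ _ := num_double (k := k + 1) (t := a) (by omega)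
  omega

end Pool.Agent.Lib.MP_e9c0f3_ag.MC
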