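import Pool.Agent.Lib.MP_e9c0f3_ag.MC.ThmA
import Pool.Agent.Lib.MP_e9c0f3_ag.MC.PX

/-! The linear space lies in the hypersurface: the argument with brackets. -/

open MvPolynomial Module

namespace Pool.Agent.Lib.MP_e9c0f3_ag.MC

variable {K : Type} [Field K] {N : ℕ}

/-- A bound for the Hilbert function of a colon ideal. -/
theorem p4_col {I : Ideal (Pol N K)} {y : Pol N K} {n r : ℕ} (u : Fin r → Pol N K)
    (h : ∀ p : Pol N K, p.IsHomogeneous n → ∃ c : Fin r → K, y * p - ∑ k, c k • u k ∈ I) :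
    hf (col I y) n ≤ r := by
  let π : Pol N K →ₗ[K] Pol N K ⧸ I := (Ideal.Quotient.mkₐ K I).toLinearMap
  have hπ : ∀ p, π p = 0 ↔ p ∈ I := fun p => Ideal.Quotient.eq_zero_iff_mem
  have h1 := base_rank (π ∘ₗ LinearMap.mulLeft K y) (Sd N K n)
  have h2 := hf_add (col I y) n
  have e : LinearMap.ker (π ∘ₗ LinearMap.mulLeft K y) = (col I y).restrictScalars K := by
    ext q
    exact hπ _
  rw [e] at h1
  have : Module.Finite K (Submodule.span K (Set.range fun k => π (u k))) :=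
    Module.Finite.span_of_finite K (Set.finite_range _)
  have h3 : (Sd N K n).map (π ∘ₗ LinearMap.mulLeft K y) ≤
      Submodule.span K (Set.range fun k => π (u k)) := by
    rintro _ ⟨p, hp, rfl⟩
    obtain ⟨c, hc⟩ := h p hp
    have h4 := (hπ _).2 hc
    rw [map_sub, sub_eq_zero, map_sum] at h4
    change π (y * p) ∈ _
    rw [h4]
    refine Submodule.sum_mem _ fun k _ => ?_
    rw [map_smul]
    exact Submodule.smul_mem _ _ (Submodule.subset_span ⟨k, rfl⟩)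
  have h5 := (Submodule.finrank_mono h3).trans
    ((finrank_range_le_card _).trans (Fintype.card_fin r).le)
  omega

variable [CharZero K]

theorem Lin.plane' {m e : ℕ} {I : Ideal (Pol (m + m) K)} {x w : Fin m → Pol (m + m) K}
    (h : Lin I e x w) (he : 1 ≤ e) {F : Pol (m + m) K} (hF : F.IsHomogeneous (e + 1))
    (hJ : jac F ≤ I) (S : Set (Pol (m + m) K →+ Pol (m + m) K))
    (hD : ∀ E ∈ S, Der E ∧ ∀ a, E (pderiv a F) - pderiv a (E F) ∈ I)
    (hs : ∀ G ∈ I, G.IsHomogeneous (e + 1) → ∃ E ∈ S, E F = G)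
    (hbr : ∀ E ∈ S, ∀ E' ∈ S, E (E' F) - E' (E F) ∈ I) (h1 : hf I 1 ≤ m) (h2 : hf I e ≠ 0)
    (hy : ∀ y : Pol (m + m) K, y.IsHomogeneous 1 → y ∉ I → m < hf (col I y) e) :
    ∃ g : Fin m → Pol (m + m) K, (∀ i, (g i).IsHomogeneous e) ∧
      F = ∑ i, x i * g i ∧ ∀ i, g i ∈ I := by
  refine h.split hF hJ (h.euler hF fun v hv => h.ker he hF hJ (fun u hu j => ?_) hv)
  by_contra hj
  refine h2 (hf_eq_zero.2 fun p hp => ?_)
  have hxI : ∀ i, x i ∈ I := fun i => h.le (px_x_mem x i)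
  have hG : ∀ i, ∀ a : Pol (m + m) K, a.IsHomogeneous e → ∃ E ∈ S, E F = x i * a := by
    intro i a ha
    refine hs _ (I.mul_mem_right _ (hxI i)) ?_
    rw [add_comm e 1]
    exact (h.hx i).mul ha
  obtain ⟨E, hE, hEF⟩ := hG j p hp
  obtain ⟨hd, hI⟩ := hD E hE
  obtain ⟨y, -, hyy⟩ := exists_span_of_hf_le h1
  have hx : ∀ i, E (x i) ∈ I := by
    intro i
    by_contra hn
    refine absurd (p4_col (fun k => y k * p) fun a ha => ?_)
      (not_le.2 (hy _ (hd.homog 1 _ (h.hx i)) hn))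
    obtain ⟨E', hE', hEF'⟩ := hG i a ha
    have hd' := (hD E' hE').1
    obtain ⟨c, hc⟩ := hyy (E' (x j)) (hd'.homog 1 _ (h.hx j))
    refine ⟨c, ?_⟩
    have h3 := hbr E hE E' hE'
    rw [hEF, hEF', hd.leib, hd'.leib] at h3
    have e1 : ∑ k, c k • (y k * p) = (∑ k, c k • y k) * p := by
      simp only [Finset.sum_mul, smul_mul_assoc]
    have h4 := I.add_mem (I.add_mem (I.sub_mem h3 (I.mul_mem_right (E a) (hxI i)))
      (I.mul_mem_right (E' p) (hxI j))) (I.mul_mem_right p hc)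
    rw [e1]
    convert h4 using 1
    ring
  obtain ⟨q, hq⟩ := px_mem_lid.1 hu
  have hc := px_const (pxd_homog (n := 0) (h.hx j) u)
  set c := coeff 0 (pxd (x j) u)
  have hc0 : c ≠ 0 := fun e0 => hj (by rw [hc, e0, map_zero])
  have h3 : E (pxd F u) - pxd (x j * p) u ∈ I := by
    rw [pxd_apply, pxd_apply, map_sum, ← Finset.sum_sub_distrib]
    refine I.sum_mem fun a _ => ?_
    rw [smul_eq_C_mul, smul_eq_C_mul, hd.leib, add_sub_assoc, ← mul_sub, ← hEF]
    exact I.add_mem (I.mul_mem_left _ (hJ (Ideal.subset_span ⟨a, rfl⟩)))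
      (I.mul_mem_left _ (hI a))
  have h4 : E (pxd F u) ∈ I := by
    rw [← hq, map_sum]
    refine I.sum_mem fun i _ => ?_
    rw [hd.leib]
    exact I.add_mem (I.mul_mem_left _ (hxI i)) (I.mul_mem_left _ (hx i))
  have h5 := I.mul_mem_left (C c⁻¹) (I.sub_mem (I.sub_mem h4 h3)
    (I.mul_mem_right (pxd p u) (hxI j)))
  have e2 : (C c⁻¹ : Pol (m + m) K) * C c = 1 := by
    rw [← map_mul, inv_mul_cancel₀ hc0, map_one]
  rw [pxd_mul, hc] at h5
  convert h5 using 1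
  linear_combination (-p) * e2

theorem col_four {μ : Pol N K →ₗ[K] K} (hN : 1 ≤ N) (h : Conc μ 6) (hb : Bpf (ann μ) 3)
    (h1 : hf (ann μ) 1 ≤ 3) (h7 : 7 ≤ hf (ann μ) 3) {y : Pol N K} (hy : y.IsHomogeneous 1)
    (hn : y ∉ ann μ) : 3 < hf (col (ann μ) y) 3 := by
  have hs : ∀ p : Pol N K, p.IsHomogeneous 1 → Hg (Ideal.span {p}) := fun p hp =>
    hg_span fun q hq => ⟨1, hq ▸ hp⟩
  have e1 : hf (col (ann μ) y) 3 = hf (col (ann μ) y) 2 := by
    rw [col_ann]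
    exact (Conc.sh (σ := 5) h hy).hf_sym rfl
  have e2 := hf_es h.hg hy 2
  have e3 := hf_es h.hg hy 0
  have e4 : hf (col (ann μ) y) 0 ≠ 0 := fun h0 => hn (by
    have := hf_eq_zero.1 h0 1 (isHomogeneous_one _ _)
    rwa [mem_col, mul_one] at this)
  set B := ann μ ⊔ Ideal.span {y}
  have hB : Hg B := h.hg.sup (hs y hy)
  have b1 : hf B 1 ≤ 2 := by
    simp only [zero_add] at e3
    omega
  obtain ⟨l, hl, hsp⟩ := exists_span_of_hf_le b1
  set D := B ⊔ Ideal.span {l 0}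
  have hDg : Hg D := hB.sup (hs _ (hl 0))
  have d0 : hf (D ⊔ Ideal.span {l 1}) 1 = 0 := hf_eq_zero.2 fun p hp => by
    obtain ⟨c, hc⟩ := hsp p hp
    rw [Fin.sum_univ_two, smul_eq_C_mul, smul_eq_C_mul] at hc
    have a1 : p - (C (c 0) * l 0 + C (c 1) * l 1) ∈ D ⊔ Ideal.span {l 1} :=
      Ideal.mem_sup_left (Ideal.mem_sup_left hc)
    have a2 : C (c 0) * l 0 ∈ D ⊔ Ideal.span {l 1} := Ideal.mem_sup_left (Ideal.mem_sup_right
      (Ideal.mul_mem_left _ _ (Ideal.mem_span_singleton_self _)))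
    have a3 : C (c 1) * l 1 ∈ D ⊔ Ideal.span {l 1} := Ideal.mem_sup_right
      (Ideal.mul_mem_left _ _ (Ideal.mem_span_singleton_self _))
    simpa using Ideal.add_mem _ a1 (Ideal.add_mem _ a2 a3)
  have dz : hf D 0 ≤ 1 := by
    have a1 := hf_add D 0
    obtain ⟨n, rfl⟩ : ∃ n, N = n + 1 := ⟨N - 1, by omega⟩
    rw [finrank_Sd, zero_add, Nat.choose_self] at a1
    omega
  have d1 : hf D 1 ≤ 1 := (hf_surj hDg (hl 1) (n := 0) d0).trans dz
  have d2 : hf D 2 ≤ 1 := (hf_surj hDg (hl 1) (n := 1) (hf_zero_succ d0)).trans d1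
  have d3 : hf D 3 = 0 := by
    refine thmA hDg (hb.mono (le_sup_left.trans le_sup_left)) (c := 1) (t := 1)
      (l := fun _ => l 1) (fun _ => hl 1) hN (by omega) ?_ (by omega)
    rwa [lid, Set.range_const]
  have b3 : hf B 3 ≤ hf B 2 := hf_surj hB (hl 0) (n := 2) d3
  have b2 := hf_es hB (hl 0) 1
  have b4 : hf (col B (l 0)) 1 ≤ hf B 1 := hf_mono fun q _ hq => B.mul_mem_left _ hq
  change hf (ann μ) 3 = hf B 3 + _ at e2
  change hf B 2 = hf D 2 + _ at b2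
  omega

end Pool.Agent.Lib.MP_e9c0f3_ag.MC
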