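import Pool.Agent.Lib.MP_e9c0f3_ag.MC.Gen

/-! The case where the forms of low degree vanish on a linear space. -/

open MvPolynomial Module

namespace Pool.Agent.Lib.MP_e9c0f3_ag.MC

variable {K : Type} [Field K] {N : ℕ}

theorem pl_dec {n : ℕ} {g : Pol N K} (hg : g.IsHomogeneous (n + 1)) :
    ∃ h : Fin N → Pol N K, (∀ a, (h a).IsHomogeneous n) ∧ g = ∑ a, h a * X a := by
  obtain ⟨b, h1, h2⟩ := hz_dec (a := X) (deg := fun _ => 1) (isHomogeneous_X K) (J := ⊥)
    (fun p hp n => by rw [Ideal.mem_bot.1 hp, map_zero]; exact Ideal.zero_mem _) (hz_of hg)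
    (Ideal.mem_sup_left (reg_mem ⟨n + 1, n.succ_pos, hg⟩))
  exact ⟨b, fun a => by simpa using (h1 a).1, sub_eq_zero.1 (Ideal.mem_bot.1 h2)⟩

theorem pl_hc {c : ℕ} {v : Fin c → Pol N K} (hv : ∀ i, (v i).IsHomogeneous 1) (n : ℕ)
    (f : Pol c K) : homogeneousComponent n (aeval v f) = aeval v (homogeneousComponent n f) := by
  conv_lhs => rw [← sum_homogeneousComponent f, map_sum, map_sum]
  have h1 : ∀ i, homogeneousComponent n (aeval v (homogeneousComponent i f)) =
      if n = i then aeval v (homogeneousComponent i f) else 0 := fun i =>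
    homogeneousComponent_of_mem (by
      simpa using (homogeneousComponent_isHomogeneous i f).aeval v hv)
  simp only [h1, Finset.sum_ite_eq, Finset.mem_range]
  split_ifs with h
  · rfl
  · rw [homogeneousComponent_eq_zero _ _ (by omega), map_zero]

/-- The point cut out by an ideal of colength one in two consecutive degrees. -/
theorem pl_point {D : Ideal (Pol N K)} {t : ℕ} (h1 : hf D t ≤ 1) (h2 : hf D (t + 1) ≠ 0)
    (h3 : hf D (t + 1) ≤ 1) : ∃ (b : Fin N) (q : Fin N → K), q b = 1 ∧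
      (X b : Pol N K) ^ (t + 1) ∉ D ∧ ∀ g : Pol N K, g.IsHomogeneous (t + 1) →
        g - eval q g • X b ^ (t + 1) ∈ D := by
  obtain ⟨w, hw, hw1⟩ := exists_span_of_hf_le h1
  obtain ⟨u, -, hu1⟩ := exists_span_of_hf_le h3
  simp only [Fin.sum_univ_one] at hw1 hu1
  have hb : ∃ b, X b * w 0 ∉ D := by
    by_contra! hb
    refine h2 (hf_eq_zero.2 fun g hg => ?_)
    obtain ⟨h, h4, rfl⟩ := pl_dec hg
    refine D.sum_mem fun a _ => ?_
    obtain ⟨c, hc⟩ := hw1 _ (h4 a)
    have := D.add_mem (D.mul_mem_right (X a) hc) (D.mul_mem_left (C (c 0)) (hb a))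
    convert this using 1
    rw [smul_eq_C_mul]
    ring
  obtain ⟨b, hb⟩ := hb
  have hX : ∀ a, (X a * w 0 : Pol N K).IsHomogeneous (t + 1) := fun a =>
    add_comm 1 t ▸ (isHomogeneous_X K a).mul (hw 0)
  choose c hc using fun a => hu1 _ (hX a)
  have hcb : c b 0 ≠ 0 := fun h => hb (by simpa [h] using hc b)
  let q : Fin N → K := fun a => c a 0 / c b 0
  have h4 : ∀ a, ∀ g : Pol N K, g.IsHomogeneous t → (X a - C (q a) * X b) * g ∈ D :=
    fun a g hg => by
      obtain ⟨r, hr⟩ := hw1 g hg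
      have h4 := D.sub_mem (hc a) (D.mul_mem_left (C (q a)) (hc b))
      have h5 : (C (q a) : Pol N K) * C (c b 0) = C (c a 0) := by
        rw [← C_mul, div_mul_cancel₀ _ hcb]
      have := D.add_mem (D.mul_mem_left (X a - C (q a) * X b) hr) (D.mul_mem_left (C (r 0)) h4)
      convert this using 1
      simp only [smul_eq_C_mul, ← h5]
      ring
  have h5 : ∀ n i, n + i = t + 1 → ∀ g h : Pol N K, g.IsHomogeneous n → h.IsHomogeneous i →
      (g - eval q g • X b ^ n) * h ∈ D := fun n => by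
    induction n with
    | zero =>
      intro i _ g h hg _
      rw [totalDegree_eq_zero_iff_eq_C.1 (Nat.le_zero.1 hg.totalDegree_le)]
      simp [smul_eq_C_mul]
    | succ n ih =>
      intro i hi g h hg hh
      obtain ⟨r, h5, rfl⟩ := pl_dec hg
      have := D.sum_mem (t := Finset.univ) fun a _ => D.add_mem
        (h4 a (r a * h) ((show n + i = t by omega) ▸ (h5 a).mul hh))
        (D.mul_mem_left (C (q a)) (ih (1 + i) (by omega) (r a) (X b * h) (h5 a)
          ((isHomogeneous_X K b).mul hh)))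
      convert this using 1
      simp only [map_sum, map_mul, eval_X, smul_eq_C_mul, Finset.sum_mul, sub_mul,
        ← Finset.sum_sub_distrib]
      exact Finset.sum_congr rfl fun a _ => by ring
  have h6 : ∀ g : Pol N K, g.IsHomogeneous (t + 1) → g - eval q g • X b ^ (t + 1) ∈ D :=
    fun g hg => by simpa using h5 (t + 1) 0 rfl g 1 hg (isHomogeneous_one _ _)
  refine ⟨b, q, div_self hcb, fun h => h2 (hf_eq_zero.2 fun g hg => ?_), h6⟩
  simpa using D.add_mem (h6 g hg) (Submodule.smul_of_tower_mem D (eval q g) h)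

theorem pl_inj [CharZero K] {q : Fin N → K} {z : Pol N K} (hz : z.IsHomogeneous 1)
    (hq : eval q z = 1) (c : ℕ) : ∀ (J : Ideal (Pol N K)) (l : Fin c → Pol N K), Gen J l →
      (∀ p ∈ J ⊔ lid l, eval q p = 0) → ∀ f : Pol (c + 1) K,
        aeval (Fin.snoc l z : Fin (c + 1) → Pol N K) f ∈ J → f = 0 := by
  induction c with
  | zero =>
    intro J l h h0 f hf
    have : Subsingleton (Fin (0 + 1)) := inferInstanceAs (Subsingleton (Fin 1))
    ext m
    have h1 := h.hg _ hf m.degree
    rw [pl_hc (fun i => by rw [Subsingleton.elim i (Fin.last 0), Fin.snoc_last]; exact hz)] at h1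
    have h2 : homogeneousComponent m.degree f = monomial m (coeff m f) := by
      ext m'
      rw [coeff_homogeneousComponent, coeff_monomial]
      have : m'.degree = m.degree ↔ m = m' := by
        refine ⟨fun h => Finsupp.ext fun i => ?_, fun h => h ▸ rfl⟩
        rw [Finsupp.degree_eq_sum, Finsupp.degree_eq_sum, Fin.sum_univ_succ,
          Fin.sum_univ_succ] at h
        rw [Subsingleton.elim i 0]
        simpa using h.symm
      by_cases hm : m = m'
      · rw [if_pos hm, if_pos (this.2 hm), hm]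
      · rw [if_neg hm, if_neg (mt this.1 hm)]
    have h3 := h0 _ (Ideal.mem_sup_left h1)
    have h4 : ∀ i, eval q ((Fin.snoc l z : Fin 1 → Pol N K) i) = 1 := fun i => by
      rw [Subsingleton.elim i (Fin.last 0), Fin.snoc_last, hq]
    rw [h2, aeval_monomial] at h3
    simpa [Finsupp.prod, h4] using h3
  | succ c ih =>
    intro J l h h0 f hf
    let θ : Pol (c + 1) K →ₐ[K] Pol N K := aeval (Fin.snoc (Fin.tail l) z : Fin (c + 1) → Pol N K)
    have h1 : ∀ f : Pol (c + 2) K, aeval (Fin.snoc l z : Fin (c + 2) → Pol N K) f =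
        Polynomial.eval₂ (θ : Pol (c + 1) K →+* Pol N K) (l 0) (finSuccEquiv K (c + 1) f) :=
      fun f => by
        induction f using MvPolynomial.induction_on with
        | C a => simp [finSuccEquiv_apply, θ]
        | add p q hp hq => rw [map_add, map_add, Polynomial.eval₂_add, hp, hq]
        | mul_X p i hp =>
          rw [map_mul, map_mul, Polynomial.eval₂_mul, hp, aeval_X]
          congr 1
          refine Fin.cases ?_ (fun j => ?_) i
          · rw [finSuccEquiv_X_zero, Polynomial.eval₂_X]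
            rfl
          · rw [finSuccEquiv_X_succ, Polynomial.eval₂_C]
            simp only [θ, RingHom.coe_coe, aeval_X]
            refine Fin.lastCases ?_ (fun j => ?_) j
            · rw [Fin.succ_last, Fin.snoc_last, Fin.snoc_last]
            · rw [Fin.succ_castSucc, Fin.snoc_castSucc, Fin.snoc_castSucc]
              rfl
    rw [h1] at hf
    refine (finSuccEquiv K (c + 1)).injective ?_
    rw [map_zero]
    generalize finSuccEquiv K (c + 1) f = F at hf
    have h2 : ∀ j, Polynomial.X ^ j ∣ F := fun j => by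
      induction j with
      | zero => simp
      | succ j ihj =>
        obtain ⟨G, rfl⟩ := ihj
        rw [pow_succ]
        refine mul_dvd_mul_left _ (Polynomial.X_dvd_iff.2 ?_)
        rw [← Polynomial.X_mul_divX_add G, Polynomial.eval₂_mul, Polynomial.eval₂_add,
          Polynomial.eval₂_mul, Polynomial.eval₂_X_pow, Polynomial.eval₂_X,
          Polynomial.eval₂_C] at hf
        have h3 : θ (G.coeff 0) ∈ col J (l 0 ^ j) ⊔ Ideal.span {l 0} := by
          have := Ideal.sub_mem _ (Ideal.mem_sup_left (mem_col.2 hf) :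
            _ ∈ col J (l 0 ^ j) ⊔ Ideal.span {l 0}) (Ideal.mem_sup_right
              (Ideal.mul_mem_right (Polynomial.eval₂ (θ : Pol (c + 1) K →+* Pol N K) (l 0) G.divX)
                _ (Ideal.mem_span_singleton_self _)))
          simpa using this
        have h4 := col_pow_le (h.lin 0) (fun a => by
          obtain ⟨E, h1, h2, h3, -⟩ := h.der 0 a
          exact ⟨E, h1, h2, h3⟩) j h3 (z ^ j) (by simpa using hz.pow j)
        have h5 := ih _ _ h.tail (by rwa [sup_assoc, ← lid_succ])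
          (G.coeff 0 * X (Fin.last c) ^ j) (by simpa [θ] using h4)
        exact (mul_eq_zero.1 h5).resolve_right (pow_ne_zero _ (X_ne_zero _))
    ext1 n
    exact Polynomial.X_pow_dvd_iff.1 (h2 (n + 1)) n n.lt_succ_self

/-- The forms of degree `n` of `I` generate an ideal for which `l` is still generic. -/
theorem Gen.trunc {I : Ideal (Pol N K)} {c : ℕ} {l : Fin c → Pol N K} (h : Gen I l) (n : ℕ) :
    Gen (Ideal.span {p | p ∈ I ∧ p.IsHomogeneous n}) l := by
  refine ⟨hg_span fun p hp => ⟨n, hp.2⟩, h.lin, fun j a => ?_⟩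
  obtain ⟨E, h1, h2, h3, h4⟩ := h.der j a
  refine ⟨E, h1, fun p hp => ?_, h3, h4⟩
  induction hp using Submodule.span_induction with
  | mem p hp => exact Ideal.subset_span ⟨h2 p hp.1, h1.homog _ _ hp.2⟩
  | zero => simp
  | add p q _ _ hp hq => exact map_add E p q ▸ Ideal.add_mem _ hp hq
  | smul r p hp hE =>
    rw [smul_eq_mul, h1.leib]
    exact Ideal.add_mem _ (Ideal.mul_mem_left _ _ hp) (Ideal.mul_mem_left _ _ hE)

/-- An algebra of rank one that is finite over a polynomial ring. -/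
theorem pl_div {c : ℕ} {M : Type} [CommRing M] [Algebra (Pol c K) M] [Module.Finite (Pol c K) M]
    (hi : Function.Injective (algebraMap (Pol c K) M)) {s r : Pol c K} (hs : s ≠ 0) {x : M}
    (h : algebraMap _ M s * x = algebraMap _ M r) : s ∣ r := by
  obtain ⟨χ, h1, h2⟩ := IsIntegral.of_finite (Pol c K) x
  have h3 := Polynomial.scaleRoots_aeval_eq_zero (r := s) (p := χ) (a := x) h2
  rw [h, Polynomial.aeval_algebraMap_apply, map_eq_zero_iff _ hi] at h3
  let L := FractionRing (Pol c K)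
  have hL := IsFractionRing.injective (Pol c K) L
  have h4 : algebraMap _ L s ≠ 0 := (map_ne_zero_iff _ hL).2 hs
  have h5 := Polynomial.scaleRoots_eval₂_mul (p := χ) (algebraMap _ L)
    (algebraMap _ L r / algebraMap _ L s) s
  rw [mul_div_cancel₀ _ h4, ← Polynomial.aeval_def, Polynomial.aeval_algebraMap_apply, h3,
    map_zero] at h5
  obtain ⟨u, hu⟩ := IsIntegrallyClosed.isIntegral_iff.1 (⟨χ, h1, (mul_eq_zero.1 h5.symm).resolve_left
    (pow_ne_zero _ h4)⟩ : IsIntegral (Pol c K) (algebraMap _ L r / algebraMap _ L s))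
  exact ⟨u, hL (by rw [map_mul, hu, mul_div_cancel₀ _ h4])⟩

theorem pl_abs {c t : ℕ} {M : Type} [CommRing M] [Algebra (Pol (c + 1) K) M] (π : Pol N K →+* M)
    (hπ : Function.Surjective π) {z : Pol N K} (hz : z.IsHomogeneous 1)
    (hC : ∀ a, π (C a) = algebraMap (Pol (c + 1) K) M (C a))
    (hX : π z = algebraMap (Pol (c + 1) K) M (X (Fin.last c)))
    (h1 : ∀ i, ∀ g : Pol N K, g.IsHomogeneous (t + 1 + i) → ∃ (f : Pol (c + 1) K)
      (b : Fin c → Pol N K), (∀ j, (b j).IsHomogeneous (t + i)) ∧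
        π g = f • (1 : M) + ∑ j, (X j.castSucc : Pol (c + 1) K) • π (b j))
    (hi : Function.Injective (algebraMap (Pol (c + 1) K) M)) (x : M) :
    ∃ s u : Pol (c + 1) K, s ≠ 0 ∧ algebraMap _ M s * (x - algebraMap _ M u) = 0 := by
  have hfin : Module.Finite (Pol (c + 1) K) M := by
    obtain ⟨r, v, hv⟩ := Module.Finite.exists_fin (R := K) (M := restrictTotalDegree (Fin N) K t)
    let W := Submodule.span (Pol (c + 1) K) (Set.range fun i => π (v i))
    have h2 : ∀ g : Pol N K, g.totalDegree ≤ t → π g ∈ W := fun g hg => by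
      obtain ⟨a, ha'⟩ := (Submodule.mem_span_range_iff_exists_fun K).1
        (hv ▸ Submodule.mem_top : (⟨g, (mem_restrictTotalDegree _ _ _).2 hg⟩ :
          restrictTotalDegree (Fin N) K t) ∈ Submodule.span K (Set.range v))
      have h2 := congrArg Subtype.val ha'
      simp only [AddSubmonoidClass.coe_finsetSum, SetLike.val_smul] at h2
      rw [← h2, map_sum]
      refine W.sum_mem fun i _ => ?_
      have := W.smul_mem (C (a i)) (Submodule.subset_span ⟨i, rfl⟩)
      rwa [Algebra.smul_def, ← hC, ← map_mul, ← smul_eq_C_mul] at this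
    have h3 : ∀ i, ∀ g : Pol N K, g.IsHomogeneous (t + i) → π g ∈ W := fun i => by
      induction i with
      | zero => exact fun g hg => h2 g hg.totalDegree_le
      | succ i ih =>
        intro g hg
        obtain ⟨f, b, h3, h4⟩ := h1 i g (by rwa [add_right_comm])
        rw [h4]
        exact W.add_mem (W.smul_mem _ (map_one π ▸ h2 1 (by simp)))
          (W.sum_mem fun j _ => W.smul_mem _ (ih _ (h3 j)))
    refine ⟨⟨(Set.finite_range fun i => π (v i)).toFinset, ?_⟩⟩
    rw [Set.Finite.coe_toFinset, eq_top_iff]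
    intro y _
    obtain ⟨g, rfl⟩ := hπ y
    rw [← sum_homogeneousComponent g, map_sum]
    refine W.sum_mem fun n _ => ?_
    by_cases hn : n ≤ t
    · exact h2 _ ((homogeneousComponent_isHomogeneous n g).totalDegree_le.trans hn)
    · exact h3 (n - t) _ (by
        rw [show t + (n - t) = n by omega]
        exact homogeneousComponent_isHomogeneous n g)
  let U : Submodule (Pol (c + 1) K) M := Submodule.span _ {1}
  let 𝔞 : Ideal (Pol (c + 1) K) := Ideal.span (Set.range fun j : Fin c => X j.castSucc)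
  obtain ⟨χ, h2, -, h3, h4⟩ :=
    LinearMap.exists_monic_and_natDegree_eq_and_coeff_mem_pow_and_aeval_eq_zero (Pol (c + 1) K)
      (Algebra.lsmul (Pol (c + 1) K) (Pol (c + 1) K) (M ⧸ U) (X (Fin.last c) ^ (t + 1))) 𝔞 (by
      rintro _ ⟨y, rfl⟩
      obtain ⟨y, rfl⟩ := U.mkQ_surjective y
      obtain ⟨g, rfl⟩ := hπ y
      rw [← sum_homogeneousComponent g, map_sum, map_sum, map_sum]
      refine Submodule.sum_mem _ fun n _ => ?_
      obtain ⟨f, b, -, h4⟩ := h1 n (z ^ (t + 1) * homogeneousComponent n g)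
        ((by simpa using hz.pow (t + 1) : (z ^ (t + 1)).IsHomogeneous (t + 1)).mul
          (homogeneousComponent_isHomogeneous n g))
      have h5 : (X (Fin.last c) ^ (t + 1) : Pol (c + 1) K) • π (homogeneousComponent n g) =
          π (z ^ (t + 1) * homogeneousComponent n g) := by
        rw [Algebra.smul_def, map_mul, map_pow, map_pow, hX]
      rw [Algebra.lsmul_coe]
      dsimp only
      rw [← map_smul, h5, h4, map_add, map_sum]
      refine Submodule.add_mem _ ?_ (Submodule.sum_mem _ fun j _ => ?_)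
      · rw [Submodule.mkQ_apply, (Submodule.Quotient.mk_eq_zero U).2
          (U.smul_mem _ (Submodule.mem_span_singleton_self _))]
        exact Submodule.zero_mem _
      · rw [map_smul]
        exact Submodule.smul_mem_smul (Ideal.subset_span ⟨j, rfl⟩) Submodule.mem_top)
  let κ : Pol (c + 1) K →+* K := eval (Fin.snoc (fun _ => 0) 1 : Fin (c + 1) → K)
  have h5 : χ.eval (X (Fin.last c) ^ (t + 1)) ≠ 0 := fun h0 => by
    have h5 := congrArg κ h0
    have h6 : 𝔞 ≤ RingHom.ker κ := Ideal.span_le.2 (by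
      rintro _ ⟨j, rfl⟩
      simp [κ])
    rw [Polynomial.eval_eq_sum_range, map_sum, Finset.sum_range_succ, Finset.sum_eq_zero
      fun i hi => by
        rw [map_mul, RingHom.mem_ker.1 (h6 (Ideal.pow_le_self (by simp at hi; omega) (h3 i))),
          zero_mul]] at h5
    simp [κ, h2.coeff_natDegree] at h5
  generalize hs : χ.eval (X (Fin.last c) ^ (t + 1)) = s at h5
  have h6 : s • x ∈ U := by
    have := LinearMap.congr_fun h4 (U.mkQ x)
    rw [Polynomial.aeval_algHom_apply, Polynomial.coe_aeval_eq_eval, hs, Algebra.lsmul_coe] at this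
    exact (Submodule.Quotient.mk_eq_zero U).1 this
  obtain ⟨r, hr⟩ := Submodule.mem_span_singleton.1 h6
  rw [Algebra.smul_def, Algebra.smul_def, mul_one] at hr
  obtain ⟨u, rfl⟩ := pl_div hi h5 hr.symm
  exact ⟨s, u, h5, by rw [mul_sub, ← hr, map_mul, sub_self]⟩

theorem pl_frac {J : Ideal (Pol N K)} (hJ : Hg J) {c t : ℕ} {l : Fin c → Pol N K} {z : Pol N K}
    (hl : ∀ j, (l j).IsHomogeneous 1) (hz : z.IsHomogeneous 1)
    (hi : ∀ f : Pol (c + 1) K, aeval (Fin.snoc l z : Fin (c + 1) → Pol N K) f ∈ J → f = 0)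
    (h : ∀ i, ∀ g : Pol N K, g.IsHomogeneous (t + 1 + i) →
      ∃ a : K, g - a • z ^ (t + 1 + i) ∈ lid l ⊔ J) {x : Pol N K} (hx : x.IsHomogeneous 1) :
    ∃ s r : Pol (c + 1) K, s ≠ 0 ∧ r.IsHomogeneous 1 ∧
      aeval (Fin.snoc l z : Fin (c + 1) → Pol N K) s *
        (x - aeval (Fin.snoc l z : Fin (c + 1) → Pol N K) r) ∈ J := by
  have hv : ∀ i, ((Fin.snoc l z : Fin (c + 1) → Pol N K) i).IsHomogeneous 1 := fun i => by
    refine Fin.lastCases ?_ (fun j => ?_) i
    · rwa [Fin.snoc_last]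
    · rw [Fin.snoc_castSucc]
      exact hl j
  have hc := pl_hc hv
  set θ : Pol (c + 1) K →ₐ[K] Pol N K := aeval (Fin.snoc l z : Fin (c + 1) → Pol N K) with hθ
  let : Algebra (Pol (c + 1) K) (Pol N K ⧸ J) :=
    ((Ideal.Quotient.mk J).comp (θ : Pol (c + 1) K →+* Pol N K)).toAlgebra
  have ha : ∀ f, algebraMap (Pol (c + 1) K) (Pol N K ⧸ J) f = Ideal.Quotient.mk J (θ f) :=
    fun _ => rfl
  obtain ⟨s, u, h1, h2⟩ := pl_abs (c := c) (t := t) (Ideal.Quotient.mk J)
    Ideal.Quotient.mk_surjective hz (fun a => by rw [ha, hθ, aeval_C]; rfl)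
    (by rw [ha, hθ, aeval_X, Fin.snoc_last]) (fun i g hg => by
      obtain ⟨a, h1⟩ := h i g hg
      obtain ⟨b, h2, h3⟩ := hz_dec (deg := fun _ => 1) hl hJ (hz_of (hg.sub
        ((homogeneousSubmodule _ _ _).smul_mem a (by simpa using hz.pow (t + 1 + i))))) h1
      refine ⟨a • X (Fin.last c) ^ (t + 1 + i), b, fun j => ?_, ?_⟩
      · have := (h2 j).1
        rwa [show (((t + 1 + i : ℕ) : ℤ) - ((1 : ℕ) : ℤ)).toNat = t + i by omega] at this
      · simp only [Algebra.smul_def, ha, mul_one, ← map_mul, ← map_sum, ← map_add]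
        rw [Ideal.Quotient.eq]
        convert h3 using 1
        simp [hθ, Algebra.smul_def, mul_comm, sub_sub])
    (fun f g hfg => sub_eq_zero.1 (hi _ (by
      rw [map_sub]
      exact Ideal.Quotient.eq.1 hfg))) (Ideal.Quotient.mk J x)
  rw [ha, ha, ← map_sub, ← map_mul, Ideal.Quotient.eq_zero_iff_mem] at h2
  obtain ⟨D, hD⟩ : ∃ D, homogeneousComponent D s ≠ 0 := by
    by_contra! h0
    exact h1 (by rw [← sum_homogeneousComponent s]; simp [h0])
  have hs := homogeneousComponent_isHomogeneous D s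
  have h3 := hJ _ h2 (D + 1)
  rw [mul_sub, ← map_mul, map_sub, hc, mul_comm _ x, tw2_hc_mul hx, if_pos (by omega),
    Nat.add_sub_cancel, hc] at h3
  have h4 := J.sub_mem (J.mul_mem_left (θ (homogeneousComponent D s)) h2) (J.mul_mem_left (θ s) h3)
  have h5 := hi (s * (homogeneousComponent (D + 1) (s * u) - homogeneousComponent D s * u)) (by
    convert h4 using 1
    simp only [map_mul, map_sub]
    ring)
  have h6 := congrArg (homogeneousComponent (D + 1))
    (sub_eq_zero.1 ((mul_eq_zero.1 h5).resolve_left h1))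
  rw [homogeneousComponent_of_mem (homogeneousComponent_isHomogeneous _ _), if_pos rfl,
    tw2_hc_mul hs, if_pos (by omega), Nat.add_sub_cancel_left] at h6
  refine ⟨_, _, hD, homogeneousComponent_isHomogeneous 1 u, ?_⟩
  rw [h6, map_mul] at h3
  convert h3 using 1
  ring

theorem Gen.plane [CharZero K] {I : Ideal (Pol N K)} {c t : ℕ} {l : Fin c → Pol N K}
    (h : Gen I l) (ht : 1 ≤ t) (h1 : hf (I ⊔ lid l) t ≤ 1) (h2 : hf (I ⊔ lid l) (t + 1) ≠ 0)
    (h3 : c + 2 ≤ hf I 1) : ∃ p : Pol N K, p.IsHomogeneous 1 ∧ p ∉ I ∧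
      ∀ n, n ≤ t + 1 → (n + c).choose c ≤ hf (I ⊔ Ideal.span {p}) n := by
  obtain ⟨b, q, hq, hb, h4⟩ := pl_point h1 h2 (by
    obtain ⟨t, rfl⟩ : ∃ t', t = t' + 1 := ⟨t - 1, by omega⟩
    exact hf_le_one ((hf_mono fun p _ hp => mem_lev.2 fun b _ => Ideal.mul_mem_right _ _ hp).trans h1))
  have hz := isHomogeneous_X K b
  have hp : ∀ n, ((X b : Pol N K) ^ n).IsHomogeneous n := fun n => by simpa using hz.pow n
  have hqz : eval q (X b : Pol N K) = 1 := by rw [eval_X, hq]
  have h5 : ∀ g ∈ I ⊔ lid l, g.IsHomogeneous (t + 1) → eval q g = 0 := fun g hg hg' => by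
    by_contra h0
    have := Submodule.smul_of_tower_mem _ (eval q g)⁻¹ (Ideal.sub_mem _ hg (h4 g hg'))
    rw [sub_sub_cancel, smul_smul, inv_mul_cancel₀ h0, one_smul] at this
    exact hb this
  set J : Ideal (Pol N K) := Ideal.span {p | p ∈ I ∧ p.IsHomogeneous (t + 1)} with hJ
  have hG : Gen J l := h.trunc (t + 1)
  have hi := pl_inj hz hqz c J l hG fun p hp' => RingHom.mem_ker.1 (sup_le
    (Ideal.span_le.2 fun p hp => h5 p (Ideal.mem_sup_left hp.1) hp.2) (Ideal.span_le.2 (by
      rintro _ ⟨j, rfl⟩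
      have := h5 (l j * X b ^ t) (Ideal.mem_sup_right (Ideal.mul_mem_right _ _
        (Ideal.subset_span ⟨j, rfl⟩))) (add_comm 1 t ▸ (h.lin j).mul (hp t))
      simpa [hq] using this)) hp')
  have h6 : ∀ g : Pol N K, g.IsHomogeneous (t + 1) →
      g - eval q g • X b ^ (t + 1) ∈ lid l ⊔ J := fun g hg => by
    obtain ⟨u, hu, v, hv, h6⟩ := Submodule.mem_sup.1 (h4 g hg)
    have h7 := congrArg (homogeneousComponent (t + 1)) h6
    rw [homogeneousComponent_of_mem (hg.sub ((homogeneousSubmodule _ _ _).smul_mem _ (hp _))),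
      if_pos rfl, map_add] at h7
    rw [← h7, add_comm]
    exact Submodule.add_mem_sup (hg_span (by rintro _ ⟨j, rfl⟩; exact ⟨1, h.lin j⟩) v hv _)
      (Ideal.subset_span ⟨h.hg u hu _, homogeneousComponent_isHomogeneous _ _⟩)
  have h7 : ∀ i, ∀ g : Pol N K, g.IsHomogeneous (t + 1 + i) →
      g - eval q g • X b ^ (t + 1 + i) ∈ lid l ⊔ J := fun i => by
    induction i with
    | zero => exact h6
    | succ i ih =>
      intro g hg
      obtain ⟨r, h7, rfl⟩ := pl_dec hg
      have := Ideal.sum_mem (lid l ⊔ J) (t := Finset.univ) fun a _ => Ideal.add_mem _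
        (Ideal.mul_mem_right (X a) _ (ih _ (h7 a))) (Ideal.mul_mem_left _
          (C (eval q (r a)) * X b ^ (i + 1)) (h6 (X a * X b ^ t)
            (add_comm 1 t ▸ (isHomogeneous_X K a).mul (hp t))))
      convert this using 1
      simp only [map_sum, map_mul, map_pow, eval_X, hq, one_pow, mul_one, smul_eq_C_mul,
        Finset.sum_mul, ← Finset.sum_sub_distrib]
      exact Finset.sum_congr rfl fun a _ => by ring
  have hv : ∀ i, ((Fin.snoc l (X b) : Fin (c + 1) → Pol N K) i).IsHomogeneous 1 := fun i => by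
    refine Fin.lastCases ?_ (fun j => ?_) i
    · rwa [Fin.snoc_last]
    · rw [Fin.snoc_castSucc]
      exact h.lin j
  set θ : Pol (c + 1) K →ₐ[K] Pol N K := aeval (Fin.snoc l (X b) : Fin (c + 1) → Pol N K) with hθ
  have hh : ∀ {n} {f : Pol (c + 1) K}, f.IsHomogeneous n → (θ f).IsHomogeneous n := fun hf => by
    have := hf.aeval _ hv
    rwa [one_mul] at this
  obtain ⟨x, hx, hx'⟩ : ∃ x : Pol N K, x.IsHomogeneous 1 ∧
      ∀ r : Pol (c + 1) K, r.IsHomogeneous 1 → x - θ r ∉ I := by
    by_contra! h0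
    have h8 := hf_le_of (I := I) ((Sd (c + 1) K 1).map θ.toLinearMap) fun x hx => by
      obtain ⟨r, hr, hr'⟩ := h0 x hx
      exact ⟨θ r, ⟨r, hr, rfl⟩, hr'⟩
    have h9 := Submodule.finrank_map_le θ.toLinearMap (Sd (c + 1) K 1)
    rw [finrank_Sd, add_comm 1 c, Nat.choose_succ_self_right] at h9
    omega
  obtain ⟨s, r, hs, hr, h8⟩ := pl_frac hG.hg h.lin hz hi (fun i g hg => ⟨_, h7 i g hg⟩) hx
  have hl := hx.sub (hh hr)
  refine ⟨_, hl, hx' r hr, fun n hn => ?_⟩
  rw [← finrank_Sd c K n]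
  refine le_hf (θ.toLinearMap ∘ₗ (Sd (c + 1) K n).subtype) (fun f => hh f.2) fun f hf => ?_
  have h9 : (X b ^ (t + 1 - n) * θ f).IsHomogeneous (t + 1) := by
    have := (hp (t + 1 - n)).mul (hh f.2)
    rwa [Nat.sub_add_cancel hn] at this
  obtain ⟨u, hu, hu'⟩ := h.hg.div hl h9 (Ideal.mul_mem_left _ _ hf)
  have h10 := J.add_mem (J.mul_mem_left (θ s) (Ideal.subset_span ⟨hu', h9.sub
    (add_comm 1 t ▸ hl.mul hu)⟩)) (J.mul_mem_right u h8)
  have h11 := hi (s * (X (Fin.last c) ^ (t + 1 - n) * f.1)) (by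
    convert h10 using 1
    simp only [hθ, map_mul, map_pow, aeval_X, Fin.snoc_last]
    ring)
  exact Subtype.ext ((mul_eq_zero.1 ((mul_eq_zero.1 h11).resolve_left hs)).resolve_left
    (pow_ne_zero _ (X_ne_zero _)))

end Pool.Agent.Lib.MP_e9c0f3_ag.MC
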