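import Pool.Agent.Lib.MP_e9c0f3_ag.MC.Plane
import Pool.Agent.Lib.MP_e9c0f3_ag.MC.Soc
import Pool.Agent.Lib.MP_e9c0f3_ag.MC.P4
import Pool.Agent.Lib.MP_e9c0f3_ag.MC.Anti
import Pool.Agent.Lib.MP_e9c0f3_ag.MC.Clif

/-! Hilbert functions of quotients of complete intersections of quadrics. -/

open MvPolynomial Module TensorProduct

namespace Pool.Agent.Lib.MP_e9c0f3_ag.MC

variable {K : Type} [Field K] {N : ℕ}

theorem prod_ofFn_sum {T : Type} [Semiring T] (m : ℕ) (u : Fin m → Fin N → T) :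
    (List.ofFn fun i => ∑ a, u i a).prod =
      ∑ a : Fin m → Fin N, (List.ofFn fun i => u i (a i)).prod := by
  induction m with
  | zero => simp
  | succ m ih =>
    rw [List.ofFn_succ, List.prod_cons, ih (fun i => u i.succ), Finset.sum_mul_sum,
      ← Fintype.sum_prod_type', ← Equiv.sum_comp (Fin.consEquiv fun _ => Fin N)]
    refine Finset.sum_congr rfl fun a _ => ?_
    rw [List.ofFn_succ, List.prod_cons]
    rfl

theorem mono_zero (m : ℕ) : ∀ μ : Pol N K →ₗ[K] K, (∀ a : Fin m → Fin N, μ (∏ i, X (a i)) = 0) →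
    ∀ p : Pol N K, p.IsHomogeneous m → μ p = 0 := by
  induction m with
  | zero =>
    intro μ h p hp
    have h1 := h Fin.elim0
    rw [Fin.prod_univ_zero] at h1
    rw [px_const hp, ← mul_one (C _), C_mul', map_smul, h1, smul_zero]
  | succ m ih =>
    intro μ h p hp
    obtain ⟨q, hq, rfl⟩ := pl_dec hp
    rw [map_sum]
    refine Finset.sum_eq_zero fun b _ => ?_
    rw [mul_comm]
    refine ih (sh μ (X b)) (fun a => ?_) _ (hq b)
    have h1 := h (Fin.cons b a)
    rwa [Fin.prod_univ_succ] at h1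

theorem exists_indep (I : Ideal (Pol N K)) (t : ℕ) : ∃ y : Fin (hf I t) → Pol N K,
    (∀ j, (y j).IsHomogeneous t) ∧ ∀ c : Fin (hf I t) → K, ∑ j, c j • y j ∈ I → ∀ j, c j = 0 := by
  let V := (Sd N K t).map (Ideal.Quotient.mkₐ K I).toLinearMap
  let b := Module.finBasis K V
  choose y hy1 hy2 using fun i => (b i).2
  refine ⟨y, hy1, fun c hc => Fintype.linearIndependent_iff.1 b.linearIndependent c
    (Subtype.ext ?_)⟩
  have h1 : (Ideal.Quotient.mkₐ K I).toLinearMap (∑ j, c j • y j) = 0 :=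
    Ideal.Quotient.eq_zero_iff_mem.2 hc
  rw [map_sum] at h1
  rw [Submodule.coe_sum, Submodule.coe_zero, ← h1]
  refine Finset.sum_congr rfl fun j _ => ?_
  rw [map_smul, hy2, Submodule.coe_smul]

theorem exists_quot (I : Ideal (Pol N K)) : ∃ (R : Type) (_ : CommRing R) (_ : Algebra K R)
    (π : Pol N K →ₐ[K] R), Function.Surjective π ∧ ∀ q, π q = 0 ↔ q ∈ I :=
  ⟨_, _, _, Ideal.Quotient.mkₐ K I, Ideal.Quotient.mkₐ_surjective K I,
    fun _ => Ideal.Quotient.eq_zero_iff_mem⟩

section tensor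

variable {D R : Type} [DivisionRing D] [Algebra K D] [CommRing R] [Algebra K R] {p : ℕ}

/-- The generic linear forms. -/
noncomputable def xx (π : Pol N K →ₐ[K] R) (g : Fin p → Fin N → D) (i : Fin p) : D ⊗[K] R :=
  ∑ a, g i a ⊗ₜ π (X a)

/-- The image of a polynomial. -/
noncomputable def ot (D : Type) [DivisionRing D] [Algebra K D] (π : Pol N K →ₐ[K] R) :
    Pol N K →ₐ[K] D ⊗[K] R :=
  Algebra.TensorProduct.includeRight.comp π

variable {I : Ideal (Pol N K)} {π : Pol N K →ₐ[K] R} {g : Fin p → Fin N → D}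

theorem ot_apply (q : Pol N K) : ot D π q = (1 : D) ⊗ₜ π q := rfl

theorem xx_eq (i : Fin p) : xx π g i = ∑ a, g i a • ot D π (X a) := by
  simp only [xx, ot_apply, smul_tmul', smul_eq_mul, mul_one]

theorem ot_mul_smul (q : Pol N K) (d : D) (z : D ⊗[K] R) :
    ot D π q * (d • z) = d • (ot D π q * z) := by
  induction z with
  | zero => simp
  | tmul a b => simp [ot_apply, smul_tmul', Algebra.TensorProduct.tmul_mul_tmul]
  | add x y hx hy => rw [smul_add, mul_add, mul_add, smul_add, hx, hy]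

theorem xx_anti {f : Fin N → Pol N K} (hf : ∀ j, π (f j) = 0)
    (h1 : ∀ i j a b, i ≠ j → g i a * g j b = -(g j b * g i a))
    (h2 : ∀ φ : Pol N K →ₗ[K] K, (∀ j, φ (f j) = 0) →
      ∀ i, ∑ a, ∑ b, φ (X a * X b) • (g i a * g i b) = 0) : Anti (xx π g) := by
  constructor
  · intro i j hij
    simp only [xx, Finset.sum_mul_sum, Algebra.TensorProduct.tmul_mul_tmul]
    rw [Finset.sum_comm, ← Finset.sum_neg_distrib]
    refine Finset.sum_congr rfl fun b _ => ?_
    rw [← Finset.sum_neg_distrib]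
    refine Finset.sum_congr rfl fun a _ => ?_
    rw [h1 i j a b hij, neg_tmul, mul_comm (π (X a))]
  · intro i
    let b := Basis.ofVectorSpace K R
    refine (b.baseChange D).repr.injective (Finsupp.ext fun k => ?_)
    have h3 := h2 (b.coord k ∘ₗ π.toLinearMap) (fun j => by
      rw [LinearMap.comp_apply, AlgHom.toLinearMap_apply, hf j, map_zero]) i
    simp only [xx, Finset.sum_mul_sum, Algebra.TensorProduct.tmul_mul_tmul, map_sum,
      Finsupp.finsetSum_apply, Basis.baseChange_repr_tmul, map_zero, Finsupp.zero_apply,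
      ← map_mul]
    exact h3

theorem prod_tmul (m : ℕ) (u : Fin m → D) (v : Fin m → R) :
    (List.ofFn fun i => u i ⊗ₜ[K] v i).prod = (List.ofFn u).prod ⊗ₜ ∏ i, v i := by
  induction m with
  | zero => simp [Algebra.TensorProduct.one_def]
  | succ m ih =>
    rw [List.ofFn_succ, List.prod_cons, ih (fun i => u i.succ) (fun i => v i.succ),
      Algebra.TensorProduct.tmul_mul_tmul, List.ofFn_succ, List.prod_cons, Fin.prod_univ_succ]

theorem xx_ne {m : ℕ} {μ : Pol N K →ₗ[K] K} (hμ : Conc μ m) (h0 : μ ≠ 0)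
    (hπ : Function.Surjective π) (hI : ∀ q, π q = 0 → μ q = 0) (σ : Fin m → Fin p)
    (h3 : LinearIndependent K fun a : Fin m → Fin N => (List.ofFn fun i => g (σ i) (a i)).prod) :
    xl (xx π g) (List.ofFn σ) ≠ 0 := by
  intro h
  obtain ⟨s, hs⟩ := π.toLinearMap.exists_rightInverse_of_surjective (LinearMap.range_eq_top.2 hπ)
  have h4 : ∀ q, μ (s (π q)) = μ q := fun q => by
    have h5 : π (s (π q) - q) = 0 := by
      rw [map_sub, sub_eq_zero]
      exact LinearMap.congr_fun hs (π q)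
    have h6 := hI _ h5
    rwa [map_sub, sub_eq_zero] at h6
  have h5 := congrArg (fun z => TensorProduct.rid K D ((μ ∘ₗ s).lTensor D z)) h
  rw [xl, List.map_ofFn] at h5
  simp only [Function.comp_def, xx] at h5
  rw [prod_ofFn_sum] at h5
  simp only [prod_tmul, map_sum, LinearMap.lTensor_tmul, TensorProduct.rid_tmul, map_zero,
    ← map_prod, LinearMap.comp_apply, h4] at h5
  have h6 := Fintype.linearIndependent_iff.1 h3 _ h5
  refine h0 (LinearMap.ext fun q => ?_)
  rw [← ann_aux3 hμ]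
  exact mono_zero m μ h6 _ (homogeneousComponent_isHomogeneous m q)

/-- Products of generic linear forms lie in the span of the forms of the right degree. -/
theorem xl_mem (L : List (Fin p)) : xl (xx π g) L ∈
    Submodule.span D {z | ∃ q : Pol N K, q.IsHomogeneous L.length ∧ z = ot D π q} := by
  induction L using List.reverseRecOn with
  | nil => exact Submodule.subset_span ⟨1, isHomogeneous_one _ _, (map_one _).symm⟩
  | append_singleton L j ih =>
    rw [xl_append, xl_one, List.length_append, List.length_singleton]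
    generalize xl (xx π g) L = z at ih
    induction ih using Submodule.span_induction with
    | mem x hx =>
      obtain ⟨q, hq, rfl⟩ := hx
      rw [xx_eq, Finset.mul_sum]
      refine Submodule.sum_mem _ fun a _ => ?_
      rw [ot_mul_smul, ← map_mul]
      exact Submodule.smul_mem _ _ (Submodule.subset_span ⟨_, hq.mul (isHomogeneous_X K a), rfl⟩)
    | zero => simp
    | add x y _ _ hx hy =>
      rw [add_mul]
      exact Submodule.add_mem _ hx hy
    | smul a x _ hx =>
      rw [smul_mul_assoc]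
      exact Submodule.smul_mem _ _ hx

theorem xl_mem_of_hf (hI : ∀ q, π q = 0 ↔ q ∈ I) (g : Fin p → Fin N → D) {t r : ℕ}
    (h : hf I t ≤ r) : ∃ w : Fin r → D ⊗[K] R, ∀ L : List (Fin p), L.length = t →
      xl (xx π g) L ∈ Submodule.span D (Set.range w) := by
  obtain ⟨y, -, hy⟩ := exists_span_of_hf_le h
  refine ⟨fun j => ot D π (y j), fun L hL => Submodule.span_le.2 ?_ (xl_mem L)⟩
  rintro _ ⟨q, hq, rfl⟩
  obtain ⟨c, hc⟩ := hy q (hL ▸ hq)
  have h1 : ot D π q = ot D π (∑ j, c j • y j) := by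
    have h2 := (hI _).2 hc
    rw [map_sub, sub_eq_zero] at h2
    rw [ot_apply, ot_apply, h2]
  rw [h1, map_sum]
  refine Submodule.sum_mem _ fun j _ => ?_
  rw [map_smul]
  exact Submodule.smul_of_tower_mem _ _ (Submodule.subset_span ⟨j, rfl⟩)

theorem hf_le_card (hI : ∀ q, π q = 0 ↔ q ∈ I) {κ : Type} [Fintype κ] {t : ℕ}
    {w : κ → D ⊗[K] R}
    (h : ∀ q : Pol N K, q.IsHomogeneous t → ot D π q ∈ Submodule.span D (Set.range w)) :
    hf I t ≤ Fintype.card κ := by
  obtain ⟨y, hy, hc⟩ := exists_indep I t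
  have h0 : LinearIndependent K fun j => π (y j) :=
    Fintype.linearIndependent_iff.2 fun c h1 => hc c ((hI _).1 (by
      rw [map_sum, ← h1]
      exact Finset.sum_congr rfl fun j _ => map_smul π _ _))
  have h2 := card_le_of_span (Module.Flat.linearIndependent_one_tmul (S := D) h0) (w := w)
    fun i => h _ (hy i)
  rwa [Fintype.card_fin] at h2

theorem ot_mem (hg : ⊤ ≤ Submodule.span D (Set.range g)) (t : ℕ) :
    ∀ q : Pol N K, q.IsHomogeneous t →
      ot D π q ∈ Submodule.span D {z | ∃ L : List (Fin p), L.length = t ∧ z = xl (xx π g) L} := by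
  have h1 : ∀ a, ∃ d : Fin p → D, ot D π (X a) = ∑ j, d j • xx π g j := fun a => by
    obtain ⟨d, hd⟩ := (Submodule.mem_span_range_iff_exists_fun D).1
      (hg (Submodule.mem_top (x := Pi.single a 1)))
    refine ⟨d, ?_⟩
    have h2 := congrArg (Fintype.linearCombination D fun b => ot D π (X b)) hd
    rw [Fintype.linearCombination_apply_single, one_smul, map_sum] at h2
    rw [← h2]
    refine Finset.sum_congr rfl fun j _ => ?_
    rw [map_smul, Fintype.linearCombination_apply, xx_eq]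
  induction t with
  | zero =>
    intro q hq
    rw [px_const hq, ← mul_one (C _), C_mul', map_smul, map_one]
    exact Submodule.smul_of_tower_mem _ _ (Submodule.subset_span ⟨[], rfl, rfl⟩)
  | succ t ih =>
    intro q hq
    obtain ⟨u, hu, rfl⟩ := pl_dec hq
    rw [map_sum]
    refine Submodule.sum_mem _ fun a _ => ?_
    obtain ⟨d, hd⟩ := h1 a
    rw [map_mul, hd, Finset.mul_sum]
    refine Submodule.sum_mem _ fun j _ => ?_
    rw [ot_mul_smul]
    refine Submodule.smul_mem _ _ ?_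
    have h2 := ih _ (hu a)
    generalize ot D π (u a) = z at h2
    induction h2 using Submodule.span_induction with
    | mem x hx =>
      obtain ⟨L, hL, rfl⟩ := hx
      exact Submodule.subset_span ⟨L ++ [j], by simp [hL], by rw [xl_append, xl_one]⟩
    | zero => simp
    | add x y _ _ hx hy =>
      rw [add_mul]
      exact Submodule.add_mem _ hx hy
    | smul a x _ hx =>
      rw [smul_mul_assoc]
      exact Submodule.smul_mem _ _ hx

theorem head_indep {m r : ℕ} {g : Fin (m + r) → Fin N → D} (a₀ : Fin r → Fin N)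
    (h3 : LinearIndependent K
      fun a : Fin (m + r) → Fin N => (List.ofFn fun i => g i (a i)).prod) :
    LinearIndependent K
      fun a : Fin m → Fin N => (List.ofFn fun i => g (Fin.castAdd r i) (a i)).prod := by
  refine LinearIndependent.of_comp
    (LinearMap.mulRight K (List.ofFn fun i => g (Fin.natAdd m i) (a₀ i)).prod) ?_
  have h4 := h3.comp (fun a : Fin m → Fin N => Fin.append a a₀) fun a b hab => funext fun i => by
    simpa using congrFun hab (Fin.castAdd r i)
  have h5 : ∀ a : Fin m → Fin N, (List.ofFn fun i => g i (Fin.append a a₀ i)).prod =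
      (List.ofFn fun i => g (Fin.castAdd r i) (a i)).prod *
        (List.ofFn fun i => g (Fin.natAdd m i) (a₀ i)).prod := fun a => by
    rw [← List.prod_append, ← List.ofFn_fin_append]
    congr 2
    funext i
    refine Fin.addCases (fun i => ?_) (fun i => ?_) i
    · rw [Fin.append_left, Fin.append_left]
    · rw [Fin.append_right, Fin.append_right]
  simp only [Function.comp_def, h5] at h4
  exact h4

end tensor

variable [CharZero K]

/-- The coefficient vectors of the generic linear forms span. -/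
theorem rows_top {D : Type} [DivisionRing D] [Algebra K D] {g : Fin N → Fin N → D}
    {f : Fin N → Pol N K} (hf1 : ∀ j, (f j).IsHomogeneous 2)
    (hf2 : ∀ i, ∃ M, (X i : Pol N K) ^ M ∈ lid f)
    (h1 : ∀ i j a b, i ≠ j → g i a * g j b = -(g j b * g i a))
    (h2 : ∀ φ : Pol N K →ₗ[K] K, (∀ j, φ (f j) = 0) →
      ∀ i, ∑ a, ∑ b, φ (X a * X b) • (g i a * g i b) = 0)
    (h3 : LinearIndependent K fun a : Fin N → Fin N => (List.ofFn fun i => g i (a i)).prod) :
    ⊤ ≤ Submodule.span D (Set.range g) := by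
  classical
  obtain ⟨ρ, hρ0, hρ, hJ⟩ := exists_soc (y := f) (n := fun _ => 1) hf1 hf2
  rw [Finset.sum_const, Finset.card_univ, Fintype.card_fin, smul_eq_mul, mul_one] at hρ
  obtain ⟨R', _, _, π', hπ', hI'⟩ := exists_quot (ann ρ)
  have hB : Anti (xx π' g) := xx_anti (fun j => (hI' _).2 (hJ ▸ px_x_mem f j)) h1 h2
  have h7 := (hB.indep (D := D) (xx_ne hρ hρ0 hπ' (fun q hq => by simpa using (hI' q).1 hq 1)
    id h3) 1).comp (fun j : Fin N => ⟨{j}, by simp⟩) fun i j hij => by simpa using hij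
  have h8 : LinearIndependent D g := by
    refine LinearIndependent.of_comp (Fintype.linearCombination D fun b => ot D π' (X b)) ?_
    simp only [Function.comp_def, Finset.toList_singleton, xl_one, xx_eq] at h7
    simp only [Function.comp_def, Fintype.linearCombination_apply]
    exact h7
  exact (h8.span_eq_top_of_card_eq_finrank' (by simp)).ge

theorem quad_core {m r : ℕ} {μ : Pol (m + r) K →ₗ[K] K} (hμ : Conc μ m) (h0 : μ ≠ 0)
    (hb : Bpf (ann μ) 2) : (∀ t, m.choose t ≤ hf (ann μ) t) ∧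
      (4 ≤ m → hf (ann μ) 3 ≤ m.choose 3 → hf (ann μ) 1 ≤ m) := by
  classical
  obtain ⟨f, hf1, hf2⟩ := exists_param (by omega) hb
  obtain ⟨D, _, _, g, h1, h2, h3⟩ := exists_clif f (fun j => (hf1 j).2) hf2 (m + r)
  obtain ⟨R, _, _, π, hπ, hI⟩ := exists_quot (ann μ)
  have hA : Anti (xx π g) := xx_anti (fun j => (hI _).2 (hf1 j).1) h1 h2
  have hM : ∀ t, Fintype.card ((List.ofFn (Fin.castAdd r : Fin m → _)).toFinset.powersetCard t) =
      m.choose t := fun t => by
    rw [Fintype.card_coe, Finset.card_powersetCard, List.toFinset_card_of_nodup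
      (List.nodup_ofFn.2 (Fin.castAdd_injective m r)), List.length_ofFn]
  have h4 := xx_ne hμ h0 hπ (fun q hq => by simpa using (hI q).1 hq 1) (Fin.castAdd r)
    (head_indep (Fin.natAdd m) h3)
  have h5 : ∀ t, ∀ s : (List.ofFn (Fin.castAdd r : Fin m → _)).toFinset.powersetCard t,
      s.1.toList.length = t := fun t s => by
    rw [Finset.length_toList, (Finset.mem_powersetCard.1 s.2).2]
  refine ⟨fun t => ?_, fun hm h6 => ?_⟩
  · obtain ⟨w, hw⟩ := xl_mem_of_hf hI g (le_refl (hf (ann μ) t))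
    have h6 := card_le_of_span (hA.indep (D := D) h4 t) fun s => hw _ (h5 t s)
    rwa [hM, Fintype.card_fin] at h6
  have h9 := rows_top (fun j => (hf1 j).2) hf2 h1 h2 h3
  obtain ⟨w, hw⟩ := xl_mem_of_hf hI g h6
  have h10 := span_le_of_card (hA.indep (D := D) h4 3) (fun s => hw _ (h5 3 s))
    (by rw [hM, Fintype.card_fin])
  obtain ⟨t, rfl⟩ : ∃ t, m = t + 3 + 1 := ⟨m - 4, by omega⟩
  have h11 := hA.grow (D := D) (fun L hL => h10 (hw L hL)) t
  have h12 := hf_le_card hI (t := t + 3) fun q hq =>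
    Submodule.span_le.2 (by
      rintro _ ⟨L, hL, rfl⟩
      exact h11 L hL) (ot_mem h9 (t + 3) q hq)
  rw [hM, Nat.choose_succ_self_right] at h12
  rwa [hμ.hf_sym (i := 1) (j := t + 3) (by omega)]

theorem quad_lower {m : ℕ} {μ : Pol N K →ₗ[K] K} (hm : m ≤ N) (hμ : Conc μ m) (h0 : μ ≠ 0)
    (hb : Bpf (ann μ) 2) (t : ℕ) : m.choose t ≤ hf (ann μ) t := by
  obtain ⟨r, rfl⟩ := Nat.exists_eq_add_of_le hm
  exact (quad_core hμ h0 hb).1 t

theorem quad_eq {m : ℕ} {μ : Pol N K →ₗ[K] K} (hm : m ≤ N) (hμ : Conc μ m) (h0 : μ ≠ 0)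
    (hb : Bpf (ann μ) 2) (h4 : 4 ≤ m) (h3 : hf (ann μ) 3 ≤ m.choose 3) : hf (ann μ) 1 ≤ m := by
  obtain ⟨r, rfl⟩ := Nat.exists_eq_add_of_le hm
  exact (quad_core hμ h0 hb).2 h4 h3

omit [CharZero K] in
theorem col_le {I : Ideal (Pol N K)} {R : Type} [CommRing R] [Algebra K R] {π : Pol N K →ₐ[K] R}
    (hI : ∀ q, π q = 0 ↔ q ∈ I) {y : Pol N K} {n : ℕ} (W : Submodule K R) [Module.Finite K W]
    (h : ∀ p : Pol N K, p.IsHomogeneous n → π (y * p) ∈ W) : hf (col I y) n ≤ finrank K W := by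
  have h1 := base_rank (π.toLinearMap ∘ₗ LinearMap.mulLeft K y) (Sd N K n)
  have h2 := hf_add (col I y) n
  have e : LinearMap.ker (π.toLinearMap ∘ₗ LinearMap.mulLeft K y) =
      (col I y).restrictScalars K := by
    ext q
    exact hI _
  rw [e] at h1
  have h3 : (Sd N K n).map (π.toLinearMap ∘ₗ LinearMap.mulLeft K y) ≤ W := by
    rintro _ ⟨p, hp, rfl⟩
    exact h p hp
  have h5 := Submodule.finrank_mono h3
  omega

omit [CharZero K] in
/-- The bracket relation forces the first linear form into the ideal. -/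
theorem bracket_mem {I : Ideal (Pol N K)} {m e : ℕ} (h1 : hf I 1 ≤ m) (h2 : m < hf I e)
    (hy : ∀ y : Pol N K, y.IsHomogeneous 1 → y ∉ I → 3 ≤ hf (col I y) e)
    (ha : ∀ q : Pol N K, q.IsHomogeneous e → q ∉ I → m ≤ hf (col I q) 1 + 2)
    (α β : Sd N K e → Pol N K) (hα : ∀ p, (α p).IsHomogeneous 1) (hβ : ∀ a, (β a).IsHomogeneous 1)
    (h : ∀ p a : Sd N K e, α p * a - β a * p ∈ I) (p : Sd N K e) : α p ∈ I := by
  by_contra hn
  obtain ⟨R, _, _, π, -, hI⟩ := exists_quot I
  have h3 : ∀ p a : Sd N K e, π (α p * a) = π (β a * p) := fun p a => by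
    rw [← sub_eq_zero, ← map_sub]
    exact (hI _).2 (h p a)
  obtain ⟨q, hq, hq1, hq2⟩ : ∃ q : Pol N K, q.IsHomogeneous e ∧ q ∉ I ∧ ∀ a, q * β a ∈ I := by
    by_contra! hc
    obtain ⟨y, -, hy⟩ := exists_span_of_hf_le h1
    let φ : Pol N K →ₗ[K] Sd N K e → R :=
      LinearMap.pi fun a => π.toLinearMap ∘ₗ LinearMap.mulLeft K (β a)
    let ψ : Fin m → Sd N K e → R := fun j a => π (y j * a)
    have i1 : Module.Finite K (Submodule.span K (Set.range ψ)) :=
      Module.Finite.span_of_finite K (Set.finite_range _)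
    have h4 : (Sd N K e).map φ ≤ Submodule.span K (Set.range ψ) := by
      rintro _ ⟨u, hu, rfl⟩
      obtain ⟨c, hc⟩ := hy _ (hα ⟨u, hu⟩)
      refine (Submodule.mem_span_range_iff_exists_fun K).2 ⟨c, funext fun a => ?_⟩
      have h5 := (hI _).2 (I.mul_mem_right a.1 hc)
      rw [sub_mul, map_sub, sub_eq_zero, h3, Finset.sum_mul, map_sum] at h5
      rw [Finset.sum_apply]
      refine Eq.trans (Finset.sum_congr rfl fun j _ => ?_) h5.symm
      rw [smul_mul_assoc, map_smul]
      rfl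
    have h5 := (Submodule.finrank_mono h4).trans
      ((finrank_range_le_card _).trans (Fintype.card_fin m).le)
    have h6 := base_rank φ (Sd N K e)
    have h7 := hf_add I e
    have h8 : Sd N K e ⊓ LinearMap.ker φ ≤ Sd N K e ⊓ I.restrictScalars K := fun u hu => by
      refine ⟨hu.1, ?_⟩
      by_contra h9
      obtain ⟨a, h10⟩ := hc u hu.1 h9
      exact h10 (mul_comm (β a) u ▸ (hI _).1 (congrFun hu.2 a))
    have h9 := Submodule.finrank_mono h8
    omega
  let U : Submodule K (Pol N K) := Sd N K 1 ⊓ (col I q).restrictScalars K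
  have h4 := col_le hI (y := α p) (n := e)
    (U.map (π.toLinearMap ∘ₗ LinearMap.mulRight K p.1)) fun a ha =>
      ⟨β ⟨a, ha⟩, ⟨hβ _, hq2 _⟩, (h3 p ⟨a, ha⟩).symm⟩
  have h5 := base_rank (π.toLinearMap ∘ₗ LinearMap.mulRight K p.1) U
  have h6 : Sd N K 1 ⊓ I.restrictScalars K ≤
      U ⊓ LinearMap.ker (π.toLinearMap ∘ₗ LinearMap.mulRight K p.1) := fun u hu =>
    ⟨⟨hu.1, I.mul_mem_left q hu.2⟩, (hI _).2 (I.mul_mem_right _ hu.2)⟩
  have i2 : Module.Finite K (U ⊓ LinearMap.ker (π.toLinearMap ∘ₗ LinearMap.mulRight K p.1) :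
    Submodule K (Pol N K)) := Submodule.finiteDimensional_of_le inf_le_left
  have h7 := Submodule.finrank_mono h6
  have h8 := hf_add I 1
  have h9 : _ + finrank K U = _ := hf_add (col I q) 1
  have h10 := hy _ (hα p) hn
  have h11 := ha q hq hq1
  omega

theorem Lin.plane2 {m e : ℕ} {I : Ideal (Pol (m + m) K)} {x w : Fin m → Pol (m + m) K}
    (h : Lin I e x w) (he : 1 ≤ e) {F : Pol (m + m) K} (hF : F.IsHomogeneous (e + 1))
    (hJ : jac F ≤ I) (S : Set (Pol (m + m) K →+ Pol (m + m) K))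
    (hD : ∀ E ∈ S, Der E ∧ ∀ a, E (pderiv a F) - pderiv a (E F) ∈ I)
    (hs : ∀ G ∈ I, G.IsHomogeneous (e + 1) → ∃ E ∈ S, E F = G)
    (hbr : ∀ E ∈ S, ∀ E' ∈ S, E (E' F) - E' (E F) ∈ I) (h1 : hf I 1 ≤ m) (h2 : m < hf I e)
    (hy : ∀ y : Pol (m + m) K, y.IsHomogeneous 1 → y ∉ I → 3 ≤ hf (col I y) e)
    (ha : ∀ q : Pol (m + m) K, q.IsHomogeneous e → q ∉ I → m ≤ hf (col I q) 1 + 2) :
    ∃ g : Fin m → Pol (m + m) K, (∀ i, (g i).IsHomogeneous e) ∧
      F = ∑ i, x i * g i ∧ ∀ i, g i ∈ I := by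
  refine h.split hF hJ (h.euler hF fun v hv => h.ker he hF hJ (fun u hu j => ?_) hv)
  by_contra hj
  refine (by omega : hf I e ≠ 0) (hf_eq_zero.2 fun p hp => ?_)
  have hxI : ∀ i, x i ∈ I := fun i => h.le (px_x_mem x i)
  have hG : ∀ i, ∀ a : Sd (m + m) K e, ∃ E ∈ S, E F = x i * a := by
    intro i a
    refine hs _ (I.mul_mem_right _ (hxI i)) ?_
    rw [add_comm e 1]
    exact (h.hx i).mul a.2
  choose Φ hΦ hΦF using hG
  have hx : ∀ i, Φ j ⟨p, hp⟩ (x i) ∈ I := fun i =>
    bracket_mem h1 h2 hy ha (fun p => Φ j p (x i)) (fun a => Φ i a (x j))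
      (fun p => (hD _ (hΦ j p)).1.homog 1 _ (h.hx i))
      (fun a => (hD _ (hΦ i a)).1.homog 1 _ (h.hx j)) (fun p a => by
        have h3 := hbr _ (hΦ j p) _ (hΦ i a)
        rw [hΦF, hΦF, (hD _ (hΦ j p)).1.leib, (hD _ (hΦ i a)).1.leib] at h3
        have h4 := I.add_mem (I.sub_mem h3 (I.mul_mem_right (Φ j p a) (hxI i)))
          (I.mul_mem_right (Φ i a p) (hxI j))
        convert h4 using 1
        ring) _
  have hEF : Φ j ⟨p, hp⟩ F = x j * p := hΦF j ⟨p, hp⟩
  obtain ⟨hd, hI⟩ := hD _ (hΦ j ⟨p, hp⟩)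
  generalize Φ j ⟨p, hp⟩ = E at hx hEF hd hI
  obtain ⟨q, hq⟩ := px_mem_lid.1 hu
  have hc := px_const (pxd_homog (n := 0) (h.hx j) u)
  set c := coeff 0 (pxd (x j) u)
  have hc0 : c ≠ 0 := fun e0 => hj (by rw [hc, e0, map_zero])
  have h3 : E (pxd F u) - pxd (x j * p) u ∈ I := by
    rw [pxd_apply, pxd_apply, map_sum, ← Finset.sum_sub_distrib]
    refine I.sum_mem fun a _ => ?_
    rw [smul_eq_C_mul, smul_eq_C_mul, hd.leib, add_sub_assoc, ← mul_sub, ← hEF]
    exact I.add_mem (I.mul_mem_left _ (hJ (Ideal.subset_span ⟨a, rfl⟩)))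
      (I.mul_mem_left _ (hI a))
  have h4 : E (pxd F u) ∈ I := by
    rw [← hq, map_sum]
    refine I.sum_mem fun i _ => ?_
    rw [hd.leib]
    exact I.add_mem (I.mul_mem_left _ (hxI i)) (I.mul_mem_left _ (hx i))
  have h5 := I.mul_mem_left (C c⁻¹) (I.sub_mem (I.sub_mem h4 h3)
    (I.mul_mem_right (pxd p u) (hxI j)))
  have e2 : (C c⁻¹ : Pol (m + m) K) * C c = 1 := by
    rw [← map_mul, inv_mul_cancel₀ hc0, map_one]
  rw [pxd_mul, hc] at h5
  convert h5 using 1
  linear_combination (-p) * e2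

theorem col_lower {m n : ℕ} {μ : Pol N K →ₗ[K] K} (hm : m ≤ N) (hμ : Conc μ (m + n))
    (hb : Bpf (ann μ) 2) {q : Pol N K} (hq : q.IsHomogeneous n) (hn : q ∉ ann μ) (t : ℕ) :
    m.choose t ≤ hf (col (ann μ) q) t := by
  rw [col_ann]
  refine quad_lower hm (hμ.sh hq) (sh_ne_zero hn) (hb.mono fun a ha => ?_) t
  rw [← col_ann]
  exact Ideal.mul_mem_left _ _ ha

theorem choose_three (k : ℕ) : (2 + 1 + k).choose k = (k + 1).choose 3 + (k + 1) ^ 2 := by
  rw [← Nat.choose_symm_add, show 2 + 1 + k = k + 1 + 1 + 1 by omega]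
  have h1 : (k + 1).choose 2 * 2 = (k + 1) * k := by
    rw [Nat.choose_two_right]
    exact Nat.div_mul_cancel (by simpa [mul_comm] using (Nat.even_mul_succ_self k).two_dvd)
  have h2 := Nat.choose_succ_succ' (k + 1 + 1) 2
  have h3 := Nat.choose_succ_succ' (k + 1) 2
  have h4 := Nat.choose_succ_succ' (k + 1) 1
  rw [Nat.choose_one_right] at h4
  norm_num at h2 h3 h4 ⊢
  nlinarith

end Pool.Agent.Lib.MP_e9c0f3_ag.MC
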