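import Pool.Agent.Lib.MP_e9c0f3_ag.MC.Ann

/-! A regularity bound for base point free systems. -/

open MvPolynomial Module

namespace Pool.Agent.Lib.MP_e9c0f3_ag.MC

variable {K : Type} [Field K] {N : ℕ}

/-- Forms of an integer degree. -/
def HZ (n : ℤ) (p : Pol N K) : Prop := p.IsHomogeneous n.toNat ∧ (n < 0 → p = 0)

theorem HZ.zero (n : ℤ) : HZ n (0 : Pol N K) := ⟨isHomogeneous_zero _ _ _, fun _ => rfl⟩

theorem HZ.add {n : ℤ} {p q : Pol N K} (hp : HZ n p) (hq : HZ n q) : HZ n (p + q) :=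
  ⟨hp.1.add hq.1, fun h => by rw [hp.2 h, hq.2 h, add_zero]⟩

theorem HZ.sub {n : ℤ} {p q : Pol N K} (hp : HZ n p) (hq : HZ n q) : HZ n (p - q) :=
  ⟨hp.1.sub hq.1, fun h => by rw [hp.2 h, hq.2 h, sub_zero]⟩

theorem HZ.sum {α : Type} {n : ℤ} (s : Finset α) {p : α → Pol N K} (hp : ∀ i ∈ s, HZ n (p i)) :
    HZ n (∑ i ∈ s, p i) :=
  Finset.sum_induction p (HZ n) (fun _ _ => HZ.add) (HZ.zero n) hp

theorem HZ.mul {m n r : ℤ} {p q : Pol N K} (hp : HZ m p) (hq : HZ n q) (h : m + n = r) :
    HZ r (p * q) := by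
  by_cases h1 : m < 0
  · rw [hp.2 h1, zero_mul]
    exact HZ.zero _
  by_cases h2 : n < 0
  · rw [hq.2 h2, mul_zero]
    exact HZ.zero _
  refine ⟨?_, fun h3 => by omega⟩
  rw [show r.toNat = m.toNat + n.toNat by omega]
  exact hp.1.mul hq.1

theorem hz_of {n : ℕ} {p : Pol N K} (h : p.IsHomogeneous n) : HZ n p :=
  ⟨by rwa [Int.toNat_natCast], fun h => by omega⟩

theorem hz_dec {ι : Type} [Fintype ι] {a : ι → Pol N K} {deg : ι → ℕ}
    (ha : ∀ i, (a i).IsHomogeneous (deg i)) {J : Ideal (Pol N K)} (hJ : Hg J) {n : ℤ}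
    {g : Pol N K} (hg : HZ n g) (hm : g ∈ lid a ⊔ J) :
    ∃ b : ι → Pol N K, (∀ i, HZ (n - deg i) (b i)) ∧ g - ∑ i, b i * a i ∈ J := by
  by_cases hn : n < 0
  · exact ⟨0, fun i => HZ.zero _, by simp [hg.2 hn]⟩
  obtain ⟨u, hu, r, hr, h⟩ := Submodule.mem_sup.1 hm
  obtain ⟨c, rfl⟩ := Ideal.mem_span_range_iff_exists_fun.1 hu
  refine ⟨fun i => if deg i ≤ n.toNat then homogeneousComponent (n.toNat - deg i) (c i) else 0,
    fun i => ?_, ?_⟩
  · dsimp only
    split_ifs with h1
    · have := hz_of (homogeneousComponent_isHomogeneous (n.toNat - deg i) (c i))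
      rwa [show ((n.toNat - deg i : ℕ) : ℤ) = n - deg i by omega] at this
    · exact HZ.zero _
  · have h1 := congrArg (homogeneousComponent n.toNat) h
    rw [homogeneousComponent_of_mem hg.1, if_pos rfl, map_add, map_sum] at h1
    have h2 : ∀ i, homogeneousComponent n.toNat (c i * a i) = (if deg i ≤ n.toNat then
        homogeneousComponent (n.toNat - deg i) (c i) else 0) * a i := fun i => by
      rw [mul_comm, tw2_hc_mul (ha i)]
      split_ifs
      · rw [mul_comm]
      · rw [zero_mul]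
    simp only [h2] at h1
    rw [← h1, add_sub_cancel_left]
    exact hJ r hr _

section chains

variable {ι : Type} [Fintype ι] [DecidableEq ι] (a : ι → Pol N K) (deg : ι → ℕ)

/-- The components of the differential of the tensor algebra. -/
noncomputable def dd : List ι → (List ι → Pol N K) →ₗ[Pol N K] Pol N K
  | [] => ∑ i, a i • LinearMap.proj [i]
  | j :: f => ∑ i, a i • LinearMap.proj (i :: j :: f) -
      (dd f).comp (LinearMap.funLeft _ _ (List.cons j))

/-- The differential. -/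
noncomputable def DD : (List ι → Pol N K) →ₗ[Pol N K] List ι → Pol N K := LinearMap.pi (dd a)

/-- The homotopy. -/
noncomputable def hh (i : ι) (z : List ι → Pol N K) : List ι → Pol N K
  | [] => 0
  | j :: f => if j = i then z f else 0

/-- The weight of a word. -/
def wt (f : List ι) : ℤ := (f.map fun i => (deg i : ℤ)).sum

omit [DecidableEq ι] in
theorem dd_nil (z : List ι → Pol N K) : dd a [] z = ∑ i, a i * z [i] := by
  simp [dd]

omit [DecidableEq ι] in
theorem dd_cons (j : ι) (f : List ι) (z : List ι → Pol N K) :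
    dd a (j :: f) z = ∑ i, a i * z (i :: j :: f) - dd a f fun g => z (j :: g) := by
  simp only [dd, LinearMap.sub_apply, LinearMap.coe_sum, Finset.sum_apply, LinearMap.smul_apply,
    LinearMap.proj_apply, smul_eq_mul, LinearMap.comp_apply]
  rfl

omit [DecidableEq ι] in
theorem DD_apply (z : List ι → Pol N K) (f : List ι) : DD a z f = dd a f z := rfl

omit [DecidableEq ι] in
theorem dd_DD (f : List ι) : ∀ z, dd a f (DD a z) = 0 := by
  induction f with
  | nil =>
    intro z
    simp only [dd_nil, DD_apply, dd_cons, mul_sub, Finset.mul_sum, Finset.sum_sub_distrib]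
    rw [Finset.sum_comm, sub_eq_zero]
    exact Finset.sum_congr rfl fun i _ => Finset.sum_congr rfl fun k _ => by ring
  | cons j f ih =>
    intro z
    have h1 : (fun g => DD a z (j :: g)) =
        ∑ k, a k • (fun g => z (k :: j :: g)) - DD a fun g => z (j :: g) := by
      funext g
      simp [DD_apply, dd_cons]
    rw [dd_cons, h1, map_sub, ih, map_sum]
    simp only [DD_apply, dd_cons, mul_sub, Finset.mul_sum, Finset.sum_sub_distrib, map_smul,
      smul_eq_mul]
    have h2 : ∑ i, ∑ k, a i * (a k * z (k :: i :: j :: f)) =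
        ∑ i, ∑ k, a i * (a k * z (i :: k :: j :: f)) := by
      rw [Finset.sum_comm]
      exact Finset.sum_congr rfl fun i _ => Finset.sum_congr rfl fun k _ => by ring
    rw [h2]
    ring

theorem dd_hh (i : ι) (z : List ι → Pol N K) (f : List ι) :
    dd a f (hh i z) = a i * z f - hh i (DD a z) f := by
  cases f with
  | nil => simp [dd_nil, hh]
  | cons j f =>
    rw [dd_cons]
    by_cases h : j = i
    · simp [hh, h, DD_apply]
    · have : (fun g => hh i z (j :: g)) = 0 := by
        funext g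
        simp [hh, h]
      rw [this, map_zero]
      simp [hh, h]

omit [DecidableEq ι] in
theorem dd_mem {J : Ideal (Pol N K)} (f : List ι) : ∀ z : List ι → Pol N K,
    (∀ g, g.length = f.length + 1 → z g ∈ J) → dd a f z ∈ J := by
  induction f with
  | nil =>
    intro z h
    rw [dd_nil]
    exact J.sum_mem fun i _ => J.mul_mem_left _ (h _ rfl)
  | cons j f ih =>
    intro z h
    rw [dd_cons]
    exact J.sub_mem (J.sum_mem fun i _ => J.mul_mem_left _ (h _ rfl))
      (ih _ fun g hg => h _ (by simp [hg]))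

omit [Fintype ι] [DecidableEq ι] in
theorem wt_cons (j : ι) (f : List ι) : wt deg (j :: f) = deg j + wt deg f := by
  simp [wt]

omit [Fintype ι] [DecidableEq ι] in
theorem wt_le {e : ℕ} (h : ∀ i, deg i ≤ e) (f : List ι) : wt deg f ≤ f.length * e := by
  induction f with
  | nil => simp [wt]
  | cons j f ih =>
    have := h j
    rw [wt_cons, List.length_cons]
    push_cast
    linarith [(Int.ofNat_le.2 this : (deg j : ℤ) ≤ e)]

/-- Chains of level `i` and degree `n`. -/
def Dg (i : ℕ) (n : ℤ) (z : List ι → Pol N K) : Prop :=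
  ∀ f, f.length = i → HZ (n - wt deg f) (z f)

/-- Chains with values in `J`. -/
def Sm (i : ℕ) (J : Ideal (Pol N K)) (z : List ι → Pol N K) : Prop :=
  ∀ f, f.length = i → z f ∈ J

/-- Cycles modulo `J`. -/
def Cy (i : ℕ) (J : Ideal (Pol N K)) (z : List ι → Pol N K) : Prop :=
  ∀ f, f.length + 1 = i → dd a f z ∈ J

/-- Boundaries modulo `J`. -/
def Bd (i : ℕ) (J : Ideal (Pol N K)) (n : ℤ) (z : List ι → Pol N K) : Prop :=
  ∃ u, Dg deg (i + 1) n u ∧ Sm i J (z - DD a u)

/-- Exactness modulo `J` from degree `T` on. -/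
def Ex (i : ℕ) (J : Ideal (Pol N K)) (T : ℤ) : Prop :=
  ∀ n, T ≤ n → ∀ z, Dg deg i n z → Cy a i J z → Bd a deg i J n z

variable {a deg} {i : ℕ} {J : Ideal (Pol N K)} {n : ℤ} {z z' : List ι → Pol N K}

omit [DecidableEq ι] in
theorem dd_deg (ha : ∀ i, (a i).IsHomogeneous (deg i)) (f : List ι) :
    ∀ (n : ℤ) (z : List ι → Pol N K), Dg deg (f.length + 1) n z →
      HZ (n - wt deg f) (dd a f z) := by
  induction f with
  | nil =>
    intro n z h
    rw [dd_nil]
    exact HZ.sum _ fun i _ => (hz_of (ha i)).mul (h [i] rfl) (by rw [wt_cons]; ring)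
  | cons j f ih =>
    intro n z h
    rw [dd_cons]
    refine HZ.sub (HZ.sum _ fun i _ => (hz_of (ha i)).mul (h _ rfl) (by rw [wt_cons]; ring)) ?_
    have := ih (n - deg j) (fun g => z (j :: g)) fun g hg => by
      have := h (j :: g) (by simp [hg])
      rwa [wt_cons, ← sub_sub] at this
    rwa [wt_cons, ← sub_sub]

omit [DecidableEq ι] in
theorem Dg.DD (ha : ∀ i, (a i).IsHomogeneous (deg i)) (h : Dg deg (i + 1) n z) :
    Dg deg i n (DD a z) := fun f hf => dd_deg ha f n z (hf ▸ h)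

omit [Fintype ι] [DecidableEq ι] in
theorem Dg.add (h : Dg deg i n z) (h' : Dg deg i n z') : Dg deg i n (z + z') :=
  fun f hf => (h f hf).add (h' f hf)

omit [Fintype ι] [DecidableEq ι] in
theorem Dg.sub (h : Dg deg i n z) (h' : Dg deg i n z') : Dg deg i n (z - z') :=
  fun f hf => (h f hf).sub (h' f hf)

omit [Fintype ι] [DecidableEq ι] in
theorem Dg.smul {m r : ℤ} {g : Pol N K} (hg : HZ m g) (h : Dg deg i n z) (hr : m + n = r) :
    Dg deg i r (g • z) := fun f hf => hg.mul (h f hf) (by rw [← hr]; ring)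

omit [Fintype ι] [DecidableEq ι] in
theorem Dg.sum {α : Type} (s : Finset α) {z : α → List ι → Pol N K}
    (h : ∀ b ∈ s, Dg deg i n (z b)) : Dg deg i n (∑ b ∈ s, z b) :=
  Finset.sum_induction z (Dg deg i n) (fun _ _ => Dg.add) (fun _ _ => HZ.zero _) h

omit [DecidableEq ι] in
theorem Sm.cy (h : Sm i J z) : Cy a i J z := fun f hf => dd_mem a f z fun g hg => h g (hg ▸ hf)

omit [DecidableEq ι] in
theorem Bd.of_sub (h : Bd a deg i J n z') (hz : Sm i J (z - z')) : Bd a deg i J n z := by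
  obtain ⟨u, h1, h2⟩ := h
  refine ⟨u, h1, fun f hf => ?_⟩
  have := J.add_mem (hz f hf) (h2 f hf)
  simpa using this

omit [DecidableEq ι] in
theorem Bd.sum {α : Type} (s : Finset α) {z : α → List ι → Pol N K}
    (h : ∀ b ∈ s, Bd a deg i J n (z b)) : Bd a deg i J n (∑ b ∈ s, z b) := by
  refine Finset.sum_induction z (Bd a deg i J n) ?_ ⟨0, fun _ _ => HZ.zero _, fun f _ => by simp⟩ h
  rintro z z' ⟨u, h1, h2⟩ ⟨u', h1', h2'⟩
  refine ⟨u + u', h1.add h1', fun f hf => ?_⟩
  have := J.add_mem (h2 f hf) (h2' f hf)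
  convert this using 1
  simp only [map_add, Pi.sub_apply, Pi.add_apply]
  ring

theorem kill (ha : ∀ i, (a i).IsHomogeneous (deg i)) (hJ : Hg J) {m r : ℤ} {g : Pol N K}
    (hg : HZ m g) (hm : g ∈ lid a ⊔ J) (h : Dg deg i n z) (hc : Cy a i J z) (hr : m + n = r) :
    Bd a deg i J r (g • z) := by
  obtain ⟨b, hb, hb'⟩ := hz_dec ha hJ hg hm
  refine ⟨∑ k, b k • hh k z, Dg.sum _ fun k _ => Dg.smul (n := n + deg k) (hb k) ?_ (by omega),
    fun f hf => ?_⟩
  · rintro (_ | ⟨j, f⟩) hf
    · exact HZ.zero _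
    · by_cases hj : j = k
      · subst hj
        have := h f (by simpa using hf)
        simp only [hh, if_true]
        rwa [wt_cons, show n + deg j - (deg j + wt deg f) = n - wt deg f by ring]
      · simp only [hh, if_neg hj]
        exact HZ.zero _
  · have h1 : ∀ k, hh k (DD a z) f ∈ J := fun k => by
      cases f with
      | nil => exact J.zero_mem
      | cons j f =>
        simp only [hh]
        split_ifs
        · exact hc f hf
        · exact J.zero_mem
    have h2 := J.add_mem (J.mul_mem_right (z f) hb') (J.sum_mem (t := Finset.univ) fun k _ =>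
      J.mul_mem_left (b k) (h1 k))
    convert h2 using 1
    simp only [Pi.sub_apply, Pi.smul_apply, smul_eq_mul, DD_apply, map_sum, map_smul, dd_hh,
      sub_mul, mul_sub, Finset.sum_mul, Finset.sum_sub_distrib, mul_assoc, Finset.sum_apply]
    ring

omit [Fintype ι] [DecidableEq ι] in
theorem Dg.div (hJ : Hg J) {y : Pol N K} (hy : y.IsHomogeneous 1) (h : Dg deg i n z)
    (hs : Sm i (J ⊔ Ideal.span {y}) z) : ∃ v, Dg deg i (n - 1) v ∧ Sm i J (z - y • v) := by
  have h1 : ∀ f : List ι, ∃ q, f.length = i → HZ (n - 1 - wt deg f) q ∧ z f - y * q ∈ J :=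
    fun f => by
      by_cases hf : f.length = i
      · obtain ⟨b, h2, h3⟩ := hz_dec (a := fun _ : Unit => y) (deg := fun _ => 1) (fun _ => hy) hJ
          (h f hf) (by rw [sup_comm, lid, Set.range_const]; exact hs f hf)
        refine ⟨b (), fun _ => ⟨?_, by simpa [mul_comm] using h3⟩⟩
        rw [sub_right_comm]
        exact h2 ()
      · exact ⟨0, fun h => absurd h hf⟩
  choose v hv using h1
  exact ⟨v, fun f hf => (hv f hf).1, fun f hf => (hv f hf).2⟩

variable (ha : ∀ i, (a i).IsHomogeneous (deg i)) (hJ : Hg J) {y : Pol N K}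
  (hy : y.IsHomogeneous 1) (hr : ∀ p, y * p ∈ J → p ∈ J)

include ha hJ hy hr

theorem step_down {M : ℕ} (hM : y ^ M ∈ lid a) {T : ℤ}
    (h : Ex a deg (i + 1) (J ⊔ Ideal.span {y}) (T + 1)) : Ex a deg i J T := by
  intro n hn z hz hc
  have key : ∀ r : ℕ, Bd a deg i J (n + (r + 1 : ℕ)) (y ^ (r + 1) • z) →
      Bd a deg i J (n + r) (y ^ r • z) := by
    rintro r ⟨w, h1, h2⟩
    obtain ⟨u, h3, h4⟩ := h _ (by push_cast; omega) w h1 fun f hf => by
      have h3 : y ^ (r + 1) * z f - dd a f w ∈ J := h2 f (by omega)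
      have h4 : y ^ (r + 1) * z f ∈ Ideal.span {y} :=
        Ideal.mem_span_singleton'.2 ⟨y ^ r * z f, by ring⟩
      have := Ideal.sub_mem _ (Ideal.mem_sup_right h4 : _ ∈ J ⊔ Ideal.span {y})
        (Ideal.mem_sup_left h3)
      simpa using this
    obtain ⟨v, h5, h6⟩ := (h1.sub (h3.DD ha)).div hJ hy h4
    refine ⟨v, by rwa [show n + ((r + 1 : ℕ) : ℤ) - 1 = n + r by push_cast; ring] at h5,
      fun f hf => hr _ ?_⟩
    have h7 := (h6.cy (a := a)) f (by omega)
    rw [map_sub, map_sub, dd_DD, map_smul] at h7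
    have := J.add_mem (h2 f hf) h7
    convert this using 1
    simp only [Pi.sub_apply, Pi.smul_apply, smul_eq_mul, DD_apply]
    ring
  have h1 : ∀ r : ℕ, Bd a deg i J (n + r) (y ^ r • z) → Bd a deg i J n z := fun r => by
    induction r with
    | zero => simp
    | succ r ih => exact fun h => ih (key r h)
  refine h1 M (kill ha hJ (hz_of (n := M) ?_) (Ideal.mem_sup_left hM) hz hc (add_comm _ _))
  simpa using hy.pow M

omit [DecidableEq ι] in
theorem step_sur {T : ℤ} (h : Ex a deg i J T) (hn : T + 1 ≤ n) (hz : Dg deg (i + 1) n z)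
    (hc : Cy a (i + 1) (J ⊔ Ideal.span {y}) z) :
    ∃ u, Dg deg (i + 1) (n - 1) u ∧ Cy a (i + 1) J (z - y • u) := by
  obtain ⟨w, h1, h2⟩ := (hz.DD ha).div hJ hy fun f hf => hc f (by omega)
  obtain ⟨u, h3, h4⟩ := h _ (by omega) w h1 fun f hf => hr _ (by
    have := (h2.cy (a := a)) f hf
    rw [map_sub, dd_DD, map_smul, zero_sub] at this
    exact J.neg_mem_iff.1 this)
  refine ⟨u, h3, fun f hf => ?_⟩
  have := J.add_mem (h2 f (by omega)) (J.mul_mem_left y (h4 f (by omega)))
  convert this using 1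
  simp only [map_sub, map_smul, Pi.sub_apply, Pi.smul_apply, smul_eq_mul, DD_apply]
  ring

end chains

/-- A complete flag of ideals of linear forms. -/
structure Flag (L : ℕ → Ideal (Pol N K)) (y : ℕ → Pol N K) : Prop where
  hg : ∀ j, Hg (L j)
  lin : ∀ j, (y j).IsHomogeneous 1
  succ : ∀ j, L (j + 1) = L j ⊔ Ideal.span {y j}
  reg : ∀ j, j < N → ∀ p, y j * p ∈ L j → p ∈ L j
  top : ∀ n, 0 < n → ∀ p, HZ n p → p ∈ L N
  zero : L 0 = ⊥

section tower

variable {ι : Type} [Fintype ι] [DecidableEq ι] {a : ι → Pol N K} {deg : ι → ℕ}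
  {L : ℕ → Ideal (Pol N K)} {y : ℕ → Pol N K} {c e t i : ℕ}

theorem Flag.mono (h : Flag L y) : Monotone L :=
  monotone_nat_of_le_succ fun j => by
    rw [h.succ]
    exact le_sup_left

/-- Cycles lift along the flag in degrees at least `i * e`. -/
def Sur (a : ι → Pol N K) (deg : ι → ℕ) (L : ℕ → Ideal (Pol N K)) (y : ℕ → Pol N K) (c e i : ℕ) :
    Prop :=
  ∀ j, c ≤ j → j < N → ∀ n : ℤ, i * e ≤ n → ∀ z, Dg deg i n z → Cy a i (L (j + 1)) z →
    ∃ u, Dg deg i (n - 1) u ∧ Cy a i (L j) (z - y j • u)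

omit [DecidableEq ι] in
theorem Flag.gen (h : Flag L y) (he : ∀ i, deg i ≤ e) (hs : Sur a deg L y c e i) (q : ℕ) :
    ∀ j, j + q = N → c ≤ j → ∀ n : ℤ, i * e + 1 ≤ n → ∀ z, Dg deg i n z → Cy a i (L j) z →
      ∃ w : ℕ → List ι → Pol N K, (∀ b, Dg deg i (n - 1) (w b) ∧ Cy a i (L j) (w b)) ∧
        Sm i (L j) (z - ∑ b ∈ Finset.range N, y b • w b) := by
  induction q with
  | zero =>
    rintro j rfl - n hn z hz -
    refine ⟨0, fun b => ⟨fun _ _ => HZ.zero _, fun f _ => by simp⟩, fun f hf => ?_⟩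
    have := wt_le deg he f
    rw [hf] at this
    simpa using h.top _ (by omega) _ (hz f hf)
  | succ q ih =>
    intro j hj hc n hn z hz hy
    have hle := h.mono j.le_succ
    obtain ⟨w, h1, h2⟩ := ih (j + 1) (by omega) (by omega) n hn z hz fun f hf => hle (hy f hf)
    choose u h3 h4 using fun b => hs j hc (by omega) (n - 1) (by omega) (w b) (h1 b).1 (h1 b).2
    have h5 : ∀ b, Dg deg i (n - 1) (w b - y j • u b) := fun b =>
      (h1 b).1.sub (Dg.smul (hz_of (h.lin j)) (h3 b) (by push_cast; ring))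
    obtain ⟨v, h6, h7⟩ := (hz.sub (Dg.sum (Finset.range N) fun b _ =>
      Dg.smul (hz_of (h.lin b)) (h5 b) (by push_cast; ring))).div (h.hg j) (h.lin j) fun f hf => by
        rw [← h.succ]
        have h6 : y j ∈ L (j + 1) := by
          rw [h.succ]
          exact Ideal.mem_sup_right (Ideal.mem_span_singleton_self _)
        have := (L (j + 1)).add_mem (h2 f hf)
          ((L (j + 1)).mul_mem_right (∑ b ∈ Finset.range N, y b * u b f) h6)
        convert this using 1
        simp only [Pi.sub_apply, Finset.sum_apply, Pi.smul_apply, smul_eq_mul, mul_sub,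
          Finset.sum_sub_distrib, Finset.mul_sum, mul_left_comm]
        ring
    have h8 : Cy a i (L j) v := fun f hf => h.reg j (by omega) _ (by
      have h8 := (h7.cy (a := a)) f hf
      rw [map_sub, map_sub, map_sum] at h8
      have := (L j).sub_mem ((L j).sub_mem (hy f hf) ((L j).sum_mem (t := Finset.range N)
        fun b _ => (L j).mul_mem_left (y b) (h4 b f hf))) h8
      simpa using this)
    refine ⟨fun b => w b - y j • u b + if b = j then v else 0, fun b => ?_, ?_⟩
    · dsimp only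
      split_ifs
      · exact ⟨(h5 b).add h6, fun f hf => by
          rw [map_add]
          exact (L j).add_mem (h4 b f hf) (h8 f hf)⟩
      · rw [add_zero]
        exact ⟨h5 b, h4 b⟩
    · convert h7 using 1
      simp only [smul_add, Finset.sum_add_distrib, smul_ite, smul_zero, Finset.sum_ite_eq',
        Finset.mem_range, if_pos (show j < N by omega)]
      abel

theorem Flag.ex (h : Flag L y) (ha : ∀ i, (a i).IsHomogeneous (deg i)) (he : ∀ i, deg i ≤ e)
    (ht : ∀ g, HZ t g → g ∈ lid a ⊔ L c) (hs : Sur a deg L y c e i) {j : ℕ} (hc : c ≤ j)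
    (hj : j ≤ N) : Ex a deg i (L j) (i * e + t) := by
  have key : ∀ q p : ℕ, p + q = t → ∀ g : Pol N K, HZ p g → ∀ n : ℤ, i * e + q ≤ n → ∀ z,
      Dg deg i n z → Cy a i (L j) z → Bd a deg i (L j) (p + n) (g • z) := fun q => by
    induction q with
    | zero =>
      rintro p rfl g hg n - z hz hy
      exact kill ha (h.hg j) hg (sup_le_sup_left (h.mono hc) _ (ht g hg)) hz hy rfl
    | succ q ih =>
      intro p hp g hg n hn z hz hy
      obtain ⟨w, h1, h2⟩ := h.gen he hs (N - j) j (by omega) hc n (by push_cast at hn; omega) z hz hy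
      refine Bd.of_sub (Bd.sum (Finset.range N) fun b _ => ?_ :
        Bd a deg i (L j) _ (∑ b ∈ Finset.range N, (g * y b) • w b)) fun f hf => ?_
      · have := ih (p + 1) (by omega) (g * y b) (hg.mul (hz_of (h.lin b)) (by push_cast; ring))
          (n - 1) (by push_cast at hn; omega) _ (h1 b).1 (h1 b).2
        rwa [show ((p + 1 : ℕ) : ℤ) + (n - 1) = p + n by push_cast; ring] at this
      · have := (L j).mul_mem_left g (h2 f hf)
        simpa [mul_sub, Finset.mul_sum, mul_assoc] using this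
  intro n hn z hz hy
  simpa using key t 0 (zero_add t) 1 (hz_of (isHomogeneous_one _ _)) n hn z hz hy

theorem Flag.sur (h : Flag L y) (ha : ∀ i, (a i).IsHomogeneous (deg i)) (he : ∀ i, deg i ≤ e)
    (ht : ∀ g, HZ t g → g ∈ lid a ⊔ L c) (hte : t + 1 ≤ e) (i : ℕ) : Sur a deg L y c e i := by
  induction i with
  | zero => exact fun j _ _ n _ z _ _ => ⟨0, fun _ _ => HZ.zero _, fun f hf => by omega⟩
  | succ i ih =>
    intro j hc hj n hn z hz hy
    rw [h.succ] at hy
    refine step_sur ha (h.hg j) (h.lin j) (h.reg j hj) (h.ex ha he ht ih hc hj.le) ?_ hz hy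
    have : (t : ℤ) + 1 ≤ e := by exact_mod_cast hte
    push_cast at hn
    linarith

theorem Flag.mem (h : Flag L y) (ha : ∀ i, (a i).IsHomogeneous (deg i)) (he : ∀ i, deg i ≤ e)
    (ht : ∀ g, HZ t g → g ∈ lid a ⊔ L c) (hte : t + 1 ≤ e) (hc : c ≤ N)
    (hX : ∀ i, ∃ M, (X i : Pol N K) ^ M ∈ lid a) {n : ℕ} (hn : c * (e - 1) + t ≤ n)
    {p : Pol N K} (hp : p.IsHomogeneous n) : p ∈ lid a := by
  have key : ∀ q i : ℕ, i + q = c → Ex a deg i (L i) (c * e + t - q) := fun q => by
    induction q with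
    | zero =>
      rintro i rfl
      simpa using h.ex ha he ht (h.sur ha he ht hte i) le_rfl hc
    | succ q ih =>
      intro i hi
      obtain ⟨M, hM⟩ := frob_mx_le_radical _ hX (reg_mem ⟨1, one_pos, h.lin i⟩)
      refine step_down ha (h.hg i) (h.lin i) (h.reg i (by omega)) hM ?_
      have := ih (i + 1) (by omega)
      rwa [h.succ, show (c * e + t - q : ℤ) = c * e + t - (q + 1 : ℕ) + 1 by
        push_cast; ring] at this
  obtain ⟨u, -, h2⟩ := key c 0 (zero_add c) n (by
    obtain ⟨e, rfl⟩ : ∃ e', e = e' + 1 := ⟨e - 1, by omega⟩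
    have : ((c * e + t : ℕ) : ℤ) ≤ n := by exact_mod_cast hn
    push_cast at this ⊢
    linarith) (fun _ => p) (fun f hf => by
      rw [List.length_eq_zero_iff.1 hf]
      simpa [wt] using hz_of hp) fun f hf => by omega
  have h3 := h2 [] rfl
  rw [h.zero, Ideal.mem_bot, Pi.sub_apply, DD_apply, dd_nil, sub_eq_zero] at h3
  rw [h3]
  exact Ideal.sum_mem _ fun i _ => Ideal.mul_mem_right _ _ (Ideal.subset_span ⟨i, rfl⟩)

end tower

theorem lin_mem {J : Ideal (Pol N K)} {s : Set (Fin N → K)} (h : ∀ v ∈ s, H48.lin v ∈ J)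
    {v : Fin N → K} (hv : v ∈ Submodule.span K s) : H48.lin v ∈ J := by
  induction hv using Submodule.span_induction with
  | mem v hv => exact h v hv
  | zero => simp [H48.lin]
  | add v w _ _ h1 h2 =>
    have : H48.lin (v + w) = H48.lin v + H48.lin w := by
      simp [H48.lin, add_mul, Finset.sum_add_distrib]
    exact this ▸ J.add_mem h1 h2
  | smul c v _ h1 =>
    have : H48.lin (c • v) = C c * H48.lin v := by simp [H48.lin, Finset.mul_sum, mul_assoc]
    exact this ▸ J.mul_mem_left _ h1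

theorem exists_flag {c : ℕ} {l : Fin c → Pol N K} (hl : ∀ j, (l j).IsHomogeneous 1) (hc : c ≤ N) :
    ∃ L y, Flag L y ∧ lid l ≤ L c := by
  choose v hv using fun j => H48.exists_lin (hl j)
  obtain ⟨b, hb⟩ := exists_basis (Submodule.span K (Set.range v))
    ((finrank_range_le_card v).trans (Fintype.card_fin c).le) hc
  let y : ℕ → Pol N K := fun j => if h : j < N then H48.lin (b ⟨j, h⟩) else 0
  have hy : ∀ j, (y j).IsHomogeneous 1 := fun j => by
    simp only [y]
    split_ifs
    · exact H48.lin_homog _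
    · exact isHomogeneous_zero _ _ _
  have hyb : ∀ i : Fin N, y i = H48.lin (b i) := fun i => dif_pos i.2
  have hX : ∀ i, (X i : Pol N K) ∈ Ideal.span (Set.range fun i => H48.lin (b i)) := fun i => by
    have h1 : (X i : Pol N K) = H48.lin (Pi.single i 1) := by
      simp [H48.lin, Pi.single_apply, apply_ite C]
    rw [h1]
    refine lin_mem (s := Set.range b) ?_ (by rw [b.span_eq]; trivial)
    rintro _ ⟨j, rfl⟩
    exact Ideal.subset_span ⟨j, rfl⟩
  have hreg := regAll_of_param (fun i => H48.lin (b i)) (fun i => ⟨1, one_pos, H48.lin_homog _⟩)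
    fun i => ⟨1, by simpa using hX i⟩
  refine ⟨fun j => Ideal.span (y '' Set.Iio j), y, ⟨fun j => hg_span ?_, hy, fun j => ?_,
    fun j hj p hp => ?_, fun n hn p hp => ?_, by simp⟩, ?_⟩
  · rintro _ ⟨i, -, rfl⟩
    exact ⟨1, hy i⟩
  · have : Set.Iio (j + 1) = insert j (Set.Iio j) := by
      ext i
      simp only [Set.mem_Iio, Set.mem_insert_iff]
      omega
    rw [this, Set.image_insert_eq, Ideal.span_insert, sup_comm]
  · have h1 : y '' Set.Iio j = (fun i => H48.lin (b i)) ''
        (Finset.univ.filter fun i : Fin N => i.val < j : Finset (Fin N)) := by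
      ext q
      constructor
      · rintro ⟨i, hi, rfl⟩
        exact ⟨⟨i, lt_trans hi hj⟩, by simpa using hi, (hyb ⟨i, lt_trans hi hj⟩).symm⟩
      · rintro ⟨i, hi, rfl⟩
        exact ⟨i, by simpa using hi, hyb i⟩
    rw [h1] at hp ⊢
    exact hreg _ ⟨j, hj⟩ (by simp) p (by rwa [show y j = _ from hyb ⟨j, hj⟩] at hp)
  · have h1 : mx N K ≤ Ideal.span (y '' Set.Iio N) := by
      refine Ideal.span_le.2 ?_
      rintro _ ⟨i, rfl⟩
      refine Ideal.span_mono ?_ (hX i)
      rintro _ ⟨j, rfl⟩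
      exact ⟨j, j.2, hyb j⟩
    exact h1 (reg_mem ⟨n.toNat, by omega, hp.1⟩)
  · refine Ideal.span_le.2 ?_
    rintro _ ⟨j, rfl⟩
    rw [hv j]
    refine lin_mem ?_ (hb (Submodule.subset_span ⟨j, rfl⟩))
    rintro _ ⟨i, hi, rfl⟩
    exact Ideal.subset_span ⟨i, hi, hyb i⟩

theorem exists_fam (I : Ideal (Pol N K)) (n : ℕ) : ∃ (r : ℕ) (a : Fin r → Pol N K),
    (∀ i, a i ∈ I ∧ (a i).IsHomogeneous n) ∧ ∀ p ∈ I, p.IsHomogeneous n → p ∈ lid a := by
  let V : Submodule K (Pol N K) := Sd N K n ⊓ I.restrictScalars K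
  have : Module.Finite K V := Submodule.finiteDimensional_of_le inf_le_left
  obtain ⟨r, s, hs⟩ := Module.Finite.exists_fin (R := K) (M := V)
  refine ⟨r, fun i => s i, fun i => ⟨(s i).2.2, (s i).2.1⟩, fun p hp hn => ?_⟩
  have h1 : (⟨p, hn, hp⟩ : V) ∈ Submodule.span K (Set.range s) := by
    rw [hs]
    trivial
  obtain ⟨c, hc⟩ := (Submodule.mem_span_range_iff_exists_fun K).1 h1
  have h2 := congrArg Subtype.val hc
  simp only [AddSubmonoidClass.coe_finsetSum, SetLike.val_smul] at h2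
  rw [← h2]
  exact Ideal.sum_mem _ fun i _ => Submodule.smul_of_tower_mem _ _ (Ideal.subset_span ⟨i, rfl⟩)

/-- If the forms of degree `t < e` lie in `I + (l)` then the forms of degree at least
`c * (e - 1) + t` lie in `I`. -/
theorem thmA {I : Ideal (Pol N K)} (hI : Hg I) {e c t n : ℕ} (hb : Bpf I e)
    {l : Fin c → Pol N K} (hl : ∀ j, (l j).IsHomogeneous 1) (hc : c ≤ N) (ht : t + 1 ≤ e)
    (h0 : hf (I ⊔ lid l) t = 0) (hn : c * (e - 1) + t ≤ n) : hf I n = 0 := by
  obtain ⟨L, y, hL, hle⟩ := exists_flag hl hc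
  obtain ⟨r, a, h1, h2⟩ := exists_fam I t
  obtain ⟨r', a', h1', h2'⟩ := exists_fam I e
  have h3 : lid a ≤ lid (Sum.elim a a') := Ideal.span_mono (by simp)
  have h4 : lid a' ≤ lid (Sum.elim a a') := Ideal.span_mono (by simp)
  have h5 : lid (Sum.elim a a') ≤ I := by
    refine Ideal.span_le.2 ?_
    rintro _ ⟨i | i, rfl⟩
    · exact (h1 i).1
    · exact (h1' i).1
  refine hf_eq_zero.2 fun p hp => h5 (hL.mem (deg := Sum.elim (fun _ => t) fun _ => e) (e := e)
    ?_ ?_ (fun g hg => ?_) ht hc (fun i => ?_) hn hp)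
  · rintro (i | i)
    · exact (h1 i).2
    · exact (h1' i).2
  · rintro (i | i)
    · exact (by omega : t ≤ e)
    · exact le_rfl
  · have hg' : g.IsHomogeneous t := by simpa using hg.1
    obtain ⟨u, hu, v, hv, h⟩ := Submodule.mem_sup.1 (hf_eq_zero.1 h0 g hg')
    have h6 := congrArg (homogeneousComponent t) h
    rw [homogeneousComponent_of_mem hg', if_pos rfl, map_add] at h6
    rw [← h6]
    exact Submodule.add_mem_sup (h3 (h2 _ (hI u hu t) (homogeneousComponent_isHomogeneous t u)))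
      (hL.hg c v (hle hv) t)
  · obtain ⟨M, hM⟩ := hb i
    exact ⟨M, h4 (Ideal.span_le.2 (fun p hp => h2' p hp.1 hp.2) hM)⟩

end Pool.Agent.Lib.MP_e9c0f3_ag.MC
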